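import Pool.Agent.MP_c853c5_nt.Z.Basic
import Pool.Agent.MP_2a1f0e_nt.DH.Basic

/-!
From a large values estimate to the zero density estimate.
-/

set_option autoImplicit false

open Finset

namespace Pool.Agent.MP_c853c5_nt.Z

open Pool.Agent.MP_2a1f0e_nt

/-- the large values estimate with exponent `e` in the last term -/
def LVe (e : ℝ) : Prop := ∀ ε : ℝ, 0 < ε → ∃ K : ℝ, ∀ (N : ℕ) (T V : ℝ), 1 ≤ N → (N : ℝ) ≤ T →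
  0 < V → ∀ b : ℕ → ℂ, (∀ n, ‖b n‖ ≤ 1) → ∀ W : Finset ℝ, (∀ t ∈ W, 0 ≤ t ∧ t ≤ T) →
    (∀ s ∈ W, ∀ t ∈ W, s ≠ t → 1 ≤ |s - t|) → (∀ t ∈ W, V ≤ ‖GM.DP N b t‖) →
    (W.card : ℝ) ≤ K * (N : ℝ) ^ ε * ((N : ℝ) ^ 2 / V ^ 2 + √T * (N : ℝ) ^ 3 / V ^ 4 +
      T * (N : ℝ) ^ e / V ^ 4)

/-- the mean value theorem -/
def MvStmt : Prop := ∃ C : ℝ, 0 < C ∧ ∀ (N T : ℕ) (V : ℝ) (b : ℕ → ℂ), 1 ≤ N → 0 < V →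
  (∀ n, ‖b n‖ ≤ 1) → (DH.cnt N b T V : ℝ) * V ^ 2 ≤ C * (((N : ℝ) + T) * N)

/-- the bound for one polynomial that is long enough -/
def RngP (A : ℝ) : Prop := ∀ ε : ℝ, 0 < ε → ∃ K : ℝ, 0 < K ∧
  ∀ (N T : ℕ) (σ lam V : ℝ) (b : ℕ → ℂ), 1 ≤ N → 1 ≤ T → (T : ℝ) ^ A ≤ (N : ℝ) ^ 3 →
    1 / 2 ≤ σ → σ ≤ 1 → 1 ≤ lam → 0 < V → (N : ℝ) ^ σ ≤ lam * V → (∀ n, ‖b n‖ ≤ 1) →
    (DH.cnt N b T V : ℝ) ≤ K * (N : ℝ) ^ ε * lam ^ 4 *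
      ((T : ℝ) ^ (A * (1 - σ)) + (N : ℝ) ^ (2 * (1 - σ)))

def RngStmt : Prop := ∀ e A : ℝ, A * (5 - e) = 6 → 9 / 4 ≤ A → LVe e → RngP A

/-- powers of a Dirichlet polynomial -/
def SplStmt : Prop := ∀ (N k T : ℕ) (Δ V : ℝ) (b : ℕ → ℂ), 1 ≤ N → 1 ≤ k →
  GM.DivB ((2 * N) ^ k) Δ → 0 < V → (∀ n, ‖b n‖ ≤ 1) →
  ∃ c : ℕ → ℕ → ℂ, (∀ i n, ‖c i n‖ ≤ 1) ∧
    DH.cnt N b T V ≤ ∑ i ∈ range k, DH.cnt (2 ^ i * N ^ k) (c i) T (V ^ k / (k * Δ ^ k))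

/-- the bound for all lengths that occur in zero detection -/
def LvP (A : ℝ) : Prop := ∀ η : ℝ, 0 < η → η ≤ 1 / 20 → ∃ a : ℕ, ∀ ε : ℝ, 0 < ε →
  ∃ K : ℝ, 0 < K ∧ ∀ (N T : ℕ) (σ lam V : ℝ) (b : ℕ → ℂ), 2 ≤ T → (T : ℝ) ^ η ≤ N →
    (N : ℝ) ≤ 6 * (T : ℝ) ^ (1 / 2 + η) → 1 / 2 ≤ σ → σ ≤ 1 → 1 ≤ lam → 0 < V →
    (N : ℝ) ^ σ ≤ lam * V → (∀ n, ‖b n‖ ≤ 1) →
    (DH.cnt N b (2 * T) V : ℝ) ≤ K * lam ^ a * (T : ℝ) ^ (A * (1 - σ) + ε)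

def LvStmt : Prop := ∀ A : ℝ, 9 / 4 ≤ A → RngP A → LvP A

def DyStmt : Prop := ∀ A : ℝ, 9 / 4 ≤ A → LvP A → DH.DyaP (11 / 20) fun σ => A * (1 - σ)

def ZdStmt : Prop := ∀ A : ℝ, 9 / 4 ≤ A → DH.DyaP (11 / 20) (fun σ => A * (1 - σ)) → ZD A

end Pool.Agent.MP_c853c5_nt.Z
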