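import Pool.Agent.MP_c853c5_nt.Z.YDefs

set_option autoImplicit false

open Finset

namespace Pool.Agent.MP_c853c5_nt.Z

open Pool.Agent.MP_2a1f0e_nt

theorem yDy (hD : DH.DetStmt) : DyStmt := by
  intro A hA hP ε hε
  obtain ⟨η, hη, hη1, hη2⟩ : ∃ η : ℝ, 0 < η ∧ η ≤ 1 / 20 ∧ η ≤ ε / 10 :=
    ⟨min (1 / 20) (ε / 10), by positivity, min_le_left _ _, min_le_right _ _⟩
  obtain ⟨a, ha⟩ := hP η hη hη1
  obtain ⟨e1, he1, he1a⟩ : ∃ e : ℝ, 0 < e ∧ e + e * a = ε / 10 :=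
    ⟨ε / (10 * (a + 1)), by positivity, by field_simp; ring⟩
  obtain ⟨C, hC, T₀, hT₀⟩ := hD η e1 hη hη1 he1
  obtain ⟨K, hK, hK'⟩ := ha (ε / 10) (by positivity)
  have hC0 : 0 < C := by linarith
  refine ⟨C * (K * C ^ a + 1), by positivity, max T₀ 2, fun T hT σ hσ hσ1 S ρ hS hB hz => ?_⟩
  have hT2 : 2 ≤ T := le_of_max_le_right hT
  have hx : (2 : ℝ) ≤ T := by exact_mod_cast hT2
  have hx1 : (1 : ℝ) ≤ T := by linarith
  have hx0 : (0 : ℝ) < T := by linarith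
  have hea : 0 ≤ e1 * a := by positivity
  have key := hT₀ T (le_of_max_le_left hT) σ
    (K * C ^ a * (T : ℝ) ^ (e1 * a + (A * (1 - σ) + ε / 10))) hσ
    (fun N h1 h2 b hb => by
      have hN0 : (0 : ℝ) < N := (Real.rpow_pos_of_pos hx0 η).trans_le h1
      have hlam : 1 ≤ C * (T : ℝ) ^ e1 :=
        one_le_mul_of_one_le_of_one_le hC (Real.one_le_rpow hx1 he1.le)
      refine (hK' N T σ (C * (T : ℝ) ^ e1) ((N : ℝ) ^ σ / (C * (T : ℝ) ^ e1)) b hT2 h1 h2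
        (by linarith) hσ1 hlam (by positivity)
        (by rw [mul_div_cancel₀ _ (by positivity)]) hb).trans (le_of_eq ?_)
      rw [mul_pow, ← Real.rpow_natCast ((T : ℝ) ^ e1), ← Real.rpow_mul hx0.le,
        Real.rpow_add hx0 (e1 * a)]
      ring)
    S ρ hS hB hz
  refine key.trans ?_
  have f1 : (T : ℝ) ^ e1 * (T : ℝ) ^ (e1 * a + (A * (1 - σ) + ε / 10)) ≤
      (T : ℝ) ^ (A * (1 - σ) + ε) := by
    rw [← Real.rpow_add hx0]
    exact Real.rpow_le_rpow_of_exponent_le hx1 (by linarith)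
  have f2 : (T : ℝ) ^ e1 * (T : ℝ) ^ (2 - 2 * σ + 4 * η) ≤ (T : ℝ) ^ (A * (1 - σ) + ε) := by
    rw [← Real.rpow_add hx0]
    have : 0 ≤ (A - 2) * (1 - σ) := mul_nonneg (by linarith) (by linarith)
    exact Real.rpow_le_rpow_of_exponent_le hx1 (by linarith)
  calc C * (T : ℝ) ^ e1 * (K * C ^ a * (T : ℝ) ^ (e1 * a + (A * (1 - σ) + ε / 10)) +
        (T : ℝ) ^ (2 - 2 * σ + 4 * η))
      = C * (K * C ^ a * ((T : ℝ) ^ e1 * (T : ℝ) ^ (e1 * a + (A * (1 - σ) + ε / 10))) +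
          (T : ℝ) ^ e1 * (T : ℝ) ^ (2 - 2 * σ + 4 * η)) := by ring
    _ ≤ C * (K * C ^ a * (T : ℝ) ^ (A * (1 - σ) + ε) + (T : ℝ) ^ (A * (1 - σ) + ε)) := by gcongr
    _ = _ := by ring

end Pool.Agent.MP_c853c5_nt.Z
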