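import Pool.Agent.MP_c853c5_nt.Z.Basic

set_option autoImplicit false

open Finset MeasureTheory Real
open ArithmeticFunction (vonMangoldt)

namespace Pool.Agent.MP_c853c5_nt.Z

/-- the wide Gaussian -/
noncomputable def hh_Sand (Δ z : ℝ) : ℝ := exp (-(π * z ^ 2 / (2 * Δ ^ 2)))

/-- the summable majorant -/
noncomputable def ww_Sand (n : ℕ) : ℝ := vonMangoldt n * exp (-(2 * log n))

variable {Δ : ℝ}

lemma gg_eq_Sand (Δ z : ℝ) : gg Δ z = Δ⁻¹ * (hh_Sand Δ z * hh_Sand Δ z) := by
  rw [gg, hh_Sand, ← exp_add]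
  congr 2
  ring

lemma gg_nonneg_Sand (h : 0 < Δ) (z : ℝ) : 0 ≤ gg Δ z := by unfold gg; positivity

lemma gg_le_Sand (h : 0 < Δ) {d z : ℝ} (hd : 0 ≤ d) (hz : d ≤ |z|) :
    gg Δ z ≤ Δ⁻¹ * (hh_Sand Δ d * hh_Sand Δ z) := by
  rw [gg_eq_Sand]
  refine mul_le_mul_of_nonneg_left (mul_le_mul_of_nonneg_right (exp_le_exp.2 (neg_le_neg ?_))
    (exp_nonneg _)) (by positivity)
  have : d ^ 2 ≤ z ^ 2 := sq_le_sq.2 (by rwa [abs_of_nonneg hd])
  gcongr

lemma hh_le_Sand (h : 0 < Δ) (h1 : Δ ≤ 1) (z : ℝ) : hh_Sand Δ z ≤ exp (2 * z + 1) := by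
  refine exp_le_exp.2 ?_
  have h2 : 3 * z ^ 2 / (2 * 1 ^ 2) ≤ π * z ^ 2 / (2 * Δ ^ 2) := by
    gcongr
    exact pi_gt_three.le
  nlinarith [sq_nonneg (3 * z + 2)]

lemma ww_summable_Sand : Summable ww_Sand := by
  refine Summable.of_nonneg_of_le (fun n => mul_nonneg ArithmeticFunction.vonMangoldt_nonneg
    (exp_nonneg _)) (fun n => ?_) ((summable_nat_rpow.2 (by norm_num : -3 / 2 < (-1 : ℝ))).mul_left 2)
  rcases n.eq_zero_or_pos with rfl | hn
  · simp [ww_Sand]
  have h0 : (0 : ℝ) < n := by exact_mod_cast hn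
  have h1 := ArithmeticFunction.vonMangoldt_le_log.trans
    (log_le_rpow_div h0.le (by norm_num : (0 : ℝ) < 1 / 2))
  refine (mul_le_mul_of_nonneg_right h1 (exp_nonneg _)).trans (le_of_eq ?_)
  rw [rpow_def_of_pos h0, rpow_def_of_pos h0, div_mul_eq_mul_div, ← exp_add,
    show log n * (1 / 2) + -(2 * log n) = log n * (-3 / 2) by ring]
  ring

lemma term_le_Sand (h : 0 < Δ) (h1 : Δ ≤ 1) {d v : ℝ} {n : ℕ} (hd : 0 ≤ d)
    (hz : d ≤ |v - log n|) : vonMangoldt n * gg Δ (v - log n) ≤
      Δ⁻¹ * hh_Sand Δ d * exp (2 * v + 1) * ww_Sand n := by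
  have h2 := (gg_le_Sand h hd hz).trans (mul_le_mul_of_nonneg_left
    (mul_le_mul_of_nonneg_left (hh_le_Sand h h1 _) (exp_nonneg _)) (by positivity))
  refine (mul_le_mul_of_nonneg_left h2 ArithmeticFunction.vonMangoldt_nonneg).trans (le_of_eq ?_)
  rw [show 2 * (v - log n) + 1 = 2 * v + 1 + -(2 * log n) by ring, exp_add, ww_Sand, hh_Sand]
  ring

lemma summable_Sand (h : 0 < Δ) (h1 : Δ ≤ 1) (v : ℝ) :
    Summable fun n : ℕ => vonMangoldt n * gg Δ (v - log n) :=
  Summable.of_nonneg_of_le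
    (fun _ => mul_nonneg ArithmeticFunction.vonMangoldt_nonneg (gg_nonneg_Sand h _))
    (fun _ => term_le_Sand h h1 le_rfl (abs_nonneg _)) (ww_summable_Sand.mul_left _)

lemma PP_le_Sand (h : 0 < Δ) (h1 : Δ ≤ 1) {d v : ℝ} (hd : 0 ≤ d) (S : Finset ℕ)
    (hS : ∀ n ∉ S, d ≤ |v - log n|) : PP Δ v ≤ ∑ n ∈ S, vonMangoldt n * gg Δ (v - log n) +
      Δ⁻¹ * hh_Sand Δ d * exp (2 * v + 1) * ∑' n, ww_Sand n := by
  have h2 : HasSum (fun n : ℕ => if n ∈ S then vonMangoldt n * gg Δ (v - log n) else 0)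
      (∑ n ∈ S, vonMangoldt n * gg Δ (v - log n)) := by
    rw [← sum_congr rfl fun n (hn : n ∈ S) => if_pos (e := (0 : ℝ)) hn]
    exact hasSum_sum_of_ne_finset_zero fun n hn => if_neg hn
  refine hasSum_le (fun n => ?_) (summable_Sand h h1 v).hasSum
    (h2.add (ww_summable_Sand.hasSum.mul_left _))
  split_ifs with hn
  · exact le_add_of_nonneg_right (mul_nonneg (by unfold hh_Sand; positivity)
      (mul_nonneg ArithmeticFunction.vonMangoldt_nonneg (exp_nonneg _)))
  · rw [zero_add]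
    exact term_le_Sand h h1 hd (hS n hn)

lemma gg_int_Sand (h : 0 < Δ) : Integrable (gg Δ) ∧ ∫ z, gg Δ z = 1 := by
  have e : gg Δ = fun z => Δ⁻¹ * exp (-(π / Δ ^ 2) * z ^ 2) := funext fun z => by
    rw [gg]
    congr 2
    ring
  rw [e]
  refine ⟨(integrable_exp_neg_mul_sq (by positivity)).const_mul _, ?_⟩
  rw [integral_const_mul, integral_gaussian, div_div_cancel₀ pi_ne_zero, sqrt_sq h.le,
    inv_mul_cancel₀ h.ne']

lemma hh_int_Sand (h : 0 < Δ) : Integrable (hh_Sand Δ) ∧ ∫ z, hh_Sand Δ z ≤ 2 * Δ := by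
  have e : hh_Sand Δ = fun z => exp (-(π / (2 * Δ ^ 2)) * z ^ 2) := funext fun z => by
    rw [hh_Sand]
    congr 1
    ring
  rw [e]
  refine ⟨integrable_exp_neg_mul_sq (by positivity), ?_⟩
  rw [integral_gaussian, div_div_cancel₀ pi_ne_zero]
  exact sqrt_le_iff.2 ⟨by positivity, by nlinarith⟩

lemma int_le_Sand (h : 0 < Δ) {a b : ℝ} (hab : a ≤ b) (c : ℝ) :
    ∫ v in a..b, gg Δ (v - c) ≤ 1 := by
  rw [intervalIntegral.integral_comp_sub_right, intervalIntegral.integral_of_le (by linarith),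
    ← (gg_int_Sand h).2]
  exact setIntegral_le_integral (gg_int_Sand h).1 (ae_of_all _ (gg_nonneg_Sand h))

lemma le_int_Sand (h : 0 < Δ) {a b c d : ℝ} (hd : 0 ≤ d) (ha : a + d ≤ c) (hb : c + d ≤ b) :
    1 - 2 * hh_Sand Δ d ≤ ∫ v in a..b, gg Δ (v - c) := by
  rw [intervalIntegral.integral_comp_sub_right, intervalIntegral.integral_of_le (by linarith),
    ← integral_indicator measurableSet_Ioc]
  have i1 := (gg_int_Sand h).1.indicator (measurableSet_Ioc (a := a - c) (b := b - c))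
  have i2 := ((hh_int_Sand h).1.const_mul (hh_Sand Δ d)).const_mul Δ⁻¹
  have h1 := integral_mono (gg_int_Sand h).1 (i1.add i2) fun z => by
    by_cases hz : z ∈ Set.Ioc (a - c) (b - c)
    · rw [Pi.add_apply, Set.indicator_of_mem hz]
      exact le_add_of_nonneg_right (by unfold hh_Sand; positivity)
    · rw [Pi.add_apply, Set.indicator_of_notMem hz, zero_add]
      refine gg_le_Sand h hd (le_abs.2 ?_)
      rw [Set.mem_Ioc, not_and_or, not_lt, not_le] at hz
      exact hz.elim (fun hz => Or.inr (by linarith)) fun hz => Or.inl (by linarith)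
  rw [(gg_int_Sand h).2, integral_add' i1 i2, integral_const_mul, integral_const_mul] at h1
  have h2 : Δ⁻¹ * (hh_Sand Δ d * ∫ z, hh_Sand Δ z) ≤ Δ⁻¹ * (hh_Sand Δ d * (2 * Δ)) :=
    mul_le_mul_of_nonneg_left (mul_le_mul_of_nonneg_left (hh_int_Sand h).2 (exp_nonneg _))
      (by positivity)
  have h3 : Δ⁻¹ * (hh_Sand Δ d * (2 * Δ)) = 2 * hh_Sand Δ d := by field_simp
  linarith

lemma cont_Sand (Δ c k : ℝ) : Continuous fun v => k * gg Δ (v - c) := by
  unfold gg
  fun_prop

lemma int_sum_Sand (Δ a b : ℝ) (S : Finset ℕ) :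
    ∫ v in a..b, ∑ n ∈ S, vonMangoldt n * gg Δ (v - log n) =
      ∑ n ∈ S, vonMangoldt n * ∫ v in a..b, gg Δ (v - log n) := by
  rw [intervalIntegral.integral_finsetSum fun n _ => (cont_Sand Δ _ _).intervalIntegrable a b]
  simp only [intervalIntegral.integral_const_mul]

theorem sand : SandStmt := by
  obtain ⟨C, hC⟩ : ∃ C, C = ∑' n, ww_Sand n := ⟨_, rfl⟩
  have hC0 : 0 ≤ C := hC ▸ tsum_nonneg fun n =>
    mul_nonneg ArithmeticFunction.vonMangoldt_nonneg (exp_nonneg _)
  refine ⟨4 * exp 1 * C + 1, by positivity, fun x y Δ d E hx hy hyx h h1 hd hd' hE hE' hP => ?_⟩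
  change (1 - 2 * hh_Sand Δ d) * _ ≤ _ ∧ _ - _ * hh_Sand Δ d * _ / _ ≤ _
  have hx0 : 0 < x := by linarith
  have hψ : Chebyshev.psi (x + y) - Chebyshev.psi x =
      ∑ n ∈ Ioc ⌊x⌋₊ ⌊x + y⌋₊, vonMangoldt n := by
    rw [Chebyshev.psi, Chebyshev.psi, sub_eq_iff_eq_add',
      sum_Ioc_consecutive _ (Nat.zero_le _) (Nat.floor_mono (by linarith))]
  have l1 : log x ≤ log (x + y) := log_le_log hx0 (by linarith)
  have l2 : log (x + y) ≤ log x + 1 := by
    have a1 : log (x + y) ≤ log (2 * x) := log_le_log (by linarith) (by linarith)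
    rw [log_mul two_ne_zero hx0.ne'] at a1
    linarith [log_two_lt_d9]
  have e1 : exp d ≤ 1 + 2 * d := by
    refine (exp_bound_div_one_sub_of_interval hd.le (by linarith)).trans ?_
    rw [div_le_iff₀ (by linarith)]
    nlinarith
  have e2 : 1 - d ≤ exp (-d) := by linarith [add_one_le_exp (-d)]
  have c1 : Continuous fun v => ∑ n ∈ Ioc ⌊x⌋₊ ⌊x + y⌋₊, vonMangoldt n * gg Δ (v - log n) :=
    continuous_finsetSum _ fun n _ => cont_Sand Δ _ _
  rw [hψ]
  constructor
  · have a1 := intervalIntegral.integral_mono_on (μ := volume) (a := log x + -d)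
      (b := log (x + y) + d) (by linarith) (c1.intervalIntegrable _ _)
      ((continuous_const.mul continuous_exp).intervalIntegrable _ _)
      (g := fun v => (1 + E) * exp v) fun v hv => by
        have b1 := (abs_le.1 (hP v ⟨by linarith [hv.1], by linarith [hv.2]⟩)).2
        have b2 := (summable_Sand h h1 v).sum_le_tsum (Ioc ⌊x⌋₊ ⌊x + y⌋₊) fun n _ =>
          mul_nonneg ArithmeticFunction.vonMangoldt_nonneg (gg_nonneg_Sand h _)
        rw [PP] at b1
        linarith
    rw [int_sum_Sand, intervalIntegral.integral_const_mul, integral_exp, exp_add, exp_add,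
      exp_log hx0, exp_log (by linarith)] at a1
    rw [mul_comm, sum_mul]
    refine le_trans (sum_le_sum fun n hn => mul_le_mul_of_nonneg_left ?_
      ArithmeticFunction.vonMangoldt_nonneg) (a1.trans (mul_le_mul_of_nonneg_left ?_ (by linarith)))
    · rw [mem_Ioc, Nat.floor_lt hx0.le, Nat.le_floor_iff (by linarith)] at hn
      have b1 := log_le_log hx0 hn.1.le
      have b2 := log_le_log (hx0.trans hn.1) hn.2
      exact le_int_Sand h hd.le (by linarith) (by linarith)
    · nlinarith [mul_le_mul_of_nonneg_left e1 (show 0 ≤ x + y by linarith),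
        mul_le_mul_of_nonneg_left e2 hx0.le, mul_le_mul_of_nonneg_left hyx hd.le,
        mul_pos hx0 hd]
  · have b0 : y - 6 * x * d ≤ exp (log (x + y) + -d) - exp (log x + d) := by
      rw [exp_add, exp_add, exp_log hx0, exp_log (by linarith)]
      nlinarith [mul_le_mul_of_nonneg_left e2 (show 0 ≤ x + y by linarith),
        mul_le_mul_of_nonneg_left e1 hx0.le, mul_le_mul_of_nonneg_left hyx hd.le,
        mul_pos hx0 hd]
    have b1 := mul_le_mul_of_nonneg_left b0 (sub_nonneg.2 hE')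
    have hq : 0 < hh_Sand Δ d := exp_pos _
    obtain ⟨K, hK⟩ : ∃ K, K = Δ⁻¹ * hh_Sand Δ d * (4 * x ^ 2 * exp 1) * C := ⟨_, rfl⟩
    have hK0 : 0 ≤ K := by rw [hK]; positivity
    have hK1 : K ≤ (4 * exp 1 * C + 1) * hh_Sand Δ d * x ^ 3 / Δ := by
      have a1 : 4 * exp 1 * C * x ^ 2 ≤ (4 * exp 1 * C + 1) * x ^ 3 :=
        mul_le_mul (by linarith) (pow_le_pow_right₀ hx (by norm_num)) (by positivity)
          (by positivity)
      have a2 := mul_le_mul_of_nonneg_left a1 (show 0 ≤ Δ⁻¹ * hh_Sand Δ d by positivity)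
      rw [hK, div_eq_mul_inv]
      linarith
    rcases le_total (log x + d) (log (x + y) + -d) with hab | hab
    · have a1 := intervalIntegral.integral_mono_on (μ := volume) hab
        ((continuous_const.mul continuous_exp).intervalIntegrable _ _)
        ((c1.add continuous_const).intervalIntegrable _ _) (f := fun v => (1 - E) * exp v)
        (g := fun v => ∑ n ∈ Ioc ⌊x⌋₊ ⌊x + y⌋₊, vonMangoldt n * gg Δ (v - log n) + K)
        fun v hv => by
          have b2 := (abs_le.1 (hP v ⟨by linarith [hv.1], by linarith [hv.2]⟩)).1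
          have b3 := PP_le_Sand h h1 hd.le (Ioc ⌊x⌋₊ ⌊x + y⌋₊) (v := v) fun n hn => by
            rw [mem_Ioc, not_and_or, not_lt, not_le, Nat.le_floor_iff hx0.le,
              Nat.floor_lt (by linarith)] at hn
            refine le_abs.2 (hn.imp (fun hn => ?_) fun hn => ?_)
            · have : log n ≤ log x := by
                rcases n.eq_zero_or_pos with rfl | h0
                · simpa using log_nonneg hx
                · exact log_le_log (by exact_mod_cast h0) hn
              linarith [hv.1]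
            · linarith [hv.2, log_le_log (by linarith) hn.le]
          have b4 : exp (2 * v + 1) ≤ 4 * x ^ 2 * exp 1 := by
            have b5 : exp v ≤ 2 * x := by
              refine (exp_le_exp.2 (show v ≤ log (x + y) by linarith [hv.2])).trans ?_
              rw [exp_log (by linarith)]
              linarith
            rw [exp_add, two_mul, exp_add]
            refine mul_le_mul_of_nonneg_right ?_ (exp_nonneg _)
            nlinarith [exp_pos v]
          have b6 : Δ⁻¹ * hh_Sand Δ d * exp (2 * v + 1) * C ≤ K := by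
            rw [hK]
            gcongr
          rw [← hC] at b3
          linarith
      rw [intervalIntegral.integral_add (c1.intervalIntegrable _ _) intervalIntegrable_const,
        int_sum_Sand, intervalIntegral.integral_const_mul, integral_exp,
        intervalIntegral.integral_const, smul_eq_mul] at a1
      have a2 := sum_le_sum fun n (_ : n ∈ Ioc ⌊x⌋₊ ⌊x + y⌋₊) => mul_le_of_le_one_right
        (ArithmeticFunction.vonMangoldt_nonneg (n := n)) (int_le_Sand h hab (log n))
      have a3 := mul_le_of_le_one_left hK0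
        (show log (x + y) + -d - (log x + d) ≤ 1 by linarith)
      linarith
    · have a1 := mul_nonneg (sub_nonneg.2 hE') (sub_nonneg.2 (exp_le_exp.2 hab))
      have a2 : 0 ≤ ∑ n ∈ Ioc ⌊x⌋₊ ⌊x + y⌋₊, vonMangoldt n :=
        sum_nonneg fun n _ => ArithmeticFunction.vonMangoldt_nonneg
      linarith

end Pool.Agent.MP_c853c5_nt.Z
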