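import Pool.Agent.MP_c853c5_nt.Z.PDefs

/-!
The fundamental lemma of the sieve, in terms of weights.
-/

set_option autoImplicit false

open Finset

namespace Pool.Agent.MP_c853c5_nt.Z

/-- `1` if no prime `p ≤ z` divides `n`, else `0` -/
noncomputable def rgh (z n : ℕ) : ℝ := by
  classical
  exact if ∀ p : ℕ, p.Prime → p ∣ n → z < p then 1 else 0

def FlStmt : Prop := ∀ i z : ℕ, 13 ≤ i → 2 ≤ z → ∃ up gap : ℕ → ℝ,
  (∀ d, |up d| ≤ 1 ∧ |gap d| ≤ 1) ∧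
  (∀ d, up d ≠ 0 ∨ gap d ≠ 0 → Squarefree d ∧ d ≤ z ^ (4 * i + 6) ∧
    ∀ p : ℕ, p.Prime → p ∣ d → p ≤ z) ∧
  (∀ n : ℕ, 1 ≤ n → rgh z n ≤ ∑ d ∈ n.divisors, up d ∧
    ∑ d ∈ n.divisors, up d ≤ rgh z n + ∑ d ∈ n.divisors, gap d) ∧
  ∑ d ∈ Icc 1 (z ^ (4 * i + 6)), gap d / d ≤ 2 ^ 25 / 4 ^ i / Real.log z ∧
  ∑ d ∈ Icc 1 (z ^ (4 * i + 6)), up d / d ≤ 2 / Real.log z

/-- the primes in `(s, t]` -/
def pb (s t : ℕ) : Finset ℕ := (Ioc s t).filter Nat.Prime

lemma mem_pb {s t l : ℕ} : l ∈ pb s t ↔ (s < l ∧ l ≤ t) ∧ l.Prime := by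
  simp [pb]

lemma fl_dvd_fact (p k : ℕ) (hp : 0 < p) : p ^ k ∣ (p * k).factorial := by
  induction k with
  | zero => simp
  | succ k ih =>
    rw [pow_succ, mul_add, mul_one]
    exact (mul_dvd_mul ih (Nat.dvd_factorial hp le_rfl)).trans
      (Nat.factorial_mul_factorial_dvd_factorial_add _ _)

lemma fl_sum_inv (t : ℕ) (ht : 2 ≤ t) : ∑ l ∈ pb (Nat.sqrt t) t, (l : ℝ)⁻¹ ≤ 4 := by
  set s := Nat.sqrt t with hs
  have hs1 : 1 ≤ s := by rw [hs, Nat.le_sqrt]; omega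
  have h1 : ∏ l ∈ pb s t, l ^ (t / l) ∣ t.factorial := by
    refine Finset.prod_dvd_of_isRelPrime ?_ fun l hl => ?_
    · intro a ha b hb hab
      exact Nat.coprime_iff_isRelPrime.1
        (Nat.coprime_pow_primes (t / a) (t / b) (mem_pb.1 ha).2 (mem_pb.1 hb).2 hab)
    · exact (fl_dvd_fact l _ (mem_pb.1 hl).2.pos).trans
        (Nat.factorial_dvd_factorial (Nat.mul_div_le t l))
  have h2 : (s + 1) ^ (∑ l ∈ pb s t, t / l) ≤ ∏ l ∈ pb s t, l ^ (t / l) := by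
    rw [← Finset.prod_pow_eq_pow_sum]
    exact Finset.prod_le_prod' fun l hl => Nat.pow_le_pow_left (mem_pb.1 hl).1.1 _
  have h3 : t.factorial ≤ (s + 1) ^ (2 * t) := by
    rw [pow_mul]
    exact (Nat.factorial_le_pow t).trans (Nat.pow_le_pow_left (Nat.lt_succ_sqrt' t).le _)
  have h4 : ∑ l ∈ pb s t, t / l ≤ 2 * t :=
    (Nat.pow_le_pow_iff_right (by omega)).1
      (h2.trans ((Nat.le_of_dvd (Nat.factorial_pos t) h1).trans h3))
  have h5 : ∑ l ∈ pb s t, ((t / l : ℕ) : ℝ) ≤ 2 * t := by exact_mod_cast h4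
  have ht' : (0 : ℝ) < t := by exact_mod_cast (by omega : 0 < t)
  have h6 : ∑ l ∈ pb s t, (t : ℝ) / 2 * (l : ℝ)⁻¹ ≤ ∑ l ∈ pb s t, ((t / l : ℕ) : ℝ) := by
    refine Finset.sum_le_sum fun l hl => ?_
    obtain ⟨⟨-, hlt⟩, hp⟩ := mem_pb.1 hl
    have hl0 : (0 : ℝ) < l := by exact_mod_cast hp.pos
    have a1 : t < l * (t / l + 1) := Nat.lt_mul_div_succ t hp.pos
    have a2 : 1 ≤ t / l := (Nat.le_div_iff_mul_le hp.pos).2 (by omega)
    have a3 : t ≤ l * (2 * (t / l)) := a1.le.trans (Nat.mul_le_mul_left _ (by omega))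
    have a4 : (t : ℝ) ≤ l * (2 * ((t / l : ℕ) : ℝ)) := by exact_mod_cast a3
    rw [← div_eq_mul_inv, div_le_iff₀ hl0]
    linarith
  rw [← Finset.mul_sum] at h6
  have h7 : (t : ℝ) / 2 * ∑ l ∈ pb s t, (l : ℝ)⁻¹ ≤ (t : ℝ) / 2 * 4 := by linarith
  exact le_of_mul_le_mul_left h7 (by positivity)

lemma fl_exp_eight : Real.exp 8 ≤ 4096 := by
  have h1 : Real.exp 8 = Real.exp 1 ^ 8 := by rw [← Real.exp_nat_mul]; norm_num
  have h2 : Real.exp 1 ≤ 2.72 := Real.exp_one_lt_d9.le.trans (by norm_num)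
  rw [h1]
  exact (pow_le_pow_left₀ (Real.exp_pos 1).le h2 8).trans (by norm_num)

/-- A symmetric multilinear form on the block B. -/
noncomputable def flS (B : Finset ℕ) (c : ℕ → ℝ) (t : ℕ → ℝ) : ℝ := ∑ T ∈ B.powerset, c T.card * ∏ p ∈ T, t p

/-- Coefficients of truncated inclusion-exclusion. -/
noncomputable def flY (n k : ℕ) : ℝ := if k ≤ n then (-1) ^ k else 0

/-- Coefficients of an elementary symmetric function. -/
noncomputable def flE (n k : ℕ) : ℝ := if k = n then 1 else 0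

lemma fl_insert {B : Finset ℕ} {a : ℕ} (ha : a ∉ B) (c : ℕ → ℝ) (t : ℕ → ℝ) :
    flS (insert a B) c t = flS B c t + t a * flS B (fun k => c (k + 1)) t := by
  rw [flS, sum_powerset_insert ha, flS, flS, mul_sum]
  congr 1
  refine sum_congr rfl fun T hT => ?_
  have : a ∉ T := fun h => ha (mem_powerset.1 hT h)
  rw [card_insert_of_notMem this, prod_insert this]; ring

lemma fl_neg (B : Finset ℕ) (c : ℕ → ℝ) (t : ℕ → ℝ) : flS B (fun k => -c k) t = -flS B c t := by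
  simp [flS]

lemma fl_sub (B : Finset ℕ) (c d : ℕ → ℝ) (t : ℕ → ℝ) :
    flS B (fun k => c k - d k) t = flS B c t - flS B d t := by
  simp [flS, sub_mul]

lemma fl_zero (B : Finset ℕ) (t : ℕ → ℝ) : flS B (flY 0) t = 1 := by
  rw [flS, sum_eq_single ∅]
  · simp [flY]
  · intro T _ hT
    have : ¬ T.card ≤ 0 := by simpa using hT
    rw [flY, if_neg this, zero_mul]
  · simp

/-- The Bonferroni inequalities. -/
lemma fl_bonf {t : ℕ → ℝ} (ht : ∀ p, 0 ≤ t p ∧ t p ≤ 1) (B : Finset ℕ) :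
    ∀ n : ℕ, 0 ≤ (-1) ^ n * (flS B (flY n) t - ∏ p ∈ B, (1 - t p)) := by
  have h0 : ∀ B : Finset ℕ, 0 ≤ (-1) ^ 0 * (flS B (flY 0) t - ∏ p ∈ B, (1 - t p)) := fun B => by
    rw [fl_zero, pow_zero, one_mul, sub_nonneg]
    exact prod_le_one (fun p _ => sub_nonneg.2 (ht p).2) fun p _ => by linarith [(ht p).1]
  induction B using Finset.induction_on with
  | empty => intro n; simp [flS, flY]
  | insert a B ha ih =>
    intro n
    cases n with
    | zero => exact h0 _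
    | succ n =>
      have e : (fun k => flY (n + 1) (k + 1)) = fun k => -flY n k := by
        funext k
        simp only [flY, add_le_add_iff_right, pow_succ]
        split_ifs <;> simp
      rw [fl_insert ha, e, fl_neg, prod_insert ha]
      have h1 := ih (n + 1)
      have h2 := mul_nonneg (ht a).1 (ih n)
      rw [pow_succ] at h1 ⊢
      nlinarith

lemma fl_lower {t : ℕ → ℝ} (ht : ∀ p, 0 ≤ t p ∧ t p ≤ 1) (B : Finset ℕ) (n : ℕ) :
    ∏ p ∈ B, (1 - t p) ≤ flS B (flY (2 * n)) t := by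
  have := fl_bonf ht B (2 * n)
  rwa [pow_mul, neg_one_sq, one_pow, one_mul, sub_nonneg] at this

lemma fl_upper {t : ℕ → ℝ} (ht : ∀ p, 0 ≤ t p ∧ t p ≤ 1) (B : Finset ℕ) (n : ℕ) :
    flS B (flY (2 * n)) t ≤ ∏ p ∈ B, (1 - t p) + flS B (flE (2 * n + 1)) t := by
  have := fl_bonf ht B (2 * n + 1)
  have e : flY (2 * n + 1) = fun k => flY (2 * n) k - flE (2 * n + 1) k := by
    funext k
    simp only [flY, flE]
    by_cases h : k = 2 * n + 1
    · subst h; simp [pow_succ, pow_mul]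
    · by_cases h' : k ≤ 2 * n
      · rw [if_pos h', if_pos (by omega), if_neg h, sub_zero]
      · rw [if_neg h', if_neg (by omega), if_neg h, sub_zero]
  rw [e, fl_sub, pow_succ, pow_mul, neg_one_sq, one_pow] at this
  linarith

lemma fl_E_nonneg {t : ℕ → ℝ} (ht : ∀ p, 0 ≤ t p) (B : Finset ℕ) (n : ℕ) :
    0 ≤ flS B (flE n) t :=
  sum_nonneg fun T _ => mul_nonneg (by unfold flE; split_ifs <;> norm_num)
    (prod_nonneg fun p _ => ht p)

lemma fl_E_le {t : ℕ → ℝ} (ht : ∀ p, 0 ≤ t p) (B : Finset ℕ) (n : ℕ) :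
    2 ^ n * flS B (flE n) t ≤ Real.exp (2 * ∑ p ∈ B, t p) := by
  calc 2 ^ n * flS B (flE n) t ≤ ∑ T ∈ B.powerset, ∏ p ∈ T, 2 * t p := by
        rw [flS, mul_sum]
        refine sum_le_sum fun T _ => ?_
        rw [prod_mul_distrib, prod_const, flE]
        split_ifs with h
        · rw [h, one_mul]
        · rw [zero_mul, mul_zero]
          exact mul_nonneg (by positivity) (prod_nonneg fun p _ => ht p)
    _ = ∏ p ∈ B, (1 + 2 * t p) := (prod_one_add B).symm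
    _ ≤ ∏ p ∈ B, Real.exp (2 * t p) :=
        prod_le_prod (fun p _ => by linarith [ht p]) fun p _ => by
          linarith [Real.add_one_le_exp (2 * t p)]
    _ = _ := by rw [← Real.exp_sum, mul_sum]

lemma fl_X_ge {t : ℕ → ℝ} (ht : ∀ p, 0 ≤ t p ∧ t p ≤ 1 / 2) (B : Finset ℕ) :
    Real.exp (-(2 * ∑ p ∈ B, t p)) ≤ ∏ p ∈ B, (1 - t p) := by
  rw [mul_sum, ← sum_neg_distrib, Real.exp_sum]
  refine prod_le_prod (fun p _ => (Real.exp_pos _).le) fun p _ => ?_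
  have h1 := Real.add_one_le_exp (2 * t p)
  have h2 := (ht p).1
  have h3 := (ht p).2
  rw [Real.exp_neg, inv_le_iff_one_le_mul₀ (Real.exp_pos _)]
  nlinarith [mul_le_mul_of_nonneg_left h1 (show 0 ≤ 1 - t p by linarith)]

/-- A multilinear form. -/
noncomputable def flF (U : Finset ℕ) (C : Finset ℕ → ℝ) (t : ℕ → ℝ) : ℝ :=
  ∑ T ∈ U.powerset, C T * ∏ p ∈ T, t p

lemma fl_mul {P Q : Finset ℕ} (hd : Disjoint P Q) (C : Finset ℕ → ℝ) (c : ℕ → ℝ) (t : ℕ → ℝ) :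
    flF (P ∪ Q) (fun T => C (T ∩ P) * c (T ∩ Q).card) t = flF P C t * flS Q c t := by
  rw [flF, flF, flS, sum_mul_sum, ← sum_product']
  symm
  have k1 : ∀ A B : Finset ℕ, A ⊆ P → B ⊆ Q → (A ∪ B) ∩ P = A := fun A B h1 h2 => by
    rw [union_inter_distrib_right, inter_eq_left.2 h1,
      disjoint_iff_inter_eq_empty.1 (hd.symm.mono_left h2), union_empty]
  have k2 : ∀ A B : Finset ℕ, A ⊆ P → B ⊆ Q → (A ∪ B) ∩ Q = B := fun A B h1 h2 => by
    rw [union_inter_distrib_right, inter_eq_left.2 h2,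
      disjoint_iff_inter_eq_empty.1 (hd.mono_left h1), empty_union]
  refine sum_nbij' (fun q => q.1 ∪ q.2) (fun T => (T ∩ P, T ∩ Q)) ?_ ?_ ?_ ?_ ?_
  · rintro ⟨A, B⟩ h
    simp only [mem_product, mem_powerset] at h ⊢
    exact union_subset_union h.1 h.2
  · intro T _
    simp only [mem_product, mem_powerset]
    exact ⟨inter_subset_right, inter_subset_right⟩
  · rintro ⟨A, B⟩ h
    simp only [mem_product, mem_powerset] at h
    exact Prod.ext (k1 A B h.1 h.2) (k2 A B h.1 h.2)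
  · intro T hT
    simp only [mem_powerset] at hT
    rw [← inter_union_distrib_left, inter_eq_left.2 hT]
  · rintro ⟨A, B⟩ h
    simp only [mem_product, mem_powerset] at h
    simp only
    rw [k1 A B h.1 h.2, k2 A B h.1 h.2, prod_union (hd.mono h.1 h.2)]
    ring

lemma fl_add (U : Finset ℕ) (C D : Finset ℕ → ℝ) (t : ℕ → ℝ) :
    flF U (fun T => C T + D T) t = flF U C t + flF U D t := by
  simp [flF, add_mul, sum_add_distrib]

/-- a pair of weights on sets of primes -/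
structure FlP (z i : ℕ) (A G : Finset ℕ → ℝ) : Prop where
  bd : ∀ T, |A T| ≤ 1 ∧ |G T| ≤ 1
  sup : ∀ T, T ⊆ pb 0 z → A T ≠ 0 ∨ G T ≠ 0 → ∏ p ∈ T, p ≤ z ^ (4 * i + 6)
  pt : ∀ t : ℕ → ℝ, (∀ p, 0 ≤ t p ∧ t p ≤ 1) → ∏ p ∈ pb 0 z, (1 - t p) ≤ flF (pb 0 z) A t ∧
    flF (pb 0 z) A t ≤ ∏ p ∈ pb 0 z, (1 - t p) + flF (pb 0 z) G t
  av : ∀ t : ℕ → ℝ, (∀ p, 0 ≤ t p ∧ t p ≤ 1 / 2) → (∀ p, t p ≤ (p : ℝ)⁻¹) →
    flF (pb 0 z) G t ≤ 2 ^ 24 / 4 ^ i * flF (pb 0 z) A t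

lemma fl_err {Q : Finset ℕ} {t : ℕ → ℝ} (ht : ∀ p, 0 ≤ t p ∧ t p ≤ 1 / 2)
    (hQ : ∑ p ∈ Q, t p ≤ 4) (i : ℕ) :
    flS Q (flE (2 * i + 1)) t ≤ 2 ^ 23 / 4 ^ i * flS Q (flY (2 * i)) t := by
  have h1 := fl_E_le (fun p => (ht p).1) Q (2 * i + 1)
  have h2 := (fl_X_ge ht Q).trans (fl_lower (fun p => ⟨(ht p).1, by linarith [(ht p).2]⟩) Q i)
  have h3 : Real.exp (2 * ∑ p ∈ Q, t p) ≤
      Real.exp 8 * Real.exp 8 * Real.exp (-(2 * ∑ p ∈ Q, t p)) := by
    rw [← Real.exp_add, ← Real.exp_add]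
    exact Real.exp_le_exp.2 (by linarith)
  have h4 : Real.exp 8 * Real.exp 8 ≤ 4096 * 4096 :=
    mul_le_mul fl_exp_eight fl_exp_eight (Real.exp_pos _).le (by norm_num)
  have h5 := mul_le_mul h4 h2 (Real.exp_pos _).le (by norm_num)
  rw [pow_succ, pow_mul, show (2 : ℝ) ^ 2 = 4 by norm_num] at h1
  rw [div_mul_eq_mul_div, le_div_iff₀ (by positivity)]
  linarith

lemma fl_rec (z : ℕ) : ∀ i, 1 ≤ z → ∃ A G, FlP z i A G := by
  induction z using Nat.strong_induction_on with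
  | _ z ih =>
  intro i hz
  rcases hz.eq_or_lt with rfl | hz
  · have e : pb 0 1 = ∅ := by decide
    refine ⟨fun _ => 1, fun _ => 0, fun T => by simp, fun T hT _ => ?_, fun t _ => ?_,
      fun t _ _ => ?_⟩
    · rw [e, subset_empty] at hT
      simp [hT]
    · simp [e, flF]
    · simp only [e, flF, powerset_empty, sum_singleton, prod_empty, mul_one]
      positivity
  have s1 : 1 ≤ Nat.sqrt z := by rw [Nat.le_sqrt]; omega
  obtain ⟨A, G, h⟩ := ih (Nat.sqrt z) (Nat.sqrt_lt_self hz) (i + 1) s1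
  obtain ⟨P, hP⟩ : ∃ P, P = pb 0 (Nat.sqrt z) := ⟨_, rfl⟩
  obtain ⟨Q, hQ⟩ : ∃ Q, Q = pb (Nat.sqrt z) z := ⟨_, rfl⟩
  have hd : Disjoint P Q := disjoint_left.2 fun p h1 h2 => by
    rw [hP, mem_pb] at h1
    rw [hQ, mem_pb] at h2
    omega
  have hu : pb 0 z = P ∪ Q := by
    ext p
    have := Nat.sqrt_le_self z
    simp only [hP, hQ, mem_union, mem_pb]
    by_cases hp : p.Prime
    · simp only [hp, and_true]
      omega
    · simp [hp]
  have hY : ∀ n k, |flY n k| ≤ 1 := fun n k => by unfold flY; split_ifs <;> simp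
  have eA := fl_mul hd A (flY (2 * i))
  have eG : ∀ t, flF (P ∪ Q) (fun T => G (T ∩ P) * flY (2 * i) (T ∩ Q).card +
      A (T ∩ P) * flE (2 * i + 1) (T ∩ Q).card) t =
      flF P G t * flS Q (flY (2 * i)) t + flF P A t * flS Q (flE (2 * i + 1)) t := fun t => by
    rw [fl_add, fl_mul hd, fl_mul hd]
  refine ⟨fun T => A (T ∩ P) * flY (2 * i) (T ∩ Q).card,
    fun T => G (T ∩ P) * flY (2 * i) (T ∩ Q).card + A (T ∩ P) * flE (2 * i + 1) (T ∩ Q).card,
    fun T => ⟨?_, ?_⟩, fun T hT hne => ?_, fun t ht => ?_, fun t ht ht' => ?_⟩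
  · rw [abs_mul]
    exact mul_le_one₀ (h.bd _).1 (abs_nonneg _) (hY _ _)
  · by_cases hc : (T ∩ Q).card = 2 * i + 1
    · rw [flY, flE, if_neg (by omega), if_pos hc, mul_zero, zero_add, mul_one]
      exact (h.bd _).1
    · rw [flE, if_neg hc, mul_zero, add_zero, abs_mul]
      exact mul_le_one₀ (h.bd _).2 (abs_nonneg _) (hY _ _)
  · have c1 : (T ∩ Q).card ≤ 2 * i + 1 := by
      by_contra hc
      simp only [flY, flE, if_neg (show ¬ (T ∩ Q).card ≤ 2 * i by omega),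
        if_neg (show ¬ (T ∩ Q).card = 2 * i + 1 by omega), mul_zero, add_zero, ne_eq,
        not_true_eq_false, or_self] at hne
    have c2 : A (T ∩ P) ≠ 0 ∨ G (T ∩ P) ≠ 0 := by
      by_contra hc
      rw [not_or, not_not, not_not] at hc
      simp [hc.1, hc.2] at hne
    have c3 := h.sup (T ∩ P) (hP ▸ inter_subset_right) c2
    have c4 : ∏ p ∈ T ∩ Q, p ≤ z ^ (2 * i + 1) :=
      (prod_le_pow_card _ _ z fun p hp => (mem_pb.1 (hQ ▸ (mem_inter.1 hp).2)).1.2).trans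
        (Nat.pow_le_pow_right (by omega) c1)
    have c5 : Nat.sqrt z ^ (4 * (i + 1) + 6) ≤ z ^ (2 * i + 5) := by
      rw [show 4 * (i + 1) + 6 = 2 * (2 * i + 5) by ring, pow_mul]
      exact Nat.pow_le_pow_left (Nat.sqrt_le' z) _
    rw [hu] at hT
    rw [← inter_eq_left.2 hT, inter_union_distrib_left,
      prod_union (hd.mono inter_subset_right inter_subset_right),
      show 4 * i + 6 = 2 * i + 5 + (2 * i + 1) by ring, pow_add]
    exact Nat.mul_le_mul (c3.trans c5) c4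
  · obtain ⟨a1, a2⟩ := h.pt t ht
    rw [← hP] at a1 a2
    rw [hu, eA, eG, prod_union hd]
    have b0 : ∀ S : Finset ℕ, 0 ≤ ∏ p ∈ S, (1 - t p) := fun S =>
      prod_nonneg fun p _ => sub_nonneg.2 (ht p).2
    have b1 := fl_lower ht Q i
    have b2 := fl_upper ht Q i
    have b3 := fl_E_nonneg (fun p => (ht p).1) Q (2 * i + 1)
    refine ⟨mul_le_mul a1 b1 (b0 _) ((b0 _).trans a1), ?_⟩
    have b4 := mul_le_mul_of_nonneg_right a2 ((b0 Q).trans b1)
    have b5 := mul_le_mul_of_nonneg_left b2 (b0 P)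
    have b6 := mul_le_mul_of_nonneg_right a1 b3
    linarith
  · have ht1 : ∀ p, 0 ≤ t p ∧ t p ≤ 1 := fun p => ⟨(ht p).1, by linarith [(ht p).2]⟩
    have a1 := (h.pt t ht1).1
    have a2 := h.av t ht ht'
    rw [← hP] at a1 a2
    rw [hu, eA, eG]
    have b0 : ∀ S : Finset ℕ, 0 ≤ ∏ p ∈ S, (1 - t p) := fun S =>
      prod_nonneg fun p _ => sub_nonneg.2 (ht1 p).2
    have b1 := (b0 Q).trans (fl_lower ht1 Q i)
    have b2 := fl_err ht ((sum_le_sum fun p _ => ht' p).trans (hQ ▸ fl_sum_inv z hz)) i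
    have b3 := mul_le_mul_of_nonneg_right a2 b1
    have b4 := mul_le_mul_of_nonneg_left b2 ((b0 P).trans a1)
    have b5 : (2 : ℝ) ^ 24 / 4 ^ (i + 1) + 2 ^ 23 / 4 ^ i ≤ 2 ^ 24 / 4 ^ i := by
      rw [pow_succ (4 : ℝ) i, ← div_div, div_right_comm, ← add_div]
      exact div_le_div_of_nonneg_right (by norm_num) (by positivity)
    have b6 := mul_le_mul_of_nonneg_right b5 (mul_nonneg ((b0 P).trans a1) b1)
    linarith

/-- weights on the integers -/
noncomputable def flW (z : ℕ) (C : Finset ℕ → ℝ) (d : ℕ) : ℝ :=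
  if Squarefree d ∧ d.primeFactors ⊆ pb 0 z then C d.primeFactors else 0

lemma fl_sum (z : ℕ) (C : Finset ℕ → ℝ) (S : Finset ℕ) (g : ℕ → ℝ) :
    ∑ d ∈ S, flW z C d * g d =
      ∑ T ∈ (pb 0 z).powerset, C T * if ∏ p ∈ T, p ∈ S then g (∏ p ∈ T, p) else 0 := by
  simp only [flW, ite_mul, zero_mul, mul_ite, mul_zero]
  rw [← sum_filter, ← sum_filter]
  have hp : ∀ T, T ⊆ pb 0 z → ∀ p ∈ T, p.Prime := fun T hT p hp => (mem_pb.1 (hT hp)).2
  refine sum_nbij' (fun d => d.primeFactors) (fun T => ∏ p ∈ T, p) ?_ ?_ ?_ ?_ ?_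
  · intro d hd
    simp only [mem_filter, mem_powerset] at hd ⊢
    exact ⟨hd.2.2, by rw [Nat.prod_primeFactors_of_squarefree hd.2.1]; exact hd.1⟩
  · intro T hT
    simp only [mem_filter, mem_powerset] at hT ⊢
    refine ⟨hT.2, ?_, by rw [Nat.primeFactors_prod (hp T hT.1)]; exact hT.1⟩
    refine squarefree_prod_of_pairwise_isCoprime (fun p h1 q h2 hpq => ?_)
      fun p h1 => (hp T hT.1 p h1).prime.squarefree
    exact Nat.coprime_iff_isRelPrime.1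
      ((Nat.coprime_primes (hp T hT.1 p h1) (hp T hT.1 q h2)).2 hpq)
  · intro d hd
    exact Nat.prod_primeFactors_of_squarefree (mem_filter.1 hd).2.1
  · intro T hT
    exact Nat.primeFactors_prod (hp T (mem_powerset.1 (mem_filter.1 hT).1))
  · intro d hd
    rw [Nat.prod_primeFactors_of_squarefree (mem_filter.1 hd).2.1]

lemma fl_div (z : ℕ) (C : Finset ℕ → ℝ) {n : ℕ} (hn : 1 ≤ n) :
    ∑ d ∈ n.divisors, flW z C d = flF (pb 0 z) C fun p => if p ∣ n then 1 else 0 := by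
  have := fl_sum z C n.divisors fun _ => 1
  simp only [mul_one] at this
  rw [this, flF]
  refine sum_congr rfl fun T hT => ?_
  have hp : ∀ p ∈ T, p.Prime := fun p hp => (mem_pb.1 (mem_powerset.1 hT hp)).2
  congr 1
  rw [prod_boole]
  refine if_congr ?_ rfl rfl
  rw [Nat.mem_divisors, and_iff_left (by omega)]
  exact ⟨fun h p hp => (dvd_prod_of_mem _ hp).trans h,
    fun h => prod_primes_dvd n (fun p h1 => (hp p h1).prime) h⟩

lemma fl_mean (z X : ℕ) (C : Finset ℕ → ℝ) (hC : ∀ T, T ⊆ pb 0 z → C T ≠ 0 → ∏ p ∈ T, p ≤ X) :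
    ∑ d ∈ Icc 1 X, flW z C d / d = flF (pb 0 z) C fun p => if 2 ≤ p then (p : ℝ)⁻¹ else 0 := by
  simp only [div_eq_mul_inv]
  rw [fl_sum z C (Icc 1 X) fun d => (d : ℝ)⁻¹, flF]
  refine sum_congr rfl fun T hT => ?_
  have hp : ∀ p ∈ T, p.Prime := fun p hp => (mem_pb.1 (mem_powerset.1 hT hp)).2
  by_cases h : C T = 0
  · rw [h, zero_mul, zero_mul]
  rw [if_pos (mem_Icc.2 ⟨prod_pos fun p h1 => (hp p h1).pos, hC T (mem_powerset.1 hT) h⟩),
    Nat.cast_prod, ← prod_inv_distrib]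
  congr 1
  exact prod_congr rfl fun p h1 => (if_pos (hp p h1).two_le).symm

lemma fl_rgh (z n : ℕ) : ∏ p ∈ pb 0 z, (1 - if p ∣ n then (1 : ℝ) else 0) = rgh z n := by
  unfold rgh
  split_ifs with h
  · refine prod_eq_one fun p hp => ?_
    obtain ⟨h1, h2⟩ := mem_pb.1 hp
    rw [if_neg fun h3 => (h p h2 h3).not_ge h1.2, sub_zero]
  · push Not at h
    obtain ⟨p, h1, h2, h3⟩ := h
    exact prod_eq_zero (mem_pb.2 ⟨⟨h1.pos, h3⟩, h1⟩) (by rw [if_pos h2, sub_self])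

/-- The reciprocal as a homomorphism. -/
noncomputable def flI : ℕ →* ℝ where
  toFun n := (n : ℝ)⁻¹
  map_one' := by simp
  map_mul' m n := by simp [mul_comm]

lemma fl_V {z : ℕ} (hz : 2 ≤ z) : ∏ p ∈ pb 0 z, (1 - (p : ℝ)⁻¹) ≤ 1 / Real.log z := by
  classical
  have hs : ∀ p ∈ pb 0 z, p.Prime := fun p hp => (mem_pb.1 hp).2
  have h := (EulerProduct.summable_and_hasSum_factoredNumbers_prod_filter_prime_geometric
    (f := flI) (fun {p} hp => by
      change ‖(p : ℝ)⁻¹‖ < 1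
      rw [Real.norm_of_nonneg (by positivity)]
      exact inv_lt_one_of_one_lt₀ (by exact_mod_cast hp.one_lt)) (pb 0 z)).2
  rw [filter_true_of_mem hs] at h
  have hT : ∀ m ∈ Icc 1 z, m ∈ Nat.factoredNumbers (pb 0 z) := fun m hm => by
    obtain ⟨h1, h2⟩ := mem_Icc.1 hm
    refine Nat.mem_factoredNumbers'.2 fun p hp hd => ?_
    exact mem_pb.2 ⟨⟨hp.pos, (Nat.le_of_dvd h1 hd).trans h2⟩, hp⟩
  have h2 := sum_le_hasSum ((Icc 1 z).subtype (· ∈ Nat.factoredNumbers (pb 0 z)))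
    (fun m _ => (by positivity : (0 : ℝ) ≤ ((m : ℕ) : ℝ)⁻¹)) h
  change ∑ m ∈ (Icc 1 z).subtype (· ∈ Nat.factoredNumbers (pb 0 z)), ((m : ℕ) : ℝ)⁻¹ ≤
    ∏ p ∈ pb 0 z, (1 - (p : ℝ)⁻¹)⁻¹ at h2
  rw [sum_subtype_eq_sum_filter (f := fun m : ℕ => (m : ℝ)⁻¹), filter_true_of_mem hT,
    prod_inv_distrib] at h2
  have h3 := log_add_one_le_harmonic z
  rw [harmonic_eq_sum_Icc] at h3
  push_cast at h3
  have z2 : (2 : ℝ) ≤ z := by exact_mod_cast hz
  have h4 : Real.log z ≤ Real.log (z + 1) := Real.log_le_log (by linarith) (by linarith)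
  have h5 : 0 < ∏ p ∈ pb 0 z, (1 - (p : ℝ)⁻¹) := prod_pos fun p hp =>
    sub_pos.2 (inv_lt_one_of_one_lt₀ (by exact_mod_cast (hs p hp).one_lt))
  rw [one_div]
  exact (le_inv_comm₀ h5 (Real.log_pos (by linarith))).2 (h4.trans (h3.trans h2))

theorem fl_all : FlStmt := by
  intro i z hi hz
  obtain ⟨A, G, h⟩ := fl_rec z i (by omega)
  obtain ⟨t, ht⟩ : ∃ t : ℕ → ℝ, t = fun p : ℕ => if 2 ≤ p then (p : ℝ)⁻¹ else 0 := ⟨_, rfl⟩
  have t1 : ∀ p, 0 ≤ t p ∧ t p ≤ 1 / 2 := fun p => by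
    rw [ht]
    simp only
    split_ifs with hp
    · exact ⟨by positivity, by rw [one_div]; exact inv_anti₀ two_pos (by exact_mod_cast hp)⟩
    · norm_num
  have t2 : ∀ p, t p ≤ (p : ℝ)⁻¹ := fun p => by
    rw [ht]
    simp only
    split_ifs
    · exact le_rfl
    · positivity
  have a1 := (h.pt t fun p => ⟨(t1 p).1, by linarith [(t1 p).2]⟩)
  have a2 := h.av t t1 t2
  have a3 : ∏ p ∈ pb 0 z, (1 - t p) ≤ 1 / Real.log z := by
    refine le_of_eq_of_le (prod_congr rfl fun p hp => ?_) (fl_V hz)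
    rw [ht]
    simp only [if_pos (mem_pb.1 hp).2.two_le]
  have a4 : 0 ≤ flF (pb 0 z) A t :=
    (prod_nonneg fun p _ => by linarith [(t1 p).2]).trans a1.1
  have a5 : (2 : ℝ) ^ 24 / 4 ^ i ≤ 1 / 2 := by
    have : (4 : ℝ) ^ 13 ≤ 4 ^ i := pow_le_pow_right₀ (by norm_num) hi
    rw [div_le_iff₀ (by positivity)]
    linarith
  have a6 := mul_le_mul_of_nonneg_right a5 a4
  have a7 : flF (pb 0 z) A t ≤ 2 / Real.log z := by
    have : 2 / Real.log z = 2 * (1 / Real.log z) := by ring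
    linarith [a1.2]
  refine ⟨flW z A, flW z G, fun d => ?_, fun d hd => ?_, fun n hn => ?_, ?_, ?_⟩
  · unfold flW
    split_ifs
    · exact h.bd _
    · simp
  · unfold flW at hd
    split_ifs at hd with h1
    · refine ⟨h1.1, ?_, fun p hp hpd => ?_⟩
      · have := h.sup _ h1.2 hd
        rwa [Nat.prod_primeFactors_of_squarefree h1.1] at this
      · exact (mem_pb.1 (h1.2 (Nat.mem_primeFactors.2 ⟨hp, hpd, h1.1.ne_zero⟩))).1.2
    · simp at hd
  · rw [fl_div z A hn, fl_div z G hn, ← fl_rgh]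
    exact h.pt _ fun p => by split_ifs <;> norm_num
  · rw [fl_mean z _ G fun T hT h0 => h.sup T hT (Or.inr h0), ← ht]
    refine a2.trans ((mul_le_mul_of_nonneg_left a7 (by positivity)).trans_eq ?_)
    ring
  · rw [fl_mean z _ A fun T hT h0 => h.sup T hT (Or.inl h0), ← ht]
    exact a7

end Pool.Agent.MP_c853c5_nt.Z
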