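import Pool.Agent.MP_c853c5_nt.Z.Basic

set_option autoImplicit false

open Finset Filter

namespace Pool.Agent.MP_c853c5_nt.Z

lemma norm_GG_EF (Δ v σ t : ℝ) : ‖GG Δ v (σ + t * Complex.I)‖ =
    Real.exp (σ * v + Δ ^ 2 * (σ ^ 2 - t ^ 2) / (4 * Real.pi)) := by
  unfold GG
  rw [Complex.norm_exp]
  congr 1
  have e : ((σ : ℂ) + t * Complex.I) * v + (Δ : ℂ) ^ 2 * ((σ : ℂ) + t * Complex.I) ^ 2 /
      (4 * Real.pi) = ((σ * v + Δ ^ 2 * (σ ^ 2 - t ^ 2) / (4 * Real.pi) : ℝ) : ℂ) +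
        ((t * v + Δ ^ 2 * (2 * σ * t) / (4 * Real.pi) : ℝ) : ℂ) * Complex.I := by
    push_cast
    linear_combination (((Δ : ℂ) ^ 2 * t ^ 2) / (4 * Real.pi)) * Complex.I_sq
  rw [e]
  simp only [Complex.add_re, Complex.ofReal_re, Complex.mul_re, Complex.I_re, mul_zero,
    Complex.ofReal_im, Complex.I_im, mul_one, sub_self, add_zero]

lemma norm_GG_le_EF {Δ v σ : ℝ} (t : ℝ) (h0 : 0 < Δ) (h1 : Δ ≤ 1) (hs0 : 0 ≤ σ) (hs : σ ≤ 2) :
    ‖GG Δ v (σ + t * Complex.I)‖ ≤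
      2 * Real.exp (σ * v) * Real.exp (-(Δ ^ 2 * t ^ 2 / (4 * Real.pi))) := by
  rw [norm_GG_EF]
  have hp : 3 < Real.pi := Real.pi_gt_three
  have e : σ * v + Δ ^ 2 * (σ ^ 2 - t ^ 2) / (4 * Real.pi) =
      Δ ^ 2 * σ ^ 2 / (4 * Real.pi) + σ * v + -(Δ ^ 2 * t ^ 2 / (4 * Real.pi)) := by ring
  rw [e, Real.exp_add, Real.exp_add]
  have h2 : Δ ^ 2 * σ ^ 2 / (4 * Real.pi) ≤ Real.log 2 := by
    have a1 : Δ ^ 2 ≤ 1 := by nlinarith
    have a2 : σ ^ 2 ≤ 4 := by nlinarith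
    have a3 : Δ ^ 2 * σ ^ 2 ≤ 4 := by nlinarith [sq_nonneg Δ, sq_nonneg σ]
    have a4 := Real.log_two_gt_d9
    rw [div_le_iff₀ (by positivity)]
    nlinarith
  have h3 : Real.exp (Δ ^ 2 * σ ^ 2 / (4 * Real.pi)) ≤ 2 := by
    calc _ ≤ Real.exp (Real.log 2) := Real.exp_le_exp.mpr h2
      _ = 2 := Real.exp_log (by norm_num)
  gcongr

lemma GG_one_EF (Δ v : ℝ) : GG Δ v 1 = ((Real.exp (v + Δ ^ 2 / (4 * Real.pi)) : ℝ) : ℂ) := by
  unfold GG
  push_cast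
  congr 1
  ring

lemma diff_GG_EF (Δ v : ℝ) : Differentiable ℂ (GG Δ v) := by
  unfold GG
  fun_prop

lemma LS_bd_EF : ∃ C : ℝ, 0 ≤ C ∧ ∀ t : ℝ,
    ‖LSeries (fun n => (ArithmeticFunction.vonMangoldt n : ℂ)) (2 + t * Complex.I)‖ ≤ C := by
  have hs : LSeriesSummable (fun n => (ArithmeticFunction.vonMangoldt n : ℂ)) 2 :=
    ArithmeticFunction.LSeriesSummable_vonMangoldt (by norm_num)
  refine ⟨∑' n, ‖LSeries.term (fun n => (ArithmeticFunction.vonMangoldt n : ℂ)) 2 n‖,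
    tsum_nonneg fun _ => norm_nonneg _, fun t => ?_⟩
  refine tsum_of_norm_bounded (Summable.hasSum hs.norm) fun n => ?_
  exact LSeries.norm_term_le_of_re_le_re _ (by simp) n

lemma gauss_int_EF {Δ : ℝ} (h0 : 0 < Δ) :
    ∫ t : ℝ, Real.exp (-(Δ ^ 2 / (8 * Real.pi)) * t ^ 2) ≤ 12 / Δ := by
  rw [integral_gaussian]
  have hp : Real.pi ≤ 4 := Real.pi_le_four
  have hp0 := Real.pi_pos
  refine Real.sqrt_le_iff.mpr ⟨by positivity, ?_⟩
  have e : Real.pi / (Δ ^ 2 / (8 * Real.pi)) = 8 * Real.pi ^ 2 / Δ ^ 2 := by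
    field_simp
  rw [e, div_pow]
  gcongr
  nlinarith

lemma tail_EF {Δ v T c d C : ℝ} (F : ℝ → ℂ) (h0 : 0 < Δ) (hT : 0 ≤ T) (hc : c ≤ -T)
    (hd : T ≤ d) (hC : 0 ≤ C) (hF : MeasureTheory.Integrable F)
    (hb : ∀ t, ‖F t‖ ≤ C * (2 * Real.exp (2 * v) * Real.exp (-(Δ ^ 2 * t ^ 2 / (4 * Real.pi))))) :
    ‖(∫ t, F t) - ∫ t in c..d, F t‖ ≤
      24 * C * (Real.exp (2 * v) * (1 / Δ) * Real.exp (-(Δ ^ 2 * T ^ 2 / (8 * Real.pi)))) := by
  have hp0 := Real.pi_pos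
  rw [intervalIntegral.integral_of_le (by linarith),
    ← MeasureTheory.integral_add_compl (s := Set.Ioc c d) measurableSet_Ioc hF, add_sub_cancel_left]
  set K : ℝ := C * (2 * Real.exp (2 * v) * Real.exp (-(Δ ^ 2 * T ^ 2 / (8 * Real.pi)))) with hK
  have hK0 : 0 ≤ K := by positivity
  have hi : MeasureTheory.Integrable
      (fun t : ℝ => K * Real.exp (-(Δ ^ 2 / (8 * Real.pi)) * t ^ 2)) :=
    (integrable_exp_neg_mul_sq (by positivity)).const_mul K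
  have h1 : ‖∫ t in (Set.Ioc c d)ᶜ, F t‖ ≤
      ∫ t in (Set.Ioc c d)ᶜ, K * Real.exp (-(Δ ^ 2 / (8 * Real.pi)) * t ^ 2) := by
    refine MeasureTheory.norm_integral_le_of_norm_le hi.integrableOn ?_
    filter_upwards [MeasureTheory.ae_restrict_mem measurableSet_Ioc.compl] with t ht
    have ht2 : T ^ 2 ≤ t ^ 2 := by
      rw [Set.mem_compl_iff, Set.mem_Ioc, not_and_or, not_lt, not_le] at ht
      rcases ht with h | h <;> nlinarith
    refine (hb t).trans ?_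
    have e : K * Real.exp (-(Δ ^ 2 / (8 * Real.pi)) * t ^ 2) = C * (2 * Real.exp (2 * v) *
        Real.exp (-(Δ ^ 2 * T ^ 2 / (8 * Real.pi)) + -(Δ ^ 2 / (8 * Real.pi)) * t ^ 2)) := by
      rw [hK, Real.exp_add]; ring
    rw [e]
    have h3 : -(Δ ^ 2 * t ^ 2 / (4 * Real.pi)) ≤
        -(Δ ^ 2 * T ^ 2 / (8 * Real.pi)) + -(Δ ^ 2 / (8 * Real.pi)) * t ^ 2 := by
      have a : Δ ^ 2 * T ^ 2 / (8 * Real.pi) ≤ Δ ^ 2 * t ^ 2 / (8 * Real.pi) := by gcongr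
      have b : Δ ^ 2 * t ^ 2 / (4 * Real.pi) =
        Δ ^ 2 * t ^ 2 / (8 * Real.pi) + (Δ ^ 2 / (8 * Real.pi)) * t ^ 2 := by
        field_simp; ring
      linarith
    gcongr
  have h2 : ∫ t in (Set.Ioc c d)ᶜ, K * Real.exp (-(Δ ^ 2 / (8 * Real.pi)) * t ^ 2) ≤
      ∫ t : ℝ, K * Real.exp (-(Δ ^ 2 / (8 * Real.pi)) * t ^ 2) :=
    MeasureTheory.setIntegral_le_integral hi (Eventually.of_forall fun t => by positivity)
  have h3 := mul_le_mul_of_nonneg_left (gauss_int_EF h0) hK0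
  rw [← MeasureTheory.integral_const_mul] at h3
  refine h1.trans (h2.trans (h3.trans (le_of_eq ?_)))
  rw [hK]; ring

lemma contOn_EF {a : ℝ} {S : Set ℝ} (h : ∀ t ∈ S, riemannZeta₁ (a + t * Complex.I) ≠ 0) :
    ContinuousOn (fun t : ℝ => ‖logDeriv riemannZeta₁ (a + t * Complex.I)‖) S := by
  have c1 : Continuous riemannZeta₁ := differentiable_riemannZeta₁.continuous
  have c2 : Continuous (deriv riemannZeta₁) :=
    (differentiable_riemannZeta₁.contDiff (n := 1)).continuous_deriv le_rfl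
  have c3 : Continuous fun t : ℝ => (a : ℂ) + t * Complex.I := by fun_prop
  simp only [logDeriv_apply]
  exact (((c2.comp c3).continuousOn).div ((c1.comp c3).continuousOn) h).norm

lemma left_EF {Δ v T a c d C : ℝ} (h0 : 0 < Δ) (h1 : Δ ≤ 1) (hv : 0 ≤ v) (hT : 3 ≤ T)
    (ha : a ∈ Set.Icc (1 / 2 : ℝ) (51 / 100)) (hc : c ∈ Set.Icc (-T - 1) (-T))
    (hd : d ∈ Set.Icc T (T + 1)) (hC : 1 ≤ C)
    (hz : ∀ t ∈ Set.Icc (-(T + 1)) (T + 1), riemannZeta₁ (a + t * Complex.I) ≠ 0)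
    (hI : ∫ t in (-(T + 1))..(T + 1), ‖logDeriv riemannZeta₁ (a + t * Complex.I)‖ ≤
      C * (T + 1) * Real.log (T + 1) ^ 2) :
    ∫ t in c..d, (‖logDeriv riemannZeta₁ (a + t * Complex.I)‖ + 1 / (1 - a)) *
        ‖GG Δ v (a + t * Complex.I)‖ ≤
      (16 * C + 24) * (Real.exp (51 / 100 * v) * T * Real.log T ^ 2) := by
  obtain ⟨a1, a2⟩ := ha
  obtain ⟨c1, c2⟩ := hc
  obtain ⟨d1, d2⟩ := hd
  have hp0 := Real.pi_pos
  have hcd : c ≤ d := by linarith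
  have hint : IntervalIntegrable (fun t : ℝ => ‖logDeriv riemannZeta₁ (a + t * Complex.I)‖)
      MeasureTheory.volume (-(T + 1)) (T + 1) := by
    refine ContinuousOn.intervalIntegrable ?_
    rw [Set.uIcc_of_le (by linarith)]
    exact contOn_EF hz
  have hint2 : IntervalIntegrable (fun t : ℝ => ‖logDeriv riemannZeta₁ (a + t * Complex.I)‖)
      MeasureTheory.volume c d := by
    refine hint.mono_set ?_
    rw [Set.uIcc_of_le hcd, Set.uIcc_of_le (by linarith)]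
    exact Set.Icc_subset_Icc (by linarith) d2
  set E : ℝ := 2 * Real.exp (51 / 100 * v) with hE
  have hE0 : 0 ≤ E := by positivity
  have hb : ‖∫ t in c..d, (‖logDeriv riemannZeta₁ (a + t * Complex.I)‖ + 1 / (1 - a)) *
        ‖GG Δ v (a + t * Complex.I)‖‖ ≤
      ∫ t in c..d, E * (‖logDeriv riemannZeta₁ (a + t * Complex.I)‖ + 3) := by
    refine intervalIntegral.norm_integral_le_of_norm_le hcd (Eventually.of_forall fun t _ => ?_)
      ((hint2.add intervalIntegrable_const).const_mul E)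
    have b0 : 0 < 1 - a := by linarith
    have b1 : 1 / (1 - a) ≤ 3 := by
      rw [div_le_iff₀ b0]; linarith
    have b2 : ‖GG Δ v (a + t * Complex.I)‖ ≤ E := by
      refine (norm_GG_le_EF t h0 h1 (by linarith) (by linarith)).trans ?_
      have b3 : Real.exp (-(Δ ^ 2 * t ^ 2 / (4 * Real.pi))) ≤ 1 :=
        Real.exp_le_one_iff.mpr (neg_nonpos.mpr (by positivity))
      have b4 : Real.exp (a * v) ≤ Real.exp (51 / 100 * v) :=
        Real.exp_le_exp.mpr (mul_le_mul_of_nonneg_right a2 hv)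
      calc _ ≤ 2 * Real.exp (51 / 100 * v) * 1 := by gcongr
        _ = E := by rw [hE, mul_one]
    rw [Real.norm_of_nonneg (by positivity), mul_comm E]
    gcongr
  rw [intervalIntegral.integral_const_mul, intervalIntegral.integral_add hint2
    intervalIntegrable_const, intervalIntegral.integral_const, smul_eq_mul] at hb
  have hm : ∫ t in c..d, ‖logDeriv riemannZeta₁ (a + t * Complex.I)‖ ≤
      ∫ t in (-(T + 1))..(T + 1), ‖logDeriv riemannZeta₁ (a + t * Complex.I)‖ :=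
    intervalIntegral.integral_mono_interval (by linarith) hcd d2
      (Eventually.of_forall fun t => norm_nonneg _) hint
  have l1 : 1 ≤ Real.log T := by
    rw [Real.le_log_iff_exp_le (by linarith)]
    have := Real.exp_one_lt_d9
    linarith
  have l2 : Real.log (T + 1) ≤ 2 * Real.log T := by
    have : Real.log (T ^ 2) = 2 * Real.log T := by rw [Real.log_pow]; norm_num
    rw [← this]
    exact Real.log_le_log (by linarith) (by nlinarith)
  have l3 : 0 ≤ Real.log (T + 1) := Real.log_nonneg (by linarith)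
  have l4 : C * (T + 1) * Real.log (T + 1) ^ 2 ≤ C * (2 * T) * (2 * Real.log T) ^ 2 := by
    gcongr
    linarith
  have l5 : (d - c) * 3 ≤ 12 * T * Real.log T ^ 2 := by
    have : 1 ≤ Real.log T ^ 2 := one_le_pow₀ l1
    nlinarith
  refine (le_abs_self _).trans (hb.trans ?_)
  calc _ ≤ E * (C * (2 * T) * (2 * Real.log T) ^ 2 + 12 * T * Real.log T ^ 2) := by
        refine mul_le_mul_of_nonneg_left ?_ hE0
        linarith
    _ = _ := by rw [hE]; ring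

lemma hor_EF {Δ v T a u C L : ℝ} (h0 : 0 < Δ) (h1 : Δ ≤ 1) (hv : 0 ≤ v) (hT : 3 ≤ T)
    (ha : a ∈ Set.Icc (1 / 2 : ℝ) (51 / 100)) (hu : T ≤ |u|) (hC : 1 ≤ C) (hL0 : 0 < L)
    (hL : L ≤ T + 5) (hL1 : 1 ≤ L)
    (hb : ∀ σ ∈ Set.Icc (1 / 2 : ℝ) 2,
      ‖logDeriv riemannZeta₁ (σ + u * Complex.I)‖ ≤ C * Real.log L ^ 2) :
    ∫ σ in a..2, (‖logDeriv riemannZeta₁ (σ + u * Complex.I)‖ + 1 / |u|) *
        ‖GG Δ v (σ + u * Complex.I)‖ ≤
      3 * (4 * C + 1) * (Real.exp (2 * v) * Real.log T ^ 2 *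
        Real.exp (-(Δ ^ 2 * T ^ 2 / (8 * Real.pi)))) := by
  obtain ⟨a1, a2⟩ := ha
  have hp0 := Real.pi_pos
  have l1 : 1 ≤ Real.log T := by
    rw [Real.le_log_iff_exp_le (by linarith)]
    have := Real.exp_one_lt_d9
    linarith
  have l2 : Real.log L ≤ 2 * Real.log T := by
    have : Real.log (T ^ 2) = 2 * Real.log T := by rw [Real.log_pow]; norm_num
    rw [← this]
    exact Real.log_le_log hL0 (by nlinarith)
  have l3 : 0 ≤ Real.log L := Real.log_nonneg hL1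
  have l4 : 1 ≤ Real.log T ^ 2 := one_le_pow₀ l1
  set K : ℝ := (4 * C + 1) * Real.log T ^ 2 *
    (2 * Real.exp (2 * v) * Real.exp (-(Δ ^ 2 * T ^ 2 / (8 * Real.pi)))) with hK
  have hK0 : 0 ≤ K := by positivity
  have hb2 : ‖∫ σ in a..2, (‖logDeriv riemannZeta₁ (σ + u * Complex.I)‖ + 1 / |u|) *
        ‖GG Δ v (σ + u * Complex.I)‖‖ ≤ K * |2 - a| := by
    refine intervalIntegral.norm_integral_le_of_norm_le_const fun σ hσ => ?_
    rw [Set.uIoc_of_le (by linarith)] at hσ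
    obtain ⟨s1, s2⟩ := hσ
    have b1 : 1 / |u| ≤ Real.log T ^ 2 := by
      refine le_trans ?_ l4
      rw [div_le_iff₀ (by linarith)]; linarith
    have b2 : ‖logDeriv riemannZeta₁ (σ + u * Complex.I)‖ ≤ C * (2 * Real.log T) ^ 2 := by
      refine (hb σ ⟨by linarith, s2⟩).trans ?_
      gcongr
    have b3 : ‖GG Δ v (σ + u * Complex.I)‖ ≤
        2 * Real.exp (2 * v) * Real.exp (-(Δ ^ 2 * T ^ 2 / (8 * Real.pi))) := by
      refine (norm_GG_le_EF u h0 h1 (by linarith) s2).trans ?_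
      have b4 : T ^ 2 ≤ u ^ 2 := by
        rw [← sq_abs u]; gcongr
      have b5 : -(Δ ^ 2 * u ^ 2 / (4 * Real.pi)) ≤ -(Δ ^ 2 * T ^ 2 / (8 * Real.pi)) := by
        refine neg_le_neg ?_
        gcongr
        norm_num
      gcongr
    rw [Real.norm_of_nonneg (by positivity), hK]
    refine mul_le_mul ?_ b3 (norm_nonneg _) (by positivity)
    nlinarith
  have e : |2 - a| ≤ 3 / 2 := by
    rw [abs_of_nonneg (by linarith)]; linarith
  refine (le_abs_self _).trans (hb2.trans ?_)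
  calc _ ≤ K * (3 / 2) := by gcongr
    _ = _ := by rw [hK]; ring

theorem ef (hG : GaussStmt) (hH : HorStmt) (hV : VerStmt) (hR : ResStmt) : EFStmt := by
  obtain ⟨CH, hCH, hH⟩ := hH
  obtain ⟨CV, hCV, hV⟩ := hV
  obtain ⟨C0, hC0, hL⟩ := LS_bd_EF
  refine ⟨16 * CV + 24 + 6 * (4 * CH + 1) + 24 * C0, by positivity, fun Δ v T h0 h1 hv hT => ?_⟩
  obtain ⟨d, hd, hd'⟩ := hH T
  obtain ⟨c, hc, hc'⟩ := hH (-T - 1)
  obtain ⟨a, ha, haz, haI⟩ := hV (T + 1) (by linarith)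
  have hc2 : c ∈ Set.Icc (-T - 1) (-T) := ⟨hc.1, by linarith [hc.2]⟩
  obtain ⟨hFi, hP⟩ := hG Δ v h0
  obtain ⟨Z, hZ, hb⟩ := hR (GG Δ v) a c d (diff_GG_EF Δ v) (by linarith [ha.2])
    (by linarith [hc2.2]) (by linarith [hd.1])
    (fun σ hσ => ⟨(hc' σ ⟨ha.1.trans hσ.1, hσ.2⟩).1, (hd' σ ⟨ha.1.trans hσ.1, hσ.2⟩).1⟩)
    (fun t ht => haz t ⟨by linarith [ht.1, hc2.1], by linarith [ht.2, hd.2]⟩)
  refine ⟨Z, fun ρ hρ => ?_, ?_⟩
  · obtain ⟨z1, z2, -, z4, z5⟩ := hZ ρ hρ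
    exact ⟨z1, ha.1.trans z2, abs_le.mpr ⟨by linarith [hc2.1], by linarith [hd.2]⟩⟩
  have t1 := tail_EF (v := v) (T := T) (c := c) (d := d) _ h0 (by linarith) hc2.2 hd.1 hC0 hFi
    (fun t => by
      rw [norm_mul]
      have := norm_GG_le_EF (v := v) (σ := 2) t h0 h1 (by norm_num) le_rfl
      rw [Complex.ofReal_ofNat] at this
      exact mul_le_mul (hL t) this (norm_nonneg _) hC0)
  have t2 := left_EF h0 h1 hv hT ha hc2 hd hCV haz haI
  have t3 := hor_EF (u := c) (L := |-T - 1| + 4) h0 h1 hv hT ha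
    (by rw [abs_of_nonpos (by linarith [hc2.2])]; linarith [hc2.2]) hCH (by positivity)
    (by rw [abs_of_nonpos (by linarith)]; linarith) (by linarith [abs_nonneg (-T - 1)])
    (fun σ hσ => (hc' σ hσ).2)
  have t4 := hor_EF (u := d) (L := |T| + 4) h0 h1 hv hT ha
    (by rw [abs_of_nonneg (by linarith [hd.1])]; exact hd.1) hCH (by positivity)
    (by rw [abs_of_nonneg (by linarith)]; linarith) (by linarith [abs_nonneg T])
    (fun σ hσ => (hd' σ hσ).2)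
  have t5 : ‖∑ ρ ∈ Z, (ord ρ : ℂ) * GG Δ v ρ‖ ≤ 2 * ∑ ρ ∈ Z, ord ρ * Real.exp (ρ.re * v) := by
    rw [mul_sum]
    refine (norm_sum_le _ _).trans (sum_le_sum fun ρ hρ => ?_)
    obtain ⟨z1, z2, z3, -, -⟩ := hZ ρ hρ
    have hp0 := Real.pi_pos
    have := norm_GG_le_EF (v := v) (σ := ρ.re) ρ.im h0 h1 (by linarith [ha.1]) z3
    rw [Complex.re_add_im] at this
    have b3 : Real.exp (-(Δ ^ 2 * ρ.im ^ 2 / (4 * Real.pi))) ≤ 1 :=
      Real.exp_le_one_iff.mpr (neg_nonpos.mpr (by positivity))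
    have b4 : ‖GG Δ v ρ‖ ≤ 2 * Real.exp (ρ.re * v) := by
      refine this.trans ?_
      calc _ ≤ 2 * Real.exp (ρ.re * v) * 1 := by gcongr
        _ = _ := mul_one _
    rw [norm_mul, Complex.norm_real, Real.norm_of_nonneg (ord_nonneg ρ)]
    have := mul_le_mul_of_nonneg_left b4 (ord_nonneg ρ)
    linarith
  set I1 := ∫ t : ℝ, LSeries (fun n => (ArithmeticFunction.vonMangoldt n : ℂ))
    (2 + t * Complex.I) * GG Δ v (2 + t * Complex.I) with hI1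
  set I2 := ∫ t in c..d, LSeries (fun n => (ArithmeticFunction.vonMangoldt n : ℂ))
    (2 + t * Complex.I) * GG Δ v (2 + t * Complex.I) with hI2
  set S := ∑ ρ ∈ Z, (ord ρ : ℂ) * GG Δ v ρ with hS
  have hp : 3 < Real.pi := Real.pi_gt_three
  have hpc : (Real.pi : ℂ) ≠ 0 := by exact_mod_cast Real.pi_ne_zero
  have e : ((PP Δ v - Real.exp (v + Δ ^ 2 / (4 * Real.pi)) : ℝ) : ℂ) =
      1 / (2 * Real.pi) * ((I1 - I2) + (I2 - 2 * Real.pi * (GG Δ v 1 - S))) - S := by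
    rw [Complex.ofReal_sub, hP, ← GG_one_EF]
    field_simp
    ring
  have n1 : ‖(1 / (2 * Real.pi) : ℂ)‖ ≤ 1 := by
    rw [norm_div, norm_one, norm_mul, Complex.norm_real, Real.norm_of_nonneg Real.pi_pos.le,
      Complex.norm_ofNat, div_le_one (by positivity)]
    linarith
  have n2 : |PP Δ v - Real.exp (v + Δ ^ 2 / (4 * Real.pi))| ≤
      ‖I1 - I2‖ + ‖I2 - 2 * Real.pi * (GG Δ v 1 - S)‖ + ‖S‖ := by
    rw [← Real.norm_eq_abs, ← Complex.norm_real, e]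
    refine (norm_sub_le _ _).trans ?_
    gcongr
    rw [norm_mul]
    calc _ ≤ 1 * ‖(I1 - I2) + (I2 - 2 * Real.pi * (GG Δ v 1 - S))‖ := by gcongr
      _ ≤ _ := by rw [one_mul]; exact norm_add_le _ _
  set A := Real.exp (51 / 100 * v) * T * Real.log T ^ 2 with hA
  set B1 := Real.exp (2 * v) * Real.log T ^ 2 * Real.exp (-(Δ ^ 2 * T ^ 2 / (8 * Real.pi)))
    with hB1
  set B2 := Real.exp (2 * v) * (1 / Δ) * Real.exp (-(Δ ^ 2 * T ^ 2 / (8 * Real.pi))) with hB2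
  have e2 : Real.exp (2 * v) * (Real.log T ^ 2 + 1 / Δ) *
      Real.exp (-(Δ ^ 2 * T ^ 2 / (8 * Real.pi))) = B1 + B2 := by
    rw [hB1, hB2]; ring
  rw [e2]
  have pA : 0 ≤ A := by positivity
  have pB1 : 0 ≤ B1 := by positivity
  have pB2 : 0 ≤ B2 := by positivity
  have q1 : 0 ≤ (6 * (4 * CH + 1) + 24 * C0) * A := by positivity
  have q2 : 0 ≤ (16 * CV + 24 + 24 * C0) * B1 := by positivity
  have q3 : 0 ≤ (16 * CV + 24 + 6 * (4 * CH + 1)) * B2 := by positivity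
  linarith only [n2, hb, t1, t2, t3, t4, t5, q1, q2, q3]

end Pool.Agent.MP_c853c5_nt.Z
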