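import Pool.Agent.MP_c853c5_nt.Z.PDefs
import Pool.Agent.MP_c853c5_nt.Z.Sand
import Pool.Agent.MP_c853c5_nt.Z.EF

/-!
From the smoothed twisted density to the sharp twisted sum.
-/

set_option autoImplicit false

open Finset MeasureTheory Real
open ArithmeticFunction (vonMangoldt)

namespace Pool.Agent.MP_c853c5_nt.Z

open Pool.Agent.MP_2a1f0e_nt

lemma norm_term_PCut {Δ : ℝ} (h : 0 < Δ) (v t : ℝ) (n : ℕ) :
    ‖(vonMangoldt n : ℂ) * GM.pw (n : ℝ) t * (gg Δ (v - log n) : ℂ)‖ =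
      vonMangoldt n * gg Δ (v - log n) := by
  rw [norm_mul, norm_mul, GM.norm_pw, mul_one, Complex.norm_real, Complex.norm_real,
    Real.norm_of_nonneg ArithmeticFunction.vonMangoldt_nonneg,
    Real.norm_of_nonneg (gg_nonneg_Sand h _)]

lemma tail_PCut {Δ d v : ℝ} (h : 0 < Δ) (h1 : Δ ≤ 1) (hd : 0 ≤ d) (t : ℝ) (S : Finset ℕ)
    (hS : ∀ n ∉ S, d ≤ |v - log n|) :
    ‖PT Δ v t - ∑ n ∈ S, (vonMangoldt n : ℂ) * GM.pw (n : ℝ) t * (gg Δ (v - log n) : ℂ)‖ ≤
      Δ⁻¹ * hh_Sand Δ d * exp (2 * v + 1) * ∑' n, ww_Sand n := by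
  have h0 : Summable fun n : ℕ =>
      (vonMangoldt n : ℂ) * GM.pw (n : ℝ) t * (gg Δ (v - log n) : ℂ) :=
    Summable.of_norm (by simpa only [norm_term_PCut h] using summable_Sand h h1 v)
  have h2 : HasSum (fun n : ℕ => if n ∈ S then
      (vonMangoldt n : ℂ) * GM.pw (n : ℝ) t * (gg Δ (v - log n) : ℂ) else 0)
      (∑ n ∈ S, (vonMangoldt n : ℂ) * GM.pw (n : ℝ) t * (gg Δ (v - log n) : ℂ)) := by
    rw [← sum_congr rfl fun n (hn : n ∈ S) => if_pos (e := (0 : ℂ)) hn]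
    exact hasSum_sum_of_ne_finset_zero fun n hn => if_neg hn
  refine (h0.hasSum.sub h2).norm_le_of_bounded (ww_summable_Sand.hasSum.mul_left _) fun n => ?_
  split_ifs with hn
  · rw [sub_self, norm_zero]
    exact mul_nonneg (by unfold hh_Sand; positivity)
      (mul_nonneg ArithmeticFunction.vonMangoldt_nonneg (exp_nonneg _))
  · rw [sub_zero, norm_term_PCut h]
    exact term_le_Sand h h1 hd (hS n hn)

lemma exp_log_PCut {N : ℕ} (hN : 0 < N) (t : ℝ) :
    Complex.exp ((1 + t * Complex.I) * (log N : ℝ)) = (N : ℂ) * GM.pw (N : ℝ) t := by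
  have e : ((N : ℕ) : ℂ) = Complex.exp (log N : ℝ) := by
    rw [← Complex.ofReal_exp, exp_log (by exact_mod_cast hN), Complex.ofReal_natCast]
  rw [GM.pw, e, ← Complex.exp_add]
  congr 1
  ring

lemma main_PCut {N M : ℕ} {Δ : ℝ} (hN : 0 < N) (hNM : N ≤ M) (hM : M ≤ 2 * N) (h : 0 < Δ)
    (h1 : Δ ≤ 1) (t : ℝ) :
    ‖(∫ v in log N..log M, GG Δ v (1 + t * Complex.I)) - MT N M t‖ ≤ 15 * (N * Δ) := by
  have hs : (1 : ℂ) + t * Complex.I ≠ 0 := fun e => by simpa using congrArg Complex.re e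
  have e1 : ∀ v : ℝ, GG Δ v (1 + t * Complex.I) =
      GG Δ 0 (1 + t * Complex.I) * Complex.exp ((1 + t * Complex.I) * v) := fun v => by
    rw [GG, GG, ← Complex.exp_add]
    congr 1
    push_cast
    ring
  have e2 : (∫ v in log N..log M, GG Δ v (1 + t * Complex.I)) - MT N M t =
      (GG Δ 0 (1 + t * Complex.I) - 1) * MT N M t := by
    rw [intervalIntegral.integral_congr (fun v _ => e1 v), intervalIntegral.integral_const_mul,
      integral_exp_mul_complex hs, exp_log_PCut hN, exp_log_PCut (hN.trans_le hNM), sub_mul,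
      one_mul, MT]
  have hρ : 0 < 1 + |t| := by positivity
  have hN0 : (0 : ℝ) ≤ N := Nat.cast_nonneg N
  rw [e2, norm_mul]
  refine (mul_le_mul_of_nonneg_left (norm_MT_le hM t) (norm_nonneg _)).trans ?_
  have key : ‖GG Δ 0 (1 + t * Complex.I) - 1‖ ≤ 3 * (Δ * (1 + |t|)) := by
    rcases le_total (Δ * (1 + |t|)) 1 with hc | hc
    · have a1 : ‖(1 : ℂ) + t * Complex.I‖ ≤ 1 + |t| :=
        (norm_add_le _ _).trans (by simp)
      have a2 : ‖(Δ : ℂ) ^ 2 * (1 + t * Complex.I) ^ 2 / (4 * π)‖ ≤ Δ * (1 + |t|) := by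
        have a3 : ‖(4 * π : ℂ)‖ = 4 * π := by
          rw [norm_mul, Complex.norm_real, Real.norm_of_nonneg pi_pos.le]
          simp
        rw [norm_div, norm_mul, norm_pow, norm_pow, Complex.norm_real, Real.norm_of_nonneg h.le,
          a3, div_le_iff₀ (by positivity), ← mul_pow]
        have a4 : Δ * ‖(1 : ℂ) + t * Complex.I‖ ≤ Δ * (1 + |t|) :=
          mul_le_mul_of_nonneg_left a1 h.le
        have a5 := pow_le_pow_left₀ (by positivity) a4 2
        have a6 : 0 ≤ Δ * (1 + |t|) := by positivity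
        nlinarith [pi_gt_three]
      have a7 : GG Δ 0 (1 + t * Complex.I) =
          Complex.exp ((Δ : ℂ) ^ 2 * (1 + t * Complex.I) ^ 2 / (4 * π)) := by
        rw [GG]
        congr 1
        simp
      rw [a7]
      have a8 := Complex.norm_exp_sub_one_le (a2.trans hc)
      have a6 : 0 ≤ Δ * (1 + |t|) := by positivity
      linarith
    · have a1 := norm_GG_le_EF (v := 0) (σ := 1) t h h1 zero_le_one one_le_two
      rw [Complex.ofReal_one, mul_zero, exp_zero, mul_one] at a1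
      have a2 : exp (-(Δ ^ 2 * t ^ 2 / (4 * π))) ≤ 1 :=
        exp_le_one_iff.2 (neg_nonpos.2 (by positivity))
      have a3 := norm_sub_le (GG Δ 0 (1 + t * Complex.I)) 1
      rw [norm_one] at a3
      linarith
  refine (mul_le_mul_of_nonneg_right key (by positivity)).trans (le_of_eq ?_)
  field_simp
  ring

lemma int_PCut {Δ a b B : ℝ} (hab : a ≤ b) (hb : b ≤ a + 1) (hB : 0 ≤ B) (t : ℝ) (S : Finset ℕ)
    (c : ℕ → ℂ) (hS : ∀ v ∈ Set.Icc a b,
      ‖∑ n ∈ S, c n * (gg Δ (v - log n) : ℂ) - GG Δ v (1 + t * Complex.I)‖ ≤ B) :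
    ‖∑ n ∈ S, c n * ((∫ v in a..b, gg Δ (v - log n) : ℝ) : ℂ) -
      ∫ v in a..b, GG Δ v (1 + t * Complex.I)‖ ≤ B := by
  have c1 : ∀ n : ℕ, Continuous fun v : ℝ => c n * (gg Δ (v - log n) : ℂ) := fun n => by
    unfold gg
    fun_prop
  have c2 : Continuous fun v : ℝ => GG Δ v (1 + t * Complex.I) := by
    unfold GG
    fun_prop
  have e : ∑ n ∈ S, c n * ((∫ v in a..b, gg Δ (v - log n) : ℝ) : ℂ) =
      ∫ v in a..b, ∑ n ∈ S, c n * (gg Δ (v - log n) : ℂ) := by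
    rw [intervalIntegral.integral_finsetSum fun n _ => (c1 n).intervalIntegrable a b]
    refine sum_congr rfl fun n _ => ?_
    rw [intervalIntegral.integral_const_mul, intervalIntegral.integral_ofReal]
  rw [e, ← intervalIntegral.integral_sub
    ((continuous_finsetSum _ fun n _ => c1 n).intervalIntegrable a b) (c2.intervalIntegrable a b)]
  refine (intervalIntegral.norm_integral_le_of_norm_le_const (C := B) fun v hv => ?_).trans ?_
  · rw [Set.uIoc_of_le hab] at hv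
    exact hS v ⟨hv.1.le, hv.2⟩
  · rw [abs_of_nonneg (by linarith)]
    exact mul_le_of_le_one_right hB (by linarith)

lemma up_PCut {x d : ℝ} {n : ℕ} (hx : 0 < x) (hd : 0 < d) (hd' : d ≤ 1 / 2)
    (hn : ⌈x * (1 + 2 * d)⌉₊ < n) : x < n ∧ log x + d ≤ log n := by
  have e1 : exp d ≤ 1 + 2 * d := by
    refine (exp_bound_div_one_sub_of_interval hd.le (by linarith)).trans ?_
    rw [div_le_iff₀ (by linarith)]
    nlinarith
  have a1 : x * (1 + 2 * d) ≤ n := (Nat.le_ceil _).trans (by exact_mod_cast hn.le)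
  refine ⟨by nlinarith, ?_⟩
  have a2 : log (x * exp d) ≤ log n :=
    log_le_log (by positivity) ((mul_le_mul_of_nonneg_left e1 hx.le).trans a1)
  rwa [log_mul hx.ne' (exp_ne_zero _), log_exp] at a2

lemma low_PCut {x d : ℝ} {n : ℕ} (hx : 3 ≤ x) (hd : 0 < d) (hd' : d ≤ 1 / 2)
    (hn : n ≤ ⌊x * (1 - d)⌋₊) : n ≤ x ∧ log n + d ≤ log x := by
  have e2 : 1 - d ≤ exp (-d) := by linarith [add_one_le_exp (-d)]
  have a1 : (n : ℝ) ≤ x * (1 - d) :=
    le_trans (by exact_mod_cast hn) (Nat.floor_le (mul_nonneg (by linarith) (by linarith)))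
  refine ⟨by nlinarith, ?_⟩
  rcases n.eq_zero_or_pos with rfl | h0
  · have a2 : 1 ≤ log x := by
      rw [le_log_iff_exp_le (by linarith)]
      linarith [exp_one_lt_d9]
    simp only [Nat.cast_zero, log_zero]
    linarith
  · have a2 : log n ≤ log (x * exp (-d)) :=
      log_le_log (by exact_mod_cast h0) (a1.trans (mul_le_mul_of_nonneg_left e2 (by linarith)))
    rw [log_mul (by linarith) (exp_ne_zero _), log_exp] at a2
    linarith

lemma card_PCut {x d : ℝ} (hx : 0 ≤ x) (hd : 0 ≤ d) :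
    ((Ioc ⌊x * (1 - d)⌋₊ ⌈x * (1 + 2 * d)⌉₊).card : ℝ) ≤ 3 * x * d + 2 := by
  have a1 : x * (1 - d) < ⌊x * (1 - d)⌋₊ + 1 := Nat.lt_floor_add_one _
  have a2 : (⌈x * (1 + 2 * d)⌉₊ : ℝ) < x * (1 + 2 * d) + 1 := Nat.ceil_lt_add_one (by positivity)
  rw [Nat.card_Ioc]
  rcases le_total ⌊x * (1 - d)⌋₊ ⌈x * (1 + 2 * d)⌉₊ with h | h
  · rw [Nat.cast_sub h]
    linarith
  · rw [Nat.sub_eq_zero_of_le h, Nat.cast_zero]
    positivity

lemma cut_PCut {N M : ℕ} {Δ d : ℝ} (hN : 3 ≤ N) (hNM : N ≤ M) (hM : M ≤ 2 * N) (h : 0 < Δ)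
    (hd : 0 < d) (hd' : d ≤ 1 / 2) (t : ℝ) :
    ‖LT N M t - ∑ n ∈ Ioc ⌊(N : ℝ) * (1 - d)⌋₊ ⌈(M : ℝ) * (1 + 2 * d)⌉₊,
      (vonMangoldt n : ℂ) * GM.pw (n : ℝ) t *
        ((∫ v in log N..log M, gg Δ (v - log n) : ℝ) : ℂ)‖ ≤
      3 * log N * (10 * hh_Sand Δ d * N + 9 * (N * d + 1)) := by
  have hN' : (3 : ℝ) ≤ N := by exact_mod_cast hN
  have hNM' : (N : ℝ) ≤ M := by exact_mod_cast hNM
  have hM' : (M : ℝ) ≤ 2 * N := by exact_mod_cast hM
  have hab : log N ≤ log M := log_le_log (by linarith) hNM'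
  have hq : 0 < hh_Sand Δ d := exp_pos _
  have hL : 0 ≤ log N := log_nonneg (by linarith)
  obtain ⟨S, hS⟩ : ∃ S, S = Ioc ⌊(N : ℝ) * (1 - d)⌋₊ ⌈(M : ℝ) * (1 + 2 * d)⌉₊ := ⟨_, rfl⟩
  obtain ⟨U, hU⟩ : ∃ U, U = Ioc ⌊(N : ℝ) * (1 - d)⌋₊ ⌈(N : ℝ) * (1 + 2 * d)⌉₊ ∪
    Ioc ⌊(M : ℝ) * (1 - d)⌋₊ ⌈(M : ℝ) * (1 + 2 * d)⌉₊ := ⟨_, rfl⟩
  have hB : (⌈(M : ℝ) * (1 + 2 * d)⌉₊ : ℝ) ≤ 5 * N := by
    have a2 : (⌈(M : ℝ) * (1 + 2 * d)⌉₊ : ℝ) < M * (1 + 2 * d) + 1 :=
      Nat.ceil_lt_add_one (by positivity)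
    nlinarith
  have hsub : Ioc N M ⊆ S := by
    rw [hS]
    refine Ioc_subset_Ioc ?_ ?_
    · exact_mod_cast (low_PCut hN' hd hd' le_rfl).1
    · by_contra hc
      exact lt_irrefl _ (up_PCut (by linarith) hd hd' (not_le.1 hc)).1
  have e : LT N M t = ∑ n ∈ S, (vonMangoldt n : ℂ) * GM.pw (n : ℝ) t *
      ((if n ∈ Ioc N M then 1 else 0 : ℝ) : ℂ) := by
    rw [LT, ← sum_subset hsub fun n _ hn => by rw [if_neg hn]; simp]
    exact sum_congr rfl fun n hn => by rw [if_pos hn]; simp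
  have cS : (S.card : ℝ) ≤ 5 * N := by
    refine le_trans ?_ hB
    rw [hS, Nat.card_Ioc]
    exact_mod_cast Nat.sub_le _ _
  have cU : (U.card : ℝ) ≤ 9 * (N * d + 1) := by
    have a1 := card_PCut (x := N) (by linarith) hd.le
    have a2 := card_PCut (x := M) (by linarith) hd.le
    have a3 : (U.card : ℝ) ≤ (Ioc ⌊(N : ℝ) * (1 - d)⌋₊ ⌈(N : ℝ) * (1 + 2 * d)⌉₊).card +
        (Ioc ⌊(M : ℝ) * (1 - d)⌋₊ ⌈(M : ℝ) * (1 + 2 * d)⌉₊).card := by
      rw [hU]
      exact_mod_cast card_union_le _ _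
    nlinarith
  rw [← hS, e, ← sum_sub_distrib]
  refine (norm_sum_le_of_le S (n := fun n =>
    3 * log N * (2 * hh_Sand Δ d + if n ∈ U then 1 else 0)) fun n hn => ?_).trans ?_
  · have hn' := hn
    rw [hS, mem_Ioc] at hn'
    have a0 : (0 : ℝ) < n := by exact_mod_cast (Nat.zero_le _).trans_lt hn'.1
    have a1 : vonMangoldt n ≤ 3 * log N := by
      refine ArithmeticFunction.vonMangoldt_le_log.trans ?_
      have a2 : (n : ℝ) ≤ (N : ℝ) ^ 3 := by
        have a3 : (n : ℝ) ≤ 5 * N := le_trans (by exact_mod_cast hn'.2) hB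
        have a4 : 9 ≤ (N : ℝ) ^ 2 := by nlinarith
        nlinarith
      have a5 := log_le_log a0 a2
      rwa [log_pow, Nat.cast_ofNat] at a5
    have b1 := int_le_Sand h hab (log n)
    have b2 : 0 ≤ ∫ v in log N..log M, gg Δ (v - log n) :=
      intervalIntegral.integral_nonneg hab fun v _ => gg_nonneg_Sand h _
    rw [← mul_sub, norm_mul, norm_mul, GM.norm_pw, mul_one, ← Complex.ofReal_sub,
      Complex.norm_real, Complex.norm_real,
      Real.norm_of_nonneg ArithmeticFunction.vonMangoldt_nonneg, Real.norm_eq_abs]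
    refine mul_le_mul a1 ?_ (abs_nonneg _) (by positivity)
    by_cases hu : n ∈ U
    · rw [if_pos hu, abs_le]
      split_ifs <;> constructor <;> linarith
    · rw [if_neg hu]
      rw [hU, mem_union, mem_Ioc, mem_Ioc, not_or, not_and, not_and', not_le, not_lt] at hu
      have b3 := up_PCut (by linarith) hd hd' (hu.1 hn'.1)
      have b4 := low_PCut (by linarith) hd hd' (hu.2 hn'.2)
      have b5 := le_int_Sand h hd.le b3.2 b4.2
      rw [if_pos (mem_Ioc.2 ⟨by exact_mod_cast b3.1, by exact_mod_cast b4.1⟩), abs_le]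
      constructor <;> linarith
  · rw [← mul_sum, sum_add_distrib, sum_const, nsmul_eq_mul, sum_ite_mem, sum_const, nsmul_eq_mul,
      mul_one]
    refine mul_le_mul_of_nonneg_left ?_ (by positivity)
    have a1 : ((S ∩ U).card : ℝ) ≤ U.card := by exact_mod_cast card_le_card inter_subset_right
    nlinarith

theorem pCut : CutStmt := by
  obtain ⟨C, hC⟩ : ∃ C, C = ∑' n, ww_Sand n := ⟨_, rfl⟩
  have hC0 : 0 ≤ C := hC ▸ tsum_nonneg fun n =>
    mul_nonneg ArithmeticFunction.vonMangoldt_nonneg (exp_nonneg _)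
  refine ⟨4 * exp 1 * C + 30, by positivity, fun N M Δ d t E hN hNM hM h h1 hd hd' hE hP => ?_⟩
  change _ ≤ E + _ * (_ + _ + hh_Sand Δ d * _ / _)
  have hN' : (3 : ℝ) ≤ N := by exact_mod_cast hN
  have hNM' : (N : ℝ) ≤ M := by exact_mod_cast hNM
  have hM' : (M : ℝ) ≤ 2 * N := by exact_mod_cast hM
  have hab : log N ≤ log M := log_le_log (by linarith) hNM'
  have l2 : log M ≤ log N + 1 := by
    have a1 : log M ≤ log (2 * N) := log_le_log (by linarith) hM'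
    rw [log_mul two_ne_zero (by linarith)] at a1
    linarith [log_two_lt_d9]
  have hq : 0 < hh_Sand Δ d := exp_pos _
  have hL : 0 ≤ log N := log_nonneg (by linarith)
  obtain ⟨K, hK⟩ : ∃ K, K = Δ⁻¹ * hh_Sand Δ d * (4 * (N : ℝ) ^ 2 * exp 1) * C := ⟨_, rfl⟩
  have hK0 : 0 ≤ K := by rw [hK]; positivity
  obtain ⟨R, hR⟩ : ∃ R, R = hh_Sand Δ d * (N : ℝ) ^ 3 / Δ := ⟨_, rfl⟩
  have hK1 : K ≤ 4 * exp 1 * C * R := by
    have a1 : 4 * exp 1 * C * (N : ℝ) ^ 2 ≤ 4 * exp 1 * C * (N : ℝ) ^ 3 :=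
      mul_le_mul_of_nonneg_left (pow_le_pow_right₀ (by linarith) (by norm_num)) (by positivity)
    have a2 := mul_le_mul_of_nonneg_left a1 (show 0 ≤ Δ⁻¹ * hh_Sand Δ d by positivity)
    rw [hK, hR, div_eq_mul_inv]
    linarith
  have hK2 : log N * (hh_Sand Δ d * N) ≤ R := by
    have a1 : log N ≤ (N : ℝ) ^ 2 := by
      nlinarith [log_le_sub_one_of_pos (show (0 : ℝ) < N by linarith)]
    have a2 : log N * (hh_Sand Δ d * N) ≤ hh_Sand Δ d * (N : ℝ) ^ 3 :=
      (mul_le_mul_of_nonneg_right a1 (by positivity)).trans (le_of_eq (by ring))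
    rw [hR]
    exact a2.trans (le_div_self (by positivity) h h1)
  have c1 := cut_PCut hN hNM hM h hd hd' t
  have c3 := main_PCut (by omega) hNM hM h h1 t
  have c2 := int_PCut (Δ := Δ) hab l2 (add_nonneg hE hK0) t
    (Ioc ⌊(N : ℝ) * (1 - d)⌋₊ ⌈(M : ℝ) * (1 + 2 * d)⌉₊)
    (fun n => (vonMangoldt n : ℂ) * GM.pw (n : ℝ) t) fun v hv => by
      have b3 := tail_PCut h h1 hd.le t (Ioc ⌊(N : ℝ) * (1 - d)⌋₊ ⌈(M : ℝ) * (1 + 2 * d)⌉₊)
        (v := v) fun n hn => by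
          rw [mem_Ioc, not_and_or, not_lt, not_le] at hn
          refine le_abs.2 (hn.imp (fun hn => ?_) fun hn => ?_)
          · linarith [hv.1, (low_PCut hN' hd hd' hn).2]
          · linarith [hv.2, (up_PCut (by linarith) hd hd' hn).2]
      have b4 : exp (2 * v + 1) ≤ 4 * (N : ℝ) ^ 2 * exp 1 := by
        have b5 : exp v ≤ 2 * N := by
          refine (exp_le_exp.2 hv.2).trans ?_
          rw [exp_log (by linarith)]
          exact hM'
        rw [exp_add, two_mul, exp_add]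
        refine mul_le_mul_of_nonneg_right ?_ (exp_nonneg _)
        nlinarith [exp_pos v]
      have b6 : Δ⁻¹ * hh_Sand Δ d * exp (2 * v + 1) * C ≤ K := by
        rw [hK]
        gcongr
      rw [← hC, norm_sub_rev] at b3
      exact (norm_sub_le_norm_sub_add_norm_sub _ (PT Δ v t) _).trans
        (by linarith [hP v hv])
  refine (norm_sub_le_norm_sub_add_norm_sub _ _ _).trans ((add_le_add c1
    ((norm_sub_le_norm_sub_add_norm_sub _ _ _).trans (add_le_add c2 c3))).trans ?_)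
  rw [← hR]
  have d1 : 0 ≤ (N * d + 1) * log N := by positivity
  have d2 : 0 ≤ N * Δ := by positivity
  have d3 : 0 ≤ 4 * exp 1 * C := by positivity
  nlinarith [mul_nonneg d3 d1, mul_nonneg d3 d2]

end Pool.Agent.MP_c853c5_nt.Z
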