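import Pool.Agent.MP_c853c5_nt.Z.PDefs
import Pool.Agent.MP_c853c5_nt.Z.EF

set_option autoImplicit false

open Finset Filter

namespace Pool.Agent.MP_c853c5_nt.Z

open Pool.Agent.MP_2a1f0e_nt

lemma GG_PEt {Δ v σ : ℝ} (u t : ℝ) (h0 : 0 < Δ) (h1 : Δ ≤ 1) (hs0 : 0 ≤ σ) (hs : σ ≤ 2) :
    ‖GG Δ v (σ + u * Complex.I + t * Complex.I)‖ ≤
      2 * Real.exp (σ * v) * Real.exp (-(Δ ^ 2 * (u + t) ^ 2 / (4 * Real.pi))) := by
  have := norm_GG_le_EF (v := v) (u + t) h0 h1 hs0 hs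
  rwa [Complex.ofReal_add, add_mul, ← add_assoc] at this

lemma left_PEt {Δ v t a c d K : ℝ} {f : ℝ → ℝ} (h0 : 0 < Δ) (h1 : Δ ≤ 1) (a0 : 0 ≤ a) (a2 : a ≤ 2)
    (hcd : c ≤ d) (hK : 0 ≤ K) (hf : ∀ u ∈ Set.Ioc c d, 0 ≤ f u ∧ f u ≤ K) :
    ∫ u in c..d, f u * ‖GG Δ v (a + u * Complex.I + t * Complex.I)‖ ≤
      24 * (K / Δ * Real.exp (a * v)) := by
  have hp0 := Real.pi_pos
  have hi : MeasureTheory.Integrable fun u : ℝ => K * (2 * Real.exp (a * v)) *
      Real.exp (-(Δ ^ 2 / (8 * Real.pi)) * (u + t) ^ 2) :=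
    ((integrable_exp_neg_mul_sq (by positivity)).comp_add_right t).const_mul _
  refine (Real.le_norm_self _).trans ((intervalIntegral.norm_integral_le_of_norm_le hcd
    (Eventually.of_forall fun u hu => ?_) hi.intervalIntegrable).trans ?_)
  · rw [Real.norm_of_nonneg (mul_nonneg (hf u hu).1 (norm_nonneg _)), mul_assoc]
    refine mul_le_mul (hf u hu).2 ((GG_PEt u t h0 h1 a0 a2).trans ?_) (norm_nonneg _) hK
    have : -(Δ ^ 2 * (u + t) ^ 2 / (4 * Real.pi)) ≤ -(Δ ^ 2 / (8 * Real.pi)) * (u + t) ^ 2 := by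
      rw [neg_mul, div_mul_eq_mul_div]
      refine neg_le_neg ?_
      gcongr
      norm_num
    gcongr
  · rw [intervalIntegral.integral_of_le hcd]
    refine (MeasureTheory.setIntegral_le_integral hi
      (Eventually.of_forall fun u => by positivity)).trans ?_
    rw [MeasureTheory.integral_const_mul, MeasureTheory.integral_add_right_eq_self
      (fun u : ℝ => Real.exp (-(Δ ^ 2 / (8 * Real.pi)) * u ^ 2)) t]
    exact (mul_le_mul_of_nonneg_left (gauss_int_EF h0) (by positivity)).trans_eq (by ring)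

lemma hor_PEt {Δ v t T a u K : ℝ} {f : ℝ → ℝ} (h0 : 0 < Δ) (h1 : Δ ≤ 1) (hv : 0 ≤ v)
    (a0 : 0 ≤ a) (a2 : a ≤ 2) (hT : 0 ≤ T) (hu : T / 2 ≤ |u + t|) (hK : 0 ≤ K)
    (hf : ∀ σ ∈ Set.Ioc a 2, 0 ≤ f σ ∧ f σ ≤ K) :
    ∫ σ in a..2, f σ * ‖GG Δ v (σ + u * Complex.I + t * Complex.I)‖ ≤
      4 * (K * (Real.exp (2 * v) * Real.exp (-(Δ ^ 2 * T ^ 2 / (32 * Real.pi))))) := by
  have hp0 := Real.pi_pos
  refine (Real.le_norm_self _).trans ((intervalIntegral.norm_integral_le_of_norm_le_const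
    (C := K * (2 * Real.exp (2 * v) * Real.exp (-(Δ ^ 2 * T ^ 2 / (32 * Real.pi)))))
    fun σ hσ => ?_).trans ?_)
  · rw [Set.uIoc_of_le a2] at hσ
    rw [Real.norm_of_nonneg (mul_nonneg (hf σ hσ).1 (norm_nonneg _))]
    refine mul_le_mul (hf σ hσ).2 ((GG_PEt u t h0 h1 (a0.trans hσ.1.le) hσ.2).trans ?_)
      (norm_nonneg _) hK
    have b4 : (T / 2) ^ 2 ≤ (u + t) ^ 2 := by
      rw [← sq_abs (u + t)]
      gcongr
    have b5 : -(Δ ^ 2 * (u + t) ^ 2 / (4 * Real.pi)) ≤ -(Δ ^ 2 * T ^ 2 / (32 * Real.pi)) := by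
      refine neg_le_neg ?_
      rw [div_le_div_iff₀ (by positivity) (by positivity)]
      nlinarith [mul_le_mul_of_nonneg_left b4 (show 0 ≤ Δ ^ 2 * Real.pi by positivity),
        show 0 ≤ Δ ^ 2 * Real.pi * T ^ 2 by positivity]
    have := hσ.2
    gcongr
  · have e : |2 - a| ≤ 2 := by
      rw [abs_of_nonneg (by linarith)]
      linarith
    exact (mul_le_mul_of_nonneg_left e (by positivity)).trans_eq (by ring)

theorem pEt (hG : GtStmt) (hL : LdStmt) (hR : ResStmt) : EtStmt := by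
  obtain ⟨C, T₀, hC, hT₀, hL⟩ := hL
  obtain ⟨C0, hC0, hS⟩ := LS_bd_EF
  refine ⟨24 * C0 + 32 * (C + 2), T₀, by positivity, hT₀, fun Δ v t T h0 h1 hv hT ht => ?_⟩
  have t0 := abs_nonneg t
  have t1 := le_abs_self t
  have t2 := neg_abs_le t
  have l1 : 1 ≤ Real.log T := by
    rw [Real.le_log_iff_exp_le (by linarith)]
    have := Real.exp_one_lt_d9
    linarith
  replace hL := hL T hT
  have d1 : Real.log T ^ (-(39 / 40) : ℝ) ≤ 1 :=
    Real.rpow_le_one_of_one_le_of_nonpos l1 (by norm_num)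
  have d2 : (Real.log T ^ 2)⁻¹ ≤ Real.log T ^ (-(39 / 40) : ℝ) := by
    rw [← Real.rpow_natCast, ← Real.rpow_neg (by linarith)]
    exact Real.rpow_le_rpow_of_exponent_le l1 (by norm_num)
  have l2 : 1 ≤ Real.log T ^ 2 := one_le_pow₀ l1
  generalize Real.log T ^ 2 = L at *
  generalize Real.log T ^ (-(39 / 40) : ℝ) = δ at *
  have d0 : 0 < δ := lt_of_lt_of_le (by positivity) d2
  have d3 : 1 / (1 - (1 - δ / 2)) ≤ 2 * L := by
    rw [inv_le_iff_one_le_mul₀ (by linarith)] at d2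
    rw [div_le_iff₀ (by linarith)]
    linarith
  have a1 : 1 - δ / 2 < 1 := by linarith
  have a0 : 0 ≤ 1 - δ / 2 := by linarith
  generalize 1 - δ / 2 = a at *
  have hL' : ∀ σ u : ℝ, a ≤ σ → σ ≤ 2 → -(T - 2) ≤ u → u ≤ T - 2 →
      riemannZeta₁ (σ + u * Complex.I) ≠ 0 ∧
        ‖logDeriv riemannZeta₁ (σ + u * Complex.I)‖ ≤ C * L := fun σ u b1 b2 b3 b4 =>
    hL _ (by simpa using b1) (by simpa using b2) (by simpa using abs_le.2 ⟨b3, b4⟩)
  obtain ⟨hFi, hP⟩ := hG Δ v t h0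
  have cd : -(T - 2) ≤ T - 2 := by linarith
  obtain ⟨Z, hZ, hb⟩ := hR (fun s => GG Δ v (s + t * Complex.I)) a (-(T - 2)) (T - 2)
    ((diff_GG_EF Δ v).comp (differentiable_id.add_const _)) a1 (by linarith) (by linarith)
    (fun σ hσ => ⟨(hL' σ _ hσ.1 hσ.2 le_rfl cd).1, (hL' σ _ hσ.1 hσ.2 cd le_rfl).1⟩)
    fun u hu => (hL' a u le_rfl (by linarith) hu.1 hu.2).1
  obtain rfl : Z = ∅ := eq_empty_of_forall_notMem fun ρ hρ => by
    obtain ⟨z1, z2, z3, z4, z5⟩ := hZ ρ hρ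
    exact (hL ρ z2 z3 (abs_le.2 ⟨z4, z5⟩)).1 z1
  rw [sum_empty, sub_zero] at hb
  have s1 := tail_EF (v := v) (T := T / 2) (c := -(T - 2) + t) (d := T - 2 + t) _ h0 (by linarith)
    (by linarith) (by linarith) hC0 (hFi.comp_sub_right t) fun u => by
      rw [norm_mul]
      have := GG_PEt (v := v) (σ := 2) (u - t) t h0 h1 (by norm_num) le_rfl
      rw [Complex.ofReal_ofNat, sub_add_cancel] at this
      exact mul_le_mul (hS _) this (norm_nonneg _) hC0
  rw [MeasureTheory.integral_sub_right_eq_self (fun u : ℝ =>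
      LSeries (fun n => (ArithmeticFunction.vonMangoldt n : ℂ)) (2 + u * Complex.I) *
        GG Δ v (2 + u * Complex.I + t * Complex.I)) t,
    intervalIntegral.integral_comp_sub_right (fun u : ℝ =>
      LSeries (fun n => (ArithmeticFunction.vonMangoldt n : ℂ)) (2 + u * Complex.I) *
        GG Δ v (2 + u * Complex.I + t * Complex.I)) t, add_sub_cancel_right, add_sub_cancel_right,
    show Δ ^ 2 * (T / 2) ^ 2 / (8 * Real.pi) = Δ ^ 2 * T ^ 2 / (32 * Real.pi) by ring] at s1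
  have K0 : 0 ≤ (C + 2) * L := by positivity
  have s2 := left_PEt (v := v) (t := t) (K := (C + 2) * L) (f := fun u : ℝ =>
    ‖logDeriv riemannZeta₁ (a + u * Complex.I)‖ + 1 / (1 - a)) h0 h1 a0 (by linarith) cd K0
    fun u hu => ⟨add_nonneg (norm_nonneg _) (one_div_nonneg.2 (by linarith)), by
      linarith [(hL' a u le_rfl (by linarith) hu.1.le hu.2).2]⟩
  have s3 : ∀ u : ℝ, |u| = T - 2 → ∫ σ in a..2,
      (‖logDeriv riemannZeta₁ (σ + u * Complex.I)‖ + 1 / |u|) *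
        ‖GG Δ v (σ + u * Complex.I + t * Complex.I)‖ ≤ 4 * ((C + 2) * L *
          (Real.exp (2 * v) * Real.exp (-(Δ ^ 2 * T ^ 2 / (32 * Real.pi))))) := fun u hu =>
    hor_PEt (f := fun σ : ℝ => ‖logDeriv riemannZeta₁ (σ + u * Complex.I)‖ + 1 / |u|) h0 h1 hv a0
      (by linarith) (by linarith) (by linarith [abs_sub (u + t) t, add_sub_cancel_right u t ▸ hu])
      K0 fun σ hσ => ⟨by positivity, by
        have b1 : 1 / |u| ≤ 1 := by
          rw [div_le_one (by linarith)]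
          linarith
        obtain ⟨b2, b3⟩ := abs_le.1 hu.le
        linarith [(hL' σ u hσ.1.le hσ.2 b2 b3).2]⟩
  have s4 := s3 (T - 2) (abs_of_nonneg (by linarith))
  have s5 := s3 (-(T - 2)) ((abs_neg _).trans (abs_of_nonneg (by linarith)))
  have hp : 3 < Real.pi := Real.pi_gt_three
  have hpc : (Real.pi : ℂ) ≠ 0 := by exact_mod_cast Real.pi_ne_zero
  have n1 : ‖(1 / (2 * Real.pi) : ℂ)‖ ≤ 1 := by
    rw [norm_div, norm_one, norm_mul, Complex.norm_real, Real.norm_of_nonneg Real.pi_pos.le,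
      Complex.norm_ofNat, div_le_one (by positivity)]
    linarith
  have n2 : ∀ x y z : ℂ, ‖1 / (2 * Real.pi) * x - z‖ ≤ ‖x - y‖ + ‖y - 2 * Real.pi * z‖ := by
    intro x y z
    rw [show 1 / (2 * Real.pi) * x - z = 1 / (2 * Real.pi) * ((x - y) + (y - 2 * Real.pi * z)) by
      field_simp
      ring, norm_mul]
    exact (mul_le_of_le_one_left (norm_nonneg _) n1).trans (norm_add_le _ _)
  rw [hP]
  refine (n2 _ _ _).trans ((add_le_add s1 (hb.trans (add_le_add_three s2 s5 s4))).trans ?_)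
  have pA := (Real.exp_pos (a * v)).le
  have pB : 0 ≤ Real.exp (2 * v) * Real.exp (-(Δ ^ 2 * T ^ 2 / (32 * Real.pi))) := by positivity
  rw [mul_right_comm (Real.exp (2 * v)), mul_div_assoc (C + 2), mul_div_assoc _ L]
  generalize Real.exp (2 * v) * Real.exp (-(Δ ^ 2 * T ^ 2 / (32 * Real.pi))) = B at *
  generalize Real.exp (a * v) = A at *
  have q1 : 1 / Δ ≤ L / Δ := by gcongr
  have q2 : L ≤ L / Δ := le_div_self (by linarith) h0 h1
  have q0 : 0 ≤ L / Δ := by positivity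
  generalize L / Δ = Q at *
  have r1 := mul_le_mul_of_nonneg_left q1 (mul_nonneg hC0 pB)
  have r2 := mul_le_mul_of_nonneg_left q2 (mul_nonneg (show 0 ≤ C + 2 by positivity) pB)
  have r3 : 0 ≤ C0 * (Q * A) := by positivity
  have r4 : 0 ≤ (C + 2) * (Q * A) := by positivity
  have r5 : 0 ≤ (C + 2) * (Q * B) := by positivity
  linarith

end Pool.Agent.MP_c853c5_nt.Z
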