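import Pool.Agent.MP_c853c5_nt.Z.Basic

set_option autoImplicit false

open Finset MeasureTheory

namespace Pool.Agent.MP_c853c5_nt.Z

lemma GG_eq_Gauss (Δ w t : ℝ) : GG Δ w (2 + t * Complex.I) =
    Complex.exp (-((Δ : ℂ) ^ 2 / (4 * Real.pi)) * (t : ℂ) ^ 2 +
      Complex.I * (w + (Δ : ℂ) ^ 2 / Real.pi) * t + (2 * w + (Δ : ℂ) ^ 2 / Real.pi)) := by
  have hpi : (Real.pi : ℂ) ≠ 0 := by exact_mod_cast Real.pi_ne_zero
  unfold GG
  congr 1
  field_simp
  linear_combination ((Δ : ℂ) ^ 2 * (t : ℂ) ^ 2) * Complex.I_sq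

lemma neg_Gauss {Δ : ℝ} (hΔ : 0 < Δ) : (-((Δ : ℂ) ^ 2 / (4 * Real.pi))).re < 0 := by
  have e : -((Δ : ℂ) ^ 2 / (4 * Real.pi)) = ((-(Δ ^ 2 / (4 * Real.pi)) : ℝ) : ℂ) := by
    push_cast
    rfl
  rw [e, Complex.ofReal_re, neg_lt_zero]
  have := Real.pi_pos
  positivity

lemma integrable_GG_Gauss {Δ : ℝ} (hΔ : 0 < Δ) (w : ℝ) :
    Integrable fun t : ℝ => GG Δ w (2 + t * Complex.I) := by
  simp only [GG_eq_Gauss]
  exact integrable_cexp_quadratic' (neg_Gauss hΔ) _ _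

lemma integral_GG_Gauss {Δ : ℝ} (hΔ : 0 < Δ) (w : ℝ) :
    ∫ t : ℝ, GG Δ w (2 + t * Complex.I) = 2 * Real.pi * (gg Δ w : ℂ) := by
  have hpi : (Real.pi : ℂ) ≠ 0 := by exact_mod_cast Real.pi_ne_zero
  have hΔ' : (Δ : ℂ) ≠ 0 := by exact_mod_cast hΔ.ne'
  simp only [GG_eq_Gauss]
  rw [integral_cexp_quadratic (neg_Gauss hΔ)]
  have e1 : (Real.pi : ℂ) / - -((Δ : ℂ) ^ 2 / (4 * Real.pi)) =
      (((2 * Real.pi / Δ : ℝ) : ℂ)) ^ (2 : ℕ) := by
    push_cast
    field_simp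
    norm_num
  have e2 : (2 * w + (Δ : ℂ) ^ 2 / Real.pi) - (Complex.I * (w + (Δ : ℂ) ^ 2 / Real.pi)) ^ 2 /
      (4 * -((Δ : ℂ) ^ 2 / (4 * Real.pi))) = ((-(Real.pi * w ^ 2 / Δ ^ 2) : ℝ) : ℂ) := by
    rw [mul_pow, Complex.I_sq]
    push_cast
    field_simp
    ring
  have hp : 0 < (((2 * Real.pi / Δ : ℝ) : ℂ)).re := by
    rw [Complex.ofReal_re]
    have := Real.pi_pos
    positivity
  rw [e1, e2, one_div, Complex.sq_cpow_two_inv hp, gg, ← Complex.ofReal_exp]
  push_cast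
  ring

lemma term_GG_Gauss (f : ℕ → ℂ) (Δ v : ℝ) (s : ℂ) {n : ℕ} (hn : n ≠ 0) :
    LSeries.term f s n * GG Δ v s = f n * GG Δ (v - Real.log n) s := by
  have hn' : (n : ℂ) ≠ 0 := by exact_mod_cast hn
  rw [LSeries.term_of_ne_zero hn, Complex.cpow_def_of_ne_zero hn', div_eq_mul_inv,
    ← Complex.exp_neg, mul_assoc]
  unfold GG
  rw [← Complex.exp_add, ← Complex.natCast_log]
  congr 2
  push_cast
  ring

lemma norm_term_Gauss (f : ℕ → ℂ) (t : ℝ) (n : ℕ) :
    ‖LSeries.term f (2 + t * Complex.I) n‖ = ‖LSeries.term f 2 n‖ := by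
  rw [LSeries.norm_term_eq, LSeries.norm_term_eq]
  simp

lemma cont_term_Gauss (f : ℕ → ℂ) (n : ℕ) :
    Continuous fun t : ℝ => LSeries.term f (2 + t * Complex.I) n := by
  rcases eq_or_ne n 0 with rfl | hn
  · simpa only [LSeries.term_zero] using continuous_const
  · have hn' : (n : ℂ) ≠ 0 := by exact_mod_cast hn
    simp only [LSeries.term_of_ne_zero hn, Complex.cpow_def_of_ne_zero hn', div_eq_mul_inv,
      ← Complex.exp_neg]
    fun_prop

theorem gauss : GaussStmt := by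
  intro Δ v hΔ
  set f : ℕ → ℂ := fun n => (ArithmeticFunction.vonMangoldt n : ℂ) with hf
  have hs : Summable fun n => ‖LSeries.term f 2 n‖ :=
    summable_norm_iff.2 (ArithmeticFunction.LSeriesSummable_vonMangoldt (s := 2) (by norm_num))
  have hG := integrable_GG_Gauss hΔ v
  have hint : ∀ n, Integrable fun t : ℝ =>
      LSeries.term f (2 + t * Complex.I) n * GG Δ v (2 + t * Complex.I) := fun n =>
    hG.bdd_mul (c := ‖LSeries.term f 2 n‖) (cont_term_Gauss f n).aestronglyMeasurable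
      (Filter.Eventually.of_forall fun t => (norm_term_Gauss f t n).le)
  have hsum : Summable fun n => ∫ t : ℝ,
      ‖LSeries.term f (2 + t * Complex.I) n * GG Δ v (2 + t * Complex.I)‖ := by
    simp only [norm_mul, norm_term_Gauss, integral_const_mul]
    exact hs.mul_right _
  refine ⟨hG.bdd_mul (c := ∑' n, ‖LSeries.term f 2 n‖) ?_
    (Filter.Eventually.of_forall fun t => ?_), ?_⟩
  · exact (continuous_tsum (cont_term_Gauss f) hs
      fun n t => (norm_term_Gauss f t n).le).aestronglyMeasurable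
  · exact tsum_of_norm_bounded hs.hasSum fun n => (norm_term_Gauss f t n).le
  · have h1 := integral_tsum_of_summable_integral_norm hint hsum
    simp only [tsum_mul_right] at h1
    have h2 : ∀ n : ℕ, ∫ t : ℝ, LSeries.term f (2 + t * Complex.I) n * GG Δ v (2 + t * Complex.I) =
        2 * Real.pi * ((ArithmeticFunction.vonMangoldt n * gg Δ (v - Real.log n) : ℝ) : ℂ) := by
      intro n
      rcases eq_or_ne n 0 with rfl | hn
      · simp
      · simp only [term_GG_Gauss f Δ v _ hn]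
        rw [integral_const_mul, integral_GG_Gauss hΔ, hf]
        push_cast
        ring
    have hpi : (Real.pi : ℂ) ≠ 0 := by exact_mod_cast Real.pi_ne_zero
    simp only [h2, tsum_mul_left] at h1
    unfold LSeries PP
    rw [← h1, Complex.ofReal_tsum]
    field_simp

end Pool.Agent.MP_c853c5_nt.Z
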