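import Pool.Agent.MP_c853c5_nt.Z.PDefs
import Pool.Agent.MP_c853c5_nt.Z.Gauss

set_option autoImplicit false

open Finset MeasureTheory

namespace Pool.Agent.MP_c853c5_nt.Z

open Pool.Agent.MP_2a1f0e_nt

lemma shift_PGt (u t : ℝ) :
    2 + u * Complex.I + t * Complex.I = 2 + ((u + t : ℝ) : ℂ) * Complex.I := by
  push_cast
  ring

lemma term_PGt (f : ℕ → ℂ) (Δ v t : ℝ) (s : ℂ) {n : ℕ} (hn : n ≠ 0) :
    LSeries.term f s n * GG Δ v (s + t * Complex.I) =
      f n * GM.pw (n : ℝ) t * GG Δ (v - Real.log n) (s + t * Complex.I) := by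
  have hn' : (n : ℂ) ≠ 0 := by exact_mod_cast hn
  rw [LSeries.term_of_ne_zero hn, Complex.cpow_def_of_ne_zero hn', div_eq_mul_inv,
    ← Complex.exp_neg, mul_assoc, mul_assoc]
  unfold GG GM.pw
  rw [← Complex.exp_add, ← Complex.exp_add, ← Complex.natCast_log]
  congr 2
  push_cast
  ring

theorem pGt : GtStmt := by
  intro Δ v t hΔ
  set f : ℕ → ℂ := fun n => (ArithmeticFunction.vonMangoldt n : ℂ) with hf
  have hs : Summable fun n => ‖LSeries.term f 2 n‖ :=
    summable_norm_iff.2 (ArithmeticFunction.LSeriesSummable_vonMangoldt (s := 2) (by norm_num))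
  have hG : Integrable fun u : ℝ => GG Δ v (2 + u * Complex.I + t * Complex.I) := by
    simp only [shift_PGt]
    exact (integrable_GG_Gauss hΔ v).comp_add_right t
  have hI : ∀ w : ℝ, ∫ u : ℝ, GG Δ w (2 + u * Complex.I + t * Complex.I) =
      2 * Real.pi * (gg Δ w : ℂ) := fun w => by
    simp only [shift_PGt]
    rw [integral_add_right_eq_self (fun u : ℝ => GG Δ w (2 + u * Complex.I)) t,
      integral_GG_Gauss hΔ]
  have hint : ∀ n, Integrable fun u : ℝ =>
      LSeries.term f (2 + u * Complex.I) n * GG Δ v (2 + u * Complex.I + t * Complex.I) := fun n =>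
    hG.bdd_mul (c := ‖LSeries.term f 2 n‖) (cont_term_Gauss f n).aestronglyMeasurable
      (Filter.Eventually.of_forall fun u => (norm_term_Gauss f u n).le)
  have hsum : Summable fun n => ∫ u : ℝ,
      ‖LSeries.term f (2 + u * Complex.I) n * GG Δ v (2 + u * Complex.I + t * Complex.I)‖ := by
    simp only [norm_mul, norm_term_Gauss, integral_const_mul]
    exact hs.mul_right _
  refine ⟨hG.bdd_mul (c := ∑' n, ‖LSeries.term f 2 n‖) ?_
    (Filter.Eventually.of_forall fun u => ?_), ?_⟩
  · exact (continuous_tsum (cont_term_Gauss f) hs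
      fun n u => (norm_term_Gauss f u n).le).aestronglyMeasurable
  · exact tsum_of_norm_bounded hs.hasSum fun n => (norm_term_Gauss f u n).le
  · have h1 := integral_tsum_of_summable_integral_norm hint hsum
    simp only [tsum_mul_right] at h1
    have h2 : ∀ n : ℕ, ∫ u : ℝ, LSeries.term f (2 + u * Complex.I) n *
        GG Δ v (2 + u * Complex.I + t * Complex.I) =
        2 * Real.pi * (f n * GM.pw (n : ℝ) t * (gg Δ (v - Real.log n) : ℂ)) := by
      intro n
      rcases eq_or_ne n 0 with rfl | hn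
      · simp [hf]
      · simp only [term_PGt f Δ v t _ hn]
        rw [integral_const_mul, hI]
        ring
    have hpi : (Real.pi : ℂ) ≠ 0 := by exact_mod_cast Real.pi_ne_zero
    simp only [h2, tsum_mul_left] at h1
    unfold LSeries PT
    rw [← h1]
    field_simp
    rfl

end Pool.Agent.MP_c853c5_nt.Z
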