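import Pool.Agent.MP_c853c5_nt.Z.PDefs

/-!
The logarithmic derivative of the zeta function inside the zero free region.
-/

set_option autoImplicit false

open Finset

namespace Pool.Agent.MP_c853c5_nt.Z

open Pool.Agent.MP_2a1f0e_nt

lemma delta_PLd {l : ℝ} (hl : 1 ≤ l) : 0 < l ^ (-(39 / 40) : ℝ) ∧ l ^ (-(39 / 40) : ℝ) ≤ 1 ∧
    1 ≤ l ^ (-(39 / 40) : ℝ) * l := by
  have h0 : 0 < l := by linarith
  refine ⟨Real.rpow_pos_of_pos h0 _, Real.rpow_le_one_of_one_le_of_nonpos hl (by norm_num), ?_⟩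
  rw [← Real.rpow_add_one h0.ne']
  exact Real.one_le_rpow hl (by norm_num)

lemma sum_PLd (Z : Finset ℂ) (z : ℂ) {d : ℝ} (hd : 0 < d) (h : ∀ ρ ∈ Z, d ≤ z.re - ρ.re) :
    ‖∑ ρ ∈ Z, (ord ρ : ℂ) / (z - ρ)‖ ≤ (∑ ρ ∈ Z, ord ρ) / d := by
  rw [Finset.sum_div]
  refine norm_sum_le_of_le _ fun ρ hρ => ?_
  have h0 : 0 ≤ ord ρ := Nat.cast_nonneg _
  rw [norm_div, Complex.norm_real, Real.norm_of_nonneg h0]
  refine div_le_div_of_nonneg_left h0 hd ((h ρ hρ).trans ?_)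
  rw [← Complex.sub_re]
  exact Complex.re_le_norm _

theorem pLd (hZ : ZFStmt) (hL : LocZStmt) : LdStmt := by
  obtain ⟨T₀, hT₀, hZ⟩ := hZ
  obtain ⟨C, hC, hL⟩ := hL
  refine ⟨6 * C, T₀, by linarith, hT₀, fun T hT z h1 h2 h3 => ?_⟩
  have hT3 : 3 ≤ T := hT₀.trans hT
  have hl : 1 ≤ Real.log T := by
    rw [Real.le_log_iff_exp_le (by linarith)]
    exact (Real.exp_one_lt_d9.le.trans (by norm_num)).trans hT3
  obtain ⟨d0, d1, d2⟩ := delta_PLd hl
  have hne : riemannZeta₁ z ≠ 0 := fun h => by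
    have := hZ T hT z h (by linarith)
    linarith
  refine ⟨hne, ?_⟩
  obtain ⟨Z, z1, -, z3, z4⟩ := hL z.im
  have hz : z ∈ Metric.closedBall ((2 : ℂ) + z.im * Complex.I) (8 / 5) := by
    have e : z - ((2 : ℂ) + z.im * Complex.I) = ((z.re - 2 : ℝ) : ℂ) := by
      apply Complex.ext <;> simp
    rw [mem_closedBall_iff_norm, e, Complex.norm_real, Real.norm_eq_abs, abs_le]
    constructor <;> linarith
  have hlog : Real.log (|z.im| + 3) ≤ 2 * Real.log T := by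
    have e : 2 * Real.log T = Real.log (T ^ 2) := by
      rw [Real.log_pow]
      norm_num
    rw [e]
    exact Real.log_le_log (by positivity) (by nlinarith)
  have hs := sum_PLd Z z (half_pos d0) fun ρ hρ => by
    obtain ⟨r1, r2⟩ := (z1 ρ).1 hρ
    rw [mem_closedBall_iff_norm] at r1
    have r3 := (Complex.abs_im_le_norm _).trans r1
    have e : (ρ - ((2 : ℂ) + z.im * Complex.I)).im = ρ.im - z.im := by simp
    rw [e] at r3
    have r4 : |ρ.im| ≤ T := by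
      have := abs_sub_abs_le_abs_sub ρ.im z.im
      linarith
    have := hZ T hT ρ r2 r4
    linarith
  have hb : C * Real.log (|z.im| + 3) ≤ C * (2 * Real.log T) :=
    mul_le_mul_of_nonneg_left hlog (by linarith)
  have hs' : (∑ ρ ∈ Z, ord ρ) / (Real.log T ^ (-(39 / 40) : ℝ) / 2) ≤
      4 * C * Real.log T ^ 2 := by
    rw [div_le_iff₀ (half_pos d0)]
    have h5 : 0 ≤ C * (2 * Real.log T) := by positivity
    nlinarith [mul_le_mul_of_nonneg_left d2 h5]
  have h6 := norm_le_norm_sub_add (logDeriv riemannZeta₁ z) (∑ ρ ∈ Z, (ord ρ : ℂ) / (z - ρ))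
  have h7 := z4 z hz hne
  have h8 : C * Real.log T ≤ C * Real.log T ^ 2 :=
    mul_le_mul_of_nonneg_left (by nlinarith) (by linarith)
  linarith

end Pool.Agent.MP_c853c5_nt.Z
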