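import Pool.Agent.MP_c853c5_nt.Z.PDefs

/-!
The sum of reciprocals of the primes in an interval.
-/

set_option autoImplicit false

open Finset Filter

namespace Pool.Agent.MP_c853c5_nt.Z

/-- the sum of `1 / p` over the primes `y < p ≤ z` -/
noncomputable def rcp (y z : ℝ) : ℝ := ∑ p ∈ (Ioc ⌊y⌋₊ ⌊z⌋₊).filter Nat.Prime, 1 / (p : ℝ)

def MertStmt : Prop := ∀ ε : ℝ, 0 < ε → ∃ y₀ : ℝ, 2 ≤ y₀ ∧ ∀ y z : ℝ, y₀ ≤ y → y ≤ z →
  |rcp y z - Real.log (Real.log z / Real.log y)| ≤ ε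

lemma step_PMert {n : ℝ} (hn : 3 ≤ n) :
    |1 / (n + 1) / Real.log (n + 1) - (Real.log (Real.log (n + 1)) - Real.log (Real.log n))| ≤
      3 * (1 / n - 1 / (n + 1)) := by
  have n0 : 0 < n := by linarith
  have l1 : 1 ≤ Real.log n := by
    rw [Real.le_log_iff_exp_le n0]
    linarith [Real.exp_one_lt_d9]
  obtain ⟨a, ha⟩ : ∃ a, a = Real.log n := ⟨_, rfl⟩
  obtain ⟨c, hc⟩ : ∃ c, c = Real.log (n + 1) := ⟨_, rfl⟩
  have d1 : c - a ≤ 1 / n := by
    rw [ha, hc, ← Real.log_div (by linarith) n0.ne']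
    refine (Real.log_le_sub_one_of_pos (by positivity)).trans_eq ?_
    field_simp
    ring
  have d2 : 1 / (n + 1) ≤ c - a := by
    have := Real.log_le_sub_one_of_pos (show 0 < n / (n + 1) by positivity)
    rw [Real.log_div n0.ne' (by linarith), ← ha, ← hc] at this
    have e : n / (n + 1) - 1 = -(1 / (n + 1)) := by
      field_simp
      ring
    linarith
  rw [← ha] at l1
  rw [← ha, ← hc]
  have p1 : 0 < 1 / (n + 1) := by positivity
  have a0 : 0 < a := by linarith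
  have c1 : a ≤ c := by linarith
  have c0 : 0 < c := by linarith
  have u1 : Real.log c - Real.log a ≤ (c - a) / a := by
    rw [← Real.log_div c0.ne' a0.ne']
    refine (Real.log_le_sub_one_of_pos (by positivity)).trans_eq ?_
    field_simp
  have u2 : (c - a) / c ≤ Real.log c - Real.log a := by
    have := Real.log_le_sub_one_of_pos (show 0 < a / c by positivity)
    rw [Real.log_div a0.ne' c0.ne'] at this
    have e : a / c - 1 = -((c - a) / c) := by
      field_simp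
      ring
    linarith
  have u3 : 1 / (n + 1) / c ≤ (c - a) / c := div_le_div_of_nonneg_right d2 c0.le
  have u4 : (c - a) / a ≤ 1 / n / a := div_le_div_of_nonneg_right d1 a0.le
  have e1 : 1 / n - 1 / (n + 1) = 1 / n * (1 / (n + 1)) := by
    field_simp
    ring
  have u5 : 1 / n / a - 1 / (n + 1) / a ≤ 1 / n - 1 / (n + 1) := by
    rw [← sub_div]
    exact div_le_self (by rw [e1]; positivity) l1
  have u6 : 1 / (n + 1) / a - 1 / (n + 1) / c ≤ 1 / n - 1 / (n + 1) := by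
    have e2 : 1 / (n + 1) / a - 1 / (n + 1) / c = (c - a) / (a * c) * (1 / (n + 1)) := by
      field_simp
    rw [e1, e2]
    refine mul_le_mul_of_nonneg_right (le_trans (div_le_self (by linarith) ?_) d1) p1.le
    exact one_le_mul_of_one_le_of_one_le l1 (by linarith)
  have u7 : 0 ≤ 1 / n - 1 / (n + 1) := by rw [e1]; positivity
  rw [abs_le]
  constructor <;> linarith

lemma sum_PMert {N : ℕ} (hN : 3 ≤ N) (M : ℕ) (hM : N ≤ M) :
    |∑ n ∈ Ioc N M, 1 / (n : ℝ) / Real.log n - (Real.log (Real.log M) - Real.log (Real.log N))| ≤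
      3 * (1 / (N : ℝ) - 1 / M) := by
  induction M, hM using Nat.le_induction with
  | base => simp
  | succ M hM ih =>
    rw [sum_Ioc_succ_top hM]
    have h := step_PMert (n := M) (by exact_mod_cast hN.trans hM)
    push_cast
    rw [abs_le] at ih h ⊢
    constructor <;> linarith [ih.1, ih.2, h.1, h.2]

lemma sav_PMert : ∀ᶠ N : ℕ in atTop, sav N ≤ 1 / Real.log N ^ 2 := by
  have h1 : Tendsto (fun N : ℕ => Real.log N ^ (1 / 50 : ℝ)) atTop atTop :=
    (tendsto_rpow_atTop (by norm_num)).comp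
      (Real.tendsto_log_atTop.comp tendsto_natCast_atTop_atTop)
  have h2 := (Real.tendsto_pow_mul_exp_neg_atTop_nhds_zero 100).comp h1
  filter_upwards [h2.eventually (gt_mem_nhds one_pos), eventually_ge_atTop 2] with N h hN
  have l0 : 0 < Real.log N := Real.log_pos (by exact_mod_cast hN)
  have e : (Real.log N ^ (1 / 50 : ℝ)) ^ 100 = Real.log N ^ 2 := by
    rw [← Real.rpow_mul_natCast l0.le, ← Real.rpow_natCast]
    norm_num
  simp only [Function.comp, e] at h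
  rw [le_div_iff₀ (by positivity), mul_comm]
  exact h.le

lemma dyad_PMert (h : PnStmt) : ∃ N₀ : ℕ, 3 ≤ N₀ ∧ ∀ j N M : ℕ, N₀ ≤ N → N ≤ M → M ≤ 2 ^ j * N →
    |∑ p ∈ (Ioc N M).filter Nat.Prime, 1 / (p : ℝ) - ∑ n ∈ Ioc N M, 1 / (n : ℝ) / Real.log n| ≤
      6 / Real.log N := by
  obtain ⟨N₁, h⟩ := h
  obtain ⟨N₂, h2⟩ := eventually_atTop.1 sav_PMert
  refine ⟨max 3 (max N₁ N₂), le_max_left _ _, fun j => ?_⟩
  have one : ∀ N M : ℕ, max 3 (max N₁ N₂) ≤ N → N ≤ M → M ≤ 2 * N →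
      |∑ p ∈ (Ioc N M).filter Nat.Prime, 1 / (p : ℝ) -
        ∑ n ∈ Ioc N M, 1 / (n : ℝ) / Real.log n| ≤ 2 / Real.log N ^ 2 := by
    intro N M hN hM hM'
    have n3 : 3 ≤ N := (le_max_left _ _).trans hN
    have n0 : (0 : ℝ) < N := by exact_mod_cast (by omega : 0 < N)
    refine (h N M (fun n => 1 / (n : ℝ)) ((le_max_left _ _).trans ((le_max_right _ _).trans hN))
      hM hM' fun L hL => ⟨by positivity, ?_⟩).trans ?_
    · have : (0 : ℝ) < L := by exact_mod_cast (by omega : 0 < L)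
      push_cast
      exact one_div_le_one_div_of_le this (by linarith)
    · have := h2 N ((le_max_right _ _).trans ((le_max_right _ _).trans hN))
      calc 2 * (1 / (N : ℝ)) * (N * sav N) = 2 * sav N := by field_simp
        _ ≤ 2 * (1 / Real.log N ^ 2) := by linarith
        _ = _ := by ring
  have lg : ∀ N : ℕ, max 3 (max N₁ N₂) ≤ N → 1 ≤ Real.log N := fun N hN => by
    have n3 : (3 : ℝ) ≤ N := by exact_mod_cast (le_max_left _ _).trans hN
    rw [Real.le_log_iff_exp_le (by linarith)]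
    linarith [Real.exp_one_lt_d9]
  have small : ∀ N M : ℕ, max 3 (max N₁ N₂) ≤ N → N ≤ M → M ≤ 2 * N →
      |∑ p ∈ (Ioc N M).filter Nat.Prime, 1 / (p : ℝ) -
        ∑ n ∈ Ioc N M, 1 / (n : ℝ) / Real.log n| ≤ 6 / Real.log N := by
    intro N M hN hM hM'
    refine (one N M hN hM hM').trans ?_
    have := lg N hN
    rw [div_le_div_iff₀ (by positivity) (by positivity)]
    nlinarith
  induction j with
  | zero => exact fun N M hN hM hM' => small N M hN hM (by omega)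
  | succ j ih =>
    intro N M hN hM hM'
    rcases le_total M (2 * N) with h1 | h1
    · exact small N M hN hM h1
    have a1 := one N (2 * N) hN (by omega) le_rfl
    have a2 := ih (2 * N) M (by omega) h1 (by rw [pow_succ] at hM'; linarith)
    have l1 := lg N hN
    have n0 : (0 : ℝ) < N := by exact_mod_cast (by omega : 0 < N)
    have e : Real.log ((2 * N : ℕ) : ℝ) = Real.log 2 + Real.log N := by
      push_cast
      rw [Real.log_mul two_ne_zero n0.ne']
    rw [e] at a2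
    have a3 : 2 / Real.log N ^ 2 + 6 / (Real.log 2 + Real.log N) ≤ 6 / Real.log N := by
      have b1 := Real.log_two_gt_d9
      have b2 := Real.log_two_lt_d9
      rw [div_add_div _ _ (by positivity) (by positivity),
        div_le_div_iff₀ (by positivity) (by positivity)]
      have b3 : 0 ≤ Real.log N * (Real.log N * (6 * Real.log 2 - 2) - 2 * Real.log 2) :=
        mul_nonneg (by linarith) (by nlinarith)
      nlinarith
    rw [sum_filter, ← sum_Ioc_consecutive _ (by omega : N ≤ 2 * N) h1,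
      ← sum_Ioc_consecutive _ (by omega : N ≤ 2 * N) h1, ← sum_filter, ← sum_filter]
    rw [abs_le] at a1 a2 ⊢
    constructor <;> linarith [a1.1, a1.2, a2.1, a2.2]

lemma floor_PMert {y : ℝ} (hy : 3 ≤ y) :
    0 ≤ Real.log (Real.log y) - Real.log (Real.log (⌊y⌋₊ : ℝ)) ∧
      Real.log (Real.log y) - Real.log (Real.log (⌊y⌋₊ : ℝ)) ≤ 1 / Real.log (⌊y⌋₊ : ℝ) := by
  have n3 : (3 : ℝ) ≤ ⌊y⌋₊ := by exact_mod_cast Nat.le_floor (n := 3) (by exact_mod_cast hy)
  have h1 : (⌊y⌋₊ : ℝ) ≤ y := Nat.floor_le (by linarith)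
  have h2 : y < ⌊y⌋₊ + 1 := Nat.lt_floor_add_one y
  have l0 : 0 < Real.log (⌊y⌋₊ : ℝ) := Real.log_pos (by linarith)
  have l1 : Real.log (⌊y⌋₊ : ℝ) ≤ Real.log y := Real.log_le_log (by linarith) h1
  have l2 : Real.log y - Real.log (⌊y⌋₊ : ℝ) ≤ 1 := by
    rw [← Real.log_div (by linarith) (by linarith)]
    refine (Real.log_le_sub_one_of_pos (div_pos (by linarith) (by linarith))).trans ?_
    rw [sub_le_iff_le_add, div_le_iff₀ (by linarith)]
    linarith
  refine ⟨sub_nonneg.2 (Real.log_le_log l0 l1), ?_⟩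
  rw [← Real.log_div (by linarith) l0.ne']
  refine (Real.log_le_sub_one_of_pos (div_pos (by linarith) l0)).trans ?_
  rw [sub_le_iff_le_add, div_add_one l0.ne']
  exact div_le_div_of_nonneg_right (by linarith) l0.le

theorem pMert (h : PnStmt) : MertStmt := by
  obtain ⟨N₀, h3, h⟩ := dyad_PMert h
  intro ε hε
  refine ⟨N₀ + Real.exp (10 / ε) + 1, ?_, fun y z hy hz => ?_⟩
  · have : (3 : ℝ) ≤ N₀ := by exact_mod_cast h3
    linarith [Real.exp_pos (10 / ε)]
  have e0 := Real.exp_pos (10 / ε)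
  have n3 : (3 : ℝ) ≤ N₀ := by exact_mod_cast h3
  have hN : N₀ ≤ ⌊y⌋₊ := Nat.le_floor (by linarith)
  have hM : ⌊y⌋₊ ≤ ⌊z⌋₊ := Nat.floor_mono hz
  have a1 := h ⌊z⌋₊ _ _ hN hM ((Nat.lt_two_pow_self.le).trans
    (Nat.le_mul_of_pos_right _ (by omega)))
  have a2 := sum_PMert (h3.trans hN) _ hM
  obtain ⟨a3, a4⟩ := floor_PMert (y := y) (by linarith)
  obtain ⟨a5, a6⟩ := floor_PMert (y := z) (by linarith)
  have f1 : Real.exp (10 / ε) ≤ (⌊y⌋₊ : ℝ) := by linarith [Nat.lt_floor_add_one y]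
  have f0 : (0 : ℝ) < (⌊y⌋₊ : ℝ) := by linarith
  have f2 : (⌊y⌋₊ : ℝ) ≤ (⌊z⌋₊ : ℝ) := by exact_mod_cast hM
  have l1 : 10 / ε ≤ Real.log (⌊y⌋₊ : ℝ) := (Real.le_log_iff_exp_le f0).2 f1
  have l0 : 0 < Real.log (⌊y⌋₊ : ℝ) := lt_of_lt_of_le (by positivity) l1
  have l2 : 1 / Real.log (⌊y⌋₊ : ℝ) ≤ ε / 10 := by
    rw [div_le_iff₀ hε] at l1
    rw [div_le_iff₀ l0]
    linarith
  have l3 : 1 / Real.log (⌊z⌋₊ : ℝ) ≤ 1 / Real.log (⌊y⌋₊ : ℝ) :=
    one_div_le_one_div_of_le l0 (Real.log_le_log f0 f2)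
  have l4 : 1 / (⌊y⌋₊ : ℝ) ≤ 1 / Real.log (⌊y⌋₊ : ℝ) :=
    one_div_le_one_div_of_le l0 ((Real.log_le_sub_one_of_pos f0).trans (by linarith))
  have l5 : 0 ≤ 1 / (⌊z⌋₊ : ℝ) := by positivity
  have l6 : 6 / Real.log (⌊y⌋₊ : ℝ) = 6 * (1 / Real.log (⌊y⌋₊ : ℝ)) := by ring
  rw [rcp, Real.log_div (Real.log_pos (by linarith)).ne' (Real.log_pos (by linarith)).ne']
  rw [abs_le] at a1 a2 ⊢
  constructor <;> linarith [a1.1, a1.2, a2.1, a2.2]

end Pool.Agent.MP_c853c5_nt.Z
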