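import Pool.Agent.MP_c853c5_nt.Z.Basic

set_option autoImplicit false

open Finset Filter

namespace Pool.Agent.MP_c853c5_nt.Z

lemma abel_PSum (N : ℕ) (c : ℕ → ℂ) (w : ℕ → ℝ) (B : ℝ) (M : ℕ) (hM : N ≤ M)
    (hw : ∀ L, N ≤ L → w (L + 1) ≤ w L)
    (hB : ∀ L : ℕ, N ≤ L → L ≤ M → ‖∑ n ∈ Ioc N L, c n‖ ≤ B) :
    ‖∑ n ∈ Ioc N M, (w n : ℂ) * c n - (w M : ℂ) * ∑ n ∈ Ioc N M, c n‖ ≤ B * (w N - w M) := by
  induction M, hM using Nat.le_induction with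
  | base => simp
  | succ M hM ih =>
    have h1 := ih fun L h h' => hB L h (by omega)
    have h2 := hB M hM (by omega)
    have h3 := hw M hM
    rw [sum_Ioc_succ_top hM, sum_Ioc_succ_top hM]
    have e : ∑ n ∈ Ioc N M, (w n : ℂ) * c n + (w (M + 1) : ℂ) * c (M + 1) -
        (w (M + 1) : ℂ) * (∑ n ∈ Ioc N M, c n + c (M + 1)) =
        (∑ n ∈ Ioc N M, (w n : ℂ) * c n - (w M : ℂ) * ∑ n ∈ Ioc N M, c n) +
          ((w M - w (M + 1) : ℝ) : ℂ) * ∑ n ∈ Ioc N M, c n := by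
      push_cast
      ring
    rw [e]
    refine (norm_add_le _ _).trans ?_
    rw [norm_mul, Complex.norm_real, Real.norm_of_nonneg (by linarith)]
    nlinarith [mul_le_mul_of_nonneg_left h2 (by linarith : 0 ≤ w M - w (M + 1))]

theorem psum : PSumStmt := by
  intro N M c B σ hN hM hσ hB
  have hB0 : 0 ≤ B := (norm_nonneg _).trans (hB N le_rfl hM)
  have h1 := abel_PSum N c (fun n => (n : ℝ) ^ (-σ)) B M hM
    (fun L hL => Real.rpow_le_rpow_of_nonpos (by exact_mod_cast (by omega : 0 < L))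
      (by push_cast; linarith) (by linarith)) hB
  have h2 := hB M hM le_rfl
  have h3 : (0 : ℝ) ≤ (M : ℝ) ^ (-σ) := by positivity
  have h4 : (0 : ℝ) ≤ (N : ℝ) ^ (-σ) := by positivity
  have h5 := norm_add_le (∑ n ∈ Ioc N M, (((n : ℝ) ^ (-σ) : ℝ) : ℂ) * c n -
    (((M : ℝ) ^ (-σ) : ℝ) : ℂ) * ∑ n ∈ Ioc N M, c n)
    ((((M : ℝ) ^ (-σ) : ℝ) : ℂ) * ∑ n ∈ Ioc N M, c n)
  rw [sub_add_cancel, norm_mul, Complex.norm_real, Real.norm_of_nonneg h3] at h5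
  nlinarith [mul_le_mul_of_nonneg_left h2 h3, mul_nonneg hB0 h4]

end Pool.Agent.MP_c853c5_nt.Z
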