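import Pool.Agent.MP_c853c5_nt.Z.PDefs
import Pool.Agent.MP_c853c5_nt.Z.PSum

set_option autoImplicit false

open Finset Filter

namespace Pool.Agent.MP_c853c5_nt.Z

open Pool.Agent.MP_2a1f0e_nt

/-- the proper prime powers are negligible -/
lemma np_PPr : ∃ N₀ : ℕ, ∀ N M : ℕ, N₀ ≤ N → M ≤ 2 * N →
    ∑ n ∈ (Ioc N M).filter (fun n => ¬ n.Prime), ArithmeticFunction.vonMangoldt n ≤
      N * sav N := by
  obtain ⟨C, hC⟩ := Chebyshev.psi_sub_theta_le_mul_sqrt
  have hC0 : 0 ≤ C := by simpa using hC 1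
  have h0 : Tendsto (fun N : ℕ => Real.log N) atTop atTop :=
    Real.tendsto_log_atTop.comp tendsto_natCast_atTop_atTop
  have h1 := (Real.tendsto_exp_atTop.comp
    (h0.atTop_div_const (r := 4) (by norm_num))).eventually_ge_atTop (2 * C)
  obtain ⟨N₀, h⟩ := eventually_atTop.1
    ((h1.and (h0.eventually_ge_atTop 16)).and (eventually_ge_atTop 1))
  refine ⟨N₀, fun N M hN hM => ?_⟩
  obtain ⟨⟨a1, a2⟩, a3⟩ := h N hN
  have a4 : (0 : ℝ) < N := by exact_mod_cast a3
  have a5 : (M : ℝ) ≤ 2 * N := by exact_mod_cast hM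
  have b1 := hC M
  rw [Chebyshev.psi_sub_theta_eq_sum_not_prime, Nat.floor_natCast] at b1
  refine (sum_le_sum_of_subset_of_nonneg (filter_subset_filter _ (Ioc_subset_Ioc_left N.zero_le))
    fun _ _ _ => ArithmeticFunction.vonMangoldt_nonneg).trans (b1.trans ?_)
  have b2 : √(M : ℝ) ≤ 2 * Real.exp (Real.log N / 2) := by
    rw [Real.sqrt_le_left (by positivity), mul_pow, sq (Real.exp _), ← Real.exp_add, add_halves,
      Real.exp_log a4]
    linarith
  have b3 : Real.log N ^ (1 / 50 : ℝ) ≤ Real.log N / 4 := by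
    refine (Real.rpow_le_rpow_of_exponent_le (by linarith)
      (by norm_num : (1 / 50 : ℝ) ≤ 1 / 2)).trans ?_
    rw [← Real.sqrt_eq_rpow, Real.sqrt_le_left (by linarith)]
    nlinarith
  calc C * √(M : ℝ) ≤ C * (2 * Real.exp (Real.log N / 2)) := by gcongr
    _ = 2 * C * Real.exp (Real.log N / 2) := by ring
    _ ≤ Real.exp (Real.log N / 4) * Real.exp (Real.log N / 2) := by
        gcongr
        exact a1
    _ ≤ Real.exp (Real.log N) * sav N := by
        rw [sav, ← Real.exp_add, ← Real.exp_add]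
        exact Real.exp_le_exp.2 (by linarith)
    _ = _ := by rw [Real.exp_log a4]

lemma log_PPr {n : ℕ} (h : 3 ≤ n) : 1 ≤ Real.log n := by
  have h1 : (3 : ℝ) ≤ n := by exact_mod_cast h
  rw [Real.le_log_iff_exp_le (by linarith)]
  linarith [Real.exp_one_lt_d9]

lemma abel_PPr {N M : ℕ} (hN : 3 ≤ N) (hM : N ≤ M) {w : ℕ → ℝ}
    (hw : ∀ L, N ≤ L → 0 ≤ w L ∧ w (L + 1) ≤ w L) (c : ℕ → ℂ) {B : ℝ}
    (hB : ∀ L : ℕ, N ≤ L → L ≤ M → ‖∑ n ∈ Ioc N L, c n‖ ≤ B) :
    ‖∑ n ∈ Ioc N M, ((w n / Real.log n : ℝ) : ℂ) * c n‖ ≤ w N * B := by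
  have hB0 : 0 ≤ B := (norm_nonneg _).trans (hB N le_rfl hM)
  have h1 := abel_PSum N c (fun n => w n / Real.log n) B M hM (fun L hL => by
    have e := log_PPr (hN.trans hL)
    have e2 : (0 : ℝ) < L := by exact_mod_cast (by omega : 0 < L)
    exact div_le_div₀ (hw L hL).1 (hw L hL).2 (by linarith)
      (Real.log_le_log e2 (by push_cast; linarith))) hB
  have h2 := hB M hM le_rfl
  have h3 : 0 ≤ w M / Real.log M :=
    div_nonneg (hw M hM).1 (by linarith [log_PPr (hN.trans hM)])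
  have h4 : w N / Real.log N ≤ w N := div_le_self (hw N le_rfl).1 (log_PPr hN)
  have h5 := norm_add_le (∑ n ∈ Ioc N M, ((w n / Real.log n : ℝ) : ℂ) * c n -
    ((w M / Real.log M : ℝ) : ℂ) * ∑ n ∈ Ioc N M, c n)
    (((w M / Real.log M : ℝ) : ℂ) * ∑ n ∈ Ioc N M, c n)
  rw [sub_add_cancel, norm_mul, Complex.norm_real, Real.norm_of_nonneg h3] at h5
  nlinarith [mul_le_mul_of_nonneg_left h2 h3, mul_le_mul_of_nonneg_left h4 hB0]

lemma split_PPr {N : ℕ} (hN : 3 ≤ N) (M : ℕ) {w : ℕ → ℝ}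
    (hw : ∀ L, N ≤ L → 0 ≤ w L ∧ w (L + 1) ≤ w L) {u : ℕ → ℂ} (hu : ∀ n, ‖u n‖ ≤ 1) :
    ‖∑ n ∈ Ioc N M, ((w n / Real.log n : ℝ) : ℂ) * ((ArithmeticFunction.vonMangoldt n : ℂ) * u n) -
      ∑ p ∈ (Ioc N M).filter Nat.Prime, (w p : ℂ) * u p‖ ≤
      w N * ∑ n ∈ (Ioc N M).filter (fun n => ¬ n.Prime), ArithmeticFunction.vonMangoldt n := by
  have h1 : ∀ n, N ≤ n → w n ≤ w N := fun n hn => by
    induction n, hn using Nat.le_induction with
    | base => exact le_rfl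
    | succ n hn ih => exact (hw n hn).2.trans ih
  have h2 : ∑ p ∈ (Ioc N M).filter Nat.Prime,
      ((w p / Real.log p : ℝ) : ℂ) * ((ArithmeticFunction.vonMangoldt p : ℂ) * u p) =
      ∑ p ∈ (Ioc N M).filter Nat.Prime, (w p : ℂ) * u p := by
    refine sum_congr rfl fun p hp => ?_
    obtain ⟨e1, e2⟩ := mem_filter.1 hp
    have e3 := log_PPr (hN.trans (mem_Ioc.1 e1).1.le)
    rw [ArithmeticFunction.vonMangoldt_apply_prime e2, ← mul_assoc, ← Complex.ofReal_mul,
      div_mul_cancel₀ _ (by linarith)]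
  rw [← sum_filter_add_sum_filter_not (Ioc N M) Nat.Prime, h2, add_sub_cancel_left, mul_sum]
  refine (norm_sum_le _ _).trans (sum_le_sum fun n hn => ?_)
  have e1 := (mem_Ioc.1 (mem_filter.1 hn).1).1.le
  have e2 := log_PPr (hN.trans e1)
  have e3 : 0 ≤ ArithmeticFunction.vonMangoldt n := ArithmeticFunction.vonMangoldt_nonneg
  rw [norm_mul, norm_mul, Complex.norm_real, Complex.norm_real, Real.norm_of_nonneg e3,
    Real.norm_of_nonneg (div_nonneg (hw n e1).1 (by linarith))]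
  exact mul_le_mul ((div_le_self (hw n e1).1 e2).trans (h1 n e1))
    (mul_le_of_le_one_right e3 (hu n)) (by positivity) (hw N le_rfl).1

theorem pPr (h : TwStmt) : PrStmt := by
  intro k
  obtain ⟨N₁, h1⟩ := h k
  obtain ⟨N₂, h2⟩ := np_PPr
  refine ⟨N₁ + N₂ + 3, fun N M t w hN hM hM' ht hw => ?_⟩
  have a1 := abel_PPr (by omega) hM hw
    (fun n => (ArithmeticFunction.vonMangoldt n : ℂ) * GM.pw (n : ℝ) t)
    (B := 5 * N / (1 + |t|) + N * sav N) fun L e1 e2 => by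
      have b1 := h1 N L t (by omega) e1 (by omega) ht
      have b2 := norm_MT_le (N := N) (M := L) (by omega) t
      have b3 := norm_add_le (LT N L t - MT N L t) (MT N L t)
      rw [sub_add_cancel] at b3
      change ‖LT N L t‖ ≤ _
      linarith
  have a2 := (split_PPr (by omega) M hw (u := fun n => GM.pw (n : ℝ) t)
    fun n => (GM.norm_pw _ _).le).trans
      (mul_le_mul_of_nonneg_left (h2 N M (by omega) hM') (hw N le_rfl).1)
  rw [norm_sub_rev] at a2
  linarith [(norm_sub_norm_le _ _).trans a2]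

theorem pPn (h : TwStmt) : PnStmt := by
  obtain ⟨N₁, h1⟩ := h 0
  obtain ⟨N₂, h2⟩ := np_PPr
  refine ⟨N₁ + N₂ + 3, fun N M w hN hM hM' hw => ?_⟩
  have a1 := abel_PPr (by omega) hM hw
    (fun n => (ArithmeticFunction.vonMangoldt n : ℂ) * 1 - 1) (B := N * sav N) fun L e1 e2 => by
      have b1 := h1 N L 0 (by omega) e1 (by omega) (by simp)
      rw [MT_zero, LT] at b1
      rw [sum_sub_distrib, sum_const, Nat.card_Ioc, nsmul_one, Nat.cast_sub e1]
      simpa [GM.pw] using b1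
  have a2 := (split_PPr (by omega) M hw (u := fun _ => 1) fun _ => norm_one.le).trans
    (mul_le_mul_of_nonneg_left (h2 N M (by omega) hM') (hw N le_rfl).1)
  have a3 := (norm_sub_le _ _).trans (add_le_add a1 a2)
  simp only [mul_sub, mul_one, sum_sub_distrib] at a3
  rw [sub_sub_sub_cancel_left, ← Complex.ofReal_sum, ← Complex.ofReal_sum, ← Complex.ofReal_sub,
    Complex.norm_real, Real.norm_eq_abs] at a3
  linarith

end Pool.Agent.MP_c853c5_nt.Z
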