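import Pool.Agent.MP_c853c5_nt.Z.Basic

set_option autoImplicit false

open Finset

namespace Pool.Agent.MP_c853c5_nt.Z

open Pool.Agent.MP_2a1f0e_nt (ex conj_ex ex_add)

lemma dual_Hal {ι κ : Type} (S : Finset ι) (W : Finset κ) (b : ι → ℂ) (F : κ → ι → ℂ)
    (K : κ → κ → ℝ)
    (hK : ∀ ρ ∈ W, ∀ ρ' ∈ W, ‖∑ n ∈ S, F ρ n * (starRingEnd ℂ) (F ρ' n)‖ ≤ K ρ ρ') :
    (∑ ρ ∈ W, ‖∑ n ∈ S, b n * F ρ n‖) ^ 2 ≤ (∑ n ∈ S, ‖b n‖ ^ 2) * ∑ ρ ∈ W, ∑ ρ' ∈ W, K ρ ρ' := by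
  have hc : ∀ z : ℂ, ∃ c : ℂ, ‖c‖ = 1 ∧ c * z = ‖z‖ := fun z => by
    rcases eq_or_ne z 0 with rfl | h
    · exact ⟨1, by simp⟩
    · have h0 : (‖z‖ : ℂ) ≠ 0 := by exact_mod_cast norm_ne_zero_iff.2 h
      exact ⟨‖z‖ / z, by simp [h], by field_simp⟩
  choose ξ hξ hξ' using fun ρ => hc (∑ n ∈ S, b n * F ρ n)
  have e1 : ((∑ ρ ∈ W, ‖∑ n ∈ S, b n * F ρ n‖ : ℝ) : ℂ) =
      ∑ n ∈ S, b n * ∑ ρ ∈ W, ξ ρ * F ρ n := by
    push_cast
    simp only [← hξ', mul_sum]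
    rw [sum_comm]
    exact sum_congr rfl fun n _ => sum_congr rfl fun ρ _ => by ring
  have h1 : ∑ ρ ∈ W, ‖∑ n ∈ S, b n * F ρ n‖ ≤ ∑ n ∈ S, ‖b n‖ * ‖∑ ρ ∈ W, ξ ρ * F ρ n‖ := by
    refine (le_abs_self _).trans ?_
    rw [← Real.norm_eq_abs, ← Complex.norm_real, e1]
    exact (norm_sum_le _ _).trans_eq (by simp only [norm_mul])
  have e2 : ((∑ n ∈ S, ‖∑ ρ ∈ W, ξ ρ * F ρ n‖ ^ 2 : ℝ) : ℂ) = ∑ ρ ∈ W, ∑ ρ' ∈ W,
      ξ ρ * (starRingEnd ℂ) (ξ ρ') * ∑ n ∈ S, F ρ n * (starRingEnd ℂ) (F ρ' n) := by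
    rw [Complex.ofReal_sum]
    simp only [← Complex.normSq_eq_norm_sq, ← Complex.mul_conj, map_sum, sum_mul_sum]
    simp only [mul_sum, map_mul]
    rw [sum_comm]
    refine sum_congr rfl fun ρ _ => ?_
    rw [sum_comm]
    exact sum_congr rfl fun ρ' _ => sum_congr rfl fun n _ => by ring
  have h2 : ∑ n ∈ S, ‖∑ ρ ∈ W, ξ ρ * F ρ n‖ ^ 2 ≤ ∑ ρ ∈ W, ∑ ρ' ∈ W, K ρ ρ' := by
    refine (le_abs_self _).trans ?_
    rw [← Real.norm_eq_abs, ← Complex.norm_real, e2]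
    refine (norm_sum_le _ _).trans (sum_le_sum fun ρ h => (norm_sum_le _ _).trans
      (sum_le_sum fun ρ' h' => ?_))
    rw [norm_mul, norm_mul, Complex.norm_conj, hξ, hξ, one_mul, one_mul]
    exact hK ρ h ρ' h'
  refine (pow_le_pow_left₀ (sum_nonneg fun _ _ => norm_nonneg _) h1 2).trans
    ((sum_mul_sq_le_sq_mul_sq _ _ _).trans ?_)
  exact mul_le_mul_of_nonneg_left h2 (sum_nonneg fun _ _ => sq_nonneg _)

theorem hal (hP : PSumStmt) : HalStmt := by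
  intro W N a σ V κ hN hV hσ hW hκ
  have pos : ∀ n ∈ Ioc N (2 * N), 0 < n := fun n hn => by have := (mem_Ioc.1 hn).1; omega
  have key := dual_Hal (Ioc N (2 * N)) W (fun n => a n * (((n : ℝ) ^ (-σ) : ℝ) : ℂ))
    (fun ρ n => (((n : ℝ) ^ (-(ρ.re - σ)) : ℝ) : ℂ) * (n : ℂ) ^ (((-ρ.im : ℝ) : ℂ) * Complex.I))
    (fun ρ ρ' => 2 * κ ρ ρ') fun ρ h ρ' h' => by
      have s0 : 0 ≤ ρ.re - σ + (ρ'.re - σ) := by linarith [hσ ρ h, hσ ρ' h']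
      have k0 : 0 ≤ κ ρ ρ' := (norm_nonneg _).trans (hκ ρ h ρ' h' N le_rfl (by omega))
      have h1 := hP N (2 * N) (fun n => (n : ℂ) ^ (((ρ'.im - ρ.im : ℝ) : ℂ) * Complex.I)) (κ ρ ρ')
        _ hN (by omega) s0 (hκ ρ h ρ' h')
      refine le_trans (le_of_eq ?_) (h1.trans (mul_le_of_le_one_right (by positivity)
        (Real.rpow_le_one_of_one_le_of_nonpos (by exact_mod_cast hN) (by linarith))))
      congr 1
      refine sum_congr rfl fun n hn => ?_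
      have n0 : (0 : ℝ) < n := by exact_mod_cast pos n hn
      rw [← Complex.ofReal_natCast, cpow_eq_ex n0, cpow_eq_ex n0, cpow_eq_ex n0, map_mul,
        Complex.conj_ofReal, conj_ex, neg_add, Real.rpow_add n0, Complex.ofReal_mul,
        mul_mul_mul_comm, ← ex_add]
      congr 2
      ring
  refine (pow_le_pow_left₀ (by positivity) ?_ 2).trans (key.trans_eq ?_)
  · rw [← nsmul_eq_mul]
    refine card_nsmul_le_sum _ _ _ fun ρ h => (hW ρ h).trans_eq ?_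
    congr 1
    refine sum_congr rfl fun n hn => ?_
    have n0 : (0 : ℝ) < n := by exact_mod_cast pos n hn
    rw [cpow_neg_split (pos n hn), mul_assoc, ← mul_assoc (((n : ℝ) ^ (-σ) : ℝ) : ℂ),
      ← Complex.ofReal_mul, ← Real.rpow_add n0]
    congr 4
    ring
  · simp only [← mul_sum]
    congr 1
    refine sum_congr rfl fun n hn => ?_
    have n0 : (0 : ℝ) < n := by exact_mod_cast pos n hn
    rw [norm_mul, mul_pow, Complex.norm_real, Real.norm_eq_abs, sq_abs, sq ((n : ℝ) ^ (-σ)),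
      ← Real.rpow_add n0]
    congr 2
    ring

end Pool.Agent.MP_c853c5_nt.Z
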