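import Pool.Agent.MP_c853c5_nt.Z.Basic

set_option autoImplicit false

open Finset Filter

namespace Pool.Agent.MP_c853c5_nt.Z

lemma half_Sep (W : Finset ℂ) (f : ℂ → ℝ) {V : ℝ} (hV : 0 ≤ V) (h0 : ∀ ρ ∈ W, 0 ≤ f ρ)
    (h1 : ∀ ρ ∈ W, f ρ ≤ V) (h2 : ∀ ρ ∈ W, ∀ ρ' ∈ W, ρ ≠ ρ' → 1 ≤ |f ρ - f ρ'|) :
    ∑ ρ ∈ W, 1 / (1 + f ρ) ≤ 1 + Real.log (V + 1) := by
  have hi : Set.InjOn (fun ρ => ⌊f ρ⌋₊) W := fun ρ hρ ρ' hρ' e => by
    by_contra hne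
    have h3 := h2 ρ hρ ρ' hρ' hne
    have h4 := Nat.floor_le (h0 ρ hρ)
    have h5 := Nat.floor_le (h0 ρ' hρ')
    have h6 := Nat.lt_floor_add_one (f ρ)
    have h7 := Nat.lt_floor_add_one (f ρ')
    have h8 : (⌊f ρ⌋₊ : ℝ) = ⌊f ρ'⌋₊ := congrArg Nat.cast e
    exact h3.not_gt (abs_lt.2 ⟨by linarith, by linarith⟩)
  calc ∑ ρ ∈ W, 1 / (1 + f ρ) ≤ ∑ ρ ∈ W, (((⌊f ρ⌋₊ + 1 : ℕ) : ℝ))⁻¹ := by
        refine sum_le_sum fun ρ hρ => ?_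
        rw [one_div]
        refine inv_anti₀ (by positivity) ?_
        push_cast
        linarith [Nat.floor_le (h0 ρ hρ)]
    _ = ∑ i ∈ W.image fun ρ => ⌊f ρ⌋₊, (((i + 1 : ℕ) : ℝ))⁻¹ :=
        (sum_image (f := fun i : ℕ => (((i + 1 : ℕ) : ℝ))⁻¹) hi).symm
    _ ≤ ∑ i ∈ range (⌊V⌋₊ + 1), (((i + 1 : ℕ) : ℝ))⁻¹ := by
        refine sum_le_sum_of_subset_of_nonneg (fun i hi => ?_) fun _ _ _ => by positivity
        obtain ⟨ρ, hρ, rfl⟩ := mem_image.1 hi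
        exact mem_range.2 (Nat.lt_succ_of_le (Nat.floor_mono (h1 ρ hρ)))
    _ = (harmonic (⌊V⌋₊ + 1) : ℝ) := by
        rw [harmonic]
        push_cast
        rfl
    _ ≤ 1 + Real.log ((⌊V⌋₊ + 1 : ℕ) : ℝ) := harmonic_le_one_add_log _
    _ ≤ _ := by
        push_cast
        gcongr
        exact Nat.floor_le hV

theorem sep : SepStmt := by
  intro W c V hW hV h
  rw [← sum_filter_add_sum_filter_not W fun ρ => c ≤ ρ.im]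
  have h1 := half_Sep (W.filter fun ρ => c ≤ ρ.im) (fun ρ => |ρ.im - c|) hV
    (fun _ _ => abs_nonneg _) (fun ρ hρ => h ρ (mem_filter.1 hρ).1) fun ρ hρ ρ' hρ' hne => by
      rw [abs_of_nonneg (sub_nonneg.2 (mem_filter.1 hρ).2),
        abs_of_nonneg (sub_nonneg.2 (mem_filter.1 hρ').2), sub_sub_sub_cancel_right]
      exact hW ρ (mem_filter.1 hρ).1 ρ' (mem_filter.1 hρ').1 hne
  have h2 := half_Sep (W.filter fun ρ => ¬ c ≤ ρ.im) (fun ρ => |ρ.im - c|) hV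
    (fun _ _ => abs_nonneg _) (fun ρ hρ => h ρ (mem_filter.1 hρ).1) fun ρ hρ ρ' hρ' hne => by
      rw [abs_of_neg (sub_neg.2 (not_le.1 (mem_filter.1 hρ).2)),
        abs_of_neg (sub_neg.2 (not_le.1 (mem_filter.1 hρ').2)), ← neg_sub', abs_neg,
        sub_sub_sub_cancel_right]
      exact hW ρ (mem_filter.1 hρ).1 ρ' (mem_filter.1 hρ').1 hne
  linarith

end Pool.Agent.MP_c853c5_nt.Z
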