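import Pool.Agent.MP_c853c5_nt.Z.PDefs
import Pool.Agent.MP_c853c5_nt.Z.Hal
import Pool.Agent.MP_c853c5_nt.Z.Sep

/-!
Large values close to the trivial bound.
-/

set_option autoImplicit false

open Finset

namespace Pool.Agent.MP_c853c5_nt.Z

open Pool.Agent.MP_2a1f0e_nt

lemma sum_PTop (W : Finset ℤ) (T : ℕ) (hW : ∀ s ∈ W, 0 ≤ s ∧ s ≤ T) {t : ℤ} (ht : t ∈ W) :
    ∑ s ∈ W, 1 / (1 + |(t : ℝ) - s|) ≤ 6 * Real.log (T + 2) := by
  classical
  have hi : Function.Injective fun s : ℤ => (s : ℂ) * Complex.I := fun a b h => by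
    have := mul_right_cancel₀ Complex.I_ne_zero h
    exact_mod_cast this
  have h := sep (W.image fun s : ℤ => (s : ℂ) * Complex.I) t T ?_ (Nat.cast_nonneg T) ?_
  · rw [sum_image fun a _ b _ e => hi e] at h
    have e : ∑ s ∈ W, 1 / (1 + |(t : ℝ) - s|) =
        ∑ s ∈ W, 1 / (1 + |((s : ℂ) * Complex.I).im - t|) :=
      sum_congr rfl fun s _ => by rw [abs_sub_comm]; simp
    have hT : (0 : ℝ) ≤ T := Nat.cast_nonneg T
    have h1 : Real.log (T + 1) ≤ Real.log (T + 2) := Real.log_le_log (by linarith) (by linarith)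
    have h2 : Real.log 2 ≤ Real.log (T + 2) := Real.log_le_log (by norm_num) (by linarith)
    have h3 := Real.log_two_gt_d9
    rw [e]
    linarith
  · intro ρ hρ ρ' hρ' hne
    obtain ⟨a, -, rfl⟩ := mem_image.1 hρ
    obtain ⟨b, -, rfl⟩ := mem_image.1 hρ'
    have hab : a - b ≠ 0 := fun e => hne (by rw [sub_eq_zero.1 e])
    have := Int.one_le_abs hab
    simp only [Complex.mul_im, Complex.intCast_re, Complex.I_im, mul_one, Complex.intCast_im,
      Complex.I_re, mul_zero, add_zero]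
    exact_mod_cast this
  · intro ρ hρ
    obtain ⟨a, ha, rfl⟩ := mem_image.1 hρ
    have h1 := hW a ha
    have h2 := hW t ht
    have : |a - t| ≤ (T : ℤ) := abs_le.2 ⟨by omega, by omega⟩
    simp only [Complex.mul_im, Complex.intCast_re, Complex.I_im, mul_one, Complex.intCast_im,
      Complex.I_re, mul_zero, add_zero]
    exact_mod_cast this

lemma inner_PTop {N : ℕ} (hN : 1 ≤ N) (s t : ℝ) :
    ‖∑ n ∈ Icc N (2 * N), GM.pw (n : ℝ) s * (starRingEnd ℂ) (GM.pw (n : ℝ) t)‖ ≤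
      1 + ‖ES N (2 * N) (s - t)‖ := by
  rw [← Ioc_insert_left (show N ≤ 2 * N by omega), sum_insert (by simp), ← GM.pw_sub]
  refine (norm_add_le _ _).trans (le_of_eq ?_)
  rw [GM.norm_pw, ES]
  congr 2
  refine sum_congr rfl fun n hn => ?_
  rw [← GM.pw_sub, pw_eq_cpow (by have := (mem_Ioc.1 hn).1; omega)]

lemma fin_PTop {R V N L P c : ℝ} (hR : 0 ≤ R) (hL : 0 ≤ L) (hV : 0 < V)
    (h1 : (R * V) ^ 2 ≤ 2 * N * (R * (30 * N * L) + R ^ 2 * (c * P)))
    (h2 : 4 * c * (N * P) ≤ V ^ 2) : R ≤ 120 * (N ^ 2 / V ^ 2) * L := by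
  rcases hR.eq_or_lt with rfl | hR
  · positivity
  have h3 : R * (R * V ^ 2) ≤ R * (120 * N ^ 2 * L) := by
    nlinarith [mul_le_mul_of_nonneg_left h2 (sq_nonneg R)]
  have h4 := le_of_mul_le_mul_left h3 hR
  rw [show 120 * (N ^ 2 / V ^ 2) * L = 120 * N ^ 2 * L / V ^ 2 by ring, le_div_iff₀ (by positivity)]
  exact h4

theorem pTop (hK : KerStmt) : TopStmt := by
  intro k
  obtain ⟨C0, δ, hC0, hδ, hδ1, hK⟩ := hK (max k 1) (le_max_right _ _)
  refine ⟨120 + 2 * (1 + C0), δ / 2, by positivity, by positivity, ?_⟩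
  intro N T V b hN hT hV hb
  have hN1 : (1 : ℝ) ≤ N := by exact_mod_cast hN
  have hN0 : (0 : ℝ) < N := by linarith
  have hP : 1 ≤ (N : ℝ) ^ (1 - δ) := Real.one_le_rpow hN1 (by linarith)
  have hV0 : 0 < V := lt_of_lt_of_le (by positivity) hV
  have hL : 0 ≤ Real.log (T + 2) := Real.log_nonneg (by linarith [(Nat.cast_nonneg T : (0 : ℝ) ≤ T)])
  unfold DH.cnt
  set W := (Icc 0 (T : ℤ)).filter fun t : ℤ => V ≤ ‖GM.DP N b t‖ with hWd
  have hW : ∀ s ∈ W, 0 ≤ s ∧ s ≤ T := fun s hs => mem_Icc.1 (mem_filter.1 hs).1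
  have key := dual_Hal (Icc N (2 * N)) W b (fun s n => GM.pw (n : ℝ) (s : ℝ))
    (fun s t => 5 * N * (1 / (1 + |(s : ℝ) - t|)) + (1 + C0) * (N : ℝ) ^ (1 - δ))
    fun s hs t ht => by
      have h1 := hW s hs
      have h2 := hW t ht
      have h3 : |s - t| ≤ (T : ℤ) := abs_le.2 ⟨by omega, by omega⟩
      have h4 : |(s : ℝ) - t| ≤ T := by exact_mod_cast h3
      have h5 := hK N (2 * N) ((s : ℝ) - t) hN (by omega) le_rfl
        (h4.trans (hT.trans (pow_le_pow_right₀ hN1 (le_max_left _ _))))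
      refine (inner_PTop hN _ _).trans ?_
      rw [mul_one_div]
      linarith
  have a1 : (W.card : ℝ) * V ≤ ∑ s ∈ W, ‖∑ n ∈ Icc N (2 * N), b n * GM.pw (n : ℝ) (s : ℝ)‖ := by
    rw [← nsmul_eq_mul]
    exact card_nsmul_le_sum _ _ _ fun s hs => (mem_filter.1 hs).2
  have a2 : ∑ n ∈ Icc N (2 * N), ‖b n‖ ^ 2 ≤ 2 * (N : ℝ) := by
    refine (sum_le_card_nsmul _ _ 1 fun n _ => pow_le_one₀ (norm_nonneg _) (hb n)).trans ?_
    rw [nsmul_eq_mul, mul_one, Nat.card_Icc]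
    have : 2 * N + 1 - N ≤ 2 * N := by omega
    exact_mod_cast this
  have a3 : ∑ s ∈ W, ∑ t ∈ W, (5 * N * (1 / (1 + |(s : ℝ) - t|)) + (1 + C0) * (N : ℝ) ^ (1 - δ)) ≤
      W.card * (30 * N * Real.log (T + 2)) + (W.card : ℝ) ^ 2 * ((1 + C0) * (N : ℝ) ^ (1 - δ)) := by
    refine (sum_le_card_nsmul _ _ (30 * N * Real.log (T + 2) +
      W.card * ((1 + C0) * (N : ℝ) ^ (1 - δ))) fun s hs => ?_).trans (le_of_eq ?_)
    · rw [sum_add_distrib, sum_const, nsmul_eq_mul, ← mul_sum]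
      nlinarith [sum_PTop W T hW hs]
    · rw [nsmul_eq_mul]
      ring
  have a4 : 4 * (1 + C0) * (N * (N : ℝ) ^ (1 - δ)) ≤ V ^ 2 := by
    have e : ((N : ℝ) ^ (1 - δ / 2)) ^ 2 = N * (N : ℝ) ^ (1 - δ) := by
      rw [sq, ← Real.rpow_add hN0, show 1 - δ / 2 + (1 - δ / 2) = 1 + (1 - δ) by ring,
        Real.rpow_add hN0, Real.rpow_one]
    refine le_trans ?_ (pow_le_pow_left₀ (by positivity) hV 2)
    rw [mul_pow, e]
    exact mul_le_mul_of_nonneg_right (by nlinarith) (by positivity)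
  have a5 := fin_PTop (Nat.cast_nonneg W.card) hL hV0
    ((pow_le_pow_left₀ (by positivity) a1 2).trans (key.trans (mul_le_mul a2 a3
      (sum_nonneg fun _ _ => sum_nonneg fun _ _ => by positivity) (by positivity)))) a4
  refine a5.trans (mul_le_mul_of_nonneg_right (mul_le_mul_of_nonneg_right ?_ (by positivity)) hL)
  linarith

end Pool.Agent.MP_c853c5_nt.Z
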