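import Pool.Agent.MP_c853c5_nt.Z.PDefs

/-! The twisted prime number theorem from the smoothed estimate. -/

set_option autoImplicit false

open Finset Filter Real

namespace Pool.Agent.MP_c853c5_nt.Z

open Pool.Agent.MP_2a1f0e_nt

lemma ev_PTw {A B c : ℝ} (hA : 0 ≤ A) (hB : 0 ≤ B) (hc : 0 < c) (m : ℕ) {i l : ℕ} (hi : i ≤ l)
    (hl : 1 ≤ l) : ∀ᶠ w : ℝ in atTop, A * w ^ m * exp (B * w ^ i) ≤ exp (c * w ^ (l + 1)) := by
  filter_upwards [eventually_ge_atTop 1, eventually_ge_atTop ((A + m + B) / c)] with w h1 h2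
  have a1 : 1 ≤ w ^ l := one_le_pow₀ h1
  have a2 : w ≤ w ^ l := le_self_pow₀ h1 (by omega)
  have a3 : w ^ i ≤ w ^ l := pow_le_pow_right₀ h1 hi
  have a4 : A ≤ exp A := by linarith [add_one_le_exp A]
  have a5 : w ^ m ≤ exp (m * w) := by
    rw [exp_nat_mul]
    exact pow_le_pow_left₀ (by linarith) (by linarith [add_one_le_exp w]) m
  rw [div_le_iff₀ hc] at h2
  calc _ ≤ exp A * exp (m * w) * exp (B * w ^ i) := by gcongr
    _ = exp (A * 1 + m * w + B * w ^ i) := by rw [exp_add, exp_add, mul_one]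
    _ ≤ exp (A * w ^ l + m * w ^ l + B * w ^ l) := by gcongr
    _ = exp ((A + m + B) * w ^ l) := by ring_nf
    _ ≤ exp (w * c * w ^ l) := by gcongr
    _ = _ := by ring_nf

lemma term_PTw {P x y u z : ℝ} (h : 6 * P * exp x ≤ exp y) (hz : u + y ≤ z + x) :
    P * exp u ≤ exp z / 6 := by
  have h1 : exp y * exp u ≤ exp z * exp x := by
    rw [← exp_add, ← exp_add]
    exact exp_le_exp.2 (by linarith)
  have h2 : 6 * P * exp x * exp u ≤ exp y * exp u := mul_le_mul_of_nonneg_right h (exp_pos u).le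
  have h3 : 6 * (P * exp u) * exp x ≤ exp z * exp x := by linarith
  have := le_of_mul_le_mul_right h3 (exp_pos x)
  linarith

lemma key_PTw {C D K c : ℝ} (hC : 0 < C) (hD : 0 < D) (hc : 0 < c) : ∀ᶠ w : ℝ in atTop,
    2 ≤ w ∧ exp (-(2 * w ^ 4)) * w ^ 200 ≤ 1 / 2 ∧
    C * (K * w ^ 200) ^ 2 / exp (-(2 * w ^ 4)) * (2 * exp (w ^ 200) * exp (-(c * w ^ 5)) +
        4 * exp (w ^ 200) ^ 2 * exp (-(1 / (64 * π) * w ^ 400))) +
      D * ((exp (w ^ 200) * (exp (-(2 * w ^ 4)) * w ^ 200) + 1) * w ^ 200 +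
        exp (w ^ 200) * exp (-(2 * w ^ 4)) +
        exp (-(π / 2 * w ^ 400)) * exp (w ^ 200) ^ 3 / exp (-(2 * w ^ 4))) ≤
      exp (w ^ 200) * exp (-w ^ 4) := by
  filter_upwards [eventually_ge_atTop 2,
    ev_PTw (A := 2) (B := 0) (c := 2) (i := 0) (l := 3) (by norm_num) le_rfl two_pos 200
      (by norm_num) (by norm_num),
    ev_PTw (A := 12 * C * K ^ 2) (B := 3) (i := 4) (l := 4) (by positivity) (by norm_num) hc 400
      le_rfl (by norm_num),
    ev_PTw (A := 24 * C * K ^ 2) (B := 4) (c := 1 / (64 * π)) (i := 200) (l := 399) (by positivity)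
      (by norm_num) (by positivity) 400 (by norm_num) (by norm_num),
    ev_PTw (A := 6 * D) (B := 0) (c := 1) (i := 0) (l := 3) (by positivity) le_rfl one_pos 400
      (by norm_num) (by norm_num),
    ev_PTw (A := 6 * D) (B := 1) (c := 1) (i := 4) (l := 199) (by positivity) zero_le_one one_pos
      200 (by norm_num) (by norm_num),
    ev_PTw (A := 6 * D) (B := 0) (c := 1) (i := 0) (l := 3) (by positivity) le_rfl one_pos 0
      (by norm_num) (by norm_num),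
    ev_PTw (A := 6 * D) (B := 5) (c := π / 2) (i := 200) (l := 399) (by positivity) (by norm_num)
      (by positivity) 0 (by norm_num) (by norm_num)] with w h0 h1 h2 h3 h4 h5 h6 h7
  simp only [Nat.reduceAdd] at h1 h2 h3 h4 h5 h6 h7
  have e4 : w ^ 400 = (w ^ 200) ^ 2 := by rw [← pow_mul]
  have w0 : 0 < w := by linarith
  have l4 : w ^ 4 ≤ w ^ 200 := pow_le_pow_right₀ (by linarith) (by norm_num)
  have p2 : 0 < w ^ 200 := by positivity
  have p4 : 0 < w ^ 400 := by positivity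
  generalize w ^ 400 = Q at *
  generalize w ^ 200 = L at *
  generalize w ^ 5 = b at *
  generalize w ^ 4 = a at *
  refine ⟨h0, ?_, ?_⟩
  · rw [zero_mul, exp_zero, mul_one] at h1
    rw [exp_neg, inv_mul_le_iff₀ (exp_pos _)]
    linarith
  have t1 := term_PTw (P := 2 * C * K ^ 2 * Q) (u := 2 * a + L + -(c * b)) (z := L + -a)
    (le_of_eq_of_le (by ring) h2) (by linarith)
  have t2 := term_PTw (P := 4 * C * K ^ 2 * Q) (u := 2 * a + L + L + -(1 / (64 * π) * Q))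
    (z := L + -a) (le_of_eq_of_le (by ring) h3) (by linarith)
  have t3 := term_PTw (P := D * Q) (u := L + -(2 * a)) (z := L + -a)
    (le_of_eq_of_le (by ring) h4) (by linarith)
  have t4 := term_PTw (P := D * L) (u := 0) (z := L + -a)
    (le_of_eq_of_le (by ring) h5) (by linarith)
  have t5 := term_PTw (P := D) (u := L + -(2 * a)) (z := L + -a)
    (le_of_eq_of_le (by ring) h6) (by linarith)
  have t6 := term_PTw (P := D) (u := -(π / 2 * Q) + L + L + L + 2 * a) (z := L + -a)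
    (le_of_eq_of_le (by ring) h7) (by linarith)
  simp only [exp_add, exp_zero] at t1 t2 t3 t4 t5 t6
  rw [div_eq_mul_inv _ (exp _), div_eq_mul_inv _ (exp _), ← exp_neg, neg_neg]
  subst e4
  linarith

theorem pTw (hE : EtStmt) (hC : CutStmt) : TwStmt := by
  intro k
  obtain ⟨C, T₀, hC0, hT, hE⟩ := hE
  obtain ⟨D, hD0, hC⟩ := hC
  have K0 : (0 : ℝ) < (k + 3 : ℕ) := by positivity
  have hw : Tendsto (fun N : ℕ => log N ^ (1 / 200 : ℝ)) atTop atTop :=
    (tendsto_rpow_atTop (by norm_num)).comp (tendsto_log_atTop.comp tendsto_natCast_atTop_atTop)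
  obtain ⟨N₀, h⟩ := eventually_atTop.1 ((hw.eventually (key_PTw (K := (k + 3 : ℕ))
    (c := ((k + 3 : ℕ) : ℝ) ^ (-(39 / 40) : ℝ) / 2) hC0 hD0 (by positivity))).and
      ((tendsto_natCast_atTop_atTop.eventually (eventually_ge_atTop T₀)).and
        (eventually_ge_atTop 3)))
  refine ⟨N₀, fun N M t h1 h2 h3 h4 => ?_⟩
  obtain ⟨⟨a1, a2, a3⟩, a4, a5⟩ := h N h1
  have n3 : (3 : ℝ) ≤ N := by exact_mod_cast a5
  have n0 : (0 : ℝ) < N := by linarith
  have l0 : 0 ≤ log N := log_nonneg (by linarith)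
  have e1 : (log N ^ (1 / 200 : ℝ)) ^ 200 = log N := by
    rw [← rpow_natCast, ← rpow_mul l0]
    norm_num
  have e2 : (log N ^ (1 / 200 : ℝ)) ^ 4 = log N ^ (1 / 50 : ℝ) := by
    rw [← rpow_natCast, ← rpow_mul l0]
    norm_num
  rw [sav, ← e2]
  generalize log N ^ (1 / 200 : ℝ) = w at a1 a2 a3 e1
  have w0 : 0 < w := by linarith
  have e3 : exp (w ^ 200) = N := by rw [e1, exp_log n0]
  have e4 : w ^ 400 = (w ^ 200) ^ 2 := by rw [← pow_mul]
  have d0 := exp_pos (-(2 * w ^ 4))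
  have d1 : exp (-(2 * w ^ 4)) ≤ 1 := exp_le_one_iff.2 (neg_nonpos.2 (by positivity))
  have t1 : (N : ℝ) ≤ (N : ℝ) ^ (k + 3) := le_self_pow₀ (by linarith) (by omega)
  have t2 : 2 * |t| + 6 ≤ (N : ℝ) ^ (k + 3) := by
    have b1 : (1 : ℝ) ≤ (N : ℝ) ^ k := one_le_pow₀ (by linarith)
    have b2 : (3 : ℝ) ^ 3 ≤ (N : ℝ) ^ 3 := by gcongr
    rw [pow_add]
    nlinarith
  have t3 : log ((N : ℝ) ^ (k + 3)) = (k + 3 : ℕ) * w ^ 200 := by rw [log_pow, e1]
  have t4 : (((k + 3 : ℕ) : ℝ) * w ^ 200) ^ (-(39 / 40) : ℝ) / 2 * w ^ 200 =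
      ((k + 3 : ℕ) : ℝ) ^ (-(39 / 40) : ℝ) / 2 * w ^ 5 := by
    have : (w ^ 200) ^ (-(39 / 40) : ℝ) = (w ^ 195)⁻¹ := by
      rw [← rpow_natCast, ← rpow_mul w0.le, ← rpow_natCast, ← rpow_neg w0.le]
      norm_num
    rw [mul_rpow K0.le (by positivity), this]
    field_simp
  have t5 : 1 / (64 * π) * w ^ 400 ≤
      exp (-(2 * w ^ 4)) ^ 2 * ((N : ℝ) ^ (k + 3)) ^ 2 / (32 * π) := by
    have b1 : 4 * w ^ 4 ≤ w ^ 200 := by
      have : (2 : ℝ) ^ 2 ≤ w ^ 196 :=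
        (pow_le_pow_left₀ zero_le_two a1 2).trans (pow_le_pow_right₀ (by linarith) (by norm_num))
      calc 4 * w ^ 4 ≤ w ^ 196 * w ^ 4 := by gcongr; linarith
        _ = _ := by rw [← pow_add]
    have b2 : (w ^ 200) ^ 2 / 2 ≤ exp (w ^ 200) := by
      have := quadratic_le_exp_of_nonneg (x := w ^ 200) (by positivity)
      have : 0 ≤ w ^ 200 := by positivity
      linarith
    have b3 : exp (w ^ 200) ≤ exp (-(2 * w ^ 4)) ^ 2 * exp (w ^ 200) ^ 2 := by
      rw [← mul_pow, ← exp_add, ← exp_nat_mul]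
      exact exp_le_exp.2 (by push_cast; linarith)
    calc _ = (w ^ 200) ^ 2 / 2 / (32 * π) := by rw [e4]; field_simp; norm_num
      _ ≤ exp (-(2 * w ^ 4)) ^ 2 * exp (w ^ 200) ^ 2 / (32 * π) := by gcongr; exact b2.trans b3
      _ ≤ _ := by rw [e3]; gcongr
  have t6 : π * (exp (-(2 * w ^ 4)) * w ^ 200) ^ 2 / (2 * exp (-(2 * w ^ 4)) ^ 2) =
      π / 2 * w ^ 400 := by
    rw [e4]
    field_simp
  rw [e3] at a3
  refine le_trans ?_ a3
  have := hC N M (exp (-(2 * w ^ 4))) (exp (-(2 * w ^ 4)) * w ^ 200) t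
    (C * ((k + 3 : ℕ) * w ^ 200) ^ 2 / exp (-(2 * w ^ 4)) *
      (2 * N * exp (-(((k + 3 : ℕ) : ℝ) ^ (-(39 / 40) : ℝ) / 2 * w ^ 5)) +
        4 * (N : ℝ) ^ 2 * exp (-(1 / (64 * π) * w ^ 400)))) a5 h2 h3 d0 d1 (by positivity) a2
    (by positivity) fun v hv => ?_
  · rwa [t6, ← e1] at this
  have v1 : exp v ≤ 2 * N := by
    have m0 : (0 : ℝ) < M := n0.trans_le (Nat.cast_le.2 h2)
    exact ((exp_le_exp.2 hv.2).trans_eq (exp_log m0)).trans (by exact_mod_cast h3)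
  have v2 : w ^ 200 ≤ v := e1.le.trans hv.1
  refine (hE _ v t _ d0 d1 (l0.trans hv.1) (a4.trans t1) t2).trans ?_
  rw [t3, sub_mul, one_mul, sub_eq_add_neg, exp_add, ← t4, two_mul v, exp_add, ← sq,
    show 4 * (N : ℝ) ^ 2 = (2 * N) ^ 2 by ring]
  gcongr

end Pool.Agent.MP_c853c5_nt.Z
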