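import Pool.Agent.MP_c853c5_nt.Z.Main
import Pool.Agent.MP_c853c5_nt.Z.PLd
import Pool.Agent.MP_c853c5_nt.Z.PGt
import Pool.Agent.MP_c853c5_nt.Z.PEt
import Pool.Agent.MP_c853c5_nt.Z.PCut
import Pool.Agent.MP_c853c5_nt.Z.PTw
import Pool.Agent.MP_c853c5_nt.Z.PPr
import Pool.Agent.MP_c853c5_nt.Z.PTop
import Pool.Agent.MP_c853c5_nt.Z.PMert

/-!
Pointwise bounds for sums over primes.
-/

set_option autoImplicit false

namespace Pool.Agent.MP_c853c5_nt.Z

theorem ker_all : KerStmt := ker exp_all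

theorem tw_all : TwStmt := pTw (pEt pGt (pLd zf_all locZ_all) res) pCut

theorem pr_all : PrStmt := pPr tw_all

theorem pn_all : PnStmt := pPn tw_all

theorem mert_all : MertStmt := pMert pn_all

theorem top_all : TopStmt := pTop ker_all

end Pool.Agent.MP_c853c5_nt.Z
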