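import Pool.Agent.MP_c853c5_nt.Z.YRng

/-!
Large values with exponent `9/4` for one polynomial.
-/

set_option autoImplicit false

open Finset

namespace Pool.Agent.MP_c853c5_nt.Z

open Pool.Agent.MP_2a1f0e_nt

/-- the large values estimate that beats the sixth moment -/
def SqP : Prop := ∀ ε : ℝ, 0 < ε → ∃ K : ℝ, 0 < K ∧ ∀ (N T : ℕ) (V : ℝ) (b : ℕ → ℂ), 1 ≤ N →
  N ^ 2 ≤ T → T ^ 3 ≤ N ^ 8 → 0 < V → (∀ n, ‖b n‖ ≤ 1) →
    (DH.cnt N b T V : ℝ) ≤ K * (N : ℝ) ^ ε *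
      ((N : ℝ) ^ 4 / V ^ 4 + (T : ℝ) ^ (3 / 4 : ℝ) * (N : ℝ) ^ 4 / V ^ 6)

/-- the bound for one long polynomial -/
def RngQ : Prop := ∀ ε : ℝ, 0 < ε → ∃ K : ℝ, 0 < K ∧
  ∀ (N T : ℕ) (σ lam V : ℝ) (b : ℕ → ℂ), 1 ≤ N → 1 ≤ T → (T : ℝ) ^ 5 ≤ (N : ℝ) ^ 6 →
    1 / 2 ≤ σ → σ ≤ 1 → 1 ≤ lam → 0 < V → (N : ℝ) ^ σ ≤ lam * V → (∀ n, ‖b n‖ ≤ 1) →
    (DH.cnt N b T V : ℝ) ≤ K * (N : ℝ) ^ ε * lam ^ 4 *
      ((T : ℝ) ^ (9 / 4 * (1 - σ)) + (N : ℝ) ^ (2 * (1 - σ)))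

/-- the bound for lengths between `T^(3/8)` and `T^(1/2)` -/
def RngS : Prop := ∀ ε : ℝ, 0 < ε → ∃ K : ℝ, 0 < K ∧
  ∀ (N T : ℕ) (σ lam V : ℝ) (b : ℕ → ℂ), 1 ≤ N → N ^ 2 ≤ T → T ^ 3 ≤ N ^ 8 →
    1 / 2 ≤ σ → σ ≤ 1 → 1 ≤ lam → 0 < V → (N : ℝ) ^ σ ≤ lam * V → (∀ n, ‖b n‖ ≤ 1) →
    (DH.cnt N b T V : ℝ) ≤ K * (N : ℝ) ^ ε * lam ^ 6 * (T : ℝ) ^ (9 / 4 * (1 - σ))

theorem xRng (hM : MvStmt) (hL : LVe (12 / 5)) : RngQ := by
  obtain ⟨C, hC, hM⟩ := hM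
  intro ε hε
  obtain ⟨K, hK⟩ := hL ε hε
  refine ⟨2 * C + 2 * |K|, by positivity, fun N T σ L V b hN hT h3 h1 h2 hL hV hσ hb => ?_⟩
  obtain ⟨A, hA⟩ : ∃ A : ℝ, A = 9 / 4 := ⟨_, rfl⟩
  rw [← hA]
  have n1 : (1 : ℝ) ≤ N := by exact_mod_cast hN
  have t1 : (1 : ℝ) ≤ T := by exact_mod_cast hT
  have n0 : (0 : ℝ) < N := by linarith
  have t0 : (0 : ℝ) < T := by linarith
  have ε1 : 1 ≤ (N : ℝ) ^ ε := Real.one_le_rpow n1 hε.le
  have m1 : (DH.cnt N b T V : ℝ) ≤ C * ((N : ℝ) ^ 2 / V ^ 2 + T * (N / V ^ 2)) := by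
    refine ((le_div_iff₀ (by positivity)).2 (hM N T V b hN hV hb)).trans_eq ?_
    ring
  have d1 := div_YRng n0 hL hV hσ 2 (k := 2) (by norm_num)
  have d2 := div_YRng n0 hL hV hσ 1 (k := 2) (by norm_num)
  have d3 := div_YRng n0 hL hV hσ 3 (k := 4) le_rfl
  have d4 := div_YRng n0 hL hV hσ (12 / 5) (k := 4) le_rfl
  rw [Real.rpow_two, Nat.cast_ofNat, show 2 - 2 * σ = 2 * (1 - σ) by ring] at d1
  rw [Real.rpow_one, Nat.cast_ofNat] at d2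
  rw [Real.rpow_ofNat, Nat.cast_ofNat] at d3
  rw [Nat.cast_ofNat] at d4
  have L0 : 0 ≤ L ^ 4 := by positivity
  have P0 : 0 ≤ L ^ 4 * (T : ℝ) ^ (A * (1 - σ)) := by positivity
  have Q0 : 0 ≤ L ^ 4 * (N : ℝ) ^ (2 * (1 - σ)) := by positivity
  have fin : ∀ c : ℝ, 0 ≤ c → c ≤ (C + |K|) * (N : ℝ) ^ ε → (DH.cnt N b T V : ℝ) ≤
      c * (2 * (L ^ 4 * (T : ℝ) ^ (A * (1 - σ)) + L ^ 4 * (N : ℝ) ^ (2 * (1 - σ)))) →
      (DH.cnt N b T V : ℝ) ≤ (2 * C + 2 * |K|) * (N : ℝ) ^ ε * L ^ 4 *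
        ((T : ℝ) ^ (A * (1 - σ)) + (N : ℝ) ^ (2 * (1 - σ))) := fun c _ hc h =>
    h.trans ((mul_le_mul_of_nonneg_right hc (by positivity)).trans_eq (by ring))
  have hC' : C ≤ (C + |K|) * (N : ℝ) ^ ε :=
    (le_add_of_nonneg_right (abs_nonneg K)).trans (le_mul_of_one_le_right (by positivity) ε1)
  rcases le_total T N with hTN | hNT
  · refine fin C hC.le hC' (m1.trans (mul_le_mul_of_nonneg_left ?_ hC.le))
    have : (T : ℝ) * (N / V ^ 2) ≤ (N : ℝ) ^ 2 / V ^ 2 := by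
      rw [← mul_div_assoc, sq (N : ℝ)]
      gcongr
    linarith
  have hlog : 5 * Real.log T ≤ 6 * Real.log N := by
    have := Real.log_le_log (by positivity) h3
    rwa [Real.log_pow, Real.log_pow, Nat.cast_ofNat, Nat.cast_ofNat] at this
  have lx := Real.log_nonneg n1
  have ly := Real.log_nonneg t1
  rcases real_YRng (A := A) (e := 7 / 3) (by rw [hA]; norm_num) hA.ge lx ly
    (by rw [hA]; linarith) h1 with h | ⟨h, -⟩
  · refine fin C hC.le hC' (m1.trans (mul_le_mul_of_nonneg_left ?_ hC.le))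
    have a1 := pow_YRng (a := 1) (b := 1 - 2 * σ) (u := A * (1 - σ)) n0 t0 (by linarith)
    rw [Real.rpow_one] at a1
    have a2 := mul_le_mul_of_nonneg_left d2 t0.le
    have a3 := mul_le_mul_of_nonneg_left a1 L0
    linarith
  · refine fin (|K| * (N : ℝ) ^ ε) (by positivity)
      (mul_le_mul_of_nonneg_right (le_add_of_nonneg_left hC.le) (by positivity))
      ((lv_YRng (hK N T V hN (by exact_mod_cast hNT) hV b hb)).trans ?_)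
    refine mul_le_mul (mul_le_mul_of_nonneg_right (le_abs_self K) (by positivity)) ?_
      (by positivity) (by positivity)
    have a1 := pow_YRng (a := 1 / 2) (b := 3 - 4 * σ) (u := A * (1 - σ)) n0 t0 (by linarith)
    have a2 := pow_YRng (a := 1) (b := 12 / 5 - 4 * σ) (u := A * (1 - σ)) n0 t0 (by linarith)
    rw [← Real.sqrt_eq_rpow] at a1
    rw [Real.rpow_one] at a2
    have a3 := mul_le_mul_of_nonneg_left d3 (Real.sqrt_nonneg T)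
    have a4 := mul_le_mul_of_nonneg_left d4 t0.le
    have a5 := mul_le_mul_of_nonneg_left a1 L0
    have a6 := mul_le_mul_of_nonneg_left a2 L0
    rw [mul_div_assoc, mul_div_assoc]
    linarith

lemma real_XRng {x y σ : ℝ} (hx : 0 ≤ x) (h2 : 2 * x ≤ y) (h3 : 3 * y ≤ 8 * x) :
    y + (2 - 4 * σ) * x ≤ 9 / 4 * (1 - σ) * y ∨
      3 / 4 * y + (4 - 6 * σ) * x ≤ 9 / 4 * (1 - σ) * y := by
  rcases hx.eq_or_lt with h0 | h0
  · left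
    have : y = 0 := by linarith
    rw [this, ← h0]
    simp
  obtain ⟨u, hu⟩ : ∃ u, u = 1 - σ := ⟨_, rfl⟩
  have hσ : σ = 1 - u := by linarith
  rw [hσ]
  have sq := sq_nonneg (3 * y - 8 * x)
  rcases le_total y (8 * u * x) with h | h
  · left
    refine le_of_mul_le_mul_left ?_ h0
    have a := mul_nonneg (sub_nonneg.2 h) (show 0 ≤ 9 * y - 16 * x by linarith)
    nlinarith
  · right
    refine le_of_mul_le_mul_left ?_ h0
    have a := mul_nonneg (sub_nonneg.2 h) (show 0 ≤ 24 * x - 9 * y by linarith)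
    nlinarith

lemma div_XRng {n σ L V : ℝ} (hn : 0 < n) (hL : 1 ≤ L) (hV : 0 < V) (h : n ^ σ ≤ L * V) (a : ℝ)
    {k : ℕ} (hk : k ≤ 6) : n ^ a / V ^ k ≤ L ^ 6 * n ^ (a - k * σ) := by
  have h1 : (n ^ σ) ^ k ≤ L ^ 6 * V ^ k := by
    refine (pow_le_pow_left₀ (by positivity) h k).trans ?_
    rw [mul_pow]
    gcongr
  rw [Real.rpow_sub hn, mul_comm (k : ℝ), Real.rpow_mul_natCast hn.le, ← mul_div_assoc,
    div_le_div_iff₀ (by positivity) (by positivity)]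
  have := mul_le_mul_of_nonneg_left h1 (show 0 ≤ n ^ a by positivity)
  linarith

/-- the fourth moment -/
lemma four_XRng (hM : MvStmt) (hS : SplStmt) : ∀ ε : ℝ, 0 < ε → ∃ K : ℝ, 0 < K ∧
    ∀ (N T : ℕ) (V : ℝ) (b : ℕ → ℂ), 1 ≤ N → N ^ 2 ≤ T → 0 < V → (∀ n, ‖b n‖ ≤ 1) →
      (DH.cnt N b T V : ℝ) ≤ K * (N : ℝ) ^ ε * (T * ((N : ℝ) ^ 2 / V ^ 4)) := by
  obtain ⟨C, hC, hM⟩ := hM
  intro ε hε
  obtain ⟨D, hD, hdiv⟩ := DH.exists_DivB (show 0 < ε / 16 by positivity)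
  refine ⟨48 * C * D ^ 8 * (2 : ℝ) ^ ε, by positivity, fun N T V b hN hT hV hb => ?_⟩
  have n1 : (1 : ℝ) ≤ N := by exact_mod_cast hN
  have hT' : (N : ℝ) ^ 2 ≤ T := by exact_mod_cast hT
  have h1 := hdiv ((2 * N) ^ 2) (Nat.one_le_pow _ _ (by omega))
  obtain ⟨Δ, hΔ⟩ : ∃ Δ : ℝ, Δ = D * (((2 * N) ^ 2 : ℕ) : ℝ) ^ (ε / 16) := ⟨_, rfl⟩
  rw [← hΔ] at h1
  have hΔ1 : 1 ≤ Δ := h1.1
  have hΔ8 : Δ ^ 8 = D ^ 8 * ((2 : ℝ) ^ ε * (N : ℝ) ^ ε) := by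
    rw [hΔ, mul_pow, ← Real.mul_rpow (by norm_num) (by positivity)]
    push_cast
    rw [← Real.rpow_natCast_mul (by positivity), ← Real.rpow_mul_natCast (by positivity)]
    congr 2
    push_cast
    ring
  obtain ⟨c, hc, hcnt⟩ := hS N 2 T Δ V b hN (by norm_num) h1 hV hb
  have each : ∀ i ∈ range 2, (DH.cnt (2 ^ i * N ^ 2) (c i) T (V ^ 2 / ((2 : ℕ) * Δ ^ 2)) : ℝ) ≤
      24 * C * Δ ^ 8 * (T * ((N : ℝ) ^ 2 / V ^ 4)) := by
    intro i hi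
    have hi' : i ≤ 1 := Nat.lt_succ_iff.1 (mem_range.1 hi)
    have hM1 : 1 ≤ 2 ^ i * N ^ 2 :=
      Nat.mul_pos (Nat.pos_of_ne_zero (by positivity)) (Nat.pos_of_ne_zero (by positivity))
    have r := hM (2 ^ i * N ^ 2) T (V ^ 2 / ((2 : ℕ) * Δ ^ 2)) (c i) hM1 (by positivity) (hc i)
    have b1 : ((2 ^ i * N ^ 2 : ℕ) : ℝ) ≤ 2 * (N : ℝ) ^ 2 := by
      push_cast
      have : (2 : ℝ) ^ i ≤ 2 ^ 1 := pow_le_pow_right₀ (by norm_num) hi'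
      have h0 : (0 : ℝ) ≤ (N : ℝ) ^ 2 := by positivity
      nlinarith
    have b2 : C * ((((2 ^ i * N ^ 2 : ℕ) : ℝ) + T) * ((2 ^ i * N ^ 2 : ℕ) : ℝ)) ≤
        C * ((3 * T) * (2 * (N : ℝ) ^ 2)) := by
      apply mul_le_mul_of_nonneg_left _ hC.le
      exact mul_le_mul (by linarith) b1 (by positivity) (by positivity)
    have r2 := (le_div_iff₀ (by positivity)).2 (r.trans b2)
    refine r2.trans ?_
    have e : C * ((3 * T) * (2 * (N : ℝ) ^ 2)) / (V ^ 2 / ((2 : ℕ) * Δ ^ 2)) ^ 2 =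
        24 * C * Δ ^ 4 * (T * ((N : ℝ) ^ 2 / V ^ 4)) := by
      have : Δ ≠ 0 := by linarith
      push_cast
      field_simp
      ring
    rw [e]
    have : Δ ^ 4 ≤ Δ ^ 8 := pow_le_pow_right₀ hΔ1 (by norm_num)
    gcongr
  have hcnt' : (DH.cnt N b T V : ℝ) ≤ ∑ i ∈ range 2,
      (DH.cnt (2 ^ i * N ^ 2) (c i) T (V ^ 2 / ((2 : ℕ) * Δ ^ 2)) : ℝ) := by
    exact_mod_cast hcnt
  refine hcnt'.trans ((sum_le_card_nsmul _ _ _ each).trans (le_of_eq ?_))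
  rw [card_range, nsmul_eq_mul, hΔ8]
  push_cast
  ring

theorem xRngS (hM : MvStmt) (hS : SplStmt) (hQ : SqP) : RngS := by
  intro ε hε
  obtain ⟨K₁, hK₁, h4⟩ := four_XRng hM hS ε hε
  obtain ⟨K₂, hK₂, hQ⟩ := hQ ε hε
  refine ⟨K₁ + 2 * K₂, by positivity, fun N T σ L V b hN hT h3 h1 h2 hL hV hσ hb => ?_⟩
  have n1 : (1 : ℝ) ≤ N := by exact_mod_cast hN
  have hT' : (N : ℝ) ^ 2 ≤ T := by exact_mod_cast hT
  have h3' : (T : ℝ) ^ 3 ≤ (N : ℝ) ^ 8 := by exact_mod_cast h3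
  have n0 : (0 : ℝ) < N := by linarith
  have t0 : (0 : ℝ) < T := lt_of_lt_of_le (by positivity) hT'
  have l2 : 2 * Real.log N ≤ Real.log T := by
    have := Real.log_le_log (by positivity) hT'
    rwa [Real.log_pow, Nat.cast_ofNat] at this
  have l3 : 3 * Real.log T ≤ 8 * Real.log N := by
    have := Real.log_le_log (by positivity) h3'
    rwa [Real.log_pow, Real.log_pow, Nat.cast_ofNat, Nat.cast_ofNat] at this
  have lx := Real.log_nonneg n1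
  have d1 := div_XRng n0 hL hV hσ 2 (k := 4) (by norm_num)
  have d2 := div_XRng n0 hL hV hσ 4 (k := 4) (by norm_num)
  have d3 := div_XRng n0 hL hV hσ 4 (k := 6) le_rfl
  rw [Real.rpow_two, Nat.cast_ofNat] at d1
  rw [Real.rpow_ofNat, Nat.cast_ofNat] at d2 d3
  have L0 : 0 ≤ L ^ 6 := by positivity
  have P0 : 0 ≤ (N : ℝ) ^ ε * (L ^ 6 * (T : ℝ) ^ (9 / 4 * (1 - σ))) := by positivity
  have e0 : 0 ≤ (N : ℝ) ^ ε := by positivity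
  rcases real_XRng (σ := σ) lx l2 l3 with h | h
  · have a1 := pow_YRng (a := 1) (b := 2 - 4 * σ) (u := 9 / 4 * (1 - σ)) n0 t0 (by linarith)
    rw [Real.rpow_one] at a1
    have a2 := mul_le_mul_of_nonneg_left d1 t0.le
    have a3 := mul_le_mul_of_nonneg_left a1 L0
    have a4 : (T : ℝ) * ((N : ℝ) ^ 2 / V ^ 4) ≤ L ^ 6 * (T : ℝ) ^ (9 / 4 * (1 - σ)) := by linarith
    have a5 := mul_le_mul_of_nonneg_left a4 (mul_nonneg hK₁.le e0)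
    have a6 := mul_nonneg hK₂.le P0
    have := h4 N T V b hN hT hV hb
    linarith
  · have a1 := pow_YRng (a := 3 / 4) (b := 4 - 6 * σ) (u := 9 / 4 * (1 - σ)) n0 t0 (by linarith)
    have a0 := pow_YRng (a := 0) (b := 4 - 4 * σ) (u := 9 / 4 * (1 - σ)) n0 t0 (by
      have := mul_le_mul_of_nonneg_left l2 (show 0 ≤ 9 / 4 * (1 - σ) by linarith)
      have := mul_nonneg (show 0 ≤ 1 - σ by linarith) lx
      linarith)
    rw [Real.rpow_zero, one_mul] at a0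
    have a2 := mul_le_mul_of_nonneg_left d3 (show 0 ≤ (T : ℝ) ^ (3 / 4 : ℝ) by positivity)
    have a3 := mul_le_mul_of_nonneg_left a1 L0
    have a3' := mul_le_mul_of_nonneg_left a0 L0
    have a4 : (N : ℝ) ^ 4 / V ^ 4 + (T : ℝ) ^ (3 / 4 : ℝ) * (N : ℝ) ^ 4 / V ^ 6 ≤
        2 * (L ^ 6 * (T : ℝ) ^ (9 / 4 * (1 - σ))) := by
      rw [mul_div_assoc]
      linarith
    have a5 := mul_le_mul_of_nonneg_left a4 (mul_nonneg hK₂.le e0)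
    have a6 := mul_nonneg hK₁.le P0
    have := hQ N T V b hN hT h3 hV hb
    linarith

end Pool.Agent.MP_c853c5_nt.Z
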