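import Pool.Agent.MP_c853c5_nt.Z.YLv
import Pool.Agent.MP_c853c5_nt.Z.XRng

/-!
Large values with exponent `9/4` for all lengths that occur in zero detection.
-/

set_option autoImplicit false

open Finset

namespace Pool.Agent.MP_c853c5_nt.Z

open Pool.Agent.MP_2a1f0e_nt

lemma root_XLv {x y : ℝ} (hy : 0 < y) (h : x ^ 4 ≤ y ^ 9) : x ≤ y ^ (9 / 4 : ℝ) := by
  refine le_of_pow_le_pow_left₀ (n := 4) (by norm_num) (by positivity) (h.trans_eq ?_)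
  rw [← Real.rpow_mul_natCast hy.le, ← Real.rpow_natCast]
  norm_num

/-- choice of the power -/
theorem pick_XLv {η T N : ℝ} {k₀ : ℕ} (hη : 0 < η) (hη' : η ≤ 1 / 20)
    (hk2 : 2 ≤ k₀) (hk : 10 ≤ η * (6 * k₀)) (hT : 2 ≤ T) (hN : T ^ η ≤ N)
    (hN' : N ≤ 6 * T ^ (1 / 2 + η)) :
    (N ^ 2 ≤ 2 * T ∧ (2 * T) ^ 3 ≤ N ^ 8) ∨ ∃ k : ℕ, 2 ≤ k ∧ k ≤ k₀ ∧ (2 * T) ^ 5 ≤ N ^ (6 * k) ∧
      N ^ (2 * k) ≤ 6 ^ 4 * (2 * T) ^ (9 / 4 : ℝ) := by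
  classical
  have hT0 : 0 < T := by linarith
  have hT1 : 1 ≤ T := by linarith
  have hS1 : 1 ≤ 2 * T := by linarith
  have hN1 : 1 ≤ N := (Real.one_le_rpow hT1 hη.le).trans hN
  have hpos : 0 < (2 * T) ^ (9 / 4 : ℝ) := Real.rpow_pos_of_pos (by linarith) _
  have ex : (2 * T) ^ 5 ≤ N ^ (6 * k₀) := by
    calc (2 * T) ^ 5 ≤ (T ^ 2) ^ 5 := pow_le_pow_left₀ (by linarith) (by nlinarith) _
      _ = T ^ (10 : ℝ) := by rw [← pow_mul, ← Real.rpow_natCast]; norm_num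
      _ ≤ T ^ (η * ((6 * k₀ : ℕ) : ℝ)) := by
          apply Real.rpow_le_rpow_of_exponent_le hT1
          push_cast
          exact hk
      _ = (T ^ η) ^ (6 * k₀) := by rw [Real.rpow_mul hT0.le, Real.rpow_natCast]
      _ ≤ N ^ (6 * k₀) := pow_le_pow_left₀ (Real.rpow_nonneg hT0.le _) hN _
  have hex : ∃ k : ℕ, (2 * T) ^ 5 ≤ N ^ (6 * k) := ⟨k₀, ex⟩
  have s1 := Nat.find_spec hex
  have s2 : Nat.find hex ≤ k₀ := Nat.find_min' hex ex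
  by_cases h : Nat.find hex ≤ 2
  · refine Or.inr ⟨2, le_rfl, hk2, s1.trans (pow_le_pow_right₀ hN1 (by omega)), ?_⟩
    calc N ^ (2 * 2) ≤ (6 * T ^ (1 / 2 + η)) ^ (2 * 2) := pow_le_pow_left₀ (by linarith) hN' _
      _ = 6 ^ 4 * T ^ ((1 / 2 + η) * ((4 : ℕ) : ℝ)) := by
          rw [Real.rpow_mul hT0.le, Real.rpow_natCast, mul_pow]
      _ ≤ 6 ^ 4 * T ^ (9 / 4 : ℝ) := by
          apply mul_le_mul_of_nonneg_left _ (by norm_num)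
          apply Real.rpow_le_rpow_of_exponent_le hT1
          push_cast
          linarith
      _ ≤ 6 ^ 4 * (2 * T) ^ (9 / 4 : ℝ) := by
          apply mul_le_mul_of_nonneg_left _ (by norm_num)
          exact Real.rpow_le_rpow hT0.le (by linarith) (by norm_num)
  have s3 := Nat.find_min hex (m := Nat.find hex - 1) (by omega)
  rw [not_le] at s3
  obtain ⟨k, hk⟩ : ∃ k, k = Nat.find hex := ⟨_, rfl⟩
  rw [← hk] at s1 s2 s3 h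
  have fin : N ^ (8 * k) ≤ (2 * T) ^ 9 → N ^ (2 * k) ≤ 6 ^ 4 * (2 * T) ^ (9 / 4 : ℝ) := by
    intro q
    have := root_XLv (x := N ^ (2 * k)) (y := 2 * T) (by linarith)
      (by rw [← pow_mul]; exact (le_of_eq (by congr 1; ring)).trans q)
    linarith
  by_cases h3 : k = 3
  · subst h3
    rcases le_total ((2 * T) ^ 3) (N ^ 8) with q | q
    · refine Or.inl ⟨?_, q⟩
      refine le_of_pow_le_pow_left₀ (n := 5) (by norm_num) (by linarith) (le_trans ?_ s3.le)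
      rw [← pow_mul]
      exact pow_le_pow_right₀ hN1 (by norm_num)
    · refine Or.inr ⟨3, by norm_num, s2, s1, fin ?_⟩
      calc N ^ (8 * 3) = (N ^ 8) ^ 3 := pow_mul _ _ _
        _ ≤ ((2 * T) ^ 3) ^ 3 := pow_le_pow_left₀ (by positivity) q _
        _ = (2 * T) ^ 9 := by rw [← pow_mul]
  · refine Or.inr ⟨k, by omega, s2, s1, fin ?_⟩
    refine le_of_pow_le_pow_left₀ (n := 5) (by norm_num) (by positivity) ?_
    calc (N ^ (8 * k)) ^ 5 = N ^ (8 * k * 5) := (pow_mul _ _ _).symm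
      _ ≤ N ^ (6 * (k - 1) * 9) := pow_le_pow_right₀ hN1 (by omega)
      _ = (N ^ (6 * (k - 1))) ^ 9 := pow_mul _ _ _
      _ ≤ ((2 * T) ^ 5) ^ 9 := pow_le_pow_left₀ (by positivity) s3.le _
      _ = ((2 * T) ^ 9) ^ 5 := by rw [← pow_mul, ← pow_mul]

theorem xLv (hS : SplStmt) (hR : RngQ) (hQ : RngS) : LvP (9 / 4) := by
  intro η hη hη'
  obtain ⟨k₀, hk2, hk⟩ : ∃ k₀ : ℕ, 2 ≤ k₀ ∧ 10 ≤ η * (6 * k₀) := by
    refine ⟨max 2 ⌈10 / (6 * η)⌉₊, le_max_left _ _, ?_⟩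
    have h1 : 10 / (6 * η) ≤ ((max 2 ⌈10 / (6 * η)⌉₊ : ℕ) : ℝ) :=
      (Nat.le_ceil _).trans (by exact_mod_cast le_max_right _ _)
    rw [div_le_iff₀ (by positivity)] at h1
    linarith
  refine ⟨4 * k₀, fun ε hε => ?_⟩
  have hk0 : (0 : ℝ) < k₀ := by exact_mod_cast (by omega : 0 < k₀)
  obtain ⟨e, he, hee⟩ : ∃ e : ℝ, 0 < e ∧ (k₀ : ℝ) * (e * ((1 + 4 * k₀ : ℕ) : ℝ)) = ε := by
    refine ⟨ε / (k₀ * ((1 + 4 * k₀ : ℕ) : ℝ)), by positivity, ?_⟩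
    have : (0 : ℝ) < ((1 + 4 * k₀ : ℕ) : ℝ) := by positivity
    field_simp
  obtain ⟨K₁, hK₁, hR⟩ := hR e he
  obtain ⟨K₂, hK₂, hQ⟩ := hQ ε hε
  obtain ⟨C, hC, hD⟩ := DH.exists_DivB he
  obtain ⟨A, hA⟩ : ∃ A : ℝ, A = 9 / 4 := ⟨_, rfl⟩
  rw [← hA] at hR hQ ⊢
  refine ⟨k₀ * (K₁ * (k₀ * 2 ^ k₀ * C ^ k₀) ^ 4 * ((1 + 4 ^ k₀ * 6 ^ 4) * (2 : ℝ) ^ A) *
    (12 : ℝ) ^ ε) + K₂ * (2 : ℝ) ^ ε * (2 : ℝ) ^ A, by positivity, ?_⟩
  intro N T σ lam V b hT hN hN' hσ hσ' hlam hV hNV hb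
  have hT2 : (2 : ℝ) ≤ T := by exact_mod_cast hT
  have hT0 : (0 : ℝ) < T := by linarith
  have hT1 : (1 : ℝ) ≤ T := by linarith
  have hN1 : (1 : ℝ) ≤ N := (Real.one_le_rpow hT1 hη.le).trans hN
  have hN1' : 1 ≤ N := by exact_mod_cast hN1
  have hA0 : 0 ≤ A := by rw [hA]; norm_num
  have hC0 : 0 ≤ C := by linarith
  have Z0 : 0 ≤ lam ^ (4 * k₀) * (T : ℝ) ^ (A * (1 - σ) + ε) := by positivity
  rw [mul_assoc, add_mul]
  rcases pick_XLv hη hη' hk2 hk hT2 hN hN' with ⟨p1, p2⟩ | ⟨k, k2, kk, p1, p2⟩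
  · refine le_add_of_nonneg_of_le (by positivity) ?_
    have r := hQ N (2 * T) σ lam V b hN1' (by exact_mod_cast p1) (by exact_mod_cast p2) hσ hσ'
      hlam hV hNV hb
    have eT : ((2 * T : ℕ) : ℝ) = 2 * (T : ℝ) := by push_cast; ring
    rw [eT] at r
    have a1 : (N : ℝ) ^ ε ≤ (2 : ℝ) ^ ε * (T : ℝ) ^ ε := by
      rw [← Real.mul_rpow (by norm_num) hT0.le]
      exact Real.rpow_le_rpow (by positivity) (by nlinarith) hε.le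
    have a2 : lam ^ 6 ≤ lam ^ (4 * k₀) := pow_le_pow_right₀ hlam (by omega)
    have a3 : (2 * (T : ℝ)) ^ (A * (1 - σ)) ≤ (2 : ℝ) ^ A * (T : ℝ) ^ (A * (1 - σ)) := by
      rw [Real.mul_rpow (by norm_num) hT0.le]
      apply mul_le_mul_of_nonneg_right _ (by positivity)
      apply Real.rpow_le_rpow_of_exponent_le (by norm_num)
      nlinarith
    calc _ ≤ _ := r
      _ ≤ K₂ * ((2 : ℝ) ^ ε * (T : ℝ) ^ ε) * lam ^ (4 * k₀) *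
          ((2 : ℝ) ^ A * (T : ℝ) ^ (A * (1 - σ))) := by gcongr
      _ = _ := by rw [Real.rpow_add hT0]; ring
  refine le_add_of_le_of_nonneg ?_ (by positivity)
  rw [← hA] at p2
  have k1 : 1 ≤ k := by omega
  have k1' : (1 : ℝ) ≤ k := by exact_mod_cast k1
  have kk' : (k : ℝ) ≤ k₀ := by exact_mod_cast kk
  have hX : 1 ≤ (2 * N) ^ k := Nat.one_le_pow _ _ (by omega)
  have hdiv := hD _ hX
  obtain ⟨Δ, hΔ⟩ : ∃ Δ : ℝ, Δ = C * (((2 * N) ^ k : ℕ) : ℝ) ^ e := ⟨_, rfl⟩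
  rw [← hΔ] at hdiv
  have hΔ1 : 1 ≤ Δ := hdiv.1
  obtain ⟨c, hc, hcnt⟩ := hS N k (2 * T) Δ V b hN1' k1 hdiv hV hb
  have hNT : (N : ℝ) ≤ 6 * T := by
    refine hN'.trans (mul_le_mul_of_nonneg_left ?_ (by norm_num))
    calc (T : ℝ) ^ (1 / 2 + η) ≤ (T : ℝ) ^ (1 : ℝ) :=
          Real.rpow_le_rpow_of_exponent_le hT1 (by linarith)
      _ = T := Real.rpow_one _
  have hY : (2 * (N : ℝ)) ^ k ≤ (12 * (T : ℝ)) ^ k₀ :=
    (pow_le_pow_left₀ (by positivity) (by linarith) k).trans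
      (pow_le_pow_right₀ (by linarith) kk)
  obtain ⟨y, hy⟩ : ∃ y : ℝ, y = ((12 * (T : ℝ)) ^ k₀) ^ e := ⟨_, rfl⟩
  have hy1 : 1 ≤ y := by
    rw [hy]
    exact Real.one_le_rpow (one_le_pow₀ (by linarith)) he.le
  have hyy : y ^ (1 + 4 * k₀) = (12 : ℝ) ^ ε * (T : ℝ) ^ ε := by
    rw [hy, ← Real.rpow_natCast_mul (by positivity), ← Real.rpow_mul_natCast (by positivity),
      mul_assoc, hee, Real.mul_rpow (by norm_num) hT0.le]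
  have hΔy : Δ ≤ C * y := by
    rw [hΔ, hy]
    apply mul_le_mul_of_nonneg_left _ (by linarith)
    apply Real.rpow_le_rpow (by positivity) _ he.le
    push_cast
    exact hY
  obtain ⟨L, hL⟩ : ∃ L : ℝ, L = k * 2 ^ k * lam ^ k * Δ ^ k := ⟨_, rfl⟩
  have hL1 : 1 ≤ L := by
    rw [hL]
    exact one_le_mul_of_one_le_of_one_le (one_le_mul_of_one_le_of_one_le
      (one_le_mul_of_one_le_of_one_le k1' (one_le_pow₀ (by norm_num))) (one_le_pow₀ hlam))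
      (one_le_pow₀ hΔ1)
  have hL2 : L ≤ (k₀ * 2 ^ k₀ * C ^ k₀) * (lam ^ k₀ * y ^ k₀) := by
    have a1 : (2 : ℝ) ^ k ≤ 2 ^ k₀ := pow_le_pow_right₀ (by norm_num) kk
    have a2 : lam ^ k ≤ lam ^ k₀ := pow_le_pow_right₀ hlam kk
    have a3 : Δ ^ k ≤ (C * y) ^ k₀ :=
      (pow_le_pow_right₀ hΔ1 kk).trans (pow_le_pow_left₀ (by linarith) hΔy _)
    calc L = k * 2 ^ k * lam ^ k * Δ ^ k := hL
      _ ≤ k₀ * 2 ^ k₀ * lam ^ k₀ * (C * y) ^ k₀ := by gcongr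
      _ = _ := by rw [mul_pow]; ring
  have each : ∀ i ∈ range k,
      (DH.cnt (2 ^ i * N ^ k) (c i) (2 * T) (V ^ k / (k * Δ ^ k)) : ℝ) ≤
        K₁ * (k₀ * 2 ^ k₀ * C ^ k₀) ^ 4 * ((1 + 4 ^ k₀ * 6 ^ 4) * (2 : ℝ) ^ A) * (12 : ℝ) ^ ε *
          lam ^ (4 * k₀) * (T : ℝ) ^ (A * (1 - σ) + ε) := by
    intro i hi
    have hik : i ≤ k := (mem_range.1 hi).le
    have hM1 : 1 ≤ 2 ^ i * N ^ k :=
      Nat.mul_pos (Nat.pos_of_ne_zero (by positivity)) (Nat.pos_of_ne_zero (by positivity))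
    have eM : ((2 ^ i * N ^ k : ℕ) : ℝ) = 2 ^ i * (N : ℝ) ^ k := by push_cast; ring
    have eT : ((2 * T : ℕ) : ℝ) = 2 * (T : ℝ) := by push_cast; ring
    have b1 : (1 : ℝ) ≤ 2 ^ i := one_le_pow₀ (by norm_num)
    have b2 : (2 : ℝ) ^ i ≤ 2 ^ k := pow_le_pow_right₀ (by norm_num) hik
    have b3 : (2 : ℝ) ^ i ≤ 2 ^ k₀ := pow_le_pow_right₀ (by norm_num) (hik.trans kk)
    have q1 : ((2 * T : ℕ) : ℝ) ^ 5 ≤ ((2 ^ i * N ^ k : ℕ) : ℝ) ^ 6 := by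
      rw [eM, eT]
      refine p1.trans ?_
      rw [mul_comm 6 k, pow_mul]
      exact pow_le_pow_left₀ (by positivity) (le_mul_of_one_le_left (by positivity) b1) 6
    have q2 : ((2 ^ i * N ^ k : ℕ) : ℝ) ^ σ ≤ L * (V ^ k / (k * Δ ^ k)) := by
      rw [eM, hL]
      exact size_YLv (by positivity) hσ' (by linarith) k1 hik hNV
    have r := hR (2 ^ i * N ^ k) (2 * T) σ L (V ^ k / (k * Δ ^ k)) (c i) hM1 (by omega) q1 hσ hσ'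
      hL1 (by positivity) q2 (hc i)
    rw [eM, eT] at r
    have q3 : (2 ^ i * (N : ℝ) ^ k) ^ 2 ≤ 4 ^ k₀ * 6 ^ 4 * (2 * (T : ℝ)) ^ A := by
      have a1 : ((2 : ℝ) ^ i) ^ 2 ≤ 4 ^ k₀ := by
        calc ((2 : ℝ) ^ i) ^ 2 ≤ ((2 : ℝ) ^ k₀) ^ 2 := pow_le_pow_left₀ (by positivity) b3 2
          _ = 4 ^ k₀ := by rw [← pow_mul, mul_comm, pow_mul]; norm_num
      rw [mul_pow, ← pow_mul (N : ℝ), mul_comm k 2, mul_assoc]
      exact mul_le_mul a1 p2 (by positivity) (by positivity)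
    have q4 := terms_YLv hA0 hσ hσ' hT0 (by positivity)
      (one_le_mul_of_one_le_of_one_le (one_le_pow₀ (by norm_num)) (by norm_num)) q3
    have q5 : (2 ^ i * (N : ℝ) ^ k) ^ e ≤ y := by
      rw [hy]
      apply Real.rpow_le_rpow (by positivity) _ he.le
      refine le_trans ?_ hY
      rw [mul_pow]
      exact mul_le_mul_of_nonneg_right b2 (by positivity)
    have q6 : L ^ 4 ≤ ((k₀ * 2 ^ k₀ * C ^ k₀) * (lam ^ k₀ * y ^ k₀)) ^ 4 :=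
      pow_le_pow_left₀ (by linarith) hL2 4
    refine r.trans ?_
    calc K₁ * (2 ^ i * (N : ℝ) ^ k) ^ e * L ^ 4 *
          ((2 * (T : ℝ)) ^ (A * (1 - σ)) + (2 ^ i * (N : ℝ) ^ k) ^ (2 * (1 - σ)))
        ≤ K₁ * y * ((k₀ * 2 ^ k₀ * C ^ k₀) * (lam ^ k₀ * y ^ k₀)) ^ 4 *
          ((1 + 4 ^ k₀ * 6 ^ 4) * (2 : ℝ) ^ A * (T : ℝ) ^ (A * (1 - σ))) := by gcongr
      _ = K₁ * (k₀ * 2 ^ k₀ * C ^ k₀) ^ 4 * ((1 + 4 ^ k₀ * 6 ^ 4) * (2 : ℝ) ^ A) *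
          y ^ (1 + 4 * k₀) * lam ^ (4 * k₀) * (T : ℝ) ^ (A * (1 - σ)) := by ring
      _ = _ := by rw [hyy, Real.rpow_add hT0]; ring
  have hcnt' : (DH.cnt N b (2 * T) V : ℝ) ≤ ∑ i ∈ range k,
      (DH.cnt (2 ^ i * N ^ k) (c i) (2 * T) (V ^ k / (k * Δ ^ k)) : ℝ) := by
    exact_mod_cast hcnt
  refine hcnt'.trans ((sum_le_card_nsmul _ _ _ each).trans ?_)
  rw [card_range, nsmul_eq_mul]
  calc _ ≤ (k₀ : ℝ) * (K₁ * (k₀ * 2 ^ k₀ * C ^ k₀) ^ 4 * ((1 + 4 ^ k₀ * 6 ^ 4) * (2 : ℝ) ^ A) *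
        (12 : ℝ) ^ ε * lam ^ (4 * k₀) * (T : ℝ) ^ (A * (1 - σ) + ε)) :=
        mul_le_mul_of_nonneg_right kk' (by positivity)
    _ = _ := by ring

end Pool.Agent.MP_c853c5_nt.Z
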