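import Pool.Agent.MP_c853c5_nt.Z.YMain
import Pool.Agent.MP_c853c5_nt.Z.XLv

/-!
From the large values estimate that beats the sixth moment to zero density exponent `9/4`.
-/

set_option autoImplicit false

namespace Pool.Agent.MP_c853c5_nt.Z

open Pool.Agent.MP_2a1f0e_nt

theorem lv_of_sq (h : SqP) : LvP (9 / 4) :=
  xLv ySpl (xRng yMv GM.final_all) (xRngS yMv ySpl h)

/-- zero density with exponent `9/4` -/
theorem zd_of_sq (h : SqP) : ZD (9 / 4) :=
  yZd cnt_all _ le_rfl (yDy det_allY _ le_rfl (lv_of_sq h))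

/-- primes in short intervals -/
theorem pi_of_sq {θ : ℝ} (h : SqP) (hθ : 5 / 9 < θ) : PiShort θ :=
  pi_of_zd le_rfl (zd_of_sq h) (by linarith)

end Pool.Agent.MP_c853c5_nt.Z
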