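import Pool.Agent.MP_c853c5_nt.Z.XRng
import Pool.Agent.MP_2a1f0e_nt.SQ.Defs

set_option autoImplicit false

namespace Pool.Agent.MP_c853c5_nt.Z

open Pool.Agent.MP_2a1f0e_nt

theorem sq_of_int6 (h : SQ.Int6Stmt) : SqP := by
  intro ε hε
  obtain ⟨K, hK, h⟩ := h ε hε
  refine ⟨2 * K, by positivity, fun N T V b hN _ h3 hV hb => (h N T V b hN hV hb).trans ?_⟩
  have n1 : (1 : ℝ) ≤ N := by exact_mod_cast hN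
  have t0 : (0 : ℝ) ≤ T := by positivity
  have h3' : (T : ℝ) ^ 3 ≤ (N : ℝ) ^ 8 := by exact_mod_cast h3
  have a1 : (T : ℝ) ≤ (N : ℝ) ^ 4 := by
    refine le_of_pow_le_pow_left₀ (n := 3) (by norm_num) (by positivity) (h3'.trans ?_)
    rw [← pow_mul]
    exact pow_le_pow_right₀ n1 (by norm_num)
  have a2 : (T : ℝ) ^ (1 / 4 : ℝ) ≤ N := by
    refine le_of_pow_le_pow_left₀ (n := 4) (by norm_num) (by positivity) (le_of_eq_of_le ?_ a1)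
    rw [← Real.rpow_mul_natCast t0]
    norm_num
  have a3 : (T : ℝ) = (T : ℝ) ^ (3 / 4 : ℝ) * (T : ℝ) ^ (1 / 4 : ℝ) := by
    rw [← Real.rpow_add' t0 (by norm_num)]
    norm_num
  have a4 : (T : ℝ) * (N : ℝ) ^ 3 ≤ (T : ℝ) ^ (3 / 4 : ℝ) * (N : ℝ) ^ 4 := by
    calc (T : ℝ) * (N : ℝ) ^ 3 = (T : ℝ) ^ (3 / 4 : ℝ) * ((T : ℝ) ^ (1 / 4 : ℝ) * (N : ℝ) ^ 3) := by
          rw [← mul_assoc, ← a3]
      _ ≤ (T : ℝ) ^ (3 / 4 : ℝ) * ((N : ℝ) * (N : ℝ) ^ 3) := by gcongr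
      _ = _ := by ring
  have a5 : ((T : ℝ) ^ (3 / 4 : ℝ) * (N : ℝ) ^ 4 + T * (N : ℝ) ^ 3) / V ^ 6 ≤
      2 * ((T : ℝ) ^ (3 / 4 : ℝ) * (N : ℝ) ^ 4 / V ^ 6) := by
    rw [← mul_div_assoc]
    exact div_le_div_of_nonneg_right (by linarith) (by positivity)
  have a6 : 0 ≤ (N : ℝ) ^ 4 / V ^ 4 := by positivity
  have a7 : 0 ≤ K * (N : ℝ) ^ ε := by positivity
  have := mul_le_mul_of_nonneg_left (show (N : ℝ) ^ 4 / V ^ 4 +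
    ((T : ℝ) ^ (3 / 4 : ℝ) * (N : ℝ) ^ 4 + T * (N : ℝ) ^ 3) / V ^ 6 ≤ 2 * ((N : ℝ) ^ 4 / V ^ 4 +
      (T : ℝ) ^ (3 / 4 : ℝ) * (N : ℝ) ^ 4 / V ^ 6) by linarith) a7
  linarith

end Pool.Agent.MP_c853c5_nt.Z
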