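import Pool.Agent.MP_c853c5_nt.Z.YDefs
import Pool.Agent.MP_2a1f0e_nt.Power

set_option autoImplicit false

open Finset

namespace Pool.Agent.MP_c853c5_nt.Z

open Pool.Agent.MP_2a1f0e_nt

lemma dy_YSpl (f : ℕ → ℂ) (M J : ℕ) :
    ∑ j ∈ range (J + 1), ∑ n ∈ Icc (2 ^ j * M) (2 * (2 ^ j * M)),
      (if j = 0 ∨ 2 ^ j * M < n then f n else 0) = ∑ n ∈ Icc M (2 ^ (J + 1) * M), f n := by
  induction J with
  | zero => simp
  | succ J ih =>
    have h1 : M ≤ 2 ^ (J + 1) * M := Nat.le_mul_of_pos_left M (by positivity)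
    rw [sum_range_succ, ih, pow_succ' 2 (J + 1), mul_assoc, ← sum_filter]
    generalize 2 ^ (J + 1) * M = a at *
    rw [← sum_union]
    · refine sum_congr ?_ fun _ _ => rfl
      ext n
      simp only [mem_union, mem_filter, mem_Icc]
      omega
    · rw [disjoint_left]
      intro n h2 h3
      simp only [mem_filter, mem_Icc] at h2 h3
      omega

theorem ySpl : SplStmt := by
  intro N k T Δ V b hN hk hΔ hV hb
  obtain ⟨J, rfl⟩ : ∃ J, k = J + 1 := ⟨k - 1, by omega⟩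
  obtain ⟨d1, d2⟩ := hΔ
  obtain ⟨D, hD'⟩ : ∃ D, D = Δ ^ (J + 1) := ⟨_, rfl⟩
  have hD : 0 < D := by rw [hD']; positivity
  have hc : ∀ n, ‖(tr N b ^ (J + 1)) n‖ ≤ D := fun n => by
    by_cases hn : n ≤ (2 * N) ^ (J + 1)
    · exact (tr_pow_norm N b _ n).trans (hD' ▸ tr_pow_le N b hb d1 d2 _ n hn)
    · rw [tr_pow_supp N b _ n fun h => hn (mem_Icc.1 h).2, norm_zero]
      exact hD.le
  rw [← hD']
  refine ⟨fun j n => if j = 0 ∨ 2 ^ j * N ^ (J + 1) < n then (tr N b ^ (J + 1)) n / D else 0,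
    fun j n => ?_, ?_⟩
  · dsimp only
    split_ifs
    · rw [norm_div, Complex.norm_real, Real.norm_of_nonneg hD.le]
      exact div_le_one_of_le₀ (hc n) hD.le
    · simp
  refine le_trans (card_le_card fun t ht => ?_) card_biUnion_le
  obtain ⟨ht, hVt⟩ := mem_filter.1 ht
  have h2 : ∑ j ∈ range (J + 1), GM.DP (2 ^ j * N ^ (J + 1))
      (fun n => if j = 0 ∨ 2 ^ j * N ^ (J + 1) < n then (tr N b ^ (J + 1)) n / D else 0) t =
      GM.DP N b t ^ (J + 1) / D := by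
    have h1 := dy_YSpl (fun n => (tr N b ^ (J + 1)) n * GM.pw n t / D) (N ^ (J + 1)) J
    rw [← sum_div, ← mul_pow, tr_pow_sum hN b (fun n => GM.pw n t) (fun x y hx hy => by
      rw [Nat.cast_mul, GM.pw_mul (by exact_mod_cast hx) (by exact_mod_cast hy)])
      (by rw [Nat.cast_one, GM.pw_one]) (J + 1)] at h1
    refine Eq.trans (sum_congr rfl fun j _ => sum_congr rfl fun n _ => ?_) h1
    dsimp only
    split_ifs
    · rw [div_mul_eq_mul_div]
    · rw [zero_mul]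
  have h3 : ∑ _j ∈ range (J + 1), V ^ (J + 1) / (((J + 1 : ℕ) : ℝ) * D) ≤
      ∑ j ∈ range (J + 1), ‖GM.DP (2 ^ j * N ^ (J + 1))
        (fun n => if j = 0 ∨ 2 ^ j * N ^ (J + 1) < n then (tr N b ^ (J + 1)) n / D else 0) t‖ := by
    refine le_trans ?_ (norm_sum_le _ _)
    rw [h2, norm_div, norm_pow, Complex.norm_real, Real.norm_of_nonneg hD.le, sum_const,
      card_range, nsmul_eq_mul, ← mul_div_assoc, mul_div_mul_left _ _ (by positivity)]
    gcongr
  obtain ⟨j, hj, h4⟩ := exists_le_of_sum_le nonempty_range_add_one h3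
  exact mem_biUnion.2 ⟨j, hj, mem_filter.2 ⟨ht, h4⟩⟩

end Pool.Agent.MP_c853c5_nt.Z
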