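import Pool.Agent.MP_c853c5_nt.Z.Defs

set_option autoImplicit false

open Finset

namespace Pool.Agent.MP_c853c5_nt.Z

open Pool.Agent.MP_2a1f0e_nt (ex gs kp)

variable {ι κ : Type} {k : ℕ}

/-- the size of a fibre -/
def fib (S : Finset ι) (f : ι → Fin k → ℤ) (h : Fin k → ℤ) : ℕ := (S.filter fun x => f x = h).card

lemma card_shift (S : Finset ι) (f : ι → Fin k → ℤ) (h : Fin k → ℤ) (B : Finset (Fin k → ℤ))
    (hB : ∀ x ∈ S, f x ∈ B) :
    ((S ×ˢ S).filter fun p => f p.1 = f p.2 + h).card = ∑ b ∈ B, fib S f (b + h) * fib S f b := by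
  classical
  rw [card_eq_sum_card_fiberwise (f := fun p => f p.2) (t := B)
    (fun p hp => hB _ (mem_product.mp (mem_filter.mp hp).1).2)]
  refine sum_congr rfl fun b _ => ?_
  unfold fib
  rw [← card_product]
  congr 1
  ext p
  simp only [mem_filter, mem_product]
  constructor
  · rintro ⟨⟨⟨h1, h2⟩, h3⟩, h4⟩
    exact ⟨⟨h1, by rw [h3, h4]⟩, h2, h4⟩
  · rintro ⟨⟨h1, h3⟩, h2, h4⟩
    exact ⟨⟨⟨h1, h2⟩, by rw [h3, h4]⟩, h4⟩

/-- the count as a sum of squares of fibres -/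
lemma cnt_eq (S : Finset ι) (f : ι → Fin k → ℤ) (B : Finset (Fin k → ℤ))
    (hB : ∀ x ∈ S, f x ∈ B) : cnt S f = ∑ b ∈ B, fib S f b ^ 2 := by
  have := card_shift S f 0 B hB
  simp only [add_zero] at this
  unfold cnt
  rw [this]
  exact sum_congr rfl fun b _ => (sq _).symm

lemma sum_fib_sq_le (S : Finset ι) (f : ι → Fin k → ℤ) (B : Finset (Fin k → ℤ)) :
    ∑ b ∈ B, fib S f b ^ 2 ≤ cnt S f := by
  classical
  rw [cnt_eq S f (B ∪ S.image f) fun x hx => mem_union_right _ (mem_image_of_mem f hx)]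
  exact sum_le_sum_of_subset subset_union_left

/-- a shifted count is at most the diagonal count -/
lemma fiber_le (S : Finset ι) (f : ι → Fin k → ℤ) (h : Fin k → ℤ) :
    ((S ×ˢ S).filter fun p => f p.1 = f p.2 + h).card ≤ cnt S f := by
  classical
  rw [card_shift S f h (S.image f) fun x hx => mem_image_of_mem f hx]
  have h1 := sum_fib_sq_le S f (S.image f)
  have h2 := sum_fib_sq_le S f ((S.image f).image (· + h))
  rw [sum_image fun a _ b _ e => add_right_cancel e] at h2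
  have h3 : 2 * ∑ b ∈ S.image f, fib S f (b + h) * fib S f b ≤
      ∑ b ∈ S.image f, fib S f (b + h) ^ 2 + ∑ b ∈ S.image f, fib S f b ^ 2 := by
    rw [mul_sum, ← sum_add_distrib]
    refine sum_le_sum fun b _ => ?_
    have := two_mul_le_add_sq (fib S f (b + h) : ℤ) (fib S f b)
    rw [mul_assoc] at this
    exact_mod_cast this
  omega

/-- covering -/
lemma cnt_cover (S : Finset ι) (I : Finset κ) (T : κ → Finset ι) (f : ι → Fin k → ℤ)
    (h : ∀ x ∈ S, ∃ i ∈ I, x ∈ T i) : cnt S f ≤ I.card * ∑ i ∈ I, cnt (T i) f := by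
  classical
  rw [cnt_eq S f (S.image f) fun x hx => mem_image_of_mem f hx]
  have h1 : ∀ b, fib S f b ≤ ∑ i ∈ I, fib (T i) f b := by
    intro b
    refine le_trans (card_le_card (t := I.biUnion fun i => (T i).filter fun x => f x = b) ?_)
      card_biUnion_le
    intro x hx
    obtain ⟨hx1, hx2⟩ := mem_filter.mp hx
    obtain ⟨i, hi, hxi⟩ := h x hx1
    exact mem_biUnion.mpr ⟨i, hi, mem_filter.mpr ⟨hxi, hx2⟩⟩
  calc ∑ b ∈ S.image f, fib S f b ^ 2 ≤ ∑ b ∈ S.image f, I.card * ∑ i ∈ I, fib (T i) f b ^ 2 :=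
        sum_le_sum fun b _ => (Nat.pow_le_pow_left (h1 b) 2).trans sq_sum_le_card_mul_sum_sq
    _ = I.card * ∑ i ∈ I, ∑ b ∈ S.image f, fib (T i) f b ^ 2 := by rw [← mul_sum, sum_comm]
    _ ≤ _ := Nat.mul_le_mul_left _ (sum_le_sum fun i _ => sum_fib_sq_le _ _ _)

/-- transport along an injection -/
lemma cnt_map (S : Finset ι) (S' : Finset κ) (f : ι → Fin k → ℤ) (f' : κ → Fin k → ℤ)
    (e : ι → κ) (he : Set.InjOn e S) (hS : ∀ x ∈ S, e x ∈ S')
    (hf : ∀ x ∈ S, ∀ y ∈ S, f x = f y → f' (e x) = f' (e y)) : cnt S f ≤ cnt S' f' := by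
  unfold cnt
  refine card_le_card_of_injOn (fun p => (e p.1, e p.2)) ?_ ?_
  · intro p hp
    obtain ⟨h1, h2⟩ := mem_filter.mp (mem_coe.mp hp)
    obtain ⟨h3, h4⟩ := mem_product.mp h1
    exact mem_coe.mpr (mem_filter.mpr ⟨mem_product.mpr ⟨hS _ h3, hS _ h4⟩, hf _ h3 _ h4 h2⟩)
  · intro p hp q hq hpq
    obtain ⟨h3, h4⟩ := mem_product.mp (mem_filter.mp (mem_coe.mp hp)).1
    obtain ⟨h5, h6⟩ := mem_product.mp (mem_filter.mp (mem_coe.mp hq)).1
    exact Prod.ext (he h3 h5 (congrArg Prod.fst hpq)) (he h4 h6 (congrArg Prod.snd hpq))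

lemma cnt_le_sq (S : Finset ι) (f : ι → Fin k → ℤ) : cnt S f ≤ S.card ^ 2 := by
  unfold cnt
  refine (card_filter_le _ _).trans ?_
  rw [card_product, sq]

lemma mem_tup {s : ℕ} {F : Finset ℤ} {x : Fin s → ℤ} : x ∈ tup s F ↔ ∀ i, x i ∈ F :=
  Fintype.mem_piFinset

lemma mem_box {s X : ℕ} {x : Fin s → ℤ} : x ∈ box s X ↔ ∀ i, 1 ≤ x i ∧ x i ≤ X := by
  unfold box
  simp only [mem_tup, mem_Icc]

lemma card_box (s X : ℕ) : (box s X).card = X ^ s := by
  unfold box tup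
  simp [Fintype.card_piFinset]

lemma JJ_le (k s X : ℕ) : JJ k s X ≤ X ^ (2 * s) := by
  have := cnt_le_sq (box s X) (ps k)
  rwa [card_box, ← pow_mul, mul_comm] at this

/-- `n ^ (i t)` as an additive character -/
lemma cpow_eq_ex {x : ℝ} (hx : 0 < x) (t : ℝ) :
    (x : ℂ) ^ ((t : ℂ) * Complex.I) = ex (t * Real.log x / (2 * Real.pi)) := by
  rw [Complex.cpow_def_of_ne_zero (by exact_mod_cast hx.ne'), ← Complex.ofReal_log hx.le]
  unfold ex
  congr 1
  have : (Real.pi : ℂ) ≠ 0 := by exact_mod_cast Real.pi_ne_zero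
  push_cast
  field_simp

lemma norm_cpow_I {n : ℕ} (hn : 0 < n) (t : ℝ) : ‖(n : ℂ) ^ ((t : ℂ) * Complex.I)‖ = 1 := by
  rw [Complex.norm_natCast_cpow_of_pos hn]
  simp

/-- splitting `n ^ (-s)` -/
lemma cpow_neg_split {n : ℕ} (hn : 0 < n) (s : ℂ) :
    (n : ℂ) ^ (-s) =
      (((n : ℝ) ^ (-s.re) : ℝ) : ℂ) * (n : ℂ) ^ (((-s.im : ℝ) : ℂ) * Complex.I) := by
  rw [Complex.ofReal_cpow (Nat.cast_nonneg n), Complex.ofReal_natCast,
    ← Complex.cpow_add _ _ (by exact_mod_cast hn.ne')]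
  congr 1
  apply Complex.ext <;> simp

lemma norm_ES_le (N M : ℕ) (t : ℝ) : ‖ES N M t‖ ≤ ((M - N : ℕ) : ℝ) := by
  unfold ES
  refine (norm_sum_le _ _).trans ?_
  rw [sum_congr rfl fun n hn => norm_cpow_I (by have := (mem_Ioc.mp hn).1; omega) t]
  simp

lemma ord_nonneg (ρ : ℂ) : 0 ≤ ord ρ := Nat.cast_nonneg _

lemma zeta1_eq {s : ℂ} (hs : s ≠ 1) : riemannZeta₁ s = (s - 1) * riemannZeta s := by
  rw [riemannZeta_eq_inv_sub_mul hs]
  have : s - 1 ≠ 0 := sub_ne_zero.mpr hs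
  field_simp

lemma ne_one_of_zeta1 {ρ : ℂ} (h : riemannZeta₁ ρ = 0) : ρ ≠ 1 := by
  rintro rfl
  simp at h

lemma zeta_of_zeta1 {ρ : ℂ} (h : riemannZeta₁ ρ = 0) : riemannZeta ρ = 0 := by
  have h1 := ne_one_of_zeta1 h
  rw [zeta1_eq h1] at h
  exact (mul_eq_zero.mp h).resolve_left (sub_ne_zero.mpr h1)

lemma re_lt_one {ρ : ℂ} (h : riemannZeta₁ ρ = 0) : ρ.re < 1 := by
  by_contra h1
  exact riemannZeta_ne_zero_of_one_le_re (not_lt.mp h1) (zeta_of_zeta1 h)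

lemma ord_eq_zero {ρ : ℂ} (h : riemannZeta₁ ρ ≠ 0) : ord ρ = 0 := by
  unfold ord
  rw [(differentiable_riemannZeta₁.analyticAt ρ).analyticOrderAt_eq_zero.mpr h]
  simp

/-- the logarithmic derivative to the right of the line of real part one -/
lemma LS_eq {s : ℂ} (hs : 1 < s.re) :
    LSeries (fun n => (ArithmeticFunction.vonMangoldt n : ℂ)) s = -logDeriv riemannZeta s := by
  rw [ArithmeticFunction.LSeries_vonMangoldt_eq_deriv_riemannZeta_div hs, logDeriv_apply, neg_div]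

lemma logDeriv_zeta1 {s : ℂ} (hs : s ≠ 1) (h0 : riemannZeta₁ s ≠ 0) :
    logDeriv riemannZeta₁ s = 1 / (s - 1) + logDeriv riemannZeta s := by
  have h1 : s - 1 ≠ 0 := sub_ne_zero.mpr hs
  have h2 : riemannZeta s ≠ 0 := fun h => h0 (by rw [zeta1_eq hs, h, mul_zero])
  have e : riemannZeta₁ =ᶠ[nhds s] fun z => (z - 1) * riemannZeta z := by
    filter_upwards [isOpen_ne.mem_nhds hs] with z hz using zeta1_eq hz
  rw [(logDeriv_congr_nhds e).self_of_nhds,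
    logDeriv_mul (f := fun z => z - 1) s h1 h2 (by fun_prop) (differentiableAt_riemannZeta hs)]
  simp [logDeriv_apply]

end Pool.Agent.MP_c853c5_nt.Z
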