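import Pool.Agent.MP_c853c5_nt.Z.Basic

set_option autoImplicit false

open Finset

namespace Pool.Agent.MP_c853c5_nt.Z

open Pool.Agent.MP_2a1f0e_nt

/-- the bilinear phase -/
noncomputable def ph_Bil {K : ℕ} (α : Fin K → ℝ) (u c : Fin K → ℤ) : ℝ :=
  ∑ j, α j * ((u j : ℝ) * (c j : ℝ))

/-- the moment curve -/
def v_Bil (K : ℕ) (a : ℤ) : Fin K → ℤ := fun j => a ^ (j.val + 1)

lemma ph_comm_Bil {K : ℕ} (α : Fin K → ℝ) (u c : Fin K → ℤ) :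
    ph_Bil α u c = ph_Bil α c u := sum_congr rfl fun j _ => by ring

lemma ph_sub_Bil {K : ℕ} (α : Fin K → ℝ) (u u' c : Fin K → ℤ) :
    ph_Bil α u c - ph_Bil α u' c = ph_Bil α (u - u') c := by
  unfold ph_Bil
  rw [← sum_sub_distrib]
  refine sum_congr rfl fun j _ => ?_
  simp only [Pi.sub_apply, Int.cast_sub]
  ring

lemma ex_sum_Bil {ι : Type*} (s : Finset ι) (f : ι → ℝ) :
    ex (∑ i ∈ s, f i) = ∏ i ∈ s, ex (f i) := by
  classical
  induction s using Finset.induction_on with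
  | empty => simp [ex_zero]
  | insert a s ha ih => rw [sum_insert ha, prod_insert ha, ex_add, ih]

lemma ph_ps_Bil {K s : ℕ} (α : Fin K → ℝ) (x : Fin s → ℤ) (c : Fin K → ℤ) :
    ph_Bil α (ps K x) c = ∑ i, ph_Bil α (v_Bil K (x i)) c := by
  unfold ph_Bil ps v_Bil
  rw [sum_comm]
  refine sum_congr rfl fun j _ => ?_
  rw [Int.cast_sum, sum_mul, mul_sum]

lemma pow_Bil {K : ℕ} (s : ℕ) (α : Fin K → ℝ) (F : Finset ℤ) (ξ : ℤ → ℂ) (c : Fin K → ℤ) :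
    (∑ a ∈ F, ξ a * ex (ph_Bil α (v_Bil K a) c)) ^ s =
      ∑ x ∈ tup s F, (∏ i, ξ (x i)) * ex (ph_Bil α (ps K x) c) := by
  have h := prod_univ_sum (fun _ : Fin s => F) fun _ a => ξ a * ex (ph_Bil α (v_Bil K a) c)
  rw [prod_const, card_univ, Fintype.card_fin] at h
  rw [h]
  refine sum_congr rfl fun x _ => ?_
  rw [prod_mul_distrib, ph_ps_Bil, ex_sum_Bil]

lemma geo_Bil (H : ℕ) (θ : ℝ) : ‖∑ c ∈ Icc (1 : ℤ) H, ex (θ * c)‖ = ‖gs H θ‖ := by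
  have : ∑ c ∈ Icc (1 : ℤ) H, ex (θ * c) = ex θ * gs H θ := by
    unfold gs
    rw [mul_sum]
    symm
    refine sum_bij (fun r _ => (r : ℤ) + 1) ?_ ?_ ?_ ?_
    · intro r hr
      have := mem_range.1 hr
      rw [mem_Icc]
      omega
    · intro r _ r' _ h
      omega
    · intro c hc
      rw [mem_Icc] at hc
      exact ⟨(c - 1).toNat, mem_range.2 (by omega), by omega⟩
    · intro r _
      rw [← ex_add]
      congr 1
      push_cast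
      ring
  rw [this, norm_mul, norm_ex, one_mul]

lemma box_sum_Bil {K : ℕ} (α : Fin K → ℝ) (H : Fin K → ℕ) (m : Fin K → ℤ) :
    ‖∑ c ∈ Fintype.piFinset fun j => Icc (1 : ℤ) (H j), ex (ph_Bil α m c)‖ =
      ∏ j, ‖gs (H j) (α j * m j)‖ := by
  have h := prod_univ_sum (fun j : Fin K => Icc (1 : ℤ) (H j))
    fun j c => ex (α j * m j * (c : ℝ))
  have e : ∀ c : Fin K → ℤ, ex (ph_Bil α m c) = ∏ j, ex (α j * m j * (c j : ℝ)) := by
    intro c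
    rw [← ex_sum_Bil]
    simp only [ph_Bil, mul_assoc]
  simp only [e]
  rw [← h, norm_prod]
  exact prod_congr rfl fun j _ => geo_Bil _ _

lemma fib_sum_Bil {ι κ : Type*} [DecidableEq κ] (S : Finset ι) (B : Finset κ) (f : ι → κ)
    (h : ∀ x ∈ S, f x ∈ B) (g : κ → ℝ) :
    ∑ x ∈ S, g (f x) = ∑ c ∈ B, ((S.filter fun x => f x = c).card : ℝ) * g c := by
  rw [← sum_fiberwise_of_maps_to' h]
  simp only [sum_const, nsmul_eq_mul]

lemma ps_mem_Bil {K s Y : ℕ} (hs : 1 ≤ s) {x : Fin s → ℤ} (hx : x ∈ box s Y) (j : Fin K) :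
    1 ≤ ps K x j ∧ ps K x j ≤ ((s * Y ^ (j.val + 1) : ℕ) : ℤ) := by
  rw [mem_box] at hx
  unfold ps
  constructor
  · have := card_nsmul_le_sum univ (fun i => x i ^ (j.val + 1)) 1
      fun i _ => one_le_pow₀ (hx i).1
    simp only [card_univ, Fintype.card_fin, nsmul_eq_mul, mul_one] at this
    omega
  · have := sum_le_card_nsmul univ (fun i => x i ^ (j.val + 1)) ((Y : ℤ) ^ (j.val + 1))
      fun i _ => pow_le_pow_left₀ (by linarith [(hx i).1]) (hx i).2 _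
    simpa using this

/-- the mean square over the box of frequencies -/
lemma mean_Bil {K s Y : ℕ} (hs : 1 ≤ s) (α : Fin K → ℝ) (Ξ : (Fin s → ℤ) → ℂ)
    (hΞ : ∀ x, ‖Ξ x‖ = 1) :
    ∑ c ∈ Fintype.piFinset fun j : Fin K => Icc (1 : ℤ) ((s * Y ^ (j.val + 1) : ℕ) : ℤ),
        ‖∑ x ∈ box s Y, Ξ x * ex (ph_Bil α (ps K x) c)‖ ^ 2 ≤
      (JJ K s Y : ℝ) * ∏ j : Fin K, DD (s * Y ^ (j.val + 1)) (α j) := by
  classical
  set H : Fin K → ℕ := fun j => s * Y ^ (j.val + 1) with hH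
  set B := Fintype.piFinset fun j : Fin K => Icc (1 : ℤ) (H j) with hB
  set G : (Fin K → ℤ) → ℝ := fun m => ∏ j, ‖gs (H j) (α j * m j)‖ with hG
  set M := Fintype.piFinset fun j : Fin K => Ioo (-(H j : ℤ)) (H j) with hM
  have h1 : ((∑ c ∈ B, ‖∑ x ∈ box s Y, Ξ x * ex (ph_Bil α (ps K x) c)‖ ^ 2 : ℝ) : ℂ) =
      ∑ p ∈ box s Y ×ˢ box s Y, Ξ p.1 * (starRingEnd ℂ) (Ξ p.2) *
        ∑ c ∈ B, ex (ph_Bil α (ps K p.1 - ps K p.2) c) := by
    rw [Complex.ofReal_sum, sum_product]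
    simp only [normsq_sum, ph_sub_Bil, mul_sum]
    rw [sum_comm]
    exact sum_congr rfl fun c _ => sum_comm
  have h2 : ∀ p ∈ box s Y ×ˢ box s Y, ps K p.1 - ps K p.2 ∈ M := by
    intro p hp
    rw [hM, Fintype.mem_piFinset]
    intro j
    have a1 := ps_mem_Bil (K := K) hs (mem_product.1 hp).1 j
    have a2 := ps_mem_Bil (K := K) hs (mem_product.1 hp).2 j
    simp only [mem_Ioo, Pi.sub_apply, hH]
    omega
  calc _ ≤ ‖((∑ c ∈ B, ‖∑ x ∈ box s Y, Ξ x * ex (ph_Bil α (ps K x) c)‖ ^ 2 : ℝ) : ℂ)‖ := by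
        rw [Complex.norm_real]
        exact le_abs_self _
    _ ≤ ∑ p ∈ box s Y ×ˢ box s Y, G (ps K p.1 - ps K p.2) := by
        rw [h1]
        refine (norm_sum_le _ _).trans (le_of_eq (sum_congr rfl fun p _ => ?_))
        rw [norm_mul, norm_mul, Complex.norm_conj, hΞ, hΞ, one_mul, one_mul, box_sum_Bil]
    _ ≤ ∑ m ∈ M, (JJ K s Y : ℝ) * G m := by
        rw [fib_sum_Bil _ M (fun p : (Fin s → ℤ) × (Fin s → ℤ) => ps K p.1 - ps K p.2) h2 G]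
        refine sum_le_sum fun m _ => mul_le_mul_of_nonneg_right ?_
          (prod_nonneg fun j _ => norm_nonneg _)
        have := fiber_le (box s Y) (ps K) m
        simp only [sub_eq_iff_eq_add']
        exact_mod_cast this
    _ = _ := by
        rw [← mul_sum, hM, hG, ← prod_univ_sum (fun j : Fin K => Ioo (-(H j : ℤ)) (H j))
          fun j (m : ℤ) => ‖gs (H j) (α j * m)‖]
        rfl

theorem bil : BilStmt := by
  classical
  intro K s Y α hs _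
  obtain ⟨n, rfl⟩ : ∃ n, s = n + 1 := ⟨s - 1, by omega⟩
  set I := Icc (1 : ℤ) Y with hI
  have hcI : (I.card : ℝ) = Y := by simp [hI]
  set S : ℤ → ℂ := fun a => ∑ b ∈ I, 1 * ex (ph_Bil α (v_Bil K b) (v_Bil K a)) with hS
  have hU : UU K Y α = ∑ a ∈ I, S a := by
    unfold UU
    refine sum_congr rfl fun a _ => sum_congr rfl fun b _ => ?_
    rw [one_mul, ph_comm_Bil]
    simp [ph_Bil, v_Bil]
  have hξ : ∀ a, ∃ ξ : ℂ, ‖ξ‖ = 1 ∧ ((‖S a ^ (n + 1)‖ : ℝ) : ℂ) = ξ * S a ^ (n + 1) :=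
    fun a => Complex.exists_norm_eq_mul_self _
  choose ξ hξ1 hξ2 using hξ
  set T : (Fin K → ℤ) → ℂ := fun c => ∑ a ∈ I, ξ a * ex (ph_Bil α (v_Bil K a) c) with hT
  set B := Fintype.piFinset fun j : Fin K =>
    Icc (1 : ℤ) (((n + 1) * Y ^ (j.val + 1) : ℕ) : ℤ) with hB
  have hmem : ∀ x ∈ box (n + 1) Y, ps K x ∈ B := fun x hx =>
    Fintype.mem_piFinset.2 fun j => mem_Icc.2 (ps_mem_Bil hs hx j)
  have h1 : ‖UU K Y α‖ ^ (n + 1) ≤ (Y : ℝ) ^ n * ∑ a ∈ I, ‖S a‖ ^ (n + 1) := by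
    rw [hU, ← hcI]
    exact (pow_le_pow_left₀ (norm_nonneg _) (norm_sum_le _ _) _).trans
      (pow_sum_le_card_mul_sum_pow (fun _ _ => norm_nonneg _) n)
  have h2 : ∑ a ∈ I, ‖S a‖ ^ (n + 1) ≤ ∑ x ∈ box (n + 1) Y, ‖T (ps K x)‖ := by
    have e : ((∑ a ∈ I, ‖S a‖ ^ (n + 1) : ℝ) : ℂ) = ∑ x ∈ box (n + 1) Y, T (ps K x) := by
      rw [Complex.ofReal_sum, hT, sum_comm]
      refine sum_congr rfl fun a _ => ?_
      rw [← norm_pow, hξ2, hS, pow_Bil, mul_sum]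
      refine sum_congr rfl fun x _ => ?_
      rw [prod_const_one, one_mul, ph_comm_Bil]
    calc _ ≤ ‖((∑ a ∈ I, ‖S a‖ ^ (n + 1) : ℝ) : ℂ)‖ := by
          rw [Complex.norm_real]
          exact le_abs_self _
      _ ≤ _ := by
          rw [e]
          exact norm_sum_le _ _
  have h3 : (∑ x ∈ box (n + 1) Y, ‖T (ps K x)‖) ^ (n + 1) ≤
      ((Y : ℝ) ^ (n + 1)) ^ n * ∑ x ∈ box (n + 1) Y, ‖T (ps K x)‖ ^ (n + 1) := by
    have := pow_sum_le_card_mul_sum_pow (s := box (n + 1) Y) (f := fun x => ‖T (ps K x)‖)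
      (fun _ _ => norm_nonneg _) n
    rwa [card_box, Nat.cast_pow] at this
  have h4 : (∑ x ∈ box (n + 1) Y, ‖T (ps K x)‖ ^ (n + 1)) ^ 2 ≤
      (JJ K (n + 1) Y : ℝ) * ∑ c ∈ B, ‖T c ^ (n + 1)‖ ^ 2 := by
    rw [fib_sum_Bil _ B (ps K) hmem fun c => ‖T c‖ ^ (n + 1)]
    refine (sum_mul_sq_le_sq_mul_sq _ _ _).trans ?_
    simp only [norm_pow]
    refine mul_le_mul_of_nonneg_right ?_ (sum_nonneg fun _ _ => by positivity)
    have := sum_fib_sq_le (box (n + 1) Y) (ps K) B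
    unfold fib at this
    exact_mod_cast this
  have h5 : ∑ c ∈ B, ‖T c ^ (n + 1)‖ ^ 2 ≤
      (JJ K (n + 1) Y : ℝ) * ∏ j : Fin K, DD ((n + 1) * Y ^ (j.val + 1)) (α j) := by
    have := mean_Bil (Y := Y) hs α (fun x => ∏ i, ξ (x i)) fun x => by
      rw [norm_prod]
      simp [hξ1]
    simp only [hT, pow_Bil]
    exact this
  have h6 : (‖UU K Y α‖ ^ (n + 1)) ^ (n + 1) ≤ ((Y : ℝ) ^ n) ^ (n + 1) *
      (((Y : ℝ) ^ (n + 1)) ^ n * ∑ x ∈ box (n + 1) Y, ‖T (ps K x)‖ ^ (n + 1)) := by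
    calc _ ≤ ((Y : ℝ) ^ n * ∑ x ∈ box (n + 1) Y, ‖T (ps K x)‖) ^ (n + 1) :=
          pow_le_pow_left₀ (by positivity) (h1.trans (by gcongr)) _
      _ ≤ _ := by
          rw [mul_pow]
          gcongr
  calc ‖UU K Y α‖ ^ (2 * (n + 1) ^ 2) = ((‖UU K Y α‖ ^ (n + 1)) ^ (n + 1)) ^ 2 := by
        rw [← pow_mul, ← pow_mul]
        congr 1
        ring
    _ ≤ (((Y : ℝ) ^ n) ^ (n + 1) *
      (((Y : ℝ) ^ (n + 1)) ^ n * ∑ x ∈ box (n + 1) Y, ‖T (ps K x)‖ ^ (n + 1))) ^ 2 :=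
        pow_le_pow_left₀ (by positivity) h6 _
    _ = (Y : ℝ) ^ (4 * (n + 1) * (n + 1 - 1)) *
        (∑ x ∈ box (n + 1) Y, ‖T (ps K x)‖ ^ (n + 1)) ^ 2 := by
        rw [Nat.add_sub_cancel]
        ring
    _ ≤ (Y : ℝ) ^ (4 * (n + 1) * (n + 1 - 1)) * ((JJ K (n + 1) Y : ℝ) *
        ((JJ K (n + 1) Y : ℝ) * ∏ j : Fin K, DD ((n + 1) * Y ^ (j.val + 1)) (α j))) := by
        gcongr
        exact h4.trans (by gcongr)
    _ = _ := by ring

end Pool.Agent.MP_c853c5_nt.Z
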