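import Pool.Agent.MP_c853c5_nt.Z.Basic

set_option autoImplicit false

open Finset Filter

namespace Pool.Agent.MP_c853c5_nt.Z

lemma alg_Blk {R l G S x n y C : ℝ} (hR : 0 ≤ R) (hl : 0 < l) (hx : 0 < x) (hn : 0 < n)
    (hS0 : 0 ≤ S) (hG : G ≤ x * (162 * n * l ^ 4)) (hS : S ≤ R * (30 * n * l + R * (C * y)))
    (h : (R * (1 / (4 * l))) ^ 2 ≤ G * (2 * S)) (hs : 10368 * C * l ^ 6 * (x * n * y) ≤ 1) :
    R ≤ 311040 * (x * n ^ 2) * l ^ 7 := by
  rcases hR.eq_or_lt with h0 | h0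
  · rw [← h0]; positivity
  have h1 : G * (2 * S) ≤ x * (162 * n * l ^ 4) * (2 * (R * (30 * n * l + R * (C * y)))) :=
    mul_le_mul hG (by linarith) (by linarith) (by positivity)
  have h2 : R ^ 2 = 16 * l ^ 2 * (R * (1 / (4 * l))) ^ 2 := by
    field_simp
    ring
  have h3 := mul_le_mul_of_nonneg_left (h.trans h1) (by positivity : 0 ≤ 16 * l ^ 2)
  have h4 := mul_le_mul_of_nonneg_left hs (by positivity : 0 ≤ R ^ 2)
  rw [← h2] at h3
  refine le_of_mul_le_mul_left ?_ h0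
  nlinarith

lemma ev_Blk (K s : ℝ) (hK : 0 < K) (hs : 0 < s) :
    ∃ U₀ : ℝ, ∀ U, U₀ ≤ U → K * Real.log U ^ 6 ≤ U ^ s := by
  have h := (isLittleO_log_rpow_rpow_atTop (6 : ℝ) hs).bound (inv_pos.2 hK)
  obtain ⟨U₀, h1⟩ := eventually_atTop.1 (h.and (eventually_ge_atTop 1))
  refine ⟨U₀, fun U hU => ?_⟩
  obtain ⟨h2, h3⟩ := h1 U hU
  have e : Real.log U ^ (6 : ℝ) = Real.log U ^ 6 := by exact_mod_cast Real.rpow_natCast _ 6
  rw [e, Real.norm_of_nonneg (by positivity), Real.norm_of_nonneg (by positivity),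
    le_inv_mul_iff₀ hK] at h2
  exact h2

lemma coef_Blk (hT : TauStmt) {N : ℕ} (hN : 1 ≤ N) {σ : ℝ} (hσ : 0 ≤ σ) {a : ℕ → ℂ}
    (ha : ∀ n, ‖a n‖ ≤ (n.divisors.card : ℝ)) :
    ∑ n ∈ Ioc N (2 * N), ‖a n‖ ^ 2 * (n : ℝ) ^ (-(2 * σ)) ≤
      (N : ℝ) ^ (-(2 * σ)) * (2 * N * (1 + Real.log (2 * N)) ^ 4) := by
  have hN0 : (0 : ℝ) < N := by exact_mod_cast hN
  have h1 := hT (2 * N)
  push_cast at h1
  calc _ ≤ ∑ n ∈ Ioc N (2 * N), (N : ℝ) ^ (-(2 * σ)) * (n.divisors.card : ℝ) ^ 2 := by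
        refine Finset.sum_le_sum fun n hn => ?_
        rw [mul_comm]
        refine mul_le_mul ?_ (pow_le_pow_left₀ (norm_nonneg _) (ha n) 2) (by positivity)
          (by positivity)
        exact Real.rpow_le_rpow_of_nonpos hN0 (by exact_mod_cast (Finset.mem_Ioc.1 hn).1.le)
          (by linarith)
    _ ≤ (N : ℝ) ^ (-(2 * σ)) * ∑ n ∈ Icc 1 (2 * N), (n.divisors.card : ℝ) ^ 2 := by
        rw [← Finset.mul_sum]
        refine mul_le_mul_of_nonneg_left (Finset.sum_le_sum_of_subset_of_nonneg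
          (fun n hn => ?_) fun _ _ _ => by positivity) (by positivity)
        have := Finset.mem_Ioc.1 hn
        exact Finset.mem_Icc.2 ⟨by omega, this.2⟩
    _ ≤ _ := mul_le_mul_of_nonneg_left h1 (by positivity)

theorem blk (hH : HalStmt) (hK : KerStmt) (hT : TauStmt) (hS : SepStmt) : BlkStmt := by
  obtain ⟨C, δ, hC, hδ, hδ1, hk⟩ := hK 9 (by norm_num)
  obtain ⟨U₁, hU₁⟩ := ev_Blk (10368 * C) (δ / 16) (by positivity) (by positivity)
  refine ⟨δ / 4, 311040, max U₁ 65536, by positivity, by norm_num,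
    le_max_of_le_right (by norm_num), fun U σ N a W hU hUN hNU hσ hσ1 ha hW hρ => ?_⟩
  have hU1 : U₁ ≤ U := (le_max_left _ _).trans hU
  have hU2 : 65536 ≤ U := (le_max_right _ _).trans hU
  have hn4 : (4 : ℝ) ≤ N := by
    refine le_of_pow_le_pow_left₀ (n := 8) (by norm_num) (Nat.cast_nonneg _) ?_
    linarith
  have hN1 : 1 ≤ N := by exact_mod_cast (by linarith : (1 : ℝ) ≤ N)
  have hn0 : (0 : ℝ) < N := by linarith
  have hU0 : 0 < U := by linarith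
  have hl1 : 1 ≤ Real.log U := by
    rw [Real.le_log_iff_exp_le hU0]
    linarith [Real.exp_one_lt_d9]
  have hσ0 : 0 ≤ σ := by linarith
  have hd : ∀ ρ ∈ W, ∀ ρ' ∈ W, |ρ'.im - ρ.im| ≤ 4 * U := fun ρ h ρ' h' => by
    have := abs_sub ρ'.im ρ.im
    linarith [(hρ ρ h).2.1, (hρ ρ' h').2.1]
  have h49 : 4 * U ≤ (N : ℝ) ^ 9 := by
    have : (0 : ℝ) ≤ (N : ℝ) ^ 8 := by positivity
    rw [pow_succ]
    nlinarith
  have key := hH W N a σ (1 / (4 * Real.log U))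
    (fun ρ ρ' => 5 * N / (1 + |ρ'.im - ρ.im|) + C * (N : ℝ) ^ (1 - δ)) hN1 (by positivity)
    (fun ρ h => (hρ ρ h).1) (fun ρ h => (hρ ρ h).2.2)
    fun ρ h ρ' h' L h1 h2 => hk N L _ hN1 h1 h2 ((hd ρ h ρ' h').trans h49)
  have l1 : 1 + Real.log (2 * N) ≤ 3 * Real.log U := by
    have : Real.log (2 * N) ≤ Real.log (U ^ 2) := Real.log_le_log (by positivity) (by nlinarith)
    rw [Real.log_pow] at this
    push_cast at this
    linarith
  have l0 : 0 ≤ 1 + Real.log (2 * N) := by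
    have := Real.log_nonneg (by linarith : (1 : ℝ) ≤ 2 * N)
    linarith
  have l2 : 1 + Real.log (4 * U + 1) ≤ 3 * Real.log U := by
    have : Real.log (4 * U + 1) ≤ Real.log (U ^ 2) :=
      Real.log_le_log (by positivity) (by nlinarith)
    rw [Real.log_pow] at this
    push_cast at this
    linarith
  have hG : ∑ n ∈ Ioc N (2 * N), ‖a n‖ ^ 2 * (n : ℝ) ^ (-(2 * σ)) ≤
      (N : ℝ) ^ (-(2 * σ)) * (162 * N * Real.log U ^ 4) := by
    refine (coef_Blk hT hN1 hσ0 ha).trans (mul_le_mul_of_nonneg_left ?_ (by positivity))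
    have := mul_le_mul_of_nonneg_left (pow_le_pow_left₀ l0 l1 4) (by positivity : (0 : ℝ) ≤ 2 * N)
    linarith
  have hS' : ∑ ρ ∈ W, ∑ ρ' ∈ W, (5 * N / (1 + |ρ'.im - ρ.im|) + C * (N : ℝ) ^ (1 - δ)) ≤
      W.card * (30 * N * Real.log U + W.card * (C * (N : ℝ) ^ (1 - δ))) := by
    rw [← nsmul_eq_mul]
    refine Finset.sum_le_card_nsmul _ _ _ fun ρ h => ?_
    have h1 := hS W ρ.im (4 * U) hW (by positivity) (hd ρ h)
    have e : ∑ ρ' ∈ W, 5 * (N : ℝ) / (1 + |ρ'.im - ρ.im|) =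
        5 * N * ∑ ρ' ∈ W, 1 / (1 + |ρ'.im - ρ.im|) := by
      rw [Finset.mul_sum]
      exact Finset.sum_congr rfl fun _ _ => by rw [mul_one_div]
    rw [Finset.sum_add_distrib, Finset.sum_const, nsmul_eq_mul, e]
    have := mul_le_mul_of_nonneg_left (h1.trans (by linarith : _ ≤ 6 * Real.log U))
      (by positivity : (0 : ℝ) ≤ 5 * N)
    linarith
  have hs : 10368 * C * Real.log U ^ 6 *
      ((N : ℝ) ^ (-(2 * σ)) * N * (N : ℝ) ^ (1 - δ)) ≤ 1 := by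
    have h1 : U ^ (δ / 16) ≤ (N : ℝ) ^ (δ / 2) := by
      refine (Real.rpow_le_rpow hU0.le hUN (by positivity)).trans_eq ?_
      rw [← Real.rpow_natCast, ← Real.rpow_mul hn0.le]
      congr 1
      push_cast
      ring
    have h2 : (N : ℝ) ^ (δ / 2) * ((N : ℝ) ^ (-(2 * σ)) * N * (N : ℝ) ^ (1 - δ)) ≤ 1 := by
      rw [← Real.rpow_add_one hn0.ne', ← Real.rpow_add hn0, ← Real.rpow_add hn0]
      exact Real.rpow_le_one_of_one_le_of_nonpos (by linarith) (by linarith)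
    exact (mul_le_mul_of_nonneg_right ((hU₁ U hU1).trans h1) (by positivity)).trans h2
  have e : (N : ℝ) ^ (2 * (1 - σ)) = (N : ℝ) ^ (-(2 * σ)) * (N : ℝ) ^ 2 := by
    rw [← Real.rpow_add_natCast hn0.ne']
    congr 1
    push_cast
    ring
  rw [e]
  exact alg_Blk (Nat.cast_nonneg _) (by linarith) (by positivity) hn0
    (Finset.sum_nonneg fun _ _ => Finset.sum_nonneg fun _ _ => by positivity) hG hS' key hs

end Pool.Agent.MP_c853c5_nt.Z
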