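import Pool.Agent.MP_c853c5_nt.Z.Basic

set_option autoImplicit false

open Finset Filter

namespace Pool.Agent.MP_c853c5_nt.Z

theorem cntS (hL : LocZStmt) : CntStmt := by
  classical
  obtain ⟨C, hC, h⟩ := hL
  refine ⟨C, hC, fun j Z hZ => ?_⟩
  obtain ⟨Z₀, hm, -, hs, -⟩ := h ((j : ℝ) + 1 / 2)
  have h1 : ∑ ρ ∈ Z, ord ρ = ∑ ρ ∈ Z.filter (fun ρ => riemannZeta₁ ρ = 0), ord ρ := by
    rw [sum_filter]
    refine sum_congr rfl fun ρ _ => ?_
    split_ifs with h0
    · rfl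
    · exact ord_eq_zero h0
  have h2 : Z.filter (fun ρ => riemannZeta₁ ρ = 0) ⊆ Z₀ := by
    intro ρ hρ
    rw [mem_filter] at hρ
    obtain ⟨a1, a2⟩ := hZ ρ hρ.1
    have a3 := re_lt_one hρ.2
    have a4 := Int.floor_le ρ.im
    have a5 := Int.lt_floor_add_one ρ.im
    rw [a2] at a4 a5
    refine (hm ρ).2 ⟨?_, hρ.2⟩
    rw [Metric.mem_closedBall, Complex.dist_eq, ← sq_le_sq₀ (norm_nonneg _) (by norm_num),
      Complex.sq_norm, Complex.normSq_apply]
    simp only [Complex.sub_re, Complex.sub_im, Complex.add_re, Complex.add_im, Complex.mul_re,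
      Complex.mul_im, Complex.ofReal_re, Complex.ofReal_im, Complex.I_re, Complex.I_im,
      Complex.re_ofNat, Complex.im_ofNat]
    nlinarith
  rw [h1]
  refine (sum_le_sum_of_subset_of_nonneg h2 fun ρ _ _ => ord_nonneg ρ).trans (hs.trans ?_)
  apply mul_le_mul_of_nonneg_left _ (by linarith)
  apply Real.log_le_log (by positivity)
  have := abs_add_le (j : ℝ) (1 / 2)
  rw [abs_of_pos (by norm_num : (0 : ℝ) < 1 / 2)] at this
  linarith

end Pool.Agent.MP_c853c5_nt.Z
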