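import Pool.Agent.MP_c853c5_nt.Z.Basic

set_option autoImplicit false

open Finset

namespace Pool.Agent.MP_c853c5_nt.Z

open Pool.Agent.MP_2a1f0e_nt

lemma card_Ioo_D (H : ℕ) : ((Ioo (-(H : ℤ)) H).card : ℝ) ≤ 2 * H := by
  have h : (Ioo (-(H : ℤ)) H).card ≤ 2 * H := by
    rw [Int.card_Ioo]
    omega
  exact_mod_cast h

lemma card_Icc_D {y : ℝ} (hy : 0 ≤ y) :
    ((Icc (-⌊y + 1 / 2⌋) ⌊y + 1 / 2⌋).card : ℝ) ≤ 2 * y + 2 := by
  have h0 : 0 ≤ ⌊y + 1 / 2⌋ := Int.floor_nonneg.mpr (by linarith)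
  have h1 : ((Icc (-⌊y + 1 / 2⌋) ⌊y + 1 / 2⌋).card : ℤ) = 2 * ⌊y + 1 / 2⌋ + 1 := by
    rw [Int.card_Icc]
    omega
  have h2 : ((Icc (-⌊y + 1 / 2⌋) ⌊y + 1 / 2⌋).card : ℝ) = 2 * (⌊y + 1 / 2⌋ : ℝ) + 1 := by
    exact_mod_cast h1
  have h3 := Int.floor_le (y + 1 / 2)
  linarith

lemma round_mem_D {y z : ℝ} (h : |z| ≤ y) : round z ∈ Icc (-⌊y + 1 / 2⌋) ⌊y + 1 / 2⌋ := by
  have h1 := abs_le.mp (abs_sub_round z)
  have h2 := abs_le.mp h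
  rw [mem_Icc]
  constructor
  · have : -round z ≤ ⌊y + 1 / 2⌋ := by
      rw [Int.le_floor]
      push_cast
      linarith
    omega
  · rw [Int.le_floor]
    linarith

lemma term_le_D (H : ℕ) (x : ℝ) {m : ℤ} (hm : m ∈ Ioo (-(H : ℤ)) H) :
    ‖gs H (x * m)‖ ^ 2 ≤ ∑ l ∈ Icc (-⌊|x| * H + 1 / 2⌋) ⌊|x| * H + 1 / 2⌋,
      2 * (H : ℝ) ^ 2 * kp (2 * H * (x * m - l)) := by
  have hmH : |(m : ℝ)| ≤ H := by
    obtain ⟨h1, h2⟩ := mem_Ioo.mp hm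
    have h3 : |m| ≤ (H : ℤ) := abs_le.mpr ⟨h1.le, h2.le⟩
    exact_mod_cast h3
  have hz : |x * m| ≤ |x| * H := by
    rw [abs_mul]
    exact mul_le_mul_of_nonneg_left hmH (abs_nonneg x)
  have e : gs H (x * m) = gs H (x * m - round (x * m)) := by
    have := gs_add_int H (x * m - round (x * m)) (round (x * m))
    rw [sub_add_cancel] at this
    exact this
  rw [e]
  refine (gs_sq_le H (abs_sub_round (x * m))).trans ?_
  exact single_le_sum (f := fun l : ℤ => 2 * (H : ℝ) ^ 2 * kp (2 * H * (x * m - l)))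
    (fun l _ => mul_nonneg (by positivity) (kp_pos _).le) (round_mem_D hz)

lemma inner_le_D {H : ℕ} (hH : 1 ≤ H) {x : ℝ} (hx : x ≠ 0) (l : ℤ) :
    ∑ m ∈ Ioo (-(H : ℤ)) H, kp (2 * H * (x * m - l)) ≤ 2 + 2 / (H * |x|) := by
  have hH0 : (0 : ℝ) < H := by exact_mod_cast hH
  have hx0 : 0 < |x| := abs_pos.mpr hx
  have hL : (0 : ℝ) < 1 / (2 * H * |x|) := by positivity
  have h := sum_kp_sep (Ioo (-(H : ℤ)) H) (fun m : ℤ => (m : ℝ))
    (fun i _ j _ hne => by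
      have h1 : (1 : ℤ) ≤ |i - j| := Int.one_le_abs (sub_ne_zero.mpr hne)
      exact_mod_cast h1) (l / x) hL
  have e : 2 + 4 * (1 / (2 * H * |x|)) = 2 + 2 / (H * |x|) := by
    field_simp
    ring
  rw [e] at h
  refine le_trans (sum_le_sum fun m _ => kp_anti (le_of_eq ?_)) h
  have e2 : ((m : ℝ) - l / x) / (1 / (2 * H * |x|)) = 2 * H * |x| * (m - l / x) := by
    field_simp
  have e3 : 2 * (H : ℝ) * (x * m - l) = 2 * H * x * (m - l / x) := by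
    field_simp
  rw [e2, e3]
  simp only [mul_pow, sq_abs]

theorem dd : DStmt := by
  intro H x hH
  have hH0 : (0 : ℝ) < H := by exact_mod_cast hH
  have hc := card_Ioo_D H
  constructor
  · unfold DD
    calc ∑ m ∈ Ioo (-(H : ℤ)) H, ‖gs H (x * m)‖ ≤ ∑ _m ∈ Ioo (-(H : ℤ)) H, (H : ℝ) :=
          sum_le_sum fun m _ => norm_gs_le H _
      _ = ((Ioo (-(H : ℤ)) H).card : ℝ) * H := by rw [sum_const, nsmul_eq_mul]
      _ ≤ 2 * H * H := mul_le_mul_of_nonneg_right hc hH0.le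
      _ = 2 * (H : ℝ) ^ 2 := by ring
  · intro hx
    have hx0 : 0 < |x| := abs_pos.mpr hx
    have h1 : DD H x ^ 2 ≤ ((Ioo (-(H : ℤ)) H).card : ℝ) *
        ∑ m ∈ Ioo (-(H : ℤ)) H, ‖gs H (x * m)‖ ^ 2 := by
      unfold DD
      exact sq_sum_le_card_mul_sum_sq
    have hk := card_Icc_D (y := |x| * H) (by positivity)
    have h2 : ∑ m ∈ Ioo (-(H : ℤ)) H, ‖gs H (x * m)‖ ^ 2 ≤
        (2 * (|x| * H) + 2) * (2 * (H : ℝ) ^ 2 * (2 + 2 / (H * |x|))) := by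
      calc ∑ m ∈ Ioo (-(H : ℤ)) H, ‖gs H (x * m)‖ ^ 2
          ≤ ∑ m ∈ Ioo (-(H : ℤ)) H, ∑ l ∈ Icc (-⌊|x| * H + 1 / 2⌋) ⌊|x| * H + 1 / 2⌋,
              2 * (H : ℝ) ^ 2 * kp (2 * H * (x * m - l)) :=
            sum_le_sum fun m hm => term_le_D H x hm
        _ = ∑ l ∈ Icc (-⌊|x| * H + 1 / 2⌋) ⌊|x| * H + 1 / 2⌋, 2 * (H : ℝ) ^ 2 *
              ∑ m ∈ Ioo (-(H : ℤ)) H, kp (2 * H * (x * m - l)) := by
            rw [sum_comm]
            exact sum_congr rfl fun l _ => (mul_sum _ _ _).symm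
        _ ≤ ∑ _l ∈ Icc (-⌊|x| * H + 1 / 2⌋) ⌊|x| * H + 1 / 2⌋,
              2 * (H : ℝ) ^ 2 * (2 + 2 / (H * |x|)) :=
            sum_le_sum fun l _ =>
              mul_le_mul_of_nonneg_left (inner_le_D hH hx l) (by positivity)
        _ = ((Icc (-⌊|x| * H + 1 / 2⌋) ⌊|x| * H + 1 / 2⌋).card : ℝ) *
              (2 * (H : ℝ) ^ 2 * (2 + 2 / (H * |x|))) := by rw [sum_const, nsmul_eq_mul]
        _ ≤ _ := mul_le_mul_of_nonneg_right hk (by positivity)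
    have h3 : DD H x ^ 2 ≤ 2 * H *
        ((2 * (|x| * H) + 2) * (2 * (H : ℝ) ^ 2 * (2 + 2 / (H * |x|)))) :=
      h1.trans (mul_le_mul hc h2 (sum_nonneg fun m _ => by positivity) (by positivity))
    have e : 2 * H * ((2 * (|x| * H) + 2) * (2 * (H : ℝ) ^ 2 * (2 + 2 / (H * |x|)))) =
        4 * (H : ℝ) ^ 4 * (4 * |x| + 8 / H + 4 / (|x| * (H : ℝ) ^ 2)) := by
      field_simp
      ring
    rw [e] at h3
    refine h3.trans (mul_le_mul_of_nonneg_left ?_ (by positivity))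
    have a1 : (8 : ℝ) / H ≤ 10 / H := div_le_div_of_nonneg_right (by norm_num) hH0.le
    have a2 : (4 : ℝ) / (|x| * (H : ℝ) ^ 2) ≤ 6 / (|x| * (H : ℝ) ^ 2) :=
      div_le_div_of_nonneg_right (by norm_num) (by positivity)
    linarith

end Pool.Agent.MP_c853c5_nt.Z
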