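import Pool.Agent.MP_2a1f0e_nt.Kernel

set_option autoImplicit false

open Finset Filter

namespace Pool.Agent.MP_c853c5_nt.Z

open Pool.Agent.MP_2a1f0e_nt (ex gs kp)

/-! ### Block V: the mean value theorem of Vinogradov -/

/-- the number of pairs with the same image -/
def cnt {ι : Type} {k : ℕ} (S : Finset ι) (f : ι → Fin k → ℤ) : ℕ :=
  ((S ×ˢ S).filter fun p => f p.1 = f p.2).card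

/-- the power sums of degree `1, ..., k` -/
def ps (k : ℕ) {s : ℕ} (x : Fin s → ℤ) : Fin k → ℤ := fun j => ∑ i, x i ^ (j.val + 1)

/-- tuples with entries in `F` -/
def tup (s : ℕ) (F : Finset ℤ) : Finset (Fin s → ℤ) := Fintype.piFinset fun _ => F

/-- tuples with entries in `[1, X]` -/
noncomputable def box (s X : ℕ) : Finset (Fin s → ℤ) := tup s (Icc (1 : ℤ) X)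

/-- the number of solutions of the system of Vinogradov -/
noncomputable def JJ (k s X : ℕ) : ℕ := cnt (box s X) (ps k)

/-- tuples that are distinct modulo `p` -/
noncomputable def Dp (k p X : ℕ) : Finset (Fin k → ℤ) :=
  (box k X).filter fun x => ∀ i j, i ≠ j → ¬ (p : ℤ) ∣ x i - x j

def HoldStmt : Prop := ∀ {ι : Type} (k s p : ℕ) (G : Finset ι) (ψ : ι → Fin k → ℤ)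
  (F : Finset ℤ), 0 < p → ∃ a : ℤ,
    cnt (G ×ˢ tup s F) (fun z => ψ z.1 + ps k z.2) ≤
      p ^ (2 * s) * cnt (G ×ˢ tup s (F.filter fun u => (p : ℤ) ∣ u - a))
        (fun z => ψ z.1 + ps k z.2)

def LinStmt : Prop := ∀ k p X : ℕ, p.Prime → k < p → X ≤ p ^ k → ∀ (a : ℤ) (c : Fin k → ℤ),
  ((Dp k p X).filter fun x => ∀ j : Fin k,
    (p : ℤ) ^ (j.val + 1) ∣ ps k (fun i => x i - a) j - c j).card ≤ k.factorial * p ^ (k * (k - 1) / 2)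

def StepStmt : Prop := ∀ k s p X : ℕ, p.Prime → k < p → X ≤ p ^ k →
  cnt (Dp k p X ×ˢ box s X) (fun z => ps k z.1 + ps k z.2) ≤
    p ^ (2 * s) * (X ^ k * (k.factorial * p ^ (k * (k - 1) / 2)) * JJ k s (X / p + 1))

def RecStmt : Prop := ∀ k s X P : ℕ, 1 ≤ k → k ≤ P → X ≤ P ^ k →
  ∃ p : ℕ, P < p ∧ p ≤ 2 ^ (k ^ 3) * P ∧
    JJ k (k + s) X ≤ 2 * (k ^ (k + s) * X ^ k) ^ 2 + 2 * (k + s).factorial ^ 2 * (k ^ 3) ^ 2 *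
      (p ^ (2 * s) * (X ^ k * (k.factorial * p ^ (k * (k - 1) / 2)) * JJ k s (X / p + 1)))

def VmStmt : Prop := ∃ A : ℝ, 1 ≤ A ∧ ∀ k X : ℕ, 1 ≤ k → 1 ≤ X →
  (JJ k (11 * k ^ 3) X : ℝ) ≤ Real.exp (A * (k : ℝ) ^ 8) *
    (X : ℝ) ^ (22 * (k : ℝ) ^ 3 - (k : ℝ) * (k + 1) / 2 + 1 / 100)

/-! ### Block W: exponential sums -/

/-- the sum of `n ^ (i t)` over `N < n ≤ M` -/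
noncomputable def ES (N M : ℕ) (t : ℝ) : ℂ := ∑ n ∈ Ioc N M, (n : ℂ) ^ ((t : ℂ) * Complex.I)

/-- the bilinear sum -/
noncomputable def UU (K Y : ℕ) (α : Fin K → ℝ) : ℂ :=
  ∑ a ∈ Icc (1 : ℤ) Y, ∑ b ∈ Icc (1 : ℤ) Y,
    ex (∑ j : Fin K, α j * ((a : ℝ) ^ (j.val + 1) * (b : ℝ) ^ (j.val + 1)))

noncomputable def DD (H : ℕ) (x : ℝ) : ℝ := ∑ m ∈ Ioo (-(H : ℤ)) H, ‖gs H (x * m)‖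

/-- the Taylor coefficients -/
noncomputable def al (K : ℕ) (t : ℝ) (n : ℕ) : Fin K → ℝ := fun j =>
  (-1) ^ j.val * t / (2 * Real.pi * ((j.val : ℝ) + 1) * (n : ℝ) ^ (j.val + 1))

def BilStmt : Prop := ∀ (K s Y : ℕ) (α : Fin K → ℝ), 1 ≤ s → 1 ≤ Y →
  ‖UU K Y α‖ ^ (2 * s ^ 2) ≤ (Y : ℝ) ^ (4 * s * (s - 1)) * (JJ K s Y : ℝ) ^ 2 *
    ∏ j : Fin K, DD (s * Y ^ (j.val + 1)) (α j)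

def DStmt : Prop := ∀ (H : ℕ) (x : ℝ), 1 ≤ H → DD H x ≤ 2 * (H : ℝ) ^ 2 ∧
  (x ≠ 0 → DD H x ^ 2 ≤ 4 * (H : ℝ) ^ 4 * (4 * |x| + 10 / H + 6 / (|x| * (H : ℝ) ^ 2)))

def TayStmt : Prop := ∀ (N M Y K : ℕ) (t : ℝ), N ≤ M → M ≤ 2 * N → 1 ≤ Y → 2 * Y ^ 2 ≤ N →
  ‖ES N M t‖ ≤ (∑ n ∈ Ioc N M, ‖UU K Y (al K t n)‖) / (Y : ℝ) ^ 2 + 2 * (Y : ℝ) ^ 2 +
    N * (2 * |t| * ((Y : ℝ) ^ 2 / N) ^ (K + 1))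

def UStmt : Prop := ∃ A : ℝ, 10 ≤ A ∧ ∀ (k N Y n : ℕ) (t : ℝ), 1 ≤ k → 1 ≤ Y → Y ^ 3 ≤ N →
  N ≤ 8 * Y ^ 3 → N < n → n ≤ 2 * N → (N : ℝ) ^ (9 / 10 : ℝ) ≤ |t| → |t| ≤ (N : ℝ) ^ k →
    ‖UU (3 * k) Y (al (3 * k) t n)‖ ≤
      Real.exp (A * (k : ℝ) ^ 8) * (Y : ℝ) ^ 2 * (N : ℝ) ^ (-(1 / (A * (k : ℝ) ^ 8)))

def ExpStmt : Prop := ∃ A : ℝ, 10 ≤ A ∧ ∀ (k N M : ℕ) (t : ℝ), 1 ≤ k → 1 ≤ N → N ≤ M →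
  M ≤ 2 * N → (N : ℝ) ^ (9 / 10 : ℝ) ≤ |t| → |t| ≤ (N : ℝ) ^ k →
    ‖ES N M t‖ ≤ Real.exp (A * (k : ℝ) ^ 8) * (N : ℝ) ^ (1 - 1 / (A * (k : ℝ) ^ 8))

def KerStmt : Prop := ∀ k : ℕ, 1 ≤ k → ∃ C δ : ℝ, 0 < C ∧ 0 < δ ∧ δ ≤ 1 / 10 ∧
  ∀ (N M : ℕ) (t : ℝ), 1 ≤ N → N ≤ M → M ≤ 2 * N → |t| ≤ (N : ℝ) ^ k →
    ‖ES N M t‖ ≤ 5 * N / (1 + |t|) + C * (N : ℝ) ^ (1 - δ)

def PSumStmt : Prop := ∀ (N M : ℕ) (c : ℕ → ℂ) (B σ : ℝ), 1 ≤ N → N ≤ M → 0 ≤ σ →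
  (∀ L : ℕ, N ≤ L → L ≤ M → ‖∑ n ∈ Ioc N L, c n‖ ≤ B) →
    ‖∑ n ∈ Ioc N M, (((n : ℝ) ^ (-σ) : ℝ) : ℂ) * c n‖ ≤ 2 * B * (N : ℝ) ^ (-σ)

/-! ### Block Z: the zeta function near the line of real part one -/

/-- the order of vanishing of `(s - 1) ζ(s)` -/
noncomputable def ord (ρ : ℂ) : ℝ := ((analyticOrderAt riemannZeta₁ ρ).toNat : ℝ)

def EMStmt : Prop := ∀ (s : ℂ) (N : ℕ), 0 < s.re → s ≠ 1 → 1 ≤ N →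
  ‖riemannZeta s - ∑ n ∈ Icc 1 N, (n : ℂ) ^ (-s) - (N : ℂ) ^ (1 - s) / (s - 1)‖ ≤
    ‖s‖ * (N : ℝ) ^ (-s.re) / s.re

def TailStmt : Prop := ∃ A C : ℝ, 10 ≤ A ∧ 0 < C ∧ ∀ (k N : ℕ) (s : ℂ), 1 ≤ k → 2 ≤ |s.im| →
  (N : ℝ) ≤ |s.im| → |s.im| ≤ (N : ℝ) ^ k → 1 - 1 / (A * (k : ℝ) ^ 8) ≤ s.re → s.re ≤ 2 →
    ‖riemannZeta s - ∑ n ∈ Icc 1 N, (n : ℂ) ^ (-s)‖ ≤
      C * Real.exp (A * (k : ℝ) ^ 8) * (N : ℝ) ^ (-(1 / (A * (k : ℝ) ^ 8))) * Real.log |s.im|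

def NearStmt : Prop := ∃ C t₀ : ℝ, 1 ≤ C ∧ 3 ≤ t₀ ∧ ∀ s : ℂ, t₀ ≤ |s.im| →
  1 - Real.log |s.im| ^ (-(19 / 20) : ℝ) ≤ s.re → s.re ≤ 2 →
    ‖riemannZeta s‖ ≤ C * Real.log |s.im|

def LocStmt : Prop := ∀ (f : ℂ → ℂ) (c : ℂ) (r M : ℝ), 0 < r → 1 ≤ M →
  AnalyticOnNhd ℂ f (Metric.closedBall c (19 / 10 * r)) → f c ≠ 0 →
  (∀ z ∈ Metric.sphere c (19 / 10 * r), ‖f z‖ ≤ Real.exp M * ‖f c‖) →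
  1 ≤ Real.exp M * ‖f c‖ →
  ∃ Z : Finset ℂ, (∀ z, z ∈ Z ↔ z ∈ Metric.closedBall c (9 / 5 * r) ∧ f z = 0) ∧
    (∀ ρ ∈ Z, 1 ≤ (analyticOrderAt f ρ).toNat) ∧
    ‖logDeriv f c - ∑ ρ ∈ Z, ((analyticOrderAt f ρ).toNat : ℂ) / (c - ρ)‖ ≤ 30000 * M / r

def T341Stmt : Prop :=
  (∀ σ t : ℝ, 1 < σ → 0 ≤ (-3 * logDeriv riemannZeta σ -
    4 * logDeriv riemannZeta (σ + t * Complex.I) -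
      logDeriv riemannZeta (σ + (2 * t : ℝ) * Complex.I)).re) ∧
  (∃ C : ℝ, 0 ≤ C ∧ ∀ σ : ℝ, 1 < σ → σ ≤ 2 → (-logDeriv riemannZeta σ).re ≤ 1 / (σ - 1) + C) ∧
  (∀ s : ℂ, 1 < s.re → s.re ≤ 2 → (s.re - 1) / 2 ≤ ‖riemannZeta s‖)

def ZF0Stmt : Prop := ∃ t₀ : ℝ, 3 ≤ t₀ ∧ ∀ ρ : ℂ, riemannZeta ρ = 0 → t₀ ≤ |ρ.im| →
  ρ.re ≤ 1 - Real.log |ρ.im| ^ (-(39 / 40) : ℝ)

def ZFStmt : Prop := ∃ T₀ : ℝ, 3 ≤ T₀ ∧ ∀ T : ℝ, T₀ ≤ T → ∀ ρ : ℂ, riemannZeta₁ ρ = 0 →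
  |ρ.im| ≤ T → ρ.re ≤ 1 - Real.log T ^ (-(39 / 40) : ℝ)

def LocZStmt : Prop := ∃ C : ℝ, 1 ≤ C ∧ ∀ t : ℝ, ∃ Z : Finset ℂ,
  (∀ z, z ∈ Z ↔ z ∈ Metric.closedBall ((2 : ℂ) + t * Complex.I) (9 / 5) ∧ riemannZeta₁ z = 0) ∧
  (∀ ρ ∈ Z, 1 ≤ ord ρ) ∧ (∑ ρ ∈ Z, ord ρ ≤ C * Real.log (|t| + 3)) ∧
  ∀ z ∈ Metric.closedBall ((2 : ℂ) + t * Complex.I) (8 / 5), riemannZeta₁ z ≠ 0 →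
    ‖logDeriv riemannZeta₁ z - ∑ ρ ∈ Z, (ord ρ : ℂ) / (z - ρ)‖ ≤ C * Real.log (|t| + 3)

/-- local count on unit strips -/
def CntStmt : Prop := ∃ C : ℝ, 1 ≤ C ∧ ∀ (j : ℤ) (Z : Finset ℂ),
  (∀ ρ ∈ Z, 1 / 2 ≤ ρ.re ∧ ⌊ρ.im⌋ = j) → ∑ ρ ∈ Z, ord ρ ≤ C * Real.log (|(j : ℝ)| + 4)

/-! ### Block D: density of zeros near the line of real part one -/

/-- the imaginary parts are separated -/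
def Sep (W : Finset ℂ) : Prop := ∀ ρ ∈ W, ∀ ρ' ∈ W, ρ ≠ ρ' → 1 ≤ |ρ.im - ρ'.im|

def MolStmt : Prop := ∃ η U₀ : ℝ, 0 < η ∧ ∀ (U : ℝ) (X : ℕ), U₀ ≤ U → U ≤ (X : ℝ) ^ 8 →
  (X : ℝ) ^ 8 ≤ 256 * U → ∃ a : ℕ → ℂ, (∀ n, ‖a n‖ ≤ (n.divisors.card : ℝ)) ∧
    ∀ ρ : ℂ, riemannZeta₁ ρ = 0 → 1 - η ≤ ρ.re → U ≤ |ρ.im| → |ρ.im| ≤ 2 * U →
      1 / 2 ≤ ‖∑ n ∈ Ioc X (X ^ 2), a n * (n : ℂ) ^ (-ρ)‖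

def HalStmt : Prop := ∀ (W : Finset ℂ) (N : ℕ) (a : ℕ → ℂ) (σ V : ℝ) (κ : ℂ → ℂ → ℝ), 1 ≤ N →
  0 ≤ V → (∀ ρ ∈ W, σ ≤ ρ.re) →
  (∀ ρ ∈ W, V ≤ ‖∑ n ∈ Ioc N (2 * N), a n * (n : ℂ) ^ (-ρ)‖) →
  (∀ ρ ∈ W, ∀ ρ' ∈ W, ∀ L : ℕ, N ≤ L → L ≤ 2 * N → ‖ES N L (ρ'.im - ρ.im)‖ ≤ κ ρ ρ') →
    ((W.card : ℝ) * V) ^ 2 ≤ (∑ n ∈ Ioc N (2 * N), ‖a n‖ ^ 2 * (n : ℝ) ^ (-(2 * σ))) *
      (2 * ∑ ρ ∈ W, ∑ ρ' ∈ W, κ ρ ρ')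

def TauStmt : Prop := ∀ N : ℕ,
  ∑ n ∈ Icc 1 N, (n.divisors.card : ℝ) ^ 2 ≤ N * (1 + Real.log N) ^ 4

def SepStmt : Prop := ∀ (W : Finset ℂ) (c V : ℝ), Sep W → 0 ≤ V → (∀ ρ ∈ W, |ρ.im - c| ≤ V) →
  ∑ ρ ∈ W, 1 / (1 + |ρ.im - c|) ≤ 2 * (1 + Real.log (V + 1))

def SpaceStmt : Prop := ∀ (Z : Finset ℂ) (m : ℂ → ℝ) (R μ : ℝ), 0 ≤ μ →
  (∀ W : Finset ℂ, W ⊆ Z → Sep W → (W.card : ℝ) ≤ R) →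
  (∀ j : ℤ, ∑ ρ ∈ Z.filter (fun ρ => ⌊ρ.im⌋ = j), m ρ ≤ μ) → ∑ ρ ∈ Z, m ρ ≤ 2 * R * μ

def BlkStmt : Prop := ∃ η C U₀ : ℝ, 0 < η ∧ 0 < C ∧ 3 ≤ U₀ ∧
  ∀ (U σ : ℝ) (N : ℕ) (a : ℕ → ℂ) (W : Finset ℂ), U₀ ≤ U → U ≤ (N : ℝ) ^ 8 → (N : ℝ) ≤ U →
    1 - η ≤ σ → σ ≤ 1 → (∀ n, ‖a n‖ ≤ (n.divisors.card : ℝ)) → Sep W →
    (∀ ρ ∈ W, σ ≤ ρ.re ∧ |ρ.im| ≤ 2 * U ∧
      1 / (4 * Real.log U) ≤ ‖∑ n ∈ Ioc N (2 * N), a n * (n : ℂ) ^ (-ρ)‖) →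
    (W.card : ℝ) ≤ C * (N : ℝ) ^ (2 * (1 - σ)) * Real.log U ^ 7

def ND1Stmt : Prop := ∃ η C U₀ : ℝ, 0 < η ∧ 0 < C ∧ 3 ≤ U₀ ∧
  ∀ (U σ : ℝ) (W : Finset ℂ), U₀ ≤ U → 1 - η ≤ σ → σ ≤ 1 → Sep W →
    (∀ ρ ∈ W, riemannZeta₁ ρ = 0 ∧ σ ≤ ρ.re ∧ U ≤ |ρ.im| ∧ |ρ.im| ≤ 2 * U) →
    (W.card : ℝ) ≤ C * U ^ (1 - σ) * Real.log U ^ 8

def NDStmt : Prop := ∃ η C : ℝ, 0 < η ∧ η ≤ 1 / 2 ∧ 0 < C ∧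
  ∀ (T σ : ℝ) (Z : Finset ℂ), 3 ≤ T → 1 - η ≤ σ → σ ≤ 1 →
    (∀ ρ ∈ Z, riemannZeta₁ ρ = 0 ∧ σ ≤ ρ.re ∧ |ρ.im| ≤ T) →
    ∑ ρ ∈ Z, ord ρ ≤ C * T ^ (1 - σ) * Real.log T ^ 10

/-- the zero density estimate with exponent `A` -/
def ZD (A : ℝ) : Prop := ∀ σ ε : ℝ, 1 / 2 ≤ σ → σ < 1 → 0 < ε → ∃ K : ℝ,
  ∀ (T : ℝ) (Z : Finset ℂ), 1 ≤ T → (∀ ρ ∈ Z, riemannZeta₁ ρ = 0 ∧ σ ≤ ρ.re ∧ |ρ.im| ≤ T) →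
    ∑ ρ ∈ Z, ord ρ ≤ K * T ^ (A * (1 - σ) + ε)

/-! ### Block E: the explicit formula -/

/-- the Gaussian of width `Δ` and mass one -/
noncomputable def gg (Δ z : ℝ) : ℝ := Δ⁻¹ * Real.exp (-(Real.pi * z ^ 2 / Δ ^ 2))

/-- the smoothed density of prime powers -/
noncomputable def PP (Δ v : ℝ) : ℝ :=
  ∑' n : ℕ, ArithmeticFunction.vonMangoldt n * gg Δ (v - Real.log n)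

/-- the transform of the Gaussian -/
noncomputable def GG (Δ v : ℝ) (s : ℂ) : ℂ :=
  Complex.exp (s * v + (Δ : ℂ) ^ 2 * s ^ 2 / (4 * Real.pi))

def GaussStmt : Prop := ∀ Δ v : ℝ, 0 < Δ →
  MeasureTheory.Integrable (fun t : ℝ =>
    LSeries (fun n => (ArithmeticFunction.vonMangoldt n : ℂ)) (2 + t * Complex.I) *
      GG Δ v (2 + t * Complex.I)) ∧
  (PP Δ v : ℂ) = 1 / (2 * Real.pi) * ∫ t : ℝ,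
    LSeries (fun n => (ArithmeticFunction.vonMangoldt n : ℂ)) (2 + t * Complex.I) *
      GG Δ v (2 + t * Complex.I)

def HorStmt : Prop := ∃ C : ℝ, 1 ≤ C ∧ ∀ t : ℝ, ∃ u ∈ Set.Icc t (t + 1),
  ∀ σ ∈ Set.Icc (1 / 2 : ℝ) 2, riemannZeta₁ (σ + u * Complex.I) ≠ 0 ∧
    ‖logDeriv riemannZeta₁ (σ + u * Complex.I)‖ ≤ C * Real.log (|t| + 4) ^ 2

def VerStmt : Prop := ∃ C : ℝ, 1 ≤ C ∧ ∀ T : ℝ, 3 ≤ T → ∃ σ ∈ Set.Icc (1 / 2 : ℝ) (51 / 100),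
  (∀ t ∈ Set.Icc (-T) T, riemannZeta₁ (σ + t * Complex.I) ≠ 0) ∧
    ∫ t in (-T)..T, ‖logDeriv riemannZeta₁ (σ + t * Complex.I)‖ ≤ C * T * Real.log T ^ 2

/-- the residue theorem on a rectangle -/
def ResStmt : Prop := ∀ (g : ℂ → ℂ) (a c d : ℝ), Differentiable ℂ g → a < 1 → c < 0 → 0 < d →
  (∀ σ ∈ Set.Icc a 2, riemannZeta₁ (σ + c * Complex.I) ≠ 0 ∧
    riemannZeta₁ (σ + d * Complex.I) ≠ 0) →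
  (∀ t ∈ Set.Icc c d, riemannZeta₁ (a + t * Complex.I) ≠ 0) →
  ∃ Z : Finset ℂ, (∀ ρ ∈ Z, riemannZeta₁ ρ = 0 ∧ a ≤ ρ.re ∧ ρ.re ≤ 2 ∧ c ≤ ρ.im ∧ ρ.im ≤ d) ∧
    ‖(∫ t in c..d, LSeries (fun n => (ArithmeticFunction.vonMangoldt n : ℂ)) (2 + t * Complex.I) *
        g (2 + t * Complex.I)) - 2 * Real.pi * (g 1 - ∑ ρ ∈ Z, (ord ρ : ℂ) * g ρ)‖ ≤
      (∫ t in c..d, (‖logDeriv riemannZeta₁ (a + t * Complex.I)‖ + 1 / (1 - a)) *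
        ‖g (a + t * Complex.I)‖) +
      (∫ σ in a..2, (‖logDeriv riemannZeta₁ (σ + c * Complex.I)‖ + 1 / |c|) *
        ‖g (σ + c * Complex.I)‖) +
      ∫ σ in a..2, (‖logDeriv riemannZeta₁ (σ + d * Complex.I)‖ + 1 / |d|) *
        ‖g (σ + d * Complex.I)‖

def EFStmt : Prop := ∃ C : ℝ, 0 < C ∧ ∀ Δ v T : ℝ, 0 < Δ → Δ ≤ 1 → 0 ≤ v → 3 ≤ T →
  ∃ Z : Finset ℂ, (∀ ρ ∈ Z, riemannZeta₁ ρ = 0 ∧ 1 / 2 ≤ ρ.re ∧ |ρ.im| ≤ T + 1) ∧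
    |PP Δ v - Real.exp (v + Δ ^ 2 / (4 * Real.pi))| ≤
      2 * ∑ ρ ∈ Z, ord ρ * Real.exp (ρ.re * v) +
        C * (Real.exp (51 / 100 * v) * T * Real.log T ^ 2 +
          Real.exp (2 * v) * (Real.log T ^ 2 + 1 / Δ) *
            Real.exp (-(Δ ^ 2 * T ^ 2 / (8 * Real.pi))))

def ZFarStmt : Prop := ∀ A b η : ℝ, 0 < A → 0 < b → A * b < 1 → 0 < η → η ≤ 1 / 2 → ZD A →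
  ∀ ε : ℝ, 0 < ε → ∀ᶠ x : ℝ in atTop, ∀ Z : Finset ℂ,
    (∀ ρ ∈ Z, riemannZeta₁ ρ = 0 ∧ 1 / 2 ≤ ρ.re ∧ ρ.re ≤ 1 - η ∧ |ρ.im| ≤ x ^ b) →
      ∑ ρ ∈ Z, ord ρ * x ^ (ρ.re - 1) ≤ ε

def ZNearStmt : Prop := ∃ η : ℝ, 0 < η ∧ η ≤ 1 / 2 ∧
  ∀ ε : ℝ, 0 < ε → ∀ᶠ x : ℝ in atTop, ∀ Z : Finset ℂ,
    (∀ ρ ∈ Z, riemannZeta₁ ρ = 0 ∧ 1 - η ≤ ρ.re ∧ |ρ.im| ≤ √x) →
      ∑ ρ ∈ Z, ord ρ * x ^ (ρ.re - 1) ≤ ε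

def SandStmt : Prop := ∃ C : ℝ, 0 < C ∧ ∀ x y Δ d E : ℝ, 1 ≤ x → 0 < y → y ≤ x → 0 < Δ →
  Δ ≤ 1 → 0 < d → d ≤ 1 / 2 → 0 ≤ E → E ≤ 1 →
  (∀ v ∈ Set.Icc (Real.log x - 1) (Real.log x + 2), |PP Δ v - Real.exp v| ≤ E * Real.exp v) →
    (1 - 2 * Real.exp (-(Real.pi * d ^ 2 / (2 * Δ ^ 2)))) *
        (Chebyshev.psi (x + y) - Chebyshev.psi x) ≤ (1 + E) * (y + 6 * x * d) ∧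
      (1 - E) * (y - 6 * x * d) - C * Real.exp (-(Real.pi * d ^ 2 / (2 * Δ ^ 2))) * x ^ 3 / Δ ≤
        Chebyshev.psi (x + y) - Chebyshev.psi x

/-- the smoothed asymptotic -/
def SmStmt : Prop := ∀ A θ : ℝ, 9 / 4 ≤ A → ZD A → 1 - 1 / A < θ → θ ≤ 1 → ∀ E : ℝ, 0 < E →
  ∀ᶠ x : ℝ in atTop, ∀ Δ : ℝ, x ^ (θ - 1) / Real.log x ≤ Δ → Δ ≤ 1 / Real.log x →
    ∀ v ∈ Set.Icc (Real.log x - 1) (Real.log x + 2), |PP Δ v - Real.exp v| ≤ E * Real.exp v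

/-- the prime number theorem in short intervals, for `ψ` -/
def PsiShort (θ : ℝ) : Prop := ∀ ε : ℝ, 0 < ε → ∀ᶠ x : ℝ in atTop, ∀ y : ℝ, x ^ θ ≤ y → y ≤ x →
  |Chebyshev.psi (x + y) - Chebyshev.psi x - y| ≤ ε * y

/-- the prime number theorem in short intervals -/
def PiShort (θ : ℝ) : Prop := ∀ ε : ℝ, 0 < ε → ∃ x₀ : ℝ, ∀ x : ℝ, x₀ ≤ x → ∀ y : ℝ, x ^ θ ≤ y →
  y ≤ x → |((Nat.primeCounting ⌊x + y⌋₊ : ℝ) - Nat.primeCounting ⌊x⌋₊) - y / Real.log x| ≤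
    ε * (y / Real.log x)

def PsiStmt : Prop := ∀ A θ : ℝ, 9 / 4 ≤ A → ZD A → 1 - 1 / A < θ → PsiShort θ

def PiStmt : Prop := ∀ θ : ℝ, 5 / 9 ≤ θ → PsiShort θ → PiShort θ

end Pool.Agent.MP_c853c5_nt.Z
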