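import Pool.Agent.MP_c853c5_nt.Z.Basic

set_option autoImplicit false

open Finset

namespace Pool.Agent.MP_c853c5_nt.Z

lemma root_Exp {N : ℕ} (hN : 1 ≤ N) : ∃ Y : ℕ, 1 ≤ Y ∧ Y ^ 3 ≤ N ∧ N < 8 * Y ^ 3 := by
  have h1 : Nat.nthRoot 3 N ^ 3 ≤ N := Nat.pow_nthRoot_le (Or.inl (by norm_num))
  have h2 : N < (Nat.nthRoot 3 N + 1) ^ 3 := Nat.lt_pow_nthRoot_add_one (by norm_num) N
  generalize Nat.nthRoot 3 N = Y at h1 h2
  have h3 : 1 ≤ Y := Nat.pos_of_ne_zero fun h => by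
    subst h
    omega
  refine ⟨Y, h3, h1, h2.trans_le ?_⟩
  calc _ ≤ (2 * Y) ^ 3 := Nat.pow_le_pow_left (by omega) 3
    _ = _ := by ring

theorem expS (hU : UStmt) (hT : TayStmt) : ExpStmt := by
  obtain ⟨A, hA, hU⟩ := hU
  refine ⟨A + 1, by linarith, fun k N M t hk hN h1 h2 h3 h4 => ?_⟩
  obtain ⟨Y, y1, y2, y3⟩ := root_Exp hN
  have hk1 : (1 : ℝ) ≤ (k : ℝ) ^ 8 := one_le_pow₀ (by exact_mod_cast hk)
  have hN1 : (1 : ℝ) ≤ N := by exact_mod_cast hN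
  have hN0 : (0 : ℝ) < N := by linarith
  replace hU := fun n a b => hU k N Y n t hk y1 y2 y3.le a b h3 h4
  have a1 : 10 ≤ A * (k : ℝ) ^ 8 := by nlinarith
  have a2 : A * (k : ℝ) ^ 8 + 1 ≤ (A + 1) * (k : ℝ) ^ 8 := by linarith
  generalize (A + 1) * (k : ℝ) ^ 8 = a' at *
  generalize A * (k : ℝ) ^ 8 = a at *
  have e1 := Real.add_one_le_exp a
  have e2 : Real.exp a + 4 ≤ Real.exp a' := by
    have := Real.exp_le_exp.2 a2
    rw [Real.exp_add] at this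
    nlinarith [Real.add_one_le_exp 1]
  have a3 : 1 / a ≤ 1 / 10 := one_div_le_one_div_of_le (by norm_num) a1
  have a4 : 1 / a' ≤ 1 / a := one_div_le_one_div_of_le (by linarith) (by linarith)
  refine le_trans ?_ (mul_le_mul e2 (Real.rpow_le_rpow_of_exponent_le hN1 (sub_le_sub_left a4 1))
    (by positivity) (by positivity))
  have hM : ((M - N : ℕ) : ℝ) ≤ N := by exact_mod_cast (by omega : M - N ≤ N)
  rcases y1.eq_or_lt with rfl | y4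
  · have : (N : ℝ) ≤ 8 := by exact_mod_cast y3.le
    exact ((norm_ES_le N M t).trans (by linarith)).trans
      (le_mul_of_one_le_right (by positivity) (Real.one_le_rpow hN1 (by linarith)))
  have hY : (0 : ℝ) < (Y : ℝ) ^ 2 := by positivity
  have y5 : (Y : ℝ) ^ 3 ≤ N := by exact_mod_cast y2
  have b1 : (∑ n ∈ Ioc N M, ‖UU (3 * k) Y (al (3 * k) t n)‖) / (Y : ℝ) ^ 2 ≤
      Real.exp a * (N : ℝ) ^ (1 - 1 / a) := by
    rw [div_le_iff₀ hY]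
    refine (sum_le_card_nsmul _ _ _ fun n hn =>
      hU n (mem_Ioc.1 hn).1 ((mem_Ioc.1 hn).2.trans h2)).trans ?_
    rw [Nat.card_Ioc, nsmul_eq_mul, sub_eq_add_neg (1 : ℝ), Real.rpow_add hN0, Real.rpow_one]
    exact (mul_le_mul_of_nonneg_right hM (by positivity)).trans_eq (by ring)
  have b2 : (Y : ℝ) ^ 2 ≤ (N : ℝ) ^ (1 - 1 / a) :=
    calc _ = ((Y : ℝ) ^ 3) ^ (2 / 3 : ℝ) := by
          rw [← Real.rpow_natCast_mul (Nat.cast_nonneg Y), ← Real.rpow_natCast]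
          norm_num
      _ ≤ (N : ℝ) ^ (2 / 3 : ℝ) := by gcongr
      _ ≤ _ := Real.rpow_le_rpow_of_exponent_le hN1 (by linarith)
  have b3 : N * (2 * |t| * ((Y : ℝ) ^ 2 / N) ^ (3 * k + 1)) ≤ 2 * (Y : ℝ) ^ 2 := by
    have h5 : N * ((Y : ℝ) ^ 2 / N) ^ 3 ≤ 1 :=
      calc _ = ((Y : ℝ) ^ 3 / N) ^ 2 := by field_simp
        _ ≤ 1 := pow_le_one₀ (by positivity) ((div_le_one hN0).2 y5)
    calc _ ≤ N * (2 * (N : ℝ) ^ k * ((Y : ℝ) ^ 2 / N) ^ (3 * k + 1)) := by gcongr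
      _ = 2 * (Y : ℝ) ^ 2 * (N * ((Y : ℝ) ^ 2 / N) ^ 3) ^ k := by
          rw [pow_succ _ (3 * k), pow_mul, mul_pow]
          field_simp
      _ ≤ _ := mul_le_of_le_one_right (by positivity) (pow_le_one₀ (by positivity) h5)
  have b4 := hT N M Y (3 * k) t h1 h2 y1 (le_trans (by nlinarith) y2)
  linarith

end Pool.Agent.MP_c853c5_nt.Z
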