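import Pool.Agent.MP_c853c5_nt.Z.Basic

set_option autoImplicit false

open Finset

namespace Pool.Agent.MP_c853c5_nt.Z

lemma orth_Hold {A ι : Type} [AddCommGroup A] [Fintype A] [DecidableEq A] (S : Finset ι)
    (g : ι → A) :
    ∑ ψ : AddChar A ℂ, ‖∑ x ∈ S, ψ (g x)‖ ^ 2 =
      (Fintype.card A : ℝ) * (((S ×ˢ S).filter fun p => g p.1 = g p.2).card : ℝ) := by
  have h1 : ∀ ψ : AddChar A ℂ, ((‖∑ x ∈ S, ψ (g x)‖ ^ 2 : ℝ) : ℂ) =
      ∑ p ∈ S ×ˢ S, ψ (g p.1 - g p.2) := by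
    intro ψ
    rw [← Complex.normSq_eq_norm_sq, ← Complex.mul_conj, map_sum, sum_mul_sum, sum_product]
    refine sum_congr rfl fun x _ => sum_congr rfl fun y _ => ?_
    rw [sub_eq_add_neg, AddChar.map_add_eq_mul, AddChar.map_neg_eq_conj]
  have h2 : ((∑ ψ : AddChar A ℂ, ‖∑ x ∈ S, ψ (g x)‖ ^ 2 : ℝ) : ℂ) =
      (Fintype.card A : ℂ) * (((S ×ˢ S).filter fun p => g p.1 = g p.2).card : ℂ) := by
    rw [Complex.ofReal_sum, sum_congr rfl fun ψ _ => h1 ψ, sum_comm, card_filter]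
    push_cast
    rw [mul_sum]
    refine sum_congr rfl fun p _ => ?_
    rw [AddChar.sum_apply_eq_ite]
    simp only [sub_eq_zero]
    split_ifs <;> simp
  exact_mod_cast h2

lemma map_sum_Hold {A : Type} [AddCommGroup A] (ψ : AddChar A ℂ) {s : ℕ} (a : Fin s → A) :
    ψ (∑ i, a i) = ∏ i, ψ (a i) := by
  classical
  induction (univ : Finset (Fin s)) using Finset.induction_on with
  | empty => simp
  | insert i t hi ih => rw [sum_insert hi, prod_insert hi, AddChar.map_add_eq_mul, ih]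

/-- reduction modulo `Q` -/
def red_Hold (Q : ℕ) {k : ℕ} (c : Fin k → ℤ) : Fin k → ZMod Q := fun j => (c j : ZMod Q)

lemma factor_Hold {ι : Type} (k s Q : ℕ) (G : Finset ι) (φ : ι → Fin k → ℤ) (F : Finset ℤ)
    (ψ : AddChar (Fin k → ZMod Q) ℂ) :
    ∑ z ∈ G ×ˢ tup s F, ψ (red_Hold Q (φ z.1 + ps k z.2)) =
      (∑ g ∈ G, ψ (red_Hold Q (φ g))) *
        (∑ u ∈ F, ψ (red_Hold Q fun j : Fin k => u ^ (j.val + 1))) ^ s := by
  have h1 : (∑ u ∈ F, ψ (red_Hold Q fun j : Fin k => u ^ (j.val + 1))) ^ s =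
      ∑ x ∈ tup s F, ψ (red_Hold Q (ps k x)) := by
    have := Finset.prod_univ_sum (fun _ : Fin s => F)
      (fun _ u => ψ (red_Hold Q fun j : Fin k => u ^ (j.val + 1)))
    rw [prod_const, card_univ, Fintype.card_fin] at this
    rw [this]
    refine sum_congr rfl fun x _ => ?_
    rw [← map_sum_Hold]
    congr 1
    funext j
    simp [red_Hold, ps]
  rw [h1, sum_mul_sum, sum_product]
  refine sum_congr rfl fun g _ => sum_congr rfl fun x _ => ?_
  rw [← AddChar.map_add_eq_mul]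
  congr 1
  funext j
  simp [red_Hold]

lemma exists_mod_Hold {ι : Type} {k : ℕ} (S : Finset ι) (f : ι → Fin k → ℤ) :
    ∃ Q : ℕ, 0 < Q ∧ ∀ x ∈ S, ∀ y ∈ S, red_Hold Q (f x) = red_Hold Q (f y) → f x = f y := by
  refine ⟨((S ×ˢ S) ×ˢ (univ : Finset (Fin k))).sup
    (fun q => (f q.1.1 q.2 - f q.1.2 q.2).natAbs) + 1, Nat.succ_pos _, ?_⟩
  intro x hx y hy h
  funext j
  have h1 := congrFun h j
  simp only [red_Hold] at h1
  rw [ZMod.intCast_eq_intCast_iff_dvd_sub] at h1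
  have h2 := Finset.le_sup (f := fun q : (ι × ι) × Fin k => (f q.1.1 q.2 - f q.1.2 q.2).natAbs)
    (b := ((x, y), j)) (mem_product.mpr ⟨mem_product.mpr ⟨hx, hy⟩, mem_univ j⟩)
  simp only at h2
  have h3 := Int.eq_zero_of_abs_lt_dvd h1 (by
    rw [abs_sub_comm, Int.abs_eq_natAbs]
    exact_mod_cast Nat.lt_succ_of_le h2)
  omega

theorem hold : HoldStmt := by
  intro ι k s p G φ F hp
  classical
  rcases Nat.eq_zero_or_pos s with rfl | hs
  · refine ⟨0, ?_⟩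
    have : tup 0 F = tup 0 (F.filter fun u => (p : ℤ) ∣ u - 0) := by
      ext x
      simp [mem_tup]
    rw [← this]
    simp
  obtain ⟨Q, hQ, hinj⟩ := exists_mod_Hold (G ×ˢ tup s F) (fun z => φ z.1 + ps k z.2)
  have : NeZero Q := ⟨hQ.ne'⟩
  have key : ∀ F' : Finset ℤ, F' ⊆ F →
      (Fintype.card (Fin k → ZMod Q) : ℝ) *
        (cnt (G ×ˢ tup s F') (fun z => φ z.1 + ps k z.2) : ℝ) =
      ∑ ψ : AddChar (Fin k → ZMod Q) ℂ, ‖∑ g ∈ G, ψ (red_Hold Q (φ g))‖ ^ 2 *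
        ‖∑ u ∈ F', ψ (red_Hold Q fun j : Fin k => u ^ (j.val + 1))‖ ^ (2 * s) := by
    intro F' hF'
    have hsub : ∀ z ∈ G ×ˢ tup s F', z ∈ G ×ˢ tup s F := fun z hz =>
      mem_product.mpr ⟨(mem_product.mp hz).1,
        mem_tup.mpr fun i => hF' (mem_tup.mp (mem_product.mp hz).2 i)⟩
    have h1 := orth_Hold (G ×ˢ tup s F') (fun z => red_Hold Q (φ z.1 + ps k z.2))
    have h2 : (((G ×ˢ tup s F') ×ˢ (G ×ˢ tup s F')).filter fun q =>
        red_Hold Q (φ q.1.1 + ps k q.1.2) = red_Hold Q (φ q.2.1 + ps k q.2.2)).card =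
        cnt (G ×ˢ tup s F') (fun z => φ z.1 + ps k z.2) := by
      unfold cnt
      congr 1
      refine filter_congr fun q hq => ⟨fun h => ?_, fun h => ?_⟩
      · exact hinj _ (hsub _ (mem_product.mp hq).1) _ (hsub _ (mem_product.mp hq).2) h
      · exact congrArg (red_Hold Q) h
    rw [h2] at h1
    rw [← h1]
    refine sum_congr rfl fun ψ _ => ?_
    rw [factor_Hold, norm_mul, norm_pow, mul_pow, ← pow_mul, mul_comm s 2]
  obtain ⟨a, -, ha⟩ := exists_max_image (range p)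
    (fun a : ℕ => cnt (G ×ˢ tup s (F.filter fun u => (p : ℤ) ∣ u - a))
      (fun z => φ z.1 + ps k z.2)) ⟨0, mem_range.mpr hp⟩
  refine ⟨a, ?_⟩
  have hc : (0 : ℝ) < Fintype.card (Fin k → ZMod Q) := by exact_mod_cast Fintype.card_pos
  obtain ⟨n, hn⟩ : ∃ n, 2 * s = n + 1 := ⟨2 * s - 1, by omega⟩
  have hsplit : ∀ w : ℤ → ℂ, ∑ u ∈ F, w u =
      ∑ b ∈ range p, ∑ u ∈ F.filter (fun u => (p : ℤ) ∣ u - (b : ℕ)), w u := by
    intro w
    rw [← sum_fiberwise_of_maps_to (s := F) (t := range p) (g := fun u => (u % p).toNat)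
      (fun u _ => mem_range.mpr (by
        have := Int.emod_lt_of_pos u (show (0 : ℤ) < p by exact_mod_cast hp)
        have := Int.emod_nonneg u (show (p : ℤ) ≠ 0 by exact_mod_cast hp.ne')
        omega))]
    refine sum_congr rfl fun b hb => sum_congr (filter_congr fun u _ => ?_) fun _ _ => rfl
    have hb' : (b : ℤ) < p := by exact_mod_cast mem_range.mp hb
    have h0 := Int.emod_nonneg u (show (p : ℤ) ≠ 0 by exact_mod_cast hp.ne')
    have h5 : (b : ℤ) % p = b := Int.emod_eq_of_lt (by positivity) hb'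
    rw [Int.dvd_iff_emod_eq_zero, ← Int.emod_eq_emod_iff_emod_sub_eq_zero, h5]
    omega
  have hH : ∀ ψ : AddChar (Fin k → ZMod Q) ℂ,
      ‖∑ u ∈ F, ψ (red_Hold Q fun j : Fin k => u ^ (j.val + 1))‖ ^ (2 * s) ≤
        (p : ℝ) ^ n * ∑ b ∈ range p, ‖∑ u ∈ F.filter (fun u => (p : ℤ) ∣ u - (b : ℕ)),
          ψ (red_Hold Q fun j : Fin k => u ^ (j.val + 1))‖ ^ (2 * s) := by
    intro ψ
    rw [hsplit, hn]
    refine (pow_le_pow_left₀ (norm_nonneg _) (norm_sum_le _ _) _).trans ?_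
    have := pow_sum_le_card_mul_sum_pow (s := range p) (fun b _ => norm_nonneg
      (∑ u ∈ F.filter (fun u => (p : ℤ) ∣ u - (b : ℕ)),
          ψ (red_Hold Q fun j : Fin k => u ^ (j.val + 1)))) n
    rwa [card_range] at this
  have h3 : (Fintype.card (Fin k → ZMod Q) : ℝ) *
        (cnt (G ×ˢ tup s F) (fun z => φ z.1 + ps k z.2) : ℝ) ≤
      (Fintype.card (Fin k → ZMod Q) : ℝ) * ((p : ℝ) ^ (2 * s) *
        (cnt (G ×ˢ tup s (F.filter fun u => (p : ℤ) ∣ u - (a : ℕ)))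
          (fun z => φ z.1 + ps k z.2) : ℝ)) := by
    rw [key F subset_rfl]
    calc _ ≤ ∑ ψ : AddChar (Fin k → ZMod Q) ℂ, ‖∑ g ∈ G, ψ (red_Hold Q (φ g))‖ ^ 2 *
          ((p : ℝ) ^ n * ∑ b ∈ range p, ‖∑ u ∈ F.filter (fun u => (p : ℤ) ∣ u - (b : ℕ)),
          ψ (red_Hold Q fun j : Fin k => u ^ (j.val + 1))‖ ^ (2 * s)) :=
          sum_le_sum fun ψ _ => mul_le_mul_of_nonneg_left (hH ψ) (by positivity)
      _ = (p : ℝ) ^ n * ∑ b ∈ range p, (Fintype.card (Fin k → ZMod Q) : ℝ) *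
          (cnt (G ×ˢ tup s (F.filter fun u => (p : ℤ) ∣ u - (b : ℕ)))
            (fun z => φ z.1 + ps k z.2) : ℝ) := by
          rw [sum_congr rfl fun b _ => key _ (filter_subset _ _), sum_comm, mul_sum]
          refine sum_congr rfl fun ψ _ => ?_
          rw [← mul_sum]
          ring
      _ ≤ (p : ℝ) ^ n * ∑ b ∈ range p, (Fintype.card (Fin k → ZMod Q) : ℝ) *
          (cnt (G ×ˢ tup s (F.filter fun u => (p : ℤ) ∣ u - (a : ℕ)))
            (fun z => φ z.1 + ps k z.2) : ℝ) := by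
          refine mul_le_mul_of_nonneg_left (sum_le_sum fun b hb => ?_) (by positivity)
          exact mul_le_mul_of_nonneg_left (by exact_mod_cast ha b hb) hc.le
      _ = _ := by
          rw [sum_const, card_range, hn, nsmul_eq_mul]
          ring
  have h4 := le_of_mul_le_mul_left h3 hc
  exact_mod_cast h4

end Pool.Agent.MP_c853c5_nt.Z
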