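import Pool.Agent.MP_c853c5_nt.Z.Basic
import Pool.Agent.MP_c853c5_nt.Z.Local

set_option autoImplicit false

open Finset

namespace Pool.Agent.MP_c853c5_nt.Z

lemma ball_Hor (t u σ : ℝ) (hu : u ∈ Set.Icc t (t + 1)) (hσ : σ ∈ Set.Icc (1 / 2 : ℝ) 2) :
    ((σ : ℂ) + u * Complex.I) ∈
      Metric.closedBall ((2 : ℂ) + ((t + 1 / 2 : ℝ) : ℂ) * Complex.I) (8 / 5) := by
  rw [Metric.mem_closedBall, Complex.dist_eq]
  have e : ((σ : ℂ) + u * Complex.I) - ((2 : ℂ) + ((t + 1 / 2 : ℝ) : ℂ) * Complex.I) =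
      ((σ - 2 : ℝ) : ℂ) + ((u - (t + 1 / 2) : ℝ) : ℂ) * Complex.I := by
    push_cast
    ring
  rw [e, Complex.norm_add_mul_I]
  apply Real.sqrt_le_iff.2
  refine ⟨by norm_num, ?_⟩
  obtain ⟨h1, h2⟩ := hu
  obtain ⟨h3, h4⟩ := hσ
  nlinarith [mul_nonneg (sub_nonneg.2 h1) (sub_nonneg.2 h2),
    mul_nonneg (sub_nonneg.2 h3) (sub_nonneg.2 h4)]

theorem hor (hL : LocZStmt) : HorStmt := by
  obtain ⟨C, hC, hL⟩ := hL
  refine ⟨5 * C ^ 2, by nlinarith, ?_⟩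
  intro t
  obtain ⟨Z, hZ, h1, h2, h3⟩ := hL (t + 1 / 2)
  obtain ⟨u, hu, hfar⟩ := exists_far_point Z t
  refine ⟨u, hu, ?_⟩
  intro σ hσ
  set l := Real.log (|t| + 4) with hl
  have hl1 : 1 ≤ l := by
    rw [hl, Real.le_log_iff_exp_le (by positivity)]
    have := Real.exp_one_lt_d9
    have := abs_nonneg t
    linarith
  have hll : Real.log (|t + 1 / 2| + 3) ≤ l := by
    apply Real.log_le_log (by positivity)
    have := abs_add_le t (1 / 2)
    rw [abs_of_pos (by norm_num : (0 : ℝ) < 1 / 2)] at this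
    linarith
  have hC0 : 0 ≤ C := by linarith
  have h2' : ∑ ρ ∈ Z, ord ρ ≤ C * l := h2.trans (mul_le_mul_of_nonneg_left hll hC0)
  have hn : (Z.card : ℝ) ≤ C * l := by
    refine le_trans ?_ h2'
    calc (Z.card : ℝ) = ∑ _ρ ∈ Z, (1 : ℝ) := by simp
      _ ≤ _ := sum_le_sum h1
  have hb := ball_Hor t u σ hu hσ
  have him : ∀ ρ : ℂ, (((σ : ℂ) + u * Complex.I) - ρ).im = u - ρ.im := by
    intro ρ
    simp
  have hpos : (0 : ℝ) < 1 / (2 * ((Z.card : ℝ) + 1)) := by positivity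
  have hne : riemannZeta₁ (σ + u * Complex.I) ≠ 0 := by
    intro h0
    have hm : ((σ : ℂ) + u * Complex.I) ∈ Z :=
      (hZ _).2 ⟨Metric.closedBall_subset_closedBall (by norm_num) hb, h0⟩
    have := hfar _ hm
    rw [← him, sub_self] at this
    simp only [Complex.zero_im, abs_zero] at this
    linarith
  refine ⟨hne, ?_⟩
  have h4 := (h3 _ hb hne).trans (mul_le_mul_of_nonneg_left hll hC0)
  have h5 : ‖∑ ρ ∈ Z, (ord ρ : ℂ) / (((σ : ℂ) + u * Complex.I) - ρ)‖ ≤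
      C * l * (2 * ((Z.card : ℝ) + 1)) := by
    refine (norm_sum_le _ _).trans ?_
    calc ∑ ρ ∈ Z, ‖(ord ρ : ℂ) / (((σ : ℂ) + u * Complex.I) - ρ)‖
        ≤ ∑ ρ ∈ Z, ord ρ * (2 * ((Z.card : ℝ) + 1)) := by
          refine sum_le_sum fun ρ hρ => ?_
          have a1 : 1 / (2 * ((Z.card : ℝ) + 1)) ≤ ‖((σ : ℂ) + u * Complex.I) - ρ‖ := by
            refine (hfar ρ hρ).trans ?_
            rw [← him]
            exact Complex.abs_im_le_norm _
          rw [norm_div, Complex.norm_real, Real.norm_eq_abs, abs_of_nonneg (ord_nonneg ρ)]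
          calc ord ρ / ‖((σ : ℂ) + u * Complex.I) - ρ‖
              ≤ ord ρ / (1 / (2 * ((Z.card : ℝ) + 1))) :=
                div_le_div_of_nonneg_left (ord_nonneg ρ) hpos a1
            _ = ord ρ * (2 * ((Z.card : ℝ) + 1)) := by rw [div_div_eq_mul_div, div_one]
      _ = (∑ ρ ∈ Z, ord ρ) * (2 * ((Z.card : ℝ) + 1)) := by rw [sum_mul]
      _ ≤ C * l * (2 * ((Z.card : ℝ) + 1)) :=
          mul_le_mul_of_nonneg_right h2' (by positivity)
  have h6 := norm_le_insert' (logDeriv riemannZeta₁ (σ + u * Complex.I))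
    (∑ ρ ∈ Z, (ord ρ : ℂ) / (((σ : ℂ) + u * Complex.I) - ρ))
  have hx : 1 ≤ C * l := one_le_mul_of_one_le_of_one_le hC hl1
  have h7 : C * l * (2 * ((Z.card : ℝ) + 1)) ≤ C * l * (4 * (C * l)) :=
    mul_le_mul_of_nonneg_left (by linarith) (by linarith)
  have h8 : C * l ≤ (C * l) * (C * l) := le_mul_of_one_le_right (by linarith) hx
  calc ‖logDeriv riemannZeta₁ (σ + u * Complex.I)‖
      ≤ C * l * (4 * (C * l)) + (C * l) * (C * l) := by linarith
    _ = 5 * C ^ 2 * l ^ 2 := by ring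

end Pool.Agent.MP_c853c5_nt.Z
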