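import Pool.Agent.MP_c853c5_nt.Z.Basic

set_option autoImplicit false

open Finset

namespace Pool.Agent.MP_c853c5_nt.Z

/-- the oscillating factor -/
noncomputable def g_Ker (t x : ℝ) : ℂ := Complex.exp (Complex.I * ((t * Real.log x : ℝ) : ℂ))

/-- its primitive -/
noncomputable def F_Ker (t x : ℝ) : ℂ := (x : ℂ) * g_Ker t x / (1 + (t : ℂ) * Complex.I)

lemma ne_Ker (t : ℝ) : (1 + (t : ℂ) * Complex.I) ≠ 0 := by
  intro h
  have := congrArg Complex.re h
  simp at this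

lemma norm_g_Ker (t x : ℝ) : ‖g_Ker t x‖ = 1 := by
  unfold g_Ker
  rw [mul_comm]
  exact Complex.norm_exp_ofReal_mul_I _

lemma cpow_Ker {n : ℕ} (hn : 0 < n) (t : ℝ) :
    (n : ℂ) ^ ((t : ℂ) * Complex.I) = g_Ker t n := by
  have hx : (0 : ℝ) < n := by exact_mod_cast hn
  have e : (n : ℂ) = ((n : ℝ) : ℂ) := by simp
  rw [e, Complex.cpow_def_of_ne_zero (by exact_mod_cast hx.ne'), ← Complex.ofReal_log hx.le]
  unfold g_Ker
  congr 1
  push_cast
  ring

lemma lip_Ker (t : ℝ) {a x y : ℝ} (ha : 0 < a) (hx : a ≤ x) (hxy : x ≤ y) (hy : y ≤ x + 1) :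
    ‖g_Ker t x - g_Ker t y‖ ≤ |t| / a := by
  have hx0 : 0 < x := ha.trans_le hx
  have hy0 : 0 < y := hx0.trans_le hxy
  have e : g_Ker t x - g_Ker t y =
      -(g_Ker t x * (Complex.exp (Complex.I * ((t * Real.log (y / x) : ℝ) : ℂ)) - 1)) := by
    unfold g_Ker
    rw [mul_sub, ← Complex.exp_add, Real.log_div hy0.ne' hx0.ne']
    have : Complex.I * ((t * Real.log x : ℝ) : ℂ) +
        Complex.I * ((t * (Real.log y - Real.log x) : ℝ) : ℂ) =
        Complex.I * ((t * Real.log y : ℝ) : ℂ) := by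
      push_cast
      ring
    rw [this]
    ring
  rw [e, norm_neg, norm_mul, norm_g_Ker, one_mul]
  refine (Real.norm_exp_I_mul_ofReal_sub_one_le).trans ?_
  rw [Real.norm_eq_abs, abs_mul, div_eq_mul_inv |t|]
  refine mul_le_mul_of_nonneg_left ?_ (abs_nonneg t)
  have h1 : 0 ≤ Real.log (y / x) := Real.log_nonneg ((one_le_div hx0).2 hxy)
  rw [abs_of_nonneg h1]
  have h2 : Real.log (y / x) ≤ y / x - 1 := Real.log_le_sub_one_of_pos (by positivity)
  have h3 : y / x - 1 ≤ x⁻¹ := by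
    rw [div_sub_one hx0.ne', div_le_iff₀ hx0, inv_mul_cancel₀ hx0.ne']
    linarith
  exact h2.trans (h3.trans (inv_anti₀ ha hx))

lemma deriv_Ker (t : ℝ) {x : ℝ} (hx : 0 < x) : HasDerivAt (F_Ker t) (g_Ker t x) x := by
  have h1 : HasDerivAt (fun x : ℝ => t * Real.log x) (t * x⁻¹) x :=
    (Real.hasDerivAt_log hx.ne').const_mul t
  have h2 := (h1.ofReal_comp.const_mul Complex.I).cexp
  have h3 : HasDerivAt (fun x : ℝ => (x : ℂ)) 1 x := by
    simpa using (hasDerivAt_id x).ofReal_comp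
  have h4 := (h3.mul h2).div_const (1 + (t : ℂ) * Complex.I)
  have hx' : (x : ℂ) ≠ 0 := by exact_mod_cast hx.ne'
  have h5 := ne_Ker t
  refine HasDerivAt.congr_deriv (f := F_Ker t) h4 ?_
  rw [div_eq_iff h5]
  unfold g_Ker
  push_cast
  field_simp

lemma step_Ker (t : ℝ) {a m : ℝ} (ha : 0 < a) (hm : a ≤ m) :
    ‖g_Ker t (m + 1) - (F_Ker t (m + 1) - F_Ker t m)‖ ≤ |t| / a := by
  have hm0 : 0 < m := ha.trans_le hm
  have h := norm_image_sub_le_of_norm_deriv_le_segment' (a := m) (b := m + 1)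
    (f := fun x : ℝ => F_Ker t x - (x : ℂ) * g_Ker t (m + 1))
    (f' := fun x : ℝ => g_Ker t x - g_Ker t (m + 1)) (C := |t| / a) (fun x hx => by
      have h3 : HasDerivAt (fun x : ℝ => (x : ℂ)) 1 x := by
        simpa using (hasDerivAt_id x).ofReal_comp
      have := (deriv_Ker t (hm0.trans_le hx.1)).sub (h3.mul_const (g_Ker t (m + 1)))
      rw [one_mul] at this
      exact this.hasDerivWithinAt)
    (fun x hx => lip_Ker t ha (hm.trans hx.1) hx.2.le (by linarith [hx.1])) (m + 1)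
    ⟨by linarith, le_rfl⟩
  rw [add_sub_cancel_left, mul_one, ← norm_neg] at h
  refine le_of_eq_of_le ?_ h
  congr 1
  push_cast
  ring

lemma tele_Ker (t : ℝ) {N : ℕ} (hN : 1 ≤ N) (M : ℕ) (hM : N ≤ M) :
    ‖ES N M t - (F_Ker t M - F_Ker t N)‖ ≤ ((M : ℝ) - N) * (|t| / N) := by
  induction M, hM using Nat.le_induction with
  | base => simp [ES]
  | succ M hM ih =>
    have hN0 : (0 : ℝ) < N := by exact_mod_cast hN
    have h := step_Ker t hN0 (show (N : ℝ) ≤ M by exact_mod_cast hM)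
    have e : ES N (M + 1) t = ES N M t + g_Ker t ((M : ℝ) + 1) := by
      unfold ES
      rw [sum_Ioc_succ_top hM, cpow_Ker (Nat.succ_pos M)]
      push_cast
      rfl
    have e2 : ES N (M + 1) t - (F_Ker t ((M + 1 : ℕ) : ℝ) - F_Ker t N) =
        (ES N M t - (F_Ker t M - F_Ker t N)) +
          (g_Ker t ((M : ℝ) + 1) - (F_Ker t ((M : ℝ) + 1) - F_Ker t M)) := by
      rw [e]
      push_cast
      ring
    rw [e2]
    refine (norm_add_le _ _).trans ?_
    push_cast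
    linarith

lemma normF_Ker (t : ℝ) {x : ℝ} (hx : 0 ≤ x) : ‖F_Ker t x‖ ≤ 3 / 2 * x / (1 + |t|) := by
  unfold F_Ker
  rw [norm_div, norm_mul, norm_g_Ker, mul_one, Complex.norm_real, Real.norm_eq_abs,
    abs_of_nonneg hx]
  have h0 : 0 < ‖1 + (t : ℂ) * Complex.I‖ := norm_pos_iff.2 (ne_Ker t)
  have h1 : ‖1 + (t : ℂ) * Complex.I‖ ^ 2 = 1 + |t| ^ 2 := by
    rw [Complex.sq_norm, Complex.normSq_apply, sq_abs]
    simp
    ring
  have h2 : 1 + |t| ≤ 3 / 2 * ‖1 + (t : ℂ) * Complex.I‖ := by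
    refine (pow_le_pow_iff_left₀ (by positivity) (by positivity) two_ne_zero).1 ?_
    rw [mul_pow, h1]
    nlinarith [sq_nonneg (|t| - 1), sq_nonneg |t|]
  rw [div_le_div_iff₀ h0 (by positivity)]
  nlinarith [mul_le_mul_of_nonneg_left h2 hx]

theorem ker (hE : ExpStmt) : KerStmt := by
  obtain ⟨A, hA, h⟩ := hE
  intro k hk
  have hk1 : (1 : ℝ) ≤ (k : ℝ) ^ 8 := one_le_pow₀ (by exact_mod_cast hk)
  have hAk : 10 ≤ A * (k : ℝ) ^ 8 := by nlinarith
  have hδ : 1 / (A * (k : ℝ) ^ 8) ≤ 1 / 10 := one_div_le_one_div_of_le (by norm_num) hAk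
  refine ⟨Real.exp (A * (k : ℝ) ^ 8), 1 / (A * (k : ℝ) ^ 8), Real.exp_pos _, by positivity, hδ,
    fun N M t hN hNM hM ht => ?_⟩
  have hN1 : (1 : ℝ) ≤ N := by exact_mod_cast hN
  have hN0 : (0 : ℝ) < N := by linarith
  by_cases hc : (N : ℝ) ^ (9 / 10 : ℝ) ≤ |t|
  · refine (h k N M t hk hN hNM hM hc ht).trans (le_add_of_nonneg_left (by positivity))
  · have h1 := tele_Ker t hN M hNM
    have h2 := normF_Ker t (Nat.cast_nonneg M)
    have h3 := normF_Ker t (Nat.cast_nonneg N)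
    have hM' : (M : ℝ) ≤ 2 * N := by exact_mod_cast hM
    have h4 : ((M : ℝ) - N) * (|t| / N) ≤ |t| := by
      calc ((M : ℝ) - N) * (|t| / N) ≤ N * (|t| / N) :=
            mul_le_mul_of_nonneg_right (by linarith) (by positivity)
        _ = |t| := by field_simp
    have h5 : (N : ℝ) ^ (9 / 10 : ℝ) ≤ (N : ℝ) ^ (1 - 1 / (A * (k : ℝ) ^ 8)) :=
      Real.rpow_le_rpow_of_exponent_le hN1 (by linarith)
    have h6 : (N : ℝ) ^ (1 - 1 / (A * (k : ℝ) ^ 8)) ≤
        Real.exp (A * (k : ℝ) ^ 8) * (N : ℝ) ^ (1 - 1 / (A * (k : ℝ) ^ 8)) :=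
      le_mul_of_one_le_left (by positivity) (Real.one_le_exp (by linarith))
    have h7 : 3 / 2 * (M : ℝ) / (1 + |t|) + 3 / 2 * (N : ℝ) / (1 + |t|) ≤ 5 * N / (1 + |t|) := by
      rw [← add_div]
      exact div_le_div_of_nonneg_right (by linarith) (by positivity)
    have h8 : ‖ES N M t‖ ≤ ‖ES N M t - (F_Ker t M - F_Ker t N)‖ + (‖F_Ker t M‖ + ‖F_Ker t N‖) := by
      calc ‖ES N M t‖ = ‖(ES N M t - (F_Ker t M - F_Ker t N)) + (F_Ker t M - F_Ker t N)‖ := by
            rw [sub_add_cancel]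
        _ ≤ _ := (norm_add_le _ _).trans (add_le_add le_rfl (norm_sub_le _ _))
    have h9 := not_le.1 hc
    linarith

end Pool.Agent.MP_c853c5_nt.Z
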