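import Pool.Agent.MP_c853c5_nt.Z.Basic

set_option autoImplicit false

open Finset

namespace Pool.Agent.MP_c853c5_nt.Z

lemma newton_Lin {R : Type} [CommRing R] {k : ℕ} (u v : Fin k → R)
    (hu : ∀ m : ℕ, 1 ≤ m → m ≤ k → IsUnit (m : R))
    (h : ∀ m : ℕ, 1 ≤ m → m ≤ k → ∑ i, u i ^ m = ∑ i, v i ^ m) (t : R) :
    ∏ i, (t + u i) = ∏ i, (t + v i) := by
  have key : ∀ m : ℕ, m ≤ k → MvPolynomial.eval u (MvPolynomial.esymm (Fin k) R m) =
      MvPolynomial.eval v (MvPolynomial.esymm (Fin k) R m) := by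
    intro m
    induction m using Nat.strong_induction_on with
    | _ m ih =>
      intro hm
      rcases Nat.eq_zero_or_pos m with rfl | m0
      · simp
      have e := fun w : Fin k → R =>
        congrArg (MvPolynomial.eval w) (MvPolynomial.mul_esymm_eq_sum (Fin k) R m)
      simp only [map_mul, map_natCast, map_pow, map_neg, map_one, map_sum, MvPolynomial.psum,
        MvPolynomial.eval_X] at e
      refine (hu m m0 hm).mul_left_cancel ?_
      rw [e, e]
      congr 1
      refine sum_congr rfl fun a ha => ?_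
      rw [mem_filter, HasAntidiagonal.mem_antidiagonal] at ha
      rw [ih a.1 ha.2 (by omega), h a.2 (by omega) (by omega)]
  have e := fun w : Fin k → R => congrArg (Polynomial.eval₂RingHom (MvPolynomial.eval w) t)
    (MvPolynomial.prod_C_add_X_eq_sum_esymm R (Fin k))
  simp only [map_prod, map_sum, map_add, map_mul, map_pow, Polynomial.coe_eval₂RingHom,
    Polynomial.eval₂_X, Polynomial.eval₂_C, MvPolynomial.eval_X, Fintype.card_fin] at e
  rw [e, e]
  exact sum_congr rfl fun j hj => by rw [key j (Nat.lt_succ_iff.1 (mem_range.1 hj))]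

lemma one_Lin {k n : ℕ} {p : ℤ} (hp : Prime p) (hn : 0 < n) (x : Fin k → ℤ) (y : ℤ)
    (hx : ∀ i j, i ≠ j → ¬ p ∣ x i - x j) (h : p ^ n ∣ ∏ i, (x i - y)) :
    ∃ i, p ^ n ∣ x i - y := by
  obtain ⟨i, -, hi⟩ := hp.exists_mem_finset_dvd ((dvd_pow_self p hn.ne').trans h)
  refine ⟨i, ?_⟩
  rw [← mul_prod_erase _ _ (mem_univ i)] at h
  refine hp.pow_dvd_of_dvd_mul_right n (fun h' => ?_) h
  obtain ⟨j, hj, hj'⟩ := hp.exists_mem_finset_dvd h'
  refine hx j i (ne_of_mem_erase hj) ?_
  have := dvd_sub hj' hi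
  rwa [sub_sub_sub_cancel_right] at this

lemma perm_Lin {k p X : ℕ} (hp : p.Prime) (hk : k < p) (hX : X ≤ p ^ k) (a : ℤ)
    {x y : Fin k → ℤ} (hx : x ∈ Dp k p X) (hy : y ∈ Dp k p X)
    (h : ∀ j, (p : ℤ) ^ k ∣ ps k (fun i => x i - a) j - ps k (fun i => y i - a) j) :
    ∃ σ : Equiv.Perm (Fin k), y = x ∘ σ := by
  rw [Dp, mem_filter, mem_box] at hx hy
  have key : ∀ j, ∃ i, y j = x i := by
    intro j
    have e := newton_Lin (R := ZMod (p ^ k)) (fun i => ((x i - a : ℤ) : ZMod (p ^ k)))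
      (fun i => ((y i - a : ℤ) : ZMod (p ^ k))) (fun m m1 m2 => by
        rw [ZMod.isUnit_iff_coprime]
        exact Nat.Coprime.pow_right _ ((Nat.coprime_of_lt_prime (by omega) (by omega) hp).symm))
      (fun m m1 m2 => by
        have := (ZMod.intCast_eq_intCast_iff_dvd_sub _ _ (p ^ k)).2
          (by exact_mod_cast h ⟨m - 1, by omega⟩)
        simp only [ps, Nat.sub_add_cancel m1] at this
        exact_mod_cast this.symm) ((a - y j : ℤ) : ZMod (p ^ k))
    replace e := e.trans (prod_eq_zero (mem_univ j) (by push_cast; ring))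
    have e2 : ((∏ i, (x i - y j) : ℤ) : ZMod (p ^ k)) = 0 := by
      rw [← e, Int.cast_prod]
      exact prod_congr rfl fun i _ => by push_cast; ring
    rw [ZMod.intCast_zmod_eq_zero_iff_dvd, Nat.cast_pow] at e2
    obtain ⟨i, hi⟩ := one_Lin (Nat.prime_iff_prime_int.1 hp) j.pos x (y j) hx.2 e2
    refine ⟨i, ?_⟩
    have h1 := hx.1 i
    have h2 := hy.1 j
    have h3 : (X : ℤ) ≤ (p : ℤ) ^ k := by exact_mod_cast hX
    have := Int.eq_zero_of_abs_lt_dvd hi (abs_lt.2 ⟨by linarith [h1.1, h2.2], by linarith [h1.2, h2.1]⟩)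
    linarith
  choose σ hσ using key
  have inj : Function.Injective σ := fun i j hij => by
    by_contra hne
    exact hy.2 i j hne (by rw [hσ i, hσ j, hij, sub_self]; exact dvd_zero _)
  exact ⟨Equiv.ofBijective σ (Finite.injective_iff_bijective.1 inj), funext hσ⟩

theorem lin : LinStmt := by
  intro k p X hp hk hX a c
  have p0 : (0 : ℤ) < p := by exact_mod_cast hp.pos
  have hc : (Fintype.piFinset fun j : Fin k => Ico (0 : ℤ) ((p : ℤ) ^ (k - 1 - j.val))).card =
      p ^ (k * (k - 1) / 2) := by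
    rw [Fintype.card_piFinset, ← sum_range_id, ← sum_range_reflect, ← prod_pow_eq_pow_sum,
      ← Fin.prod_univ_eq_prod_range fun j => p ^ (k - 1 - j)]
    refine prod_congr rfl fun j _ => ?_
    rw [Int.card_Ico, sub_zero, ← Nat.cast_pow, Int.toNat_natCast]
  rw [← hc]
  refine card_le_mul_card_image_of_maps_to (f := fun x j =>
    (ps k (fun i => x i - a) j - c j) / (p : ℤ) ^ (j.val + 1) % (p : ℤ) ^ (k - 1 - j.val))
    (fun x _ => ?_) _ fun b _ => ?_
  · rw [Fintype.mem_piFinset]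
    intro j
    exact mem_Ico.2 ⟨Int.emod_nonneg _ (by positivity), Int.emod_lt_of_pos _ (by positivity)⟩
  · refine le_of_not_gt fun h => not_le.2 h ?_
    obtain ⟨x, hx⟩ := card_pos.1 ((Nat.zero_le _).trans_lt h)
    refine (card_le_card (t := univ.image fun σ : Equiv.Perm (Fin k) => x ∘ σ) fun y hy => ?_).trans
      (card_image_le.trans_eq (by simp [Fintype.card_perm]))
    rw [mem_filter, mem_filter] at hx hy
    obtain ⟨σ, hσ⟩ := perm_Lin hp hk hX a hx.1.1 hy.1.1 fun j => by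
      obtain ⟨u, hu⟩ := hx.1.2 j
      obtain ⟨v, hv⟩ := hy.1.2 j
      have e := congrFun (hx.2.trans hy.2.symm) j
      simp only [hu, hv, Int.mul_ediv_cancel_left _ (pow_pos p0 _).ne'] at e
      have e2 : ps k (fun i => x i - a) j - ps k (fun i => y i - a) j =
          (p : ℤ) ^ (j.val + 1) * (u - v) := by linear_combination hu - hv
      have e3 : (p : ℤ) ^ k = (p : ℤ) ^ (j.val + 1) * (p : ℤ) ^ (k - 1 - j.val) := by
        rw [← pow_add]
        congr 1
        omega
      rw [e2, e3]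
      exact mul_dvd_mul_left _ (Int.ModEq.dvd e.symm)
    exact mem_image.2 ⟨σ, mem_univ _, hσ.symm⟩

end Pool.Agent.MP_c853c5_nt.Z
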