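import Pool.Agent.MP_c853c5_nt.Z.Basic
import Pool.Agent.MP_c853c5_nt.Z.Local

set_option autoImplicit false

open Finset Filter Metric

namespace Pool.Agent.MP_c853c5_nt.Z

lemma mem_ball_Loc (c z : ℂ) (r a : ℝ) (hr : 0 < r) :
    c + r * z ∈ closedBall c (a * r) ↔ z ∈ closedBall (0 : ℂ) a := by
  rw [mem_closedBall, mem_closedBall, dist_eq_norm, dist_zero_right, add_sub_cancel_left,
    norm_mul, Complex.norm_real, Real.norm_of_nonneg hr.le, mul_comm r]
  exact mul_le_mul_iff_left₀ hr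

lemma mem_sphere_Loc (c z : ℂ) (r a : ℝ) (hr : 0 < r) (hz : z ∈ sphere (0 : ℂ) a) :
    c + r * z ∈ sphere c (a * r) := by
  rw [mem_sphere, dist_zero_right] at hz
  rw [mem_sphere, dist_eq_norm, add_sub_cancel_left,
    norm_mul, Complex.norm_real, Real.norm_of_nonneg hr.le, mul_comm r, hz]

theorem loc : LocStmt := by
  classical
  intro f c r M hr hM hf hc hb h1
  have hr0 : (r : ℂ) ≠ 0 := by exact_mod_cast hr.ne'
  set φ : ℂ → ℂ := fun z => c + r * z with hφ
  have hφa : ∀ z, AnalyticAt ℂ φ z := fun z => by rw [hφ]; fun_prop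
  have hφd : ∀ z, HasDerivAt φ r z := fun z => by
    have := ((hasDerivAt_id z).const_mul (r : ℂ)).const_add c
    rw [mul_one] at this
    exact this
  have hφ0 : φ 0 = c := by simp [hφ]
  have hg : AnalyticOnNhd ℂ (f ∘ φ) (closedBall 0 (19 / 10)) := fun z hz =>
    AnalyticAt.comp (g := f) (f := φ) (hf _ ((mem_ball_Loc c z r _ hr).mpr hz)) (hφa z)
  have hg0 : (f ∘ φ) 0 = f c := by simp [hφ0]
  obtain ⟨Z, hZ, hZ1, -, hZ2⟩ := local_structure (f ∘ φ) 0 M hM hg (by rw [hg0]; exact hc)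
    (fun z hz => by rw [hg0]; exact hb _ (mem_sphere_Loc c z r _ hr hz)) (by rw [hg0]; exact h1)
  have hinj : Function.Injective φ := fun z w h => by
    have : (r : ℂ) * z = r * w := add_left_cancel h
    exact mul_left_cancel₀ hr0 this
  have hord : ∀ z, analyticOrderAt (f ∘ φ) z = analyticOrderAt f (φ z) := fun z =>
    analyticOrderAt_comp_of_deriv_ne_zero (hφa z) (by rw [(hφd z).deriv]; exact hr0)
  refine ⟨Z.image φ, fun z => ?_, fun ρ hρ => ?_, ?_⟩
  · constructor
    · intro hz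
      obtain ⟨w, hw, rfl⟩ := mem_image.mp hz
      obtain ⟨h2, h3⟩ := (hZ w).mp hw
      exact ⟨(mem_ball_Loc c w r _ hr).mpr h2, h3⟩
    · rintro ⟨h2, h3⟩
      have hz : φ ((z - c) / r) = z := by
        rw [hφ]
        field_simp
        ring
      refine mem_image.mpr ⟨(z - c) / r, (hZ _).mpr ⟨?_, ?_⟩, hz⟩
      · refine (mem_ball_Loc c _ r _ hr).mp ?_
        have : c + r * ((z - c) / r) = z := hz
        rw [this]
        exact h2
      · simp only [Function.comp_apply, hz, h3]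
  · obtain ⟨w, hw, rfl⟩ := mem_image.mp hρ
    rw [← hord]
    exact hZ1 w hw
  · have h2 := hZ2 0 (mem_closedBall_self (by norm_num)) (by rw [hg0]; exact hc)
    have hfc : DifferentiableAt ℂ f (φ 0) := by
      rw [hφ0]
      exact (hf c (mem_closedBall_self (by positivity))).differentiableAt
    rw [logDeriv_comp hfc (hφd 0).differentiableAt, (hφd 0).deriv, hφ0] at h2
    rw [sum_image fun a _ b _ h => hinj h]
    have h3 : logDeriv f c - ∑ ρ ∈ Z, ((analyticOrderAt f (φ ρ)).toNat : ℂ) / (c - φ ρ) =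
        (logDeriv f c * r - ∑ ρ ∈ Z, ((analyticOrderAt (f ∘ φ) ρ).toNat : ℂ) / (0 - ρ)) / r := by
      rw [sub_div, mul_div_cancel_right₀ _ hr0, sum_div]
      congr 1
      refine sum_congr rfl fun ρ _ => ?_
      rw [hord, div_div]
      congr 1
      rw [hφ]
      ring
    rw [h3, norm_div, Complex.norm_real, Real.norm_of_nonneg hr.le]
    exact div_le_div_of_nonneg_right h2 hr.le

end Pool.Agent.MP_c853c5_nt.Z
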