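import Pool.Agent.MP_c853c5_nt.Z.Basic

set_option autoImplicit false

open Finset Filter

namespace Pool.Agent.MP_c853c5_nt.Z

/-- coefficients of the mollified sum -/
noncomputable def a_Mol (X n : ℕ) : ℂ :=
  ∑ p ∈ n.divisorsAntidiagonal.filter (fun p => p.1 ≤ X ∧ p.2 ≤ X),
    ((ArithmeticFunction.moebius p.1 : ℤ) : ℂ)

lemma mu_Mol (d : ℕ) : ‖((ArithmeticFunction.moebius d : ℤ) : ℂ)‖ ≤ 1 := by
  rw [Complex.norm_intCast]
  exact_mod_cast ArithmeticFunction.abs_moebius_le_one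

lemma norm_a_Mol (X n : ℕ) : ‖a_Mol X n‖ ≤ (n.divisors.card : ℝ) := by
  refine (norm_sum_le _ _).trans ((sum_le_card_nsmul _ _ 1 fun p _ => mu_Mol _).trans ?_)
  rw [nsmul_eq_mul, mul_one, Nat.cast_le]
  refine (card_filter_le _ _).trans ?_
  rw [← Nat.map_div_right_divisors, card_map]

lemma small_Mol {X n : ℕ} (h : n ≤ X) : a_Mol X n = if n = 1 then 1 else 0 := by
  unfold a_Mol
  rw [filter_true_of_mem fun p hp => ⟨(Nat.divisor_le (Nat.fst_mem_divisors_of_mem_antidiagonal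
    hp)).trans h, (Nat.divisor_le (Nat.snd_mem_divisors_of_mem_antidiagonal hp)).trans h⟩,
    Nat.sum_divisorsAntidiagonal fun d _ => ((ArithmeticFunction.moebius d : ℤ) : ℂ)]
  have := congrArg (fun f : ArithmeticFunction ℤ => f n) ArithmeticFunction.moebius_mul_coe_zeta
  simp only [ArithmeticFunction.coe_mul_zeta_apply, ArithmeticFunction.one_apply] at this
  rw [← Int.cast_sum, this]
  split_ifs <;> simp

lemma id_Mol {X : ℕ} (hX : 1 ≤ X) (s : ℂ) :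
    (∑ d ∈ Icc 1 X, ((ArithmeticFunction.moebius d : ℤ) : ℂ) * (d : ℂ) ^ (-s)) *
      ∑ e ∈ Icc 1 X, (e : ℂ) ^ (-s) = 1 + ∑ n ∈ Ioc X (X ^ 2), a_Mol X n * (n : ℂ) ^ (-s) := by
  have h1 : ∑ n ∈ Ioc 0 X, a_Mol X n * (n : ℂ) ^ (-s) = 1 := by
    rw [sum_eq_single_of_mem 1 (mem_Ioc.2 ⟨one_pos, hX⟩) fun n hn h => by
      rw [small_Mol (mem_Ioc.1 hn).2, if_neg h, zero_mul], small_Mol hX]
    simp
  rw [← h1, sum_Ioc_consecutive _ (Nat.zero_le X) (Nat.le_self_pow two_ne_zero X), sum_mul_sum,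
    ← sum_product', ← sum_fiberwise_of_maps_to (g := fun p : ℕ × ℕ => p.1 * p.2)
      (t := Ioc 0 (X ^ 2)) fun p hp => by
        simp only [mem_product, mem_Icc] at hp
        exact mem_Ioc.2 ⟨Nat.mul_pos hp.1.1 hp.2.1, by
          rw [sq]
          exact Nat.mul_le_mul hp.1.2 hp.2.2⟩]
  refine sum_congr rfl fun n hn => ?_
  have hn0 := (mem_Ioc.1 hn).1
  rw [a_Mol, sum_mul]
  refine sum_congr ?_ fun p hp => ?_
  · ext p
    simp only [mem_filter, mem_product, mem_Icc, Nat.mem_divisorsAntidiagonal]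
    constructor
    · rintro ⟨⟨⟨-, h2⟩, -, h3⟩, h4⟩
      exact ⟨⟨h4, hn0.ne'⟩, h2, h3⟩
    · rintro ⟨⟨h4, -⟩, h2, h3⟩
      rw [← h4] at hn0
      exact ⟨⟨⟨Nat.pos_of_mul_pos_right hn0, h2⟩, Nat.pos_of_mul_pos_left hn0, h3⟩, h4⟩
  · rw [← (Nat.mem_divisorsAntidiagonal.1 (mem_filter.1 hp).1).1, Nat.cast_mul,
      Complex.natCast_mul_natCast_cpow, mul_assoc]

lemma mol_le_Mol (X : ℕ) {η : ℝ} (hη : 0 ≤ η) {s : ℂ} (hs : 1 - η ≤ s.re) :
    ‖∑ d ∈ Icc 1 X, ((ArithmeticFunction.moebius d : ℤ) : ℂ) * (d : ℂ) ^ (-s)‖ ≤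
      (X : ℝ) ^ η * (1 + Real.log X) := by
  refine (norm_sum_le _ _).trans (le_trans ?_ (mul_le_mul_of_nonneg_left
    (harmonic_le_one_add_log X) (by positivity)))
  rw [harmonic_eq_sum_Icc]
  push_cast
  rw [mul_sum]
  refine sum_le_sum fun d hd => ?_
  obtain ⟨h1, h2⟩ := mem_Icc.1 hd
  have h3 : (1 : ℝ) ≤ d := by exact_mod_cast h1
  rw [norm_mul, Complex.norm_natCast_cpow_of_pos h1]
  refine (mul_le_of_le_one_left (by positivity) (mu_Mol d)).trans ?_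
  refine (Real.rpow_le_rpow_of_exponent_le h3 (show (-s).re ≤ η - 1 by
    rw [Complex.neg_re]
    linarith)).trans ?_
  rw [Real.rpow_sub_one (by linarith), div_eq_mul_inv]
  gcongr

theorem mol (hT : TailStmt) : MolStmt := by
  obtain ⟨A, C, hA, hC, h⟩ := hT
  obtain ⟨δ, hδ⟩ : ∃ δ : ℝ, δ = 1 / (A * ((9 : ℕ) : ℝ) ^ 8) := ⟨_, rfl⟩
  obtain ⟨D, hD⟩ : ∃ D : ℝ, D = C * Real.exp (A * ((9 : ℕ) : ℝ) ^ 8) := ⟨_, rfl⟩
  have δ0 : 0 < δ := by rw [hδ]; positivity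
  have D0 : 0 < D := by rw [hD]; positivity
  obtain ⟨x₀, hx⟩ := eventually_atTop.1 ((tendsto_rpow_atTop (show 0 < δ / 8 by positivity)).eventually
    (eventually_ge_atTop (2 * (D * (9 * (8 / δ)) * (1 + 8 / δ)))))
  refine ⟨δ / 2, max x₀ 4 ^ 8, by positivity, fun U X h0 h1 h2 =>
    ⟨a_Mol X, norm_a_Mol X, fun ρ hρ h3 h4 h5 => ?_⟩⟩
  have X0 : max x₀ 4 ≤ X := le_of_pow_le_pow_left₀ (by norm_num) (Nat.cast_nonneg X) (h0.trans h1)
  have X4 : (4 : ℝ) ≤ X := (le_max_right _ _).trans X0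
  have X7 : (4 : ℝ) ^ 7 ≤ (X : ℝ) ^ 7 := pow_le_pow_left₀ (by norm_num) X4 7
  have XU : (X : ℝ) ≤ U := by nlinarith
  have X9 : |ρ.im| ≤ (X : ℝ) ^ 9 := by nlinarith [pow_pos (show (0 : ℝ) < X by linarith) 8]
  have t := h 9 X ρ (by norm_num) (by linarith) (XU.trans h4) X9 (by rw [← hδ]; linarith)
    (by linarith [re_lt_one hρ])
  rw [← hδ, ← hD, zeta_of_zeta1 hρ, zero_sub, norm_neg] at t
  have m := mol_le_Mol X (by positivity) h3
  have e := id_Mol (X := X) (by exact_mod_cast (show (1 : ℝ) ≤ X by linarith)) ρ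
  have y1 : 1 ≤ (X : ℝ) ^ (δ / 8) := Real.one_le_rpow (by linarith) (by positivity)
  have y2 := hx X ((le_max_left _ _).trans X0)
  have l0 : 0 ≤ Real.log X := Real.log_nonneg (by linarith)
  have l1 : Real.log X ≤ 8 / δ * (X : ℝ) ^ (δ / 8) :=
    (Real.log_le_rpow_div (Nat.cast_nonneg X) (show 0 < δ / 8 by positivity)).trans_eq (by field_simp)
  have l2 : Real.log |ρ.im| ≤ 9 * (8 / δ) * (X : ℝ) ^ (δ / 8) := by
    refine (Real.log_le_log (by linarith) X9).trans ?_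
    rw [Real.log_pow]
    push_cast
    linarith
  have l3 : 1 + Real.log X ≤ (1 + 8 / δ) * (X : ℝ) ^ (δ / 8) := by linarith
  have p1 : (X : ℝ) ^ (δ / 2) = ((X : ℝ) ^ (δ / 8)) ^ 4 := by
    rw [← Real.rpow_natCast, ← Real.rpow_mul (Nat.cast_nonneg X)]
    congr 1
    push_cast
    ring
  have p2 : (X : ℝ) ^ (-δ) = (((X : ℝ) ^ (δ / 8)) ^ 8)⁻¹ := by
    rw [← Real.rpow_natCast, ← Real.rpow_mul (Nat.cast_nonneg X), Real.rpow_neg (Nat.cast_nonneg X)]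
    congr 2
    push_cast
    ring
  rw [p1] at m
  rw [p2] at t
  generalize (X : ℝ) ^ (δ / 8) = y at *
  have y0 : 0 < y := by linarith
  have key : ‖1 + ∑ n ∈ Ioc X (X ^ 2), a_Mol X n * (n : ℂ) ^ (-ρ)‖ ≤ 1 / 2 := by
    rw [← e, norm_mul]
    calc _ ≤ (y ^ 4 * ((1 + 8 / δ) * y)) * (D * (y ^ 8)⁻¹ * (9 * (8 / δ) * y)) :=
          mul_le_mul (m.trans (by gcongr)) (t.trans (by gcongr)) (norm_nonneg _) (by positivity)
      _ = D * (9 * (8 / δ)) * (1 + 8 / δ) / y ^ 2 := by field_simp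
      _ ≤ 1 / 2 := by
          rw [div_le_iff₀ (by positivity)]
          nlinarith
  have := norm_sub_le (1 + ∑ n ∈ Ioc X (X ^ 2), a_Mol X n * (n : ℂ) ^ (-ρ))
    (∑ n ∈ Ioc X (X ^ 2), a_Mol X n * (n : ℂ) ^ (-ρ))
  rw [add_sub_cancel_right, norm_one] at this
  linarith

end Pool.Agent.MP_c853c5_nt.Z
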