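import Pool.Agent.MP_c853c5_nt.Z.Basic

set_option autoImplicit false

open Finset

namespace Pool.Agent.MP_c853c5_nt.Z

/-- dyadic decomposition of a sum -/
lemma dya_ND (Z : Finset ℂ) (m : ℂ → ℝ) (U B : ℝ)
    (h0 : ∀ W ⊆ Z, (∀ ρ ∈ W, |ρ.im| < U) → ∑ ρ ∈ W, m ρ ≤ B)
    (h1 : ∀ i : ℕ, ∀ W ⊆ Z, (∀ ρ ∈ W, 2 ^ i * U ≤ |ρ.im| ∧ |ρ.im| ≤ 2 * (2 ^ i * U)) →
      ∑ ρ ∈ W, m ρ ≤ B) (n : ℕ) :
    ∀ W ⊆ Z, (∀ ρ ∈ W, |ρ.im| < 2 ^ n * U) → ∑ ρ ∈ W, m ρ ≤ (n + 1) * B := by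
  induction n with
  | zero => simpa using h0
  | succ n ih =>
    intro W hW h
    rw [← sum_filter_add_sum_filter_not W fun ρ => |ρ.im| < 2 ^ n * U]
    have a1 := ih _ ((filter_subset (fun ρ => |ρ.im| < 2 ^ n * U) W).trans hW)
      fun ρ hρ => (mem_filter.1 hρ).2
    have a2 := h1 n _ ((filter_subset (fun ρ => ¬|ρ.im| < 2 ^ n * U) W).trans hW) fun ρ hρ =>
      ⟨not_lt.1 (mem_filter.1 hρ).2, by
        have := h ρ (mem_filter.1 hρ).1
        rw [pow_succ] at this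
        linarith⟩
    push_cast
    linarith

theorem nd (h1 : ND1Stmt) (hS : SpaceStmt) (hC : CntStmt) : NDStmt := by
  obtain ⟨η, C1, U, hη, c1, hU, h1⟩ := h1
  obtain ⟨C2, c2, hC⟩ := hC
  have c0 : 0 < C2 := by linarith
  refine ⟨min η (1 / 2), 12 * C2 * (2 * ⌈U⌉₊ + 1 + 2 * C1), lt_min hη (by norm_num),
    min_le_right _ _, by positivity, fun T σ Z hT s0 s1 hZ => ?_⟩
  have e1 := min_le_left η (1 / 2)
  have e2 := min_le_right η (1 / 2)
  have t0 : 0 < T := by linarith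
  have l1 : 1 ≤ Real.log T := by
    rw [Real.le_log_iff_exp_le t0]
    linarith [Real.exp_one_lt_three]
  have p1 : 1 ≤ T ^ (1 - σ) := Real.one_le_rpow (by linarith) (by linarith)
  have hμ : ∀ W ⊆ Z, ∀ j : ℤ,
      ∑ ρ ∈ W.filter (fun ρ => ⌊ρ.im⌋ = j), ord ρ ≤ 3 * C2 * Real.log T := fun W hW j => by
    rcases (W.filter fun ρ => ⌊ρ.im⌋ = j).eq_empty_or_nonempty with h | ⟨z, hz⟩
    · rw [h, sum_empty]
      positivity
    refine (hC j _ fun ρ hρ => ⟨?_, (mem_filter.1 hρ).2⟩).trans ?_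
    · linarith [(hZ ρ (hW (mem_filter.1 hρ).1)).2.1]
    have a1 := abs_le.1 (hZ z (hW (mem_filter.1 hz).1)).2.2
    have a2 := Int.floor_le z.im
    have a3 := Int.lt_floor_add_one z.im
    rw [(mem_filter.1 hz).2] at a2 a3
    have a4 : |(j : ℝ)| ≤ T + 1 := abs_le.2 ⟨by linarith [a1.1], by linarith [a1.2]⟩
    have a5 : Real.log (|(j : ℝ)| + 4) ≤ Real.log (T ^ 3) :=
      Real.log_le_log (by positivity) (by nlinarith [mul_le_mul hT hT (by norm_num) t0.le])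
    rw [Real.log_pow] at a5
    push_cast at a5
    nlinarith
  have p2 : 1 ≤ T ^ (1 - σ) * Real.log T ^ 8 := one_le_mul_of_one_le_of_one_le p1 (one_le_pow₀ l1)
  have m0 : 0 ≤ 3 * C2 * Real.log T := by positivity
  have key := dya_ND Z ord U ((2 * ⌈U⌉₊ + 1 + 2 * C1) * (T ^ (1 - σ) * Real.log T ^ 8) *
    (3 * C2 * Real.log T)) (fun W hW h => ?_) (fun i W hW h => ?_) (Nat.log 2 ⌊T⌋₊ + 1) Z
    subset_rfl fun ρ hρ => ?_
  · have a1 : ((Nat.log 2 ⌊T⌋₊ : ℕ) : ℝ) ≤ 2 * Real.log T := by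
      have b1 : (2 : ℝ) ^ Nat.log 2 ⌊T⌋₊ ≤ T := le_trans (by
        exact_mod_cast Nat.pow_log_le_self 2 (Nat.floor_pos.2 (by linarith)).ne')
        (Nat.floor_le t0.le)
      have b2 := Real.log_le_log (by positivity) b1
      rw [Real.log_pow] at b2
      nlinarith [Real.log_two_gt_d9, Nat.cast_nonneg (α := ℝ) (Nat.log 2 ⌊T⌋₊)]
    refine key.trans ((mul_le_mul_of_nonneg_right (?_ : _ ≤ 4 * Real.log T)
      (by positivity)).trans_eq (by ring))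
    push_cast
    linarith
  · rw [← sum_fiberwise_of_maps_to (t := Icc (-(⌈U⌉₊ : ℤ)) ⌈U⌉₊) (g := fun ρ : ℂ => ⌊ρ.im⌋)]
    · refine (sum_le_card_nsmul _ _ _ fun j _ => hμ W hW j).trans ?_
      have a1 : (Icc (-(⌈U⌉₊ : ℤ)) ⌈U⌉₊).card = 2 * ⌈U⌉₊ + 1 := by
        rw [Int.card_Icc]
        omega
      rw [a1, nsmul_eq_mul]
      refine mul_le_mul_of_nonneg_right ?_ m0
      push_cast
      exact le_trans (by linarith) (le_mul_of_one_le_right (by positivity) p2)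
    · intro ρ hρ
      have a1 := abs_lt.1 ((h ρ hρ).trans_le (Nat.le_ceil U))
      rw [mem_Icc, Int.le_floor, ← Int.cast_le (R := ℝ)]
      push_cast
      exact ⟨a1.1.le, (Int.floor_le _).trans a1.2.le⟩
  · rcases W.eq_empty_or_nonempty with rfl | ⟨z, hz⟩
    · rw [sum_empty]
      positivity
    have a1 : U ≤ 2 ^ i * U := le_mul_of_one_le_left (by linarith) (one_le_pow₀ one_le_two)
    have a2 : 2 ^ i * U ≤ T := (h z hz).1.trans (hZ z (hW hz)).2.2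
    refine (hS W ord (C1 * (T ^ (1 - σ) * Real.log T ^ 8)) _ m0 (fun V hV hs => ?_)
      (hμ W hW)).trans (mul_le_mul_of_nonneg_right ?_ m0)
    · refine (h1 _ σ V a1 (by linarith) s1 hs fun ρ hρ =>
        ⟨(hZ ρ (hW (hV hρ))).1, (hZ ρ (hW (hV hρ))).2.1, h ρ (hV hρ)⟩).trans ?_
      have a3 : 0 ≤ Real.log (2 ^ i * U) := Real.log_nonneg (by linarith)
      have a4 : 0 < 2 ^ i * U := by linarith
      rw [mul_assoc]
      gcongr
    · rw [← mul_assoc]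
      refine mul_le_mul_of_nonneg_right ?_ (by linarith)
      linarith [Nat.cast_nonneg (α := ℝ) ⌈U⌉₊]
  · have a1 : T < 2 ^ (Nat.log 2 ⌊T⌋₊ + 1) := (Nat.lt_floor_add_one T).trans_le (by
      exact_mod_cast Nat.lt_pow_succ_log_self one_lt_two ⌊T⌋₊)
    exact ((hZ ρ hρ).2.2.trans_lt a1).trans_le
      (le_mul_of_one_le_right (by positivity) (by linarith))

end Pool.Agent.MP_c853c5_nt.Z
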