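import Pool.Agent.MP_c853c5_nt.Z.Basic

set_option autoImplicit false

open Finset

namespace Pool.Agent.MP_c853c5_nt.Z

lemma dya_ND1 (X I : ℕ) (f : ℕ → ℂ) : ∑ k ∈ Ioc X (2 ^ I * X), f k =
    ∑ i ∈ range I, ∑ k ∈ Ioc (2 ^ i * X) (2 * (2 ^ i * X)), f k := by
  induction I with
  | zero => simp
  | succ I ih =>
    rw [sum_range_succ, ← ih, sum_Ioc_consecutive _ (Nat.le_mul_of_pos_left _ (by positivity))
      (by omega), pow_succ', mul_assoc]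

lemma ex_ND1 {U : ℝ} (hU : 256 ≤ U) :
    ∃ X : ℕ, 2 ≤ X ∧ U ≤ (X : ℝ) ^ 8 ∧ (X : ℝ) ^ 8 ≤ 256 * U ∧ (X : ℝ) ^ 4 ≤ U := by
  have e : (U ^ ((8 : ℕ) : ℝ)⁻¹) ^ 8 = U := Real.rpow_inv_natCast_pow (by linarith) (by norm_num)
  have r0 : 0 ≤ U ^ ((8 : ℕ) : ℝ)⁻¹ := Real.rpow_nonneg (by linarith) _
  generalize U ^ ((8 : ℕ) : ℝ)⁻¹ = r at e r0
  have r2 : 2 ≤ r := le_of_pow_le_pow_left₀ (n := 8) (by norm_num) r0 (by rw [e]; linarith)
  have c1 := Nat.le_ceil r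
  have c2 := Nat.ceil_lt_add_one r0
  have c3 : (⌈r⌉₊ : ℝ) ^ 8 ≤ 256 * U := by
    have := pow_le_pow_left₀ (Nat.cast_nonneg _) (by linarith : (⌈r⌉₊ : ℝ) ≤ 2 * r) 8
    rw [mul_pow, e] at this
    linarith
  refine ⟨⌈r⌉₊, by exact_mod_cast r2.trans c1, e ▸ pow_le_pow_left₀ r0 c1 8, c3, ?_⟩
  refine le_of_pow_le_pow_left₀ (n := 2) (by norm_num) (by linarith) ?_
  rw [← pow_mul, sq]
  exact c3.trans (mul_le_mul_of_nonneg_right hU (by linarith))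

theorem nd1 (hM : MolStmt) (hB : BlkStmt) : ND1Stmt := by
  classical
  obtain ⟨η₁, U₁, e1, hM⟩ := hM
  obtain ⟨η₂, C, U₂, e2, hC, -, hB⟩ := hB
  refine ⟨min η₁ η₂, 2 * C, max (max U₁ U₂) 256, lt_min e1 e2, by positivity,
    le_max_of_le_right (by norm_num), fun U σ W hU h1 h2 hS hW => ?_⟩
  have u0 : 256 ≤ U := (le_max_right _ _).trans hU
  have u1 : U₁ ≤ U := ((le_max_left _ _).trans (le_max_left _ _)).trans hU
  have u2 : U₂ ≤ U := ((le_max_right _ _).trans (le_max_left _ _)).trans hU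
  have s1 : 1 - η₁ ≤ σ := by linarith [min_le_left η₁ η₂]
  have s2 : 1 - η₂ ≤ σ := by linarith [min_le_right η₁ η₂]
  obtain ⟨X, x2, x3, x4, x5⟩ := ex_ND1 u0
  obtain ⟨a, ha, hM⟩ := hM U X u1 x3 x4
  obtain ⟨I, i1, i2⟩ : ∃ I, 2 ^ I ≤ X ∧ X < 2 ^ (I + 1) :=
    ⟨Nat.log 2 X, Nat.pow_log_le_self 2 (by omega), Nat.lt_pow_succ_log_self one_lt_two X⟩
  have l0 : 0 < Real.log U := Real.log_pos (by linarith)
  have hI : ((I + 1 : ℕ) : ℝ) ≤ 2 * Real.log U := by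
    have k1 : 2 ^ (I + 1) ≤ X ^ 4 := by
      calc 2 ^ (I + 1) = 2 ^ I * 2 := pow_succ _ _
        _ ≤ X * X := Nat.mul_le_mul i1 x2
        _ = X ^ 2 := (sq X).symm
        _ ≤ X ^ 4 := Nat.pow_le_pow_right (by omega) (by norm_num)
    have k2 : (2 : ℝ) ^ (I + 1) ≤ U := le_trans (by exact_mod_cast k1) x5
    have k3 := Real.log_le_log (by positivity) k2
    rw [Real.log_pow] at k3
    have k4 := mul_le_mul_of_nonneg_left Real.log_two_gt_d9.le (Nat.cast_nonneg (α := ℝ) (I + 1))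
    have k5 : (0 : ℝ) ≤ ((I + 1 : ℕ) : ℝ) := Nat.cast_nonneg _
    linarith
  let a' : ℕ → ℂ := fun n => if n ≤ X ^ 2 then a n else 0
  have ha' : ∀ n, ‖a' n‖ ≤ (n.divisors.card : ℝ) := fun n => by
    simp only [a']
    split_ifs
    · exact ha n
    · simp
  let V : ℕ → Finset ℂ := fun i => W.filter fun ρ => 1 / (4 * Real.log U) ≤
    ‖∑ n ∈ Ioc (2 ^ i * X) (2 * (2 ^ i * X)), a' n * (n : ℂ) ^ (-ρ)‖
  have hsub : W ⊆ (range (I + 1)).biUnion V := fun ρ hρ => by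
    obtain ⟨w1, w2, w3, w4⟩ := hW ρ hρ
    have k1 := hM ρ w1 (s1.trans w2) w3 w4
    have k2 : ∑ n ∈ Ioc X (X ^ 2), a n * (n : ℂ) ^ (-ρ) =
        ∑ n ∈ Ioc X (2 ^ (I + 1) * X), a' n * (n : ℂ) ^ (-ρ) := by
      refine sum_subset_zero_on_sdiff (Ioc_subset_Ioc_right ?_) (fun n hn => ?_) fun n hn => ?_
      · rw [sq]
        exact Nat.mul_le_mul_right _ i2.le
      · obtain ⟨n1, n2⟩ := mem_sdiff.1 hn
        simp only [a']
        rw [if_neg fun h => n2 (mem_Ioc.2 ⟨(mem_Ioc.1 n1).1, h⟩), zero_mul]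
      · simp only [a']
        rw [if_pos (mem_Ioc.1 hn).2]
    rw [k2, dya_ND1] at k1
    have k3 : ∑ _i ∈ range (I + 1), 1 / (4 * Real.log U) ≤ 1 / 2 := by
      rw [sum_const, card_range, nsmul_eq_mul, mul_one_div, div_le_iff₀ (by positivity)]
      linarith
    obtain ⟨i, hi, k4⟩ := exists_le_of_sum_le nonempty_range_add_one
      (k3.trans (k1.trans (norm_sum_le _ _)))
    exact mem_biUnion.2 ⟨i, hi, mem_filter.2 ⟨hρ, k4⟩⟩
  have hV : ∀ i ∈ range (I + 1), ((V i).card : ℝ) ≤ C * U ^ (1 - σ) * Real.log U ^ 7 := by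
    intro i hi
    have n1 : X ≤ 2 ^ i * X := Nat.le_mul_of_pos_left _ (by positivity)
    have n2 : 2 ^ i * X ≤ X ^ 2 := by
      rw [sq]
      exact Nat.mul_le_mul_right _ ((Nat.pow_le_pow_right two_pos
        (Nat.le_of_lt_succ (mem_range.1 hi))).trans i1)
    generalize hN : 2 ^ i * X = N at n1 n2
    have n3 : (N : ℝ) ^ 2 ≤ U := by
      have := Nat.pow_le_pow_left n2 2
      rw [← pow_mul] at this
      exact le_trans (by exact_mod_cast this) x5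
    have n4 : (N : ℝ) ≤ U := le_trans (by exact_mod_cast Nat.le_self_pow two_ne_zero N) n3
    refine (hB U σ N a' (V i) u2 (x3.trans (by exact_mod_cast Nat.pow_le_pow_left n1 8)) n4 s2 h2 ha'
      (fun ρ h ρ' h' => hS ρ (mem_filter.1 h).1 ρ' (mem_filter.1 h').1) fun ρ h => ?_).trans ?_
    · obtain ⟨k1, k2⟩ := mem_filter.1 h
      exact ⟨(hW ρ k1).2.1, (hW ρ k1).2.2.2, hN ▸ k2⟩
    · rw [Real.rpow_mul (Nat.cast_nonneg _), Real.rpow_two]
      have := Real.rpow_le_rpow (by positivity) n3 (sub_nonneg.2 h2)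
      gcongr
  have k1 : (W.card : ℝ) ≤ ∑ i ∈ range (I + 1), ((V i).card : ℝ) := by
    exact_mod_cast (card_le_card hsub).trans card_biUnion_le
  have k2 := k1.trans (sum_le_card_nsmul _ _ _ hV)
  rw [card_range, nsmul_eq_mul] at k2
  have k3 : 0 ≤ C * U ^ (1 - σ) * Real.log U ^ 7 := by positivity
  calc (W.card : ℝ) ≤ 2 * Real.log U * (C * U ^ (1 - σ) * Real.log U ^ 7) :=
        k2.trans (mul_le_mul_of_nonneg_right hI k3)
    _ = _ := by ring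

end Pool.Agent.MP_c853c5_nt.Z
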