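import Pool.Agent.MP_c853c5_nt.Z.Basic

set_option autoImplicit false

open Finset Filter

namespace Pool.Agent.MP_c853c5_nt.Z

lemma head_Near (N : ℕ) (s : ℂ) (δ : ℝ) (hN : 1 ≤ N) (hδ : 0 ≤ δ) (hs : 1 - δ ≤ s.re)
    (h : δ * Real.log N ≤ 2) :
    ‖∑ n ∈ Icc 1 N, (n : ℂ) ^ (-s)‖ ≤ Real.exp 2 * (1 + Real.log N) := by
  have hN' : (0 : ℝ) < N := by exact_mod_cast hN
  have h1 : ‖∑ n ∈ Icc 1 N, (n : ℂ) ^ (-s)‖ ≤ ∑ n ∈ Icc 1 N, Real.exp 2 * (n : ℝ)⁻¹ := by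
    refine (norm_sum_le _ _).trans (sum_le_sum fun n hn => ?_)
    obtain ⟨k1, k2⟩ := mem_Icc.1 hn
    have k3 : (1 : ℝ) ≤ n := by exact_mod_cast k1
    have k4 : (n : ℝ) ≤ N := by exact_mod_cast k2
    have k5 : (0 : ℝ) < n := by linarith
    rw [Complex.norm_natCast_cpow_of_pos (by omega), Complex.neg_re]
    calc (n : ℝ) ^ (-s.re) ≤ (n : ℝ) ^ (δ + -1) :=
          Real.rpow_le_rpow_of_exponent_le k3 (by linarith)
      _ = Real.exp (Real.log n * δ) * (n : ℝ)⁻¹ := by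
          rw [Real.rpow_add k5, Real.rpow_neg_one, Real.rpow_def_of_pos k5]
      _ ≤ _ := by
          refine mul_le_mul_of_nonneg_right (Real.exp_le_exp.2 ?_) (by positivity)
          have := mul_le_mul_of_nonneg_right (Real.log_le_log k5 k4) hδ
          linarith
  rw [← mul_sum] at h1
  refine h1.trans (mul_le_mul_of_nonneg_left ?_ (Real.exp_pos _).le)
  have h2 := harmonic_le_one_add_log N
  rw [harmonic_eq_sum_Icc] at h2
  push_cast at h2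
  exact h2

lemma num_Near (A L : ℝ) (hA : 10 ≤ A) (hL : (64 * A) ^ 20 ≤ L) : ∃ k N : ℕ, 1 ≤ k ∧ 1 ≤ N ∧
    (N : ℝ) ≤ Real.exp L ∧ Real.exp L ≤ (N : ℝ) ^ k ∧
    L ^ (-(19 / 20) : ℝ) ≤ 1 / (A * (k : ℝ) ^ 8) ∧
    Real.exp (A * (k : ℝ) ^ 8) * (N : ℝ) ^ (-(1 / (A * (k : ℝ) ^ 8))) ≤ 1 ∧
    L ^ (-(19 / 20) : ℝ) * Real.log N ≤ 2 := by
  have hA0 : (640 : ℝ) ≤ 64 * A := by linarith
  have hL0 : (640 : ℝ) ≤ L := (hA0.trans (le_self_pow₀ (by linarith) (by norm_num))).trans hL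
  have hLp : 0 < L := by linarith
  obtain ⟨x, hx0, hx, hx19⟩ : ∃ x : ℝ, 0 < x ∧ x ^ 20 = L ∧ L ^ (-(19 / 20) : ℝ) = 1 / x ^ 19 := by
    refine ⟨L ^ (1 / 20 : ℝ), Real.rpow_pos_of_pos hLp _, ?_, ?_⟩
    · rw [← Real.rpow_natCast, ← Real.rpow_mul hLp.le]
      norm_num
    · rw [← Real.rpow_natCast, ← Real.rpow_mul hLp.le, Real.rpow_neg hLp.le, one_div]
      norm_num
  have hxA : 64 * A ≤ x := by
    rw [← hx] at hL
    exact le_of_pow_le_pow_left₀ (by norm_num) hx0.le hL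
  have hx1 : (640 : ℝ) ≤ x := hA0.trans hxA
  have hk1 : x ≤ (⌈x⌉₊ : ℝ) := Nat.le_ceil x
  have hk2 : (⌈x⌉₊ : ℝ) ≤ 2 * x := by
    have := Nat.ceil_lt_add_one hx0.le
    linarith
  generalize ⌈x⌉₊ = k at hk1 hk2
  have hk0 : (0 : ℝ) < k := by linarith
  have hN1 : Real.exp (L / k) ≤ (⌈Real.exp (L / k)⌉₊ : ℝ) := Nat.le_ceil _
  have hN2 : (⌈Real.exp (L / k)⌉₊ : ℝ) ≤ Real.exp (L / k) + 1 :=
    (Nat.ceil_lt_add_one (Real.exp_pos _).le).le
  generalize ⌈Real.exp (L / k)⌉₊ = N at hN1 hN2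
  have hLk : 0 ≤ L / k := by positivity
  have he1 : 1 ≤ Real.exp (L / k) := Real.one_le_exp hLk
  have hN0 : (1 : ℝ) ≤ N := he1.trans hN1
  have hk8 : (k : ℝ) ^ 8 ≤ 256 * x ^ 8 := by
    have := pow_le_pow_left₀ hk0.le hk2 8
    rw [mul_pow] at this
    norm_num at this
    exact this
  have hAk : 0 < A * (k : ℝ) ^ 8 := by positivity
  refine ⟨k, N, ?_, ?_, ?_, ?_, ?_, ?_, ?_⟩
  · have : (1 : ℝ) ≤ k := by linarith
    exact_mod_cast this
  · exact_mod_cast hN0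
  · have h1 : L / k ≤ L / 2 := div_le_div_of_nonneg_left hLp.le (by norm_num) (by linarith)
    have h2 := Real.exp_le_exp.2 h1
    have h3 := Real.add_one_le_exp (L / 2)
    have h4 : Real.exp L = Real.exp (L / 2) * Real.exp (L / 2) := by
      rw [← Real.exp_add, add_halves]
    rw [h4]
    nlinarith
  · calc Real.exp L = Real.exp (L / k) ^ k := by
          rw [← Real.exp_nat_mul, mul_div_cancel₀ _ hk0.ne']
      _ ≤ _ := pow_le_pow_left₀ (Real.exp_pos _).le hN1 k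
  · rw [hx19]
    refine one_div_le_one_div_of_le hAk ?_
    have h1 : (4 : ℝ) ≤ x ^ 10 := le_trans (by linarith) (le_self_pow₀ (by linarith) (by norm_num))
    calc A * (k : ℝ) ^ 8 ≤ A * (256 * x ^ 8) := by gcongr
      _ = 64 * A * 4 * x ^ 8 := by ring
      _ ≤ x * x ^ 10 * x ^ 8 := by gcongr
      _ = x ^ 19 := by ring
  · have h1 : (N : ℝ) ^ (-(1 / (A * (k : ℝ) ^ 8))) ≤
        Real.exp (L / k) ^ (-(1 / (A * (k : ℝ) ^ 8))) :=
      Real.rpow_le_rpow_of_nonpos (Real.exp_pos _) hN1 (neg_nonpos.2 (by positivity))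
    refine (mul_le_mul_of_nonneg_left h1 (Real.exp_pos _).le).trans ?_
    rw [← Real.exp_mul, ← Real.exp_add, Real.exp_le_one_iff, mul_neg, add_neg_le_iff_le_add,
      zero_add, div_mul_div_comm, mul_one, le_div_iff₀ (by positivity), ← hx]
    have h2 : (2 : ℝ) ^ 17 * A ^ 2 ≤ x ^ 3 := by
      have h3 := pow_le_pow_left₀ (by linarith) hxA 3
      have h4 : 0 ≤ A ^ 2 * (2 * A - 1) := mul_nonneg (sq_nonneg A) (by linarith)
      nlinarith
    calc A * (k : ℝ) ^ 8 * (k * (A * (k : ℝ) ^ 8)) = A ^ 2 * (k : ℝ) ^ 17 := by ring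
      _ ≤ A ^ 2 * (2 * x) ^ 17 := by gcongr
      _ = 2 ^ 17 * A ^ 2 * x ^ 17 := by ring
      _ ≤ x ^ 3 * x ^ 17 := by gcongr
      _ = x ^ 20 := by ring
  · have h1 : Real.log N ≤ L / k + 1 := by
      rw [Real.log_le_iff_le_exp (by linarith), Real.exp_add]
      have := Real.add_one_le_exp 1
      nlinarith
    have h2 : L / k ≤ x ^ 19 := by
      rw [div_le_iff₀ hk0, ← hx, pow_succ]
      gcongr
    have h3 : 1 ≤ x ^ 19 := one_le_pow₀ (by linarith)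
    rw [hx19, one_div, inv_mul_le_iff₀ (by positivity)]
    linarith

theorem near (hT : TailStmt) : NearStmt := by
  obtain ⟨A, C, hA, hC, hT⟩ := hT
  have he : (1 : ℝ) ≤ Real.exp 2 := Real.one_le_exp (by norm_num)
  have hA0 : (640 : ℝ) ≤ 64 * A := by linarith
  have hL0 : (640 : ℝ) ≤ (64 * A) ^ 20 :=
    hA0.trans (le_self_pow₀ (by linarith) (by norm_num))
  have ht3 : 3 ≤ Real.exp ((64 * A) ^ 20) := by
    have := Real.add_one_le_exp ((64 * A) ^ 20)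
    linarith
  refine ⟨C + 2 * Real.exp 2, Real.exp ((64 * A) ^ 20), by linarith, ht3, fun s ht hs hs2 => ?_⟩
  have ht0 : 0 < |s.im| := (Real.exp_pos _).trans_le ht
  have hL : (64 * A) ^ 20 ≤ Real.log |s.im| := (Real.le_log_iff_exp_le ht0).2 ht
  have hL1 : 1 ≤ Real.log |s.im| := by linarith
  obtain ⟨k, N, h1, h2, h3, h4, h5, h6, h7⟩ := num_Near A _ hA hL
  rw [Real.exp_log ht0] at h3 h4
  have k1 := hT k N s h1 (by linarith) h3 h4 (by linarith) hs2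
  have k2 := head_Near N s _ h2 (Real.rpow_nonneg (by linarith) _) hs h7
  have k3 : Real.log N ≤ Real.log |s.im| :=
    Real.log_le_log (by exact_mod_cast h2) h3
  have k4 : C * Real.exp (A * (k : ℝ) ^ 8) * (N : ℝ) ^ (-(1 / (A * (k : ℝ) ^ 8))) *
      Real.log |s.im| ≤ C * Real.log |s.im| := by
    rw [mul_assoc C]
    exact mul_le_mul_of_nonneg_right (mul_le_of_le_one_right hC.le h6) (by linarith)
  have k5 : Real.exp 2 * (1 + Real.log N) ≤ Real.exp 2 * (2 * Real.log |s.im|) :=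
    mul_le_mul_of_nonneg_left (by linarith) (by linarith)
  have k6 := norm_add_le (riemannZeta s - ∑ n ∈ Icc 1 N, (n : ℂ) ^ (-s))
    (∑ n ∈ Icc 1 N, (n : ℂ) ^ (-s))
  rw [sub_add_cancel] at k6
  linarith

end Pool.Agent.MP_c853c5_nt.Z
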