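import Pool.Agent.MP_c853c5_nt.Z.Basic

set_option autoImplicit false

open Finset Filter

namespace Pool.Agent.MP_c853c5_nt.Z

lemma sand_Pi {x y : ℝ} (hx : 1 ≤ x) (hy : 0 ≤ y) (hyx : y ≤ x) :
    ((Nat.primeCounting ⌊x + y⌋₊ : ℝ) - Nat.primeCounting ⌊x⌋₊) * Real.log x ≤
      Chebyshev.theta (x + y) - Chebyshev.theta x ∧
    Chebyshev.theta (x + y) - Chebyshev.theta x ≤
      ((Nat.primeCounting ⌊x + y⌋₊ : ℝ) - Nat.primeCounting ⌊x⌋₊) * (Real.log x + 1) := by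
  have hs : Nat.primesLE ⌊x⌋₊ ⊆ Nat.primesLE ⌊x + y⌋₊ :=
    Nat.primesLE_mono (Nat.floor_mono (by linarith))
  have h1 : (Nat.primeCounting ⌊x + y⌋₊ : ℝ) - Nat.primeCounting ⌊x⌋₊ =
      (Nat.primesLE ⌊x + y⌋₊ \ Nat.primesLE ⌊x⌋₊).card := by
    rw [← Nat.primesLE_card_eq_primeCounting, ← Nat.primesLE_card_eq_primeCounting,
      ← card_sdiff_add_card_eq_card hs]
    push_cast
    ring
  have h2 : ∀ p ∈ Nat.primesLE ⌊x + y⌋₊ \ Nat.primesLE ⌊x⌋₊,
      Real.log x ≤ Real.log p ∧ Real.log p ≤ Real.log x + 1 := fun p hp => by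
    obtain ⟨h3, h4⟩ := mem_sdiff.1 hp
    rw [Nat.mem_primesLE] at h3 h4
    have h5 : x < p := Nat.lt_of_floor_lt (not_le.1 fun h => h4 ⟨h, h3.2⟩)
    have h6 : (p : ℝ) ≤ 2 * x := ((Nat.le_floor_iff (by linarith)).1 h3.1).trans (by linarith)
    refine ⟨Real.log_le_log (by linarith) h5.le, (Real.log_le_log (by linarith) h6).trans ?_⟩
    rw [Real.log_mul two_ne_zero (by linarith)]
    linarith [Real.log_two_lt_d9]
  rw [h1, Chebyshev.theta_eq_sum_primesLE, Chebyshev.theta_eq_sum_primesLE, ← sum_sdiff hs,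
    add_sub_cancel_right, ← nsmul_eq_mul, ← nsmul_eq_mul]
  exact ⟨card_nsmul_le_sum _ _ _ fun p hp => (h2 p hp).1,
    sum_le_card_nsmul _ _ _ fun p hp => (h2 p hp).2⟩

theorem piS : PiStmt := by
  intro θ hθ hP ε hε
  obtain ⟨C, hC⟩ := Chebyshev.psi_sub_theta_le_mul_sqrt
  have hC0 : 0 ≤ C := by simpa using hC 1
  have he : 0 < ε / 3 := by positivity
  have h1 := (tendsto_rpow_atTop (y := 1 / 18) (by norm_num)).eventually_ge_atTop
    (2 * C / (ε / 3))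
  have h2 := Real.tendsto_log_atTop.eventually_ge_atTop ((1 + 2 * (ε / 3)) / (ε / 3))
  refine eventually_atTop.1 ?_
  filter_upwards [hP _ he, h1, h2, eventually_ge_atTop 1] with x a1 a2 a3 hx y hy hyx
  have x0 : 0 < x := by linarith
  have y0 : 0 < y := (Real.rpow_pos_of_pos x0 θ).trans_le hy
  have hL : 0 < Real.log x := lt_of_lt_of_le (by positivity) a3
  have b1 : 2 * C * √x ≤ ε / 3 * y := by
    rw [div_le_iff₀ he] at a2
    have b2 : x ^ (1 / 18 : ℝ) * √x ≤ y := by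
      rw [Real.sqrt_eq_rpow, ← Real.rpow_add x0]
      exact (Real.rpow_le_rpow_of_exponent_le hx (by linarith)).trans hy
    calc 2 * C * √x ≤ x ^ (1 / 18 : ℝ) * (ε / 3) * √x := by gcongr
      _ = ε / 3 * (x ^ (1 / 18 : ℝ) * √x) := by ring
      _ ≤ _ := by gcongr
  have b2 : √(x + y) ≤ 2 * √x := by
    rw [Real.sqrt_le_left (by positivity), mul_pow, Real.sq_sqrt x0.le]
    linarith
  have b3 := (hC (x + y)).trans (mul_le_mul_of_nonneg_left b2 hC0)
  have b4 := hC x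
  have b5 := Chebyshev.theta_le_psi (x + y)
  have b6 := Chebyshev.theta_le_psi x
  have b7 : 0 ≤ C * √x := by positivity
  obtain ⟨c1, c2⟩ := abs_le.1 (a1 y hy hyx)
  obtain ⟨d1, d2⟩ := sand_Pi hx y0.le hyx
  generalize (Nat.primeCounting ⌊x + y⌋₊ : ℝ) - Nat.primeCounting ⌊x⌋₊ = n at d1 d2
  have e1 : n * Real.log x ≤ (1 + 2 * (ε / 3)) * y := by linarith
  have e2 : n ≤ ε / 3 * y := by
    rw [div_le_iff₀ he] at a3
    refine le_of_mul_le_mul_right (e1.trans ?_) hL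
    calc (1 + 2 * (ε / 3)) * y ≤ Real.log x * (ε / 3) * y := by gcongr
      _ = _ := by ring
  rw [← mul_div_assoc, le_div_iff₀ hL, ← abs_of_pos hL, ← abs_mul, abs_of_pos hL, sub_mul,
    div_mul_cancel₀ _ hL.ne', abs_le]
  have e3 : 0 ≤ ε / 3 * y := by positivity
  constructor <;> linarith

end Pool.Agent.MP_c853c5_nt.Z
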