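import Pool.Agent.MP_c853c5_nt.Z.Basic

set_option autoImplicit false

open Finset

namespace Pool.Agent.MP_c853c5_nt.Z

lemma primes_Rec {P : ℕ} (hP : 1 ≤ P) (n : ℕ) :
    ∃ I : Finset ℕ, I.card = n ∧ ∀ p ∈ I, p.Prime ∧ P < p ∧ p ≤ 2 ^ n * P := by
  induction n with
  | zero => exact ⟨∅, rfl, fun p hp => absurd hp (notMem_empty p)⟩
  | succ n ih =>
    obtain ⟨I, hI, h⟩ := ih
    have h1 : P ≤ 2 ^ n * P := Nat.le_mul_of_pos_left _ (by positivity)
    obtain ⟨q, hq, hq1, hq2⟩ := Nat.exists_prime_lt_and_le_two_mul (2 ^ n * P) (by omega)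
    have e : 2 ^ (n + 1) * P = 2 * (2 ^ n * P) := by ring
    refine ⟨insert q I, ?_, fun p hp => ?_⟩
    · rw [card_insert_of_notMem fun hqI => by have := (h q hqI).2.2; omega, hI]
    · rcases mem_insert.1 hp with rfl | hp
      · exact ⟨hq, by omega, by omega⟩
      · obtain ⟨a, b, c⟩ := h p hp
        exact ⟨a, b, by omega⟩

lemma few_Rec {k P : ℕ} (hP : 1 ≤ P) {I : Finset ℕ} (hI : ∀ p ∈ I, p.Prime ∧ P < p) {d : ℤ}
    (hd : d ≠ 0) (hdP : d.natAbs < P ^ k) : (I.filter fun p : ℕ => (p : ℤ) ∣ d).card ≤ k - 1 := by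
  by_contra hc
  have hk : k ≤ (I.filter fun p : ℕ => (p : ℤ) ∣ d).card := by omega
  have h1 : ∏ p ∈ I.filter (fun p : ℕ => (p : ℤ) ∣ d), p ∣ d.natAbs :=
    prod_primes_dvd _ (fun p hp => (hI p (mem_filter.1 hp).1).1.prime)
      fun p hp => Int.natCast_dvd.1 (mem_filter.1 hp).2
  have h2 := Nat.le_of_dvd (Int.natAbs_pos.2 hd) h1
  have h3 := pow_card_le_prod (I.filter fun p : ℕ => (p : ℤ) ∣ d) (fun p => p) P
    fun p hp => (hI p (mem_filter.1 hp).1).2.le
  have h4 := Nat.pow_le_pow_right hP hk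
  omega

lemma good_prime_Rec {k P X : ℕ} (hk : 1 ≤ k) (hP : 1 ≤ P) (hX : X ≤ P ^ k) {I : Finset ℕ}
    (hc : I.card = k ^ 3) (hI : ∀ p ∈ I, p.Prime ∧ P < p) {x : Fin k → ℤ} (hx : x ∈ box k X)
    (hi : Function.Injective x) : ∃ p ∈ I, x ∈ Dp k p X := by
  by_contra hn
  have hsub : I ⊆ (univ : Finset (Fin k)).offDiag.biUnion
      fun z => I.filter fun p : ℕ => (p : ℤ) ∣ x z.1 - x z.2 := by
    intro p hp
    by_contra hp'
    refine hn ⟨p, hp, mem_filter.2 ⟨hx, fun i j hij hd => hp' ?_⟩⟩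
    exact mem_biUnion.2 ⟨(i, j), mem_offDiag.2 ⟨mem_univ _, mem_univ _, hij⟩,
      mem_filter.2 ⟨hp, hd⟩⟩
  have h1 := (card_le_card hsub).trans (card_biUnion_le_card_mul _ _ (k - 1) fun z hz => by
    have hz' := (mem_offDiag.1 hz).2.2
    have a := mem_box.1 hx z.1
    have b := mem_box.1 hx z.2
    refine few_Rec hP hI (sub_ne_zero.2 fun e => hz' (hi e)) ?_
    omega)
  rw [hc, offDiag_card, card_univ, Fintype.card_fin] at h1
  obtain ⟨m, rfl⟩ : ∃ m, k = m + 1 := ⟨k - 1, by omega⟩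
  have h2 : ((m + 1) * (m + 1) - (m + 1)) * (m + 1 - 1) ≤ (m + 1) * (m + 1) * m :=
    Nat.mul_le_mul (Nat.sub_le _ _) (by omega)
  have h3 : (m + 1) ^ 3 = (m + 1) * (m + 1) * m + (m + 1) * (m + 1) := by ring
  have h4 : 0 < (m + 1) * (m + 1) := by positivity
  omega

lemma bad_Rec {k n X : ℕ} (hn : 1 ≤ n) {x : Fin n → ℤ} (hx : x ∈ box n X)
    (hc : (univ.image x).card ≤ k) :
    ∃ φ : Fin n → Fin k, ∃ v ∈ box k X, v ∘ φ = x := by
  obtain ⟨j⟩ := Function.Embedding.nonempty_of_card_le (α := univ.image x) (β := Fin k)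
    (by rwa [Fintype.card_coe, Fintype.card_fin])
  have hne : Nonempty (univ.image x) := ⟨⟨x ⟨0, hn⟩, mem_image_of_mem _ (mem_univ _)⟩⟩
  refine ⟨fun i => j ⟨x i, mem_image_of_mem _ (mem_univ _)⟩,
    fun m => (Function.invFun j m : univ.image x), mem_box.2 fun m => ?_, funext fun i => ?_⟩
  · obtain ⟨i, -, hi⟩ := mem_image.1 (Function.invFun j m).2
    rw [← hi]
    exact mem_box.1 hx i
  · exact congrArg Subtype.val (Function.leftInverse_invFun j.injective _)

lemma good_Rec {k s : ℕ} {x : Fin (k + s) → ℤ} (hc : k ≤ (univ.image x).card) :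
    ∃ π : Equiv.Perm (Fin (k + s)), Function.Injective fun i : Fin k => x (π (Fin.castAdd s i)) := by
  obtain ⟨j⟩ := Function.Embedding.nonempty_of_card_le (α := Fin k) (β := univ.image x)
    (by rwa [Fintype.card_coe, Fintype.card_fin])
  have h : ∀ i : Fin k, ∃ a, x a = j i := fun i => by
    obtain ⟨a, -, ha⟩ := mem_image.1 (j i).2
    exact ⟨a, ha⟩
  choose g hg using h
  have hxg : Function.Injective fun i => x (g i) := fun a b e => by
    simp only [hg] at e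
    exact j.injective (Subtype.ext e)
  obtain ⟨π, hπ⟩ := Equiv.Perm.exists_extending_pair (Fin.castAdd s) g
    (Fin.castAdd_injective k s) (Function.Injective.of_comp (f := x) hxg)
  refine ⟨π, ?_⟩
  simp only [hπ]
  exact hxg

lemma ps_perm_Rec (k : ℕ) {n : ℕ} (x : Fin n → ℤ) (π : Equiv.Perm (Fin n)) :
    ps k (x ∘ π) = ps k x :=
  funext fun j => Equiv.sum_comp π fun i => x i ^ (j.val + 1)

lemma ps_split_Rec (k : ℕ) {m s : ℕ} (x : Fin (m + s) → ℤ) :
    ps k (fun i => x (Fin.castAdd s i)) + ps k (fun i => x (Fin.natAdd m i)) = ps k x :=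
  funext fun j => (Fin.sum_univ_add fun i => x i ^ (j.val + 1)).symm

/-- tuples whose first entries are distinct after a permutation -/
noncomputable def TP_Rec (k s X : ℕ) (π : Equiv.Perm (Fin (k + s))) : Finset (Fin (k + s) → ℤ) := by
  classical
  exact (box (k + s) X).filter fun x =>
    Function.Injective fun i : Fin k => x (π (Fin.castAdd s i))

lemma mem_TP_Rec {k s X : ℕ} {π : Equiv.Perm (Fin (k + s))} {x : Fin (k + s) → ℤ} :
    x ∈ TP_Rec k s X π ↔
      x ∈ box (k + s) X ∧ Function.Injective fun i : Fin k => x (π (Fin.castAdd s i)) := by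
  classical
  unfold TP_Rec
  exact mem_filter

lemma cnt_TP_Rec (k s X : ℕ) (π : Equiv.Perm (Fin (k + s))) :
    cnt (TP_Rec k s X π) (ps k) ≤ cnt (TP_Rec k s X 1) (ps k) := by
  refine cnt_map _ _ _ _ (fun x => x ∘ π) (fun x _ y _ e => ?_) (fun x hx => ?_)
    fun x _ y _ e => ?_
  · exact π.surjective.injective_comp_right e
  · obtain ⟨h1, h2⟩ := mem_TP_Rec.1 hx
    exact mem_TP_Rec.2 ⟨mem_box.2 fun i => mem_box.1 h1 _, h2⟩
  · rw [ps_perm_Rec, ps_perm_Rec, e]

lemma cnt_Dp_Rec (k s p X : ℕ) :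
    cnt ((box (k + s) X).filter fun x => (fun i : Fin k => x (Fin.castAdd s i)) ∈ Dp k p X) (ps k) ≤
      cnt (Dp k p X ×ˢ box s X) (fun z => ps k z.1 + ps k z.2) := by
  refine cnt_map _ _ _ _
    (fun x => (fun i : Fin k => x (Fin.castAdd s i), fun i : Fin s => x (Fin.natAdd k i)))
    (fun x _ y _ e => ?_) (fun x hx => ?_) fun x _ y _ e => ?_
  · obtain ⟨e1, e2⟩ := Prod.ext_iff.1 e
    funext i
    refine Fin.addCases (fun a => ?_) (fun a => ?_) i
    · exact congrFun e1 a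
    · exact congrFun e2 a
  · obtain ⟨h1, h2⟩ := mem_filter.1 hx
    exact mem_product.2 ⟨h2, mem_box.2 fun i => mem_box.1 h1 _⟩
  · simp only [ps_split_Rec]
    exact e

theorem recS (hS : StepStmt) : RecStmt := by
  classical
  intro k s X P hk hkP hX
  have hP : 1 ≤ P := hk.trans hkP
  obtain ⟨I, hIc, hI⟩ := primes_Rec hP (k ^ 3)
  have hIne : I.Nonempty := card_pos.1 (by rw [hIc]; positivity)
  obtain ⟨p, hp, hmax⟩ := exists_max_image I
    (fun p => cnt (Dp k p X ×ˢ box s X) (fun z => ps k z.1 + ps k z.2)) hIne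
  obtain ⟨hp1, hp2, hp3⟩ := hI p hp
  refine ⟨p, hp2, hp3, ?_⟩
  have hstep := hS k s p X hp1 (by omega) (hX.trans (Nat.pow_le_pow_left hp2.le k))
  set R := p ^ (2 * s) * (X ^ k * (k.factorial * p ^ (k * (k - 1) / 2)) * JJ k s (X / p + 1))
    with hR
  have h1 : cnt (TP_Rec k s X 1) (ps k) ≤ (k ^ 3) ^ 2 * R := by
    refine (cnt_cover _ I (fun q => (box (k + s) X).filter
      fun x => (fun i : Fin k => x (Fin.castAdd s i)) ∈ Dp k q X) (ps k) fun x hx => ?_).trans ?_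
    · obtain ⟨a, b⟩ := mem_TP_Rec.1 hx
      obtain ⟨q, hq, hq'⟩ := good_prime_Rec hk hP hX hIc (fun q hq => ⟨(hI q hq).1, (hI q hq).2.1⟩)
        (x := fun i : Fin k => x (Fin.castAdd s i)) (mem_box.2 fun i => mem_box.1 a _) b
      exact ⟨q, hq, mem_filter.2 ⟨a, hq'⟩⟩
    · rw [sq, mul_assoc, ← hIc]
      refine Nat.mul_le_mul_left _ ?_
      exact sum_le_card_nsmul I _ R fun q hq =>
        (cnt_Dp_Rec k s q X).trans ((hmax q hq).trans hstep)
  set Good := (box (k + s) X).filter fun x => k ≤ (univ.image x).card with hGood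
  set Bad := ((univ : Finset (Fin (k + s) → Fin k)) ×ˢ box k X).image fun z => z.2 ∘ z.1 with hBad
  have h2 : cnt Good (ps k) ≤ (k + s).factorial ^ 2 * ((k ^ 3) ^ 2 * R) := by
    refine (cnt_cover _ univ (TP_Rec k s X) (ps k) fun x hx => ?_).trans ?_
    · obtain ⟨a, b⟩ := mem_filter.1 hx
      obtain ⟨π, hπ⟩ := good_Rec b
      exact ⟨π, mem_univ _, mem_TP_Rec.2 ⟨a, hπ⟩⟩
    · have hc : (univ : Finset (Equiv.Perm (Fin (k + s)))).card = (k + s).factorial := by
        rw [card_univ, Fintype.card_perm, Fintype.card_fin]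
      rw [sq ((k + s).factorial), mul_assoc, ← hc]
      refine Nat.mul_le_mul_left _ ?_
      exact sum_le_card_nsmul univ _ _ fun π _ => (cnt_TP_Rec k s X π).trans h1
  have h3 : cnt Bad (ps k) ≤ (k ^ (k + s) * X ^ k) ^ 2 := by
    refine (cnt_le_sq _ _).trans (Nat.pow_le_pow_left (card_image_le.trans (le_of_eq ?_)) 2)
    rw [card_product, card_box, card_univ, Fintype.card_fun, Fintype.card_fin, Fintype.card_fin]
  have h4 := cnt_cover (box (k + s) X) (univ : Finset Bool) (fun b => cond b Good Bad) (ps k)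
    fun x hx => by
      by_cases h : k ≤ (univ.image x).card
      · exact ⟨true, mem_univ _, mem_filter.2 ⟨hx, h⟩⟩
      · obtain ⟨φ, v, hv, e⟩ := bad_Rec (k := k) (by omega) hx (by omega)
        exact ⟨false, mem_univ _, mem_image.2 ⟨(φ, v), mem_product.2 ⟨mem_univ _, hv⟩, e⟩⟩
  rw [card_univ, Fintype.card_bool, Fintype.sum_bool, cond_true, cond_false] at h4
  calc JJ k (k + s) X ≤ 2 * (cnt Good (ps k) + cnt Bad (ps k)) := h4
    _ ≤ 2 * ((k + s).factorial ^ 2 * ((k ^ 3) ^ 2 * R) + (k ^ (k + s) * X ^ k) ^ 2) :=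
        Nat.mul_le_mul_left _ (Nat.add_le_add h2 h3)
    _ = _ := by ring

end Pool.Agent.MP_c853c5_nt.Z
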