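import Mathlib

/-!
The weighted argument principle on a rectangle.
-/

set_option autoImplicit false

open Complex MeasureTheory Set Filter Topology
open scoped Real ComplexConjugate

namespace Pool.Agent.MP_c853c5_nt.Z

/-- The boundary integral over the rectangle `[a, b] × [c, d]`. -/
noncomputable def rI (h : ℂ → ℂ) (a b c d : ℝ) : ℂ :=
  (∫ x in a..b, h (x + c * I)) - (∫ x in a..b, h (x + d * I))
    + I * (∫ y in c..d, h (b + y * I)) - I * (∫ y in c..d, h (a + y * I))

/-- The boundary of the rectangle. -/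
def Bd (a b c d : ℝ) (z : ℂ) : Prop :=
  z ∈ Icc a b ×ℂ Icc c d ∧ (z.re = a ∨ z.re = b ∨ z.im = c ∨ z.im = d)

theorem Bd.not_mem {a b c d : ℝ} {z : ℂ} (h : Bd a b c d z) : z ∉ Ioo a b ×ℂ Ioo c d := by
  intro hz
  obtain ⟨⟨h1, h2⟩, h3, h4⟩ := hz
  rcases h.2 with h | h | h | h <;> linarith

theorem bd_bot {a b c d x : ℝ} (hab : a ≤ b) (hcd : c ≤ d) (hx : x ∈ uIcc a b) :
    Bd a b c d (x + c * I) := by
  rw [uIcc_of_le hab] at hx
  refine ⟨⟨by simpa using hx, by simp [hcd]⟩, by simp⟩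

theorem bd_top {a b c d x : ℝ} (hab : a ≤ b) (hcd : c ≤ d) (hx : x ∈ uIcc a b) :
    Bd a b c d (x + d * I) := by
  rw [uIcc_of_le hab] at hx
  refine ⟨⟨by simpa using hx, by simp [hcd]⟩, by simp⟩

theorem bd_right {a b c d y : ℝ} (hab : a ≤ b) (hcd : c ≤ d) (hy : y ∈ uIcc c d) :
    Bd a b c d (b + y * I) := by
  rw [uIcc_of_le hcd] at hy
  refine ⟨⟨by simp [hab], by simpa using hy⟩, by simp⟩

theorem bd_left {a b c d y : ℝ} (hab : a ≤ b) (hcd : c ≤ d) (hy : y ∈ uIcc c d) :
    Bd a b c d (a + y * I) := by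
  rw [uIcc_of_le hcd] at hy
  refine ⟨⟨by simp [hab], by simpa using hy⟩, by simp⟩

theorem rI_eq_zero {h : ℂ → ℂ} {a b c d : ℝ} (hab : a ≤ b) (hcd : c ≤ d)
    (hh : DifferentiableOn ℂ h (Icc a b ×ℂ Icc c d)) : rI h a b c d = 0 := by
  have := integral_boundary_rect_eq_zero_of_differentiableOn h ⟨a, c⟩ ⟨b, d⟩
    (by simpa [uIcc_of_le hab, uIcc_of_le hcd] using hh)
  simpa [rI] using this

theorem rI_congr {h h' : ℂ → ℂ} {a b c d : ℝ} (hab : a ≤ b) (hcd : c ≤ d)
    (e : ∀ z, Bd a b c d z → h z = h' z) : rI h a b c d = rI h' a b c d := by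
  simp only [rI]
  rw [intervalIntegral.integral_congr fun x hx => e _ (bd_bot hab hcd hx),
    intervalIntegral.integral_congr fun x hx => e _ (bd_top hab hcd hx),
    intervalIntegral.integral_congr fun x hx => e _ (bd_right hab hcd hx),
    intervalIntegral.integral_congr fun x hx => e _ (bd_left hab hcd hx)]

theorem rI_add {h h' : ℂ → ℂ} {a b c d : ℝ} (hab : a ≤ b) (hcd : c ≤ d)
    (e : ∀ z, Bd a b c d z → ContinuousAt h z) (e' : ∀ z, Bd a b c d z → ContinuousAt h' z) :
    rI (fun z => h z + h' z) a b c d = rI h a b c d + rI h' a b c d := by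
  have key : ∀ (k : ℂ → ℂ) (p : ℝ → ℂ) (u v : ℝ), Continuous p →
      (∀ z, Bd a b c d z → ContinuousAt k z) → (∀ x ∈ uIcc u v, Bd a b c d (p x)) →
      IntervalIntegrable (fun x => k (p x)) volume u v := fun k p u v hp hk hb =>
    ContinuousOn.intervalIntegrable fun x hx =>
      (ContinuousAt.comp (f := p) (hk _ (hb x hx)) hp.continuousAt).continuousWithinAt
  simp only [rI]
  rw [intervalIntegral.integral_add
      (key h (fun x : ℝ => x + c * I) a b (by fun_prop) e fun x hx => bd_bot hab hcd hx)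
      (key h' (fun x : ℝ => x + c * I) a b (by fun_prop) e' fun x hx => bd_bot hab hcd hx),
    intervalIntegral.integral_add
      (key h (fun x : ℝ => x + d * I) a b (by fun_prop) e fun x hx => bd_top hab hcd hx)
      (key h' (fun x : ℝ => x + d * I) a b (by fun_prop) e' fun x hx => bd_top hab hcd hx),
    intervalIntegral.integral_add
      (key h (fun y : ℝ => b + y * I) c d (by fun_prop) e fun x hx => bd_right hab hcd hx)
      (key h' (fun y : ℝ => b + y * I) c d (by fun_prop) e' fun x hx => bd_right hab hcd hx),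
    intervalIntegral.integral_add
      (key h (fun y : ℝ => a + y * I) c d (by fun_prop) e fun x hx => bd_left hab hcd hx)
      (key h' (fun y : ℝ => a + y * I) c d (by fun_prop) e' fun x hx => bd_left hab hcd hx)]
  ring

theorem rI_const_mul (k : ℂ) (h : ℂ → ℂ) (a b c d : ℝ) :
    rI (fun z => k * h z) a b c d = k * rI h a b c d := by
  simp only [rI, intervalIntegral.integral_const_mul]
  ring

theorem log_neg_of_im_pos {w : ℂ} (hw : 0 < w.im) : log (-w) = log w - π * I := by
  apply Complex.ext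
  · simp [log_re]
  · rw [log_im, arg_neg_eq_arg_sub_pi_of_im_pos hw]
    simp [log_im]

theorem log_neg_of_im_neg {w : ℂ} (hw : w.im < 0) : log (-w) = log w + π * I := by
  apply Complex.ext
  · simp [log_re]
  · rw [log_im, arg_neg_eq_arg_add_pi_of_im_neg hw]
    simp [log_im]

theorem integral_inv_horizontal (ρ : ℂ) (a b e : ℝ) (he : e ≠ ρ.im) :
    (∫ x : ℝ in a..b, ((x : ℂ) + e * I - ρ)⁻¹) =
      log (b + e * I - ρ) - log (a + e * I - ρ) := by
  have him : ∀ x : ℝ, ((x : ℂ) + e * I - ρ).im ≠ 0 := fun x => by simpa [sub_eq_zero] using he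
  rw [intervalIntegral.integral_eq_sub_of_hasDerivAt (f := fun x : ℝ => log ((x : ℂ) + e * I - ρ))]
  · intro x _
    have h1 : HasDerivAt (fun x : ℝ => (x : ℂ) + e * I - ρ) 1 x :=
      ((hasDerivAt_id x).ofReal_comp.add_const _).sub_const _
    simpa using h1.clog_real (Or.inr (him x))
  · refine ContinuousOn.intervalIntegrable (ContinuousOn.inv₀ (by fun_prop) fun x _ h => ?_)
    exact him x (by rw [h]; simp)

theorem integral_inv_right (ρ : ℂ) (b c d : ℝ) (hb : ρ.re < b) :
    I * (∫ y : ℝ in c..d, ((b : ℂ) + y * I - ρ)⁻¹) =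
      log (b + d * I - ρ) - log (b + c * I - ρ) := by
  have hre : ∀ y : ℝ, 0 < ((b : ℂ) + y * I - ρ).re := fun y => by simpa using hb
  rw [← intervalIntegral.integral_const_mul, intervalIntegral.integral_eq_sub_of_hasDerivAt
    (f := fun y : ℝ => log ((b : ℂ) + y * I - ρ))]
  · intro y _
    have h1 : HasDerivAt (fun y : ℝ => (b : ℂ) + y * I - ρ) (1 * I) y :=
      ((((hasDerivAt_id y).ofReal_comp).mul_const I).const_add _).sub_const _
    exact (h1.clog_real (Or.inl (hre y))).congr_deriv (by simp [div_eq_mul_inv])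
  · refine ContinuousOn.intervalIntegrable (continuousOn_const.mul
      (ContinuousOn.inv₀ (by fun_prop) fun y _ h => ?_))
    have := hre y
    rw [h] at this
    simp at this

theorem integral_inv_left (ρ : ℂ) (a c d : ℝ) (ha : a < ρ.re) :
    I * (∫ y : ℝ in c..d, ((a : ℂ) + y * I - ρ)⁻¹) =
      log (-(a + d * I - ρ)) - log (-(a + c * I - ρ)) := by
  have hre : ∀ y : ℝ, 0 < (-((a : ℂ) + y * I - ρ)).re := fun y => by simpa using ha
  rw [← intervalIntegral.integral_const_mul, intervalIntegral.integral_eq_sub_of_hasDerivAt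
    (f := fun y : ℝ => log (-((a : ℂ) + y * I - ρ)))]
  · intro y _
    have h1 : HasDerivAt (fun y : ℝ => -((a : ℂ) + y * I - ρ)) (-(1 * I)) y :=
      (((((hasDerivAt_id y).ofReal_comp).mul_const I).const_add _).sub_const _).neg
    exact (h1.clog_real (Or.inl (hre y))).congr_deriv
      (by rw [neg_div_neg_eq]; simp [div_eq_mul_inv])
  · refine ContinuousOn.intervalIntegrable (continuousOn_const.mul
      (ContinuousOn.inv₀ (by fun_prop) fun y _ h => ?_))
    have := hre y
    rw [h] at this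
    simp at this

theorem rI_inv {ρ : ℂ} {a b c d : ℝ} (hρ : ρ ∈ Ioo a b ×ℂ Ioo c d) :
    rI (fun z => (z - ρ)⁻¹) a b c d = 2 * π * I := by
  obtain ⟨⟨h1, h2⟩, h3, h4⟩ := hρ
  simp only [rI]
  rw [integral_inv_horizontal ρ a b c h3.ne, integral_inv_horizontal ρ a b d h4.ne',
    integral_inv_right ρ b c d h2, integral_inv_left ρ a c d h1,
    log_neg_of_im_pos (w := a + d * I - ρ) (by simpa using h4),
    log_neg_of_im_neg (w := a + c * I - ρ) (by simpa using h3)]
  ring

/-- Cauchy's integral formula on a rectangle, for an entire function. -/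
theorem rI_cauchy {ρ : ℂ} {a b c d : ℝ} (hab : a ≤ b) (hcd : c ≤ d)
    (hρ : ρ ∈ Ioo a b ×ℂ Ioo c d) {g : ℂ → ℂ} (hg : Differentiable ℂ g) :
    rI (fun z => (z - ρ)⁻¹ * g z) a b c d = 2 * π * I * g ρ := by
  have hd : Differentiable ℂ (dslope g ρ) :=
    differentiableOn_univ.1 ((differentiableOn_dslope univ_mem).2 hg.differentiableOn)
  have hne : ∀ z, Bd a b c d z → z - ρ ≠ 0 := fun z hz h =>
    hz.not_mem (by rw [sub_eq_zero.1 h]; exact hρ)
  rw [rI_congr (h' := fun z => dslope g ρ z + g ρ * (z - ρ)⁻¹) hab hcd, rI_add hab hcd,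
    rI_eq_zero hab hcd hd.differentiableOn, rI_const_mul, rI_inv hρ]
  · ring
  · exact fun z _ => hd.continuous.continuousAt
  · intro z hz
    exact continuousAt_const.mul ((continuousAt_id.sub continuousAt_const).inv₀ (hne z hz))
  · intro z hz
    have h1 := hne z hz
    rw [dslope_of_ne _ (sub_ne_zero.1 h1), slope_def_field]
    field_simp
    ring

theorem analyticAt_logDeriv {F : ℂ → ℂ} {z : ℂ} (hF : AnalyticAt ℂ F z) (h0 : F z ≠ 0) :
    AnalyticAt ℂ (logDeriv F) z :=
  hF.deriv.div hF h0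

/-- Removing one zero of an analytic function. -/
theorem exists_factor_rect {F : ℂ → ℂ} {S : Set ℂ} {ρ : ℂ} (hF : AnalyticOnNhd ℂ F S) (hρ : ρ ∈ S)
    (hfin : analyticOrderAt F ρ ≠ ⊤) :
    ∃ G : ℂ → ℂ, AnalyticOnNhd ℂ G S ∧ G ρ ≠ 0 ∧
      ∀ z, z ≠ ρ → F z = (z - ρ) ^ (analyticOrderAt F ρ).toNat * G z := by
  classical
  obtain ⟨G, hG, hG0, hFG⟩ := (hF ρ hρ).analyticOrderAt_ne_top.1 hfin
  set m := (analyticOrderAt F ρ).toNat with hm
  refine ⟨fun z => if z = ρ then G ρ else F z / (z - ρ) ^ m, fun z hz => ?_, by simpa using hG0,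
    fun z hz => ?_⟩
  · by_cases hzρ : z = ρ
    · subst hzρ
      refine hG.congr ?_
      filter_upwards [hFG] with w hw
      by_cases hw' : w = z
      · simp [hw']
      · have : (w - z) ^ m ≠ 0 := pow_ne_zero _ (sub_ne_zero.2 hw')
        simp only [hw', if_false, hw, smul_eq_mul, analyticOrderNatAt, ← hm]
        field_simp
    · have h1 : AnalyticAt ℂ (fun w => F w / (w - ρ) ^ m) z :=
        (hF z hz).div (by fun_prop) (pow_ne_zero _ (sub_ne_zero.2 hzρ))
      refine h1.congr ?_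
      filter_upwards [isOpen_ne.mem_nhds hzρ] with w hw
      simp [hw]
  · have : (z - ρ) ^ m ≠ 0 := pow_ne_zero _ (sub_ne_zero.2 hz)
    simp only [hz, if_false]
    field_simp

theorem rI_argument {g : ℂ → ℂ} {a b c d : ℝ} (hab : a ≤ b) (hcd : c ≤ d)
    (hg : Differentiable ℂ g) (Z : Finset ℂ) :
    ∀ F : ℂ → ℂ, AnalyticOnNhd ℂ F (Icc a b ×ℂ Icc c d) →
      (∀ z, z ∈ Z ↔ z ∈ Icc a b ×ℂ Icc c d ∧ F z = 0) → (∀ z ∈ Z, z ∈ Ioo a b ×ℂ Ioo c d) →
      rI (fun z => logDeriv F z * g z) a b c d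
        = 2 * π * I * ∑ ρ ∈ Z, ((analyticOrderAt F ρ).toNat : ℂ) * g ρ := by
  classical
  induction Z using Finset.induction_on with
  | empty =>
    intro F hF hZ _
    rw [rI_eq_zero hab hcd]
    · simp
    · intro z hz
      have h0 : F z ≠ 0 := fun h => by simpa using (hZ z).2 ⟨hz, h⟩
      exact ((analyticAt_logDeriv (hF z hz) h0).differentiableAt.mul
        (hg z)).differentiableWithinAt
  | insert ρ Z hρZ ih =>
    intro F hF hZ hin
    have hρin := hin ρ (Finset.mem_insert_self _ _)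
    have hρS := ((hZ ρ).1 (Finset.mem_insert_self _ _)).1
    have hnh : Icc a b ×ℂ Icc c d ∈ 𝓝 ρ :=
      mem_of_superset ((isOpen_Ioo.reProdIm isOpen_Ioo).mem_nhds hρin)
        (inter_subset_inter (preimage_mono Ioo_subset_Icc_self) (preimage_mono Ioo_subset_Icc_self))
    have hfin : analyticOrderAt F ρ ≠ ⊤ := by
      intro h
      rw [analyticOrderAt_eq_top] at h
      have h2 : ((insert ρ Z : Finset ℂ) : Set ℂ) ∈ 𝓝 ρ := by
        filter_upwards [h, hnh] with z h1 h2 using (hZ z).2 ⟨h2, h1⟩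
      exact (infinite_of_mem_nhds ρ h2) (Finset.finite_toSet _)
    obtain ⟨G, hG, hG0, hFG⟩ := exists_factor_rect hF hρS hfin
    set m := (analyticOrderAt F ρ).toNat with hm
    have hev : ∀ z, z ≠ ρ → F =ᶠ[𝓝 z] fun w => (w - ρ) ^ m * G w := fun z hz => by
      filter_upwards [isOpen_ne.mem_nhds hz] with w hw using hFG w hw
    have hGZ : ∀ z, z ∈ Z ↔ z ∈ Icc a b ×ℂ Icc c d ∧ G z = 0 := by
      intro z
      by_cases hz : z = ρ
      · subst hz
        simp [hρZ, hG0]
      · have h1 := hZ z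
        rw [Finset.mem_insert, or_iff_right hz, hFG z hz, mul_eq_zero,
          or_iff_right (pow_ne_zero _ (sub_ne_zero.2 hz))] at h1
        exact h1
    have hord : ∀ z ∈ Z, analyticOrderAt F z = analyticOrderAt G z := by
      intro z hz
      have hzρ : z ≠ ρ := fun h => hρZ (h ▸ hz)
      have hp : AnalyticAt ℂ (fun w : ℂ => (w - ρ) ^ m) z := by fun_prop
      rw [analyticOrderAt_congr (hev z hzρ)]
      have := analyticOrderAt_mul hp (hG z ((hGZ z).1 hz).1)
      rw [hp.analyticOrderAt_eq_zero.2 (pow_ne_zero _ (sub_ne_zero.2 hzρ)), zero_add] at this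
      exact this
    have hne : ∀ z, Bd a b c d z → z ≠ ρ := fun z hz h => hz.not_mem (h ▸ hρin)
    have hGne : ∀ z, Bd a b c d z → G z ≠ 0 := fun z hz h =>
      hz.not_mem (hin z (Finset.mem_insert_of_mem ((hGZ z).2 ⟨hz.1, h⟩)))
    have hs : ∑ z ∈ Z, ((analyticOrderAt F z).toNat : ℂ) * g z
        = ∑ z ∈ Z, ((analyticOrderAt G z).toNat : ℂ) * g z :=
      Finset.sum_congr rfl fun z hz => by rw [hord z hz]
    rw [rI_congr (h' := fun z => (m : ℂ) * ((z - ρ)⁻¹ * g z) + logDeriv G z * g z) hab hcd,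
      rI_add hab hcd, rI_const_mul, rI_cauchy hab hcd hρin hg,
      ih G hG hGZ fun z hz => hin z (Finset.mem_insert_of_mem hz), Finset.sum_insert hρZ, hs]
    · ring
    · intro z hz
      exact continuousAt_const.mul (((continuousAt_id.sub continuousAt_const).inv₀
        (sub_ne_zero.2 (hne z hz))).mul hg.continuous.continuousAt)
    · intro z hz
      exact (analyticAt_logDeriv (hG z hz.1) (hGne z hz)).continuousAt.mul
        hg.continuous.continuousAt
    · intro z hz
      have h1 : z - ρ ≠ 0 := sub_ne_zero.2 (hne z hz)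
      have h2 : logDeriv (fun w : ℂ => w - ρ) z = (z - ρ)⁻¹ := by
        simp [logDeriv_apply]
      rw [(logDeriv_congr_nhds (hev z (hne z hz))).self_of_nhds,
        logDeriv_mul (f := fun w => (w - ρ) ^ m) z (pow_ne_zero _ h1) (hGne z hz) (by fun_prop)
          (hG z hz.1).differentiableAt,
        logDeriv_fun_pow (f := fun w => w - ρ) (by fun_prop), h2]
      ring

end Pool.Agent.MP_c853c5_nt.Z
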