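import Pool.Agent.MP_c853c5_nt.Z.Basic
import Pool.Agent.MP_c853c5_nt.Z.Rect

set_option autoImplicit false

open Set Complex MeasureTheory

namespace Pool.Agent.MP_c853c5_nt.Z

/-- the integrand -/
noncomputable def hh_Res (g : ℂ → ℂ) (z : ℂ) : ℂ :=
  (z - 1)⁻¹ * g z + (-1) * (logDeriv riemannZeta₁ z * g z)

lemma contL_Res {z : ℂ} (h0 : riemannZeta₁ z ≠ 0) : ContinuousAt (logDeriv riemannZeta₁) z :=
  (analyticAt_logDeriv (differentiable_riemannZeta₁.analyticAt z) h0).continuousAt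

lemma seg_Res {g : ℂ → ℂ} (hg : Differentiable ℂ g) (p : ℝ → ℂ) (hp : Continuous p) {u v r : ℝ}
    (huv : u ≤ v) (hr : 0 < r) (h0 : ∀ x ∈ Icc u v, riemannZeta₁ (p x) ≠ 0)
    (h1 : ∀ x, r ≤ ‖p x - 1‖) :
    ‖∫ x in u..v, hh_Res g (p x)‖ ≤
      ∫ x in u..v, (‖logDeriv riemannZeta₁ (p x)‖ + 1 / r) * ‖g (p x)‖ := by
  have hL : ContinuousOn (fun x => logDeriv riemannZeta₁ (p x)) (Icc u v) := fun x hx =>
    ((contL_Res (h0 x hx)).comp hp.continuousAt).continuousWithinAt
  have hG : Continuous fun x => g (p x) := hg.continuous.comp hp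
  refine intervalIntegral.norm_integral_le_of_norm_le huv (ae_of_all _ fun x _ => ?_) ?_
  · have e : hh_Res g (p x) = ((p x - 1)⁻¹ - logDeriv riemannZeta₁ (p x)) * g (p x) := by
      unfold hh_Res
      ring
    rw [e, norm_mul]
    refine mul_le_mul_of_nonneg_right ((norm_sub_le _ _).trans ?_) (norm_nonneg _)
    rw [norm_inv, add_comm, ← one_div]
    gcongr
    exact h1 x
  · refine ContinuousOn.intervalIntegrable_of_Icc huv ?_
    exact (hL.norm.add continuousOn_const).mul hG.norm.continuousOn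

theorem res : ResStmt := by
  intro g a c d hg ha hc hd hH hV
  have ha2 : a ≤ 2 := by linarith
  have hcd : c ≤ d := by linarith
  have hK : IsCompact (Icc a 2 ×ℂ Icc c d) := isCompact_Icc.reProdIm isCompact_Icc
  have hfin : {z : ℂ | z ∈ Icc a 2 ×ℂ Icc c d ∧ riemannZeta₁ z = 0}.Finite :=
    (hK.inter_riemannZetaZeros_finite).subset fun z hz => ⟨hz.1, zeta_of_zeta1 hz.2⟩
  have hbd : ∀ z, Bd a 2 c d z → riemannZeta₁ z ≠ 0 := by
    intro z hz h0
    obtain ⟨⟨h1, h2⟩, h3⟩ := hz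
    have e := Complex.re_add_im z
    rcases h3 with h3 | h3 | h3 | h3
    · exact hV z.im h2 (by rw [← h3, e]; exact h0)
    · have := re_lt_one h0
      linarith
    · exact (hH z.re h1).1 (by rw [← h3, e]; exact h0)
    · exact (hH z.re h1).2 (by rw [← h3, e]; exact h0)
  have hone : (1 : ℂ) ∈ Ioo a 2 ×ℂ Ioo c d := ⟨⟨by simpa using ha, by simp⟩, by simpa using hc,
    by simpa using hd⟩
  have hne : ∀ z, Bd a 2 c d z → z - 1 ≠ 0 := fun z hz h =>
    hz.not_mem (by rw [sub_eq_zero.1 h]; exact hone)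
  refine ⟨hfin.toFinset, fun ρ hρ => ?_, ?_⟩
  · obtain ⟨⟨h1, h2⟩, h3⟩ := hfin.mem_toFinset.1 hρ
    exact ⟨h3, h1.1, h1.2, h2.1, h2.2⟩
  have hin : ∀ z ∈ hfin.toFinset, z ∈ Ioo a 2 ×ℂ Ioo c d := by
    intro z hz
    obtain ⟨h1, h3⟩ := hfin.mem_toFinset.1 hz
    have hn : ¬ (z.re = a ∨ z.re = 2 ∨ z.im = c ∨ z.im = d) := fun h => hbd z ⟨h1, h⟩ h3
    push Not at hn
    exact ⟨⟨lt_of_le_of_ne h1.1.1 hn.1.symm, lt_of_le_of_ne h1.1.2 hn.2.1⟩,
      lt_of_le_of_ne h1.2.1 hn.2.2.1.symm, lt_of_le_of_ne h1.2.2 hn.2.2.2⟩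
  have harg := rI_argument ha2 hcd hg hfin.toFinset riemannZeta₁
    (fun z _ => differentiable_riemannZeta₁.analyticAt z) (fun z => hfin.mem_toFinset) hin
  have hcau := rI_cauchy ha2 hcd hone hg
  have hsum : rI (hh_Res g) a 2 c d =
      2 * Real.pi * I * (g 1 - ∑ ρ ∈ hfin.toFinset, (ord ρ : ℂ) * g ρ) := by
    have := rI_add (h := fun z => (z - 1)⁻¹ * g z)
      (h' := fun z => (-1) * (logDeriv riemannZeta₁ z * g z)) ha2 hcd
      (fun z hz => ((continuousAt_id.sub continuousAt_const).inv₀ (hne z hz)).mul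
        hg.continuous.continuousAt)
      (fun z hz => continuousAt_const.mul ((contL_Res (hbd z hz)).mul hg.continuous.continuousAt))
    rw [rI_const_mul, hcau, harg] at this
    refine this.trans ?_
    simp only [ord, Complex.ofReal_natCast]
    ring
  have hright : (∫ t in c..d, LSeries (fun n => (ArithmeticFunction.vonMangoldt n : ℂ))
      (2 + t * Complex.I) * g (2 + t * Complex.I)) =
      ∫ t in c..d, hh_Res g (((2 : ℝ) : ℂ) + t * I) := by
    refine intervalIntegral.integral_congr fun t ht => ?_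
    have hb := bd_right ha2 hcd ht
    have h1 := hbd _ hb
    have h2 := sub_ne_zero.1 (hne _ hb)
    simp only [Complex.ofReal_ofNat] at h1 h2 ⊢
    rw [LS_eq (by simp), hh_Res, logDeriv_zeta1 h2 h1]
    ring
  have b1 := seg_Res hg (fun t : ℝ => (a : ℂ) + t * I) (by fun_prop) hcd
    (show 0 < 1 - a by linarith) hV fun t => by
      refine le_trans ?_ (Complex.abs_re_le_norm _)
      simp only [sub_re, add_re, ofReal_re, mul_re, I_re, mul_zero, ofReal_im, I_im, mul_one,
        sub_self, add_zero, one_re]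
      rw [abs_sub_comm]
      exact le_abs_self _
  have b2 := seg_Res hg (fun s : ℝ => (s : ℂ) + c * I) (by fun_prop) ha2
    (abs_pos.2 hc.ne) (fun s hs => (hH s hs).1) fun t => by
      refine le_trans ?_ (Complex.abs_im_le_norm _)
      simp
  have b3 := seg_Res hg (fun s : ℝ => (s : ℂ) + d * I) (by fun_prop) ha2
    (abs_pos.2 hd.ne') (fun s hs => (hH s hs).2) fun t => by
      refine le_trans ?_ (Complex.abs_im_le_norm _)
      simp
  rw [hright]
  unfold rI at hsum
  generalize (∫ t in c..d, hh_Res g (((2 : ℝ) : ℂ) + t * I)) = R at hsum ⊢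
  generalize (∫ t in c..d, hh_Res g ((a : ℂ) + t * I)) = L at hsum b1
  generalize (∫ s in a..2, hh_Res g ((s : ℂ) + c * I)) = B at hsum b2
  generalize (∫ s in a..2, hh_Res g ((s : ℂ) + d * I)) = T at hsum b3
  generalize (g 1 - ∑ ρ ∈ hfin.toFinset, (ord ρ : ℂ) * g ρ) = S at hsum ⊢
  have e : R - 2 * Real.pi * S = L + I * B - I * T := by
    have hI : I * I = -1 := Complex.I_mul_I
    linear_combination (-I) * hsum + (R - L - 2 * Real.pi * S) * hI
  rw [e]
  refine (norm_sub_le _ _).trans (add_le_add ((norm_add_le _ _).trans (add_le_add b1 ?_)) ?_)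
  · rw [norm_mul, Complex.norm_I, one_mul]
    exact b2
  · rw [norm_mul, Complex.norm_I, one_mul]
    exact b3

end Pool.Agent.MP_c853c5_nt.Z
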