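import Pool.Agent.MP_c853c5_nt.Z.Basic

set_option autoImplicit false

open Finset Filter

namespace Pool.Agent.MP_c853c5_nt.Z

lemma poly_Sm (c : ℝ) {δ : ℝ} (hδ : 0 < δ) :
    ∀ᶠ x : ℝ in atTop, c * Real.log x ^ 2 ≤ Real.exp (δ * Real.log x) := by
  refine Real.tendsto_log_atTop.eventually (p := fun L => c * L ^ 2 ≤ Real.exp (δ * L)) ?_
  filter_upwards [eventually_ge_atTop 0, eventually_ge_atTop (6 * c / δ ^ 3)] with L h0 h1
  have h2 := Real.pow_div_factorial_le_exp (δ * L) (by positivity) 3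
  rw [div_le_iff₀ (by positivity)] at h1
  have h3 := mul_le_mul_of_nonneg_right h1 (sq_nonneg L)
  have h4 : ((Nat.factorial 3 : ℕ) : ℝ) = 6 := by norm_num [Nat.factorial]
  rw [h4] at h2
  have h5 : (δ * L) ^ 3 = L * δ ^ 3 * L ^ 2 := by ring
  linarith

lemma T_Sm {L Δ a b : ℝ} (hL : 2 ≤ L) (h1 : Real.exp (-(a * L)) / L ≤ Δ) (h2 : Δ ≤ 1 / L)
    (h3 : 2 * L ^ 2 ≤ Real.exp ((b - a) * L)) :
    0 < Δ ∧ Δ ≤ 1 ∧ 3 ≤ L / Δ ∧ L / Δ + 1 ≤ Real.exp (b * L) ∧ 1 / Δ ≤ L / Δ := by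
  have hL0 : 0 < L := by linarith
  have h0 : 0 < Δ := lt_of_lt_of_le (by positivity) h1
  rw [le_div_iff₀ hL0] at h2
  have h4 : 3 ≤ L / Δ := by
    rw [le_div_iff₀ h0]
    nlinarith
  refine ⟨h0, by nlinarith, h4, ?_, div_le_div_of_nonneg_right (by linarith) h0.le⟩
  have h5 : L / Δ ≤ L ^ 2 * Real.exp (a * L) := by
    rw [div_le_iff₀ hL0, Real.exp_neg, inv_le_iff_one_le_mul₀ (Real.exp_pos _)] at h1
    rw [div_le_iff₀ h0]
    have := mul_le_mul_of_nonneg_left h1 hL0.le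
    linarith
  have h6 := mul_le_mul_of_nonneg_right h3 (Real.exp_pos (a * L)).le
  rw [← Real.exp_add, show (b - a) * L + a * L = b * L by ring] at h6
  linarith

lemma one_Sm {L T v C E : ℝ} (hC : 0 < C) (hE : 0 < E) (hv : L - 1 ≤ v) (hT : 1 ≤ T)
    (h1 : T ≤ Real.exp (4 / 9 * L)) (h2 : Real.log T ≤ L)
    (h3 : 15 * C / E * L ^ 2 ≤ Real.exp (41 / 900 * L)) :
    C * (Real.exp (51 / 100 * v) * T * Real.log T ^ 2) ≤ E / 5 * Real.exp v := by
  have a1 : Real.log T ^ 2 ≤ L ^ 2 := pow_le_pow_left₀ (Real.log_nonneg hT) h2 2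
  have a2 : Real.exp (51 / 100 * v + 4 / 9 * L + 41 / 900 * L) ≤ Real.exp (v + 1) :=
    Real.exp_le_exp.2 (by linarith)
  rw [Real.exp_add, Real.exp_add, Real.exp_add] at a2
  have a3 := mul_le_mul_of_nonneg_left Real.exp_one_lt_three.le (Real.exp_pos v).le
  rw [div_mul_eq_mul_div, div_le_iff₀ hE] at h3
  have a4 : C * (Real.exp (51 / 100 * v) * T * Real.log T ^ 2) ≤
      C * (Real.exp (51 / 100 * v) * Real.exp (4 / 9 * L) * L ^ 2) := by gcongr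
  have a5 := mul_le_mul_of_nonneg_left h3
    (show 0 ≤ Real.exp (51 / 100 * v) * Real.exp (4 / 9 * L) by positivity)
  have a6 := mul_le_mul_of_nonneg_right (a2.trans a3) hE.le
  linarith

lemma two_Sm {L S v C E : ℝ} (hC : 0 < C) (hE : 0 < E) (hL : 128 ≤ L) (hv : v ≤ L + 2)
    (hS : S ≤ 2 * Real.exp L) (h3 : 10 * C / E * L ^ 2 ≤ Real.exp (1 * L)) :
    C * (Real.exp (2 * v) * S * Real.exp (-(L ^ 2 / (8 * Real.pi)))) ≤ E / 5 * Real.exp v := by
  have a0 : 4 * L ≤ L ^ 2 / (8 * Real.pi) := by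
    rw [le_div_iff₀ (by positivity)]
    nlinarith [Real.pi_le_four, Real.pi_pos]
  have a1 : Real.exp (2 * v + L + -(L ^ 2 / (8 * Real.pi)) + L) ≤ Real.exp v :=
    Real.exp_le_exp.2 (by linarith)
  rw [Real.exp_add, Real.exp_add, Real.exp_add] at a1
  rw [one_mul, div_mul_eq_mul_div, div_le_iff₀ hE] at h3
  have a2 : 10 * C ≤ 10 * C * L ^ 2 :=
    le_mul_of_one_le_right (by positivity) (one_le_pow₀ (by linarith))
  have a4 : C * (Real.exp (2 * v) * S * Real.exp (-(L ^ 2 / (8 * Real.pi)))) ≤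
      C * (Real.exp (2 * v) * (2 * Real.exp L) * Real.exp (-(L ^ 2 / (8 * Real.pi)))) := by
    gcongr
  have a5 := mul_le_mul_of_nonneg_left (a2.trans h3) (show 0 ≤ Real.exp (2 * v) * Real.exp L *
    Real.exp (-(L ^ 2 / (8 * Real.pi))) by positivity)
  have a6 := mul_le_mul_of_nonneg_right a1 hE.le
  linarith

lemma three_Sm {Δ : ℝ} (v : ℝ) (h0 : 0 < Δ) (h1 : Δ ≤ 1) :
    |Real.exp (v + Δ ^ 2 / (4 * Real.pi)) - Real.exp v| ≤ Δ * Real.exp v := by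
  have a0 : 0 ≤ Δ ^ 2 / (4 * Real.pi) := by positivity
  have a1 : Δ ^ 2 / (4 * Real.pi) ≤ Δ / 2 := by
    rw [div_le_div_iff₀ (by positivity) (by norm_num)]
    nlinarith [Real.pi_gt_three]
  have a2 := Real.abs_exp_sub_one_le (x := Δ ^ 2 / (4 * Real.pi))
    (by rw [abs_of_nonneg a0]; linarith)
  rw [abs_of_nonneg a0] at a2
  rw [Real.exp_add, ← mul_sub_one, abs_mul, abs_of_pos (Real.exp_pos v), mul_comm]
  exact mul_le_mul_of_nonneg_right (by linarith) (Real.exp_pos v).le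

lemma zero_Sm {x v β : ℝ} (hx : 0 < x) (hv : Real.log x - 1 ≤ v) (h1 : 1 / 2 ≤ β) (h2 : β < 1) :
    Real.exp (β * v) ≤ 2 * Real.exp v * x ^ (β - 1) := by
  have a1 : Real.exp (1 / 2) ≤ 2 := by
    have a2 : Real.exp (1 / 2) * Real.exp (1 / 2) = Real.exp 1 := by
      rw [← Real.exp_add]
      norm_num
    nlinarith [Real.exp_one_lt_three, Real.exp_pos (1 / 2)]
  have a3 : Real.exp (β * v) ≤ Real.exp (1 / 2 + v + Real.log x * (β - 1)) :=
    Real.exp_le_exp.2 (by nlinarith)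
  rw [Real.exp_add, Real.exp_add] at a3
  rw [Real.rpow_def_of_pos hx]
  refine a3.trans ?_
  gcongr

theorem sm (hE : EFStmt) (hF : ZFarStmt) (hN : ZNearStmt) : SmStmt := by
  obtain ⟨C, hC, hE⟩ := hE
  obtain ⟨η, hη, hη', hN⟩ := hN
  intro A θ hA hZ hθ hθ' E hE0
  have hA0 : 0 < A := by linarith
  have hA1 : 1 / A ≤ 4 / 9 := by
    rw [div_le_iff₀ hA0]
    linarith
  have hA2 : 0 < 1 / A := by positivity
  obtain ⟨b, hb1, hb2⟩ := exists_between (show 1 - θ < 1 / A by linarith)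
  have hb0 : 0 < b := by linarith
  have hb3 : A * b < 1 := by
    rw [lt_div_iff₀ hA0] at hb2
    linarith
  filter_upwards [hF A b η hA0 hb0 hb3 hη hη' hZ (E / 20) (by positivity),
    hN (E / 20) (by positivity), eventually_gt_atTop 0,
    Real.tendsto_log_atTop.eventually_ge_atTop 128,
    Real.tendsto_log_atTop.eventually_ge_atTop (5 / E),
    poly_Sm 2 (sub_pos.2 hb1), poly_Sm (15 * C / E) (show (0 : ℝ) < 41 / 900 by norm_num),
    poly_Sm (10 * C / E) one_pos, poly_Sm 1 one_pos] with x h1 h2 hx hL hL' p1 p2 p3 p4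
  intro Δ d1 d2 v hv
  rw [Real.rpow_def_of_pos hx,
    show Real.log x * (θ - 1) = -((1 - θ) * Real.log x) by ring] at d1
  obtain ⟨t0, t1, t2, t3, t4⟩ := T_Sm (by linarith) d1 d2 p1
  obtain ⟨Z, hZ1, hZ2⟩ := hE Δ v (Real.log x / Δ) t0 t1 (by linarith [hv.1]) t2
  have e1 : x ^ b = Real.exp (b * Real.log x) := by rw [Real.rpow_def_of_pos hx, mul_comm]
  have e2 : √x = Real.exp (1 / 2 * Real.log x) := by
    rw [Real.sqrt_eq_rpow, Real.rpow_def_of_pos hx, mul_comm]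
  have e3 : Δ ^ 2 * (Real.log x / Δ) ^ 2 = Real.log x ^ 2 := by field_simp
  have m1 : ∀ c, b ≤ c → Real.exp (b * Real.log x) ≤ Real.exp (c * Real.log x) := fun c hc =>
    Real.exp_le_exp.2 (mul_le_mul_of_nonneg_right hc (by linarith))
  have m2 : Real.log x / Δ ≤ Real.exp (Real.log x) := by
    have := m1 1 (by linarith)
    rw [one_mul] at this
    linarith
  have m3 : Real.log (Real.log x / Δ) ≤ Real.log x :=
    (Real.log_le_iff_le_exp (by linarith)).2 m2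
  have b1 := one_Sm hC hE0 hv.1 (show 1 ≤ Real.log x / Δ by linarith)
    (by linarith [m1 (4 / 9) (by linarith)]) m3 p2
  have b2 := two_Sm (S := Real.log (Real.log x / Δ) ^ 2 + 1 / Δ) hC hE0 hL hv.2 (by
    have := pow_le_pow_left₀ (Real.log_nonneg (by linarith)) m3 2
    rw [one_mul, one_mul] at p4
    linarith) p3
  have b3 := three_Sm v t0 t1
  have b4 : Δ * Real.exp v ≤ E / 5 * Real.exp v := by
    refine mul_le_mul_of_nonneg_right (d2.trans ?_) (Real.exp_pos v).le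
    rw [div_le_iff₀ hE0] at hL'
    rw [div_le_div_iff₀ (by linarith) (by norm_num)]
    linarith
  have z1 := h1 (Z.filter fun ρ => ρ.re ≤ 1 - η) fun ρ hρ => by
    obtain ⟨a1, a2⟩ := mem_filter.1 hρ
    obtain ⟨a3, a4, a5⟩ := hZ1 ρ a1
    exact ⟨a3, a4, a2, by rw [e1]; linarith⟩
  have z2 := h2 (Z.filter fun ρ => ¬ ρ.re ≤ 1 - η) fun ρ hρ => by
    obtain ⟨a1, a2⟩ := mem_filter.1 hρ
    obtain ⟨a3, a4, a5⟩ := hZ1 ρ a1
    exact ⟨a3, (not_le.1 a2).le, by rw [e2]; linarith [m1 (1 / 2) (by linarith)]⟩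
  have z3 := sum_filter_add_sum_filter_not Z (fun ρ => ρ.re ≤ 1 - η)
    fun ρ => ord ρ * x ^ (ρ.re - 1)
  have z4 : ∑ ρ ∈ Z, ord ρ * Real.exp (ρ.re * v) ≤
      2 * Real.exp v * ∑ ρ ∈ Z, ord ρ * x ^ (ρ.re - 1) := by
    rw [mul_sum]
    refine sum_le_sum fun ρ hρ => ?_
    rw [mul_left_comm]
    exact mul_le_mul_of_nonneg_left
      (zero_Sm hx hv.1 (hZ1 ρ hρ).2.1 (re_lt_one (hZ1 ρ hρ).1)) (ord_nonneg ρ)
  have z5 := mul_le_mul_of_nonneg_left (show ∑ ρ ∈ Z, ord ρ * x ^ (ρ.re - 1) ≤ E / 10 by linarith)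
    (show 0 ≤ 2 * Real.exp v by positivity)
  rw [e3, mul_add] at hZ2
  have := abs_sub_le (PP Δ v) (Real.exp (v + Δ ^ 2 / (4 * Real.pi))) (Real.exp v)
  linarith

end Pool.Agent.MP_c853c5_nt.Z
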