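import Pool.Agent.MP_c853c5_nt.Z.Basic

set_option autoImplicit false

open Finset

namespace Pool.Agent.MP_c853c5_nt.Z

lemma expand_Step {s : ℕ} (x : Fin s → ℤ) (b : ℤ) (m : ℕ) :
    ∑ i, (x i - b) ^ m =
      ∑ l ∈ range (m + 1), (∑ i, x i ^ l) * ((-b) ^ (m - l) * (m.choose l : ℤ)) := by
  simp only [sub_eq_add_neg, add_pow, sum_mul]
  rw [sum_comm]
  exact sum_congr rfl fun l _ => sum_congr rfl fun i _ => by ring

lemma shift_Step {k s : ℕ} (x y : Fin k → ℤ) (u v : Fin s → ℤ) (b : ℤ)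
    (h : ps k x + ps k u = ps k y + ps k v) :
    ps k (fun i => x i - b) + ps k (fun i => u i - b) =
      ps k (fun i => y i - b) + ps k (fun i => v i - b) := by
  funext j
  simp only [Pi.add_apply, ps, expand_Step, ← sum_add_distrib, ← add_mul]
  refine sum_congr rfl fun l hl => ?_
  congr 1
  rcases l with _ | l
  · simp
  · have hl' : l < k := by
      have := mem_range.mp hl
      have := j.isLt
      omega
    have := congrFun h ⟨l, hl'⟩
    simpa only [Pi.add_apply, ps] using this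

lemma scale_Step {k s : ℕ} (w : Fin s → ℤ) (p : ℤ) (j : Fin k) :
    ps k (fun i => p * w i) j = p ^ (j.val + 1) * ps k w j := by
  simp only [ps, mul_pow, mul_sum]

lemma lift_Step {s p X : ℕ} (hp : 0 < p) {a b : ℤ} (hb0 : b ≤ 0) (hb1 : -(p : ℤ) < b)
    (hab : (p : ℤ) ∣ a - b) {u : Fin s → ℤ}
    (hu : u ∈ tup s ((Icc (1 : ℤ) X).filter fun u => (p : ℤ) ∣ u - a)) :
    ∃ w ∈ box s (X / p + 1), ∀ i, u i - b = p * w i := by
  have h1 : ∀ i, ∃ w : ℤ, (1 ≤ w ∧ w ≤ ((X / p + 1 : ℕ) : ℤ)) ∧ u i - b = p * w := by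
    intro i
    obtain ⟨h2, h3⟩ := mem_filter.mp (mem_tup.mp hu i)
    obtain ⟨h4, h5⟩ := mem_Icc.mp h2
    have h6 : (p : ℤ) ∣ u i - b := by
      have := dvd_add h3 hab
      rwa [sub_add_sub_cancel] at this
    obtain ⟨w, hw⟩ := h6
    have hp' : (0 : ℤ) < p := by exact_mod_cast hp
    refine ⟨w, ⟨?_, ?_⟩, hw⟩
    · by_contra h
      have : (p : ℤ) * w ≤ 0 := mul_nonpos_of_nonneg_of_nonpos hp'.le (by omega)
      omega
    · have h7 : (w - 1) * p ≤ X := by nlinarith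
      have h8 := Int.le_ediv_of_mul_le hp' h7
      push_cast
      omega
  choose w hw using h1
  exact ⟨w, mem_box.mpr fun i => (hw i).1, fun i => (hw i).2⟩

theorem step (hH : HoldStmt) (hL : LinStmt) : StepStmt := by
  intro k s p X hp hk hX
  classical
  obtain ⟨a, ha⟩ := hH k s p (Dp k p X) (ps k) (Icc (1 : ℤ) X) hp.pos
  refine ha.trans (Nat.mul_le_mul_left _ ?_)
  have hp' : (0 : ℤ) < p := by exact_mod_cast hp.pos
  obtain ⟨b, hb0, hb1, hab⟩ : ∃ b : ℤ, b ≤ 0 ∧ -(p : ℤ) < b ∧ (p : ℤ) ∣ a - b := by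
    refine ⟨-((-a) % p), ?_, ?_, ?_⟩
    · have := Int.emod_nonneg (-a) hp'.ne'
      omega
    · have := Int.emod_lt_of_pos (-a) hp'
      omega
    · refine ⟨-((-a) / p), ?_⟩
      have := Int.emod_add_mul_ediv (-a) p
      linarith
  let L : (Fin k → ℤ) → Finset (Fin k → ℤ) := fun y => (Dp k p X).filter fun x => ∀ j : Fin k,
    (p : ℤ) ^ (j.val + 1) ∣ ps k (fun i => x i - b) j - ps k (fun i => y i - b) j
  let h : (Fin k → ℤ) → (Fin k → ℤ) → Fin k → ℤ := fun x y j =>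
    (ps k (fun i => x i - b) j - ps k (fun i => y i - b) j) / (p : ℤ) ^ (j.val + 1)
  let T : (Fin k → ℤ) → (Fin k → ℤ) →
      Finset (((Fin k → ℤ) × (Fin s → ℤ)) × ((Fin k → ℤ) × (Fin s → ℤ))) := fun x y =>
    ((box s (X / p + 1) ×ˢ box s (X / p + 1)).filter fun q => ps k q.1 = ps k q.2 + h x y).image
      fun q => ((x, fun i => b + p * q.2 i), (y, fun i => b + p * q.1 i))
  have hT : ∀ x y, (T x y).card ≤ JJ k s (X / p + 1) := fun x y =>
    card_image_le.trans (fiber_le _ _ _)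
  unfold cnt
  refine le_trans (card_le_card (t := (Dp k p X).biUnion fun y => (L y).biUnion fun x => T x y)
    ?_) ?_
  · rintro ⟨⟨x, u⟩, ⟨y, v⟩⟩ hq
    obtain ⟨h1, h2⟩ := mem_filter.mp hq
    obtain ⟨h3, h4⟩ := mem_product.mp h1
    obtain ⟨hx, hu⟩ := mem_product.mp h3
    obtain ⟨hy, hv⟩ := mem_product.mp h4
    obtain ⟨wu, hwu, eu⟩ := lift_Step hp.pos hb0 hb1 hab hu
    obtain ⟨wv, hwv, ev⟩ := lift_Step hp.pos hb0 hb1 hab hv
    have h5 := shift_Step x y u v b h2
    simp only at eu ev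
    rw [funext eu, funext ev] at h5
    have h6 : ∀ j : Fin k, ps k (fun i => x i - b) j - ps k (fun i => y i - b) j =
        (p : ℤ) ^ (j.val + 1) * (ps k wv j - ps k wu j) := by
      intro j
      have := congrFun h5 j
      simp only [Pi.add_apply, scale_Step] at this
      linarith
    refine mem_biUnion.mpr ⟨y, hy, mem_biUnion.mpr ⟨x, mem_filter.mpr ⟨hx, fun j => ⟨_, h6 j⟩⟩,
      mem_image.mpr ⟨(wv, wu), mem_filter.mpr ⟨mem_product.mpr ⟨hwv, hwu⟩, ?_⟩, ?_⟩⟩⟩
    · funext j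
      simp only [Pi.add_apply, h]
      rw [h6 j, Int.mul_ediv_cancel_left _ (pow_ne_zero _ hp'.ne')]
      ring
    · have e1 : (fun i => b + p * wu i) = u := funext fun i => by linarith [eu i]
      have e2 : (fun i => b + p * wv i) = v := funext fun i => by linarith [ev i]
      simp only [e1, e2]
  · have h1 : ∀ y, ((L y).biUnion fun x => T x y).card ≤
        (k.factorial * p ^ (k * (k - 1) / 2)) * JJ k s (X / p + 1) := fun y =>
      (card_biUnion_le_card_mul _ _ _ fun x _ => hT x y).trans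
        (Nat.mul_le_mul_right _ (hL k p X hp hk hX b _))
    refine (card_biUnion_le_card_mul _ _ _ fun y _ => h1 y).trans ?_
    rw [mul_assoc (X ^ k)]
    refine Nat.mul_le_mul_right _ ?_
    rw [← card_box]
    exact card_filter_le _ _

end Pool.Agent.MP_c853c5_nt.Z
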