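import Pool.Agent.MP_c853c5_nt.Z.Basic

set_option autoImplicit false

open Finset

namespace Pool.Agent.MP_c853c5_nt.Z

lemma block_Tail (hP : PSumStmt) {M : ℕ} {s : ℂ} {E d n : ℝ} (hM : 1 ≤ M) (hE : 0 ≤ E)
    (hd : 0 < d) (hd' : d ≤ 1) (hs : 1 - d ≤ s.re) (n0 : 0 < n) (hn : n ≤ M)
    (h : ∀ L, M ≤ L → L ≤ 2 * M → ‖ES M L (-s.im)‖ ≤ E * (M : ℝ) ^ (1 - 2 * d)) :
    ‖∑ n ∈ Ioc M (2 * M), (n : ℂ) ^ (-s)‖ ≤ 2 * E * n ^ (-d) := by
  have m1 : (1 : ℝ) ≤ M := by exact_mod_cast hM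
  rw [sum_congr rfl fun n hn => cpow_neg_split (by have := (mem_Ioc.1 hn).1; omega) s]
  refine (hP M (2 * M) _ _ s.re hM (by omega) (by linarith) h).trans ?_
  rw [mul_assoc, mul_assoc, mul_assoc, ← Real.rpow_add (by linarith)]
  gcongr
  exact (Real.rpow_le_rpow_of_exponent_le m1 (by linarith)).trans
    (Real.rpow_le_rpow_of_nonpos n0 hn (by linarith))

lemma dy_Tail (f : ℕ → ℂ) (N : ℕ) (B : ℝ) (i : ℕ)
    (h : ∀ j < i, ‖∑ n ∈ Ioc (2 ^ j * N) (2 * (2 ^ j * N)), f n‖ ≤ B) :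
    ‖∑ n ∈ Ioc N (2 ^ i * N), f n‖ ≤ i * B := by
  induction i with
  | zero => simp
  | succ i ih =>
    have e : 2 ^ (i + 1) * N = 2 * (2 ^ i * N) := by ring
    rw [e, ← sum_Ioc_consecutive f (Nat.le_mul_of_pos_left N (by positivity : 0 < 2 ^ i))
      (by omega)]
    refine (norm_add_le _ _).trans ?_
    have h1 := ih fun j hj => h j (by omega)
    have h2 := h i (by omega)
    push_cast
    linarith

theorem tail (hE : ExpStmt) (hP : PSumStmt) (hM : EMStmt) : TailStmt := by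
  obtain ⟨A, A10, hE⟩ := hE
  refine ⟨2 * A, 20, by linarith, by norm_num, ?_⟩
  intro k N s hk h2 hN hNk hs hs2
  have k1 : (1 : ℝ) ≤ (k : ℝ) ^ 8 := one_le_pow₀ (by exact_mod_cast hk)
  have a1 : 10 ≤ A * (k : ℝ) ^ 8 := by nlinarith
  rw [mul_assoc 2 A] at hs ⊢
  have hE' := hE k
  generalize A * (k : ℝ) ^ 8 = a at *
  have e2 : 1 / a = 2 * (1 / (2 * a)) := by field_simp
  rw [e2] at hE'
  have d0 : 0 < 1 / (2 * a) := by positivity
  have d1 : 1 / (2 * a) ≤ 1 / 20 := one_div_le_one_div_of_le (by norm_num) (by linarith)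
  generalize 1 / (2 * a) = d at *
  have N1 : 1 ≤ N := by
    rcases Nat.eq_zero_or_pos N with rfl | h
    · rw [Nat.cast_zero, zero_pow (by omega)] at hNk
      linarith
    · exact h
  have n1 : (1 : ℝ) ≤ N := by exact_mod_cast N1
  have n0 : (0 : ℝ) < N := by linarith
  set τ := |s.im| with hτ
  have τ1 : 1 ≤ τ := by linarith
  have τ0 : 0 < τ := by linarith
  set X : ℝ := τ ^ (10 / 9 : ℝ) with hX
  have X1 : τ ≤ X := by
    conv_lhs => rw [← Real.rpow_one τ]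
    exact Real.rpow_le_rpow_of_exponent_le τ1 (by norm_num)
  have X0 : 0 < X := by linarith
  have ex : ∃ i : ℕ, X < ((2 ^ i * N : ℕ) : ℝ) := by
    obtain ⟨i, hi⟩ := pow_unbounded_of_one_lt X (one_lt_two (α := ℝ))
    refine ⟨i, hi.trans_le ?_⟩
    push_cast
    exact le_mul_of_one_le_right (by positivity) n1
  obtain ⟨I, hI, hI'⟩ : ∃ I : ℕ, X < ((2 ^ (I + 1) * N : ℕ) : ℝ) ∧
      ∀ j < I + 1, ((2 ^ j * N : ℕ) : ℝ) ≤ X := by
    have h0 : Nat.find ex ≠ 0 := by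
      intro h
      have := Nat.find_spec ex
      rw [h, pow_zero, one_mul] at this
      linarith
    obtain ⟨I, hI⟩ := Nat.exists_eq_succ_of_ne_zero h0
    refine ⟨I, ?_, fun j hj => not_lt.1 (Nat.find_min ex (by omega))⟩
    have := Nat.find_spec ex
    rwa [hI] at this
  have E1 : 1 ≤ Real.exp (2 * a) := Real.one_le_exp (by linarith)
  have E2 : Real.exp a ≤ Real.exp (2 * a) := Real.exp_le_exp.2 (by linarith)
  have hb : ‖∑ n ∈ Ioc N (2 ^ (I + 1) * N), (n : ℂ) ^ (-s)‖ ≤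
      ((I + 1 : ℕ) : ℝ) * (2 * Real.exp a * (N : ℝ) ^ (-d)) := by
    refine dy_Tail _ N _ _ fun j hj => ?_
    have l1 : N ≤ 2 ^ j * N := Nat.le_mul_of_pos_left N (by positivity)
    have l2 : (N : ℝ) ≤ ((2 ^ j * N : ℕ) : ℝ) := by exact_mod_cast l1
    refine block_Tail hP (N1.trans l1) (Real.exp_pos _).le d0 (by linarith) hs n0 l2
      fun L h1 h2 => hE' _ L _ hk (N1.trans l1) h1 h2 ?_ ?_
    · rw [abs_neg]
      refine (Real.rpow_le_rpow (by positivity) (hI' j hj) (by norm_num)).trans (le_of_eq ?_)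
      rw [hX, ← Real.rpow_mul τ0.le]
      norm_num
      rfl
    · rw [abs_neg]
      exact hNk.trans (pow_le_pow_left₀ n0.le l2 k)
  have lg2 : (69 / 100 : ℝ) < Real.log 2 := by linarith [Real.log_two_gt_d9]
  have lgτ : Real.log 2 ≤ Real.log τ := Real.log_le_log (by norm_num) h2
  have hIl : ((I + 1 : ℕ) : ℝ) ≤ 4 * Real.log τ := by
    have h1 : (2 : ℝ) ^ I ≤ X := by
      refine le_trans ?_ (hI' I (by omega))
      push_cast
      exact le_mul_of_one_le_right (by positivity) n1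
    have h3 := Real.log_le_log (by positivity) h1
    rw [Real.log_pow, hX, Real.log_rpow τ0] at h3
    have h4 : (0 : ℝ) ≤ I := Nat.cast_nonneg I
    push_cast
    nlinarith
  have hM2 : ((2 ^ (I + 1) * N : ℕ) : ℝ) ≤ 2 * X := by
    have := hI' I (by omega)
    push_cast at this ⊢
    rw [pow_succ]
    linarith
  have l1 : N ≤ 2 ^ (I + 1) * N := Nat.le_mul_of_pos_left N (by positivity)
  generalize 2 ^ (I + 1) * N = M at *
  have M1 : 1 ≤ M := N1.trans l1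
  have m1 : (1 : ℝ) ≤ M := by exact_mod_cast M1
  have s1 : s ≠ 1 := by
    rintro rfl
    simp at hτ
    linarith
  have σ0 : 1 / 2 ≤ s.re := by linarith
  have hem := hM s M (by linarith) s1 M1
  have p0 : 0 < (N : ℝ) ^ (-d) := Real.rpow_pos_of_pos n0 _
  have pτ : τ ^ (-d) ≤ (N : ℝ) ^ (-d) := Real.rpow_le_rpow_of_nonpos n0 hN (by linarith)
  have t1 : ‖(M : ℂ) ^ (1 - s) / (s - 1)‖ ≤ 2 * (N : ℝ) ^ (-d) := by
    have b1 : τ ≤ ‖s - 1‖ := by simpa using Complex.abs_im_le_norm (s - 1)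
    rw [norm_div, Complex.norm_natCast_cpow_of_pos M1, Complex.sub_re, Complex.one_re,
      div_le_iff₀ (by linarith)]
    calc (M : ℝ) ^ (1 - s.re) ≤ (M : ℝ) ^ d := Real.rpow_le_rpow_of_exponent_le m1 (by linarith)
      _ ≤ (2 * X) ^ d := Real.rpow_le_rpow (by positivity) hM2 d0.le
      _ = 2 ^ d * τ ^ (10 / 9 * d) := by
          rw [Real.mul_rpow (by norm_num) X0.le, hX, ← Real.rpow_mul τ0.le]
      _ ≤ 2 ^ (1 : ℝ) * τ ^ (-d + 1) :=
          mul_le_mul (Real.rpow_le_rpow_of_exponent_le (by norm_num) (by linarith))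
            (Real.rpow_le_rpow_of_exponent_le τ1 (by linarith)) (by positivity) (by positivity)
      _ = 2 * τ ^ (-d) * τ := by rw [Real.rpow_one, Real.rpow_add τ0, Real.rpow_one, mul_assoc]
      _ ≤ _ := by gcongr
  have t2 : ‖s‖ * (M : ℝ) ^ (-s.re) / s.re ≤ 4 * (N : ℝ) ^ (-d) := by
    have b1 : ‖s‖ ≤ 2 * τ := by
      have := Complex.norm_le_abs_re_add_abs_im s
      rw [abs_of_nonneg (by linarith : 0 ≤ s.re)] at this
      linarith
    have b2 : (M : ℝ) ^ (-s.re) ≤ τ ^ (-d - 1) := by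
      calc (M : ℝ) ^ (-s.re) ≤ (M : ℝ) ^ (d - 1) :=
            Real.rpow_le_rpow_of_exponent_le m1 (by linarith)
        _ ≤ X ^ (d - 1) := Real.rpow_le_rpow_of_nonpos X0 hI.le (by linarith)
        _ = τ ^ (10 / 9 * (d - 1)) := by rw [hX, ← Real.rpow_mul τ0.le]
        _ ≤ _ := Real.rpow_le_rpow_of_exponent_le τ1 (by linarith)
    rw [div_le_iff₀ (by linarith)]
    calc ‖s‖ * (M : ℝ) ^ (-s.re) ≤ 2 * τ * τ ^ (-d - 1) := by gcongr
      _ = 4 * τ ^ (-d) * (1 / 2) := by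
          rw [Real.rpow_sub τ0, Real.rpow_one]
          field_simp
          norm_num
      _ ≤ _ := by gcongr
  have e : riemannZeta s - ∑ n ∈ Icc 1 N, (n : ℂ) ^ (-s) =
      (riemannZeta s - ∑ n ∈ Icc 1 M, (n : ℂ) ^ (-s) - (M : ℂ) ^ (1 - s) / (s - 1)) +
        (M : ℂ) ^ (1 - s) / (s - 1) + ∑ n ∈ Ioc N M, (n : ℂ) ^ (-s) := by
    have h1 := sum_Ioc_consecutive (fun n : ℕ => (n : ℂ) ^ (-s)) (Nat.zero_le N) l1
    rw [show Icc 1 N = Ioc 0 N from rfl, show Icc 1 M = Ioc 0 M from rfl, ← h1]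
    ring
  rw [e]
  refine (norm_add₃_le).trans ?_
  have lg0 : 0 ≤ 4 * Real.log τ := by linarith
  have t3 : ((I + 1 : ℕ) : ℝ) * (2 * Real.exp a * (N : ℝ) ^ (-d)) ≤
      4 * Real.log τ * (2 * Real.exp (2 * a) * (N : ℝ) ^ (-d)) := by gcongr
  have t4 : 1 * (N : ℝ) ^ (-d) * (1 / 2) ≤ Real.exp (2 * a) * (N : ℝ) ^ (-d) * Real.log τ := by
    gcongr
    linarith
  linarith

end Pool.Agent.MP_c853c5_nt.Z
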