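import Pool.Agent.MP_c853c5_nt.Z.Basic

set_option autoImplicit false

open Finset

namespace Pool.Agent.MP_c853c5_nt.Z

lemma mul_le_Tau (a b : ℕ) :
    ((a * b).divisors.card : ℝ) ≤ (a.divisors.card : ℝ) * (b.divisors.card : ℝ) := by
  rw [Nat.divisors_mul]
  exact_mod_cast Finset.card_mul_le

lemma step_Tau (c N : ℕ) : ∑ n ∈ Icc 1 N, (n.divisors.card : ℝ) ^ (c + 1) / n ≤
    (∑ n ∈ Icc 1 N, (n.divisors.card : ℝ) ^ c / n) ^ 2 := by
  have h1 : ∀ n ∈ Icc 1 N, (n.divisors.card : ℝ) ^ (c + 1) / n ≤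
      ∑ p ∈ n.divisorsAntidiagonal,
        (p.1.divisors.card : ℝ) ^ c / p.1 * ((p.2.divisors.card : ℝ) ^ c / p.2) := by
    intro n _
    have e : (n.divisors.card : ℝ) ^ (c + 1) / n =
        ∑ p ∈ n.divisorsAntidiagonal, (n.divisors.card : ℝ) ^ c / n := by
      rw [Nat.sum_divisorsAntidiagonal (fun _ _ => (n.divisors.card : ℝ) ^ c / n), sum_const,
        nsmul_eq_mul, pow_succ]
      ring
    rw [e]
    refine sum_le_sum fun p hp => ?_
    obtain ⟨hp1, -⟩ := Nat.mem_divisorsAntidiagonal.1 hp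
    rw [← hp1, div_mul_div_comm, ← mul_pow]
    push_cast
    gcongr
    exact mul_le_Tau _ _
  refine (sum_le_sum h1).trans ?_
  rw [← sum_biUnion, pow_two, sum_mul_sum, ← sum_product']
  · refine sum_le_sum_of_subset_of_nonneg (fun p hp => ?_) fun p _ _ => ?_
    · obtain ⟨n, hn, hp⟩ := mem_biUnion.1 hp
      obtain ⟨hp1, hn0⟩ := Nat.mem_divisorsAntidiagonal.1 hp
      rw [mem_Icc] at hn
      have ha : 0 < p.1 := Nat.pos_of_ne_zero fun h => hn0 (by rw [← hp1, h, zero_mul])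
      have hb : 0 < p.2 := Nat.pos_of_ne_zero fun h => hn0 (by rw [← hp1, h, mul_zero])
      simp only [mem_product, mem_Icc]
      refine ⟨⟨ha, ?_⟩, hb, ?_⟩ <;> nlinarith [hn.2]
    · positivity
  · intro n _ n' _ hne
    refine disjoint_left.2 fun p hp hp' => hne ?_
    rw [← (Nat.mem_divisorsAntidiagonal.1 hp).1, (Nat.mem_divisorsAntidiagonal.1 hp').1]

lemma div_Tau (c N : ℕ) :
    ∑ n ∈ Icc 1 N, (n.divisors.card : ℝ) ^ c / n ≤ (1 + Real.log N) ^ 2 ^ c := by
  induction c with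
  | zero =>
    have := harmonic_le_one_add_log N
    rw [harmonic_eq_sum_Icc] at this
    simpa using this
  | succ c ih =>
    refine (step_Tau c N).trans ?_
    rw [pow_succ 2 c, pow_mul]
    exact pow_le_pow_left₀ (sum_nonneg fun n _ => by positivity) ih 2

theorem tau : TauStmt := by
  intro N
  have h := div_Tau 2 N
  rw [show (2 : ℕ) ^ 2 = 4 from rfl] at h
  refine le_trans ?_ (mul_le_mul_of_nonneg_left h (Nat.cast_nonneg N))
  rw [mul_sum]
  refine sum_le_sum fun n hn => ?_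
  rw [mem_Icc] at hn
  have h0 : (0 : ℝ) < n := by exact_mod_cast hn.1
  have h1 : (n : ℝ) ≤ N := by exact_mod_cast hn.2
  have h2 : 0 ≤ (n.divisors.card : ℝ) ^ 2 := by positivity
  rw [← mul_div_assoc, le_div_iff₀ h0]
  nlinarith

end Pool.Agent.MP_c853c5_nt.Z
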