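import Pool.Agent.MP_c853c5_nt.Z.Basic

set_option autoImplicit false

open Finset

namespace Pool.Agent.MP_c853c5_nt.Z

open Pool.Agent.MP_2a1f0e_nt

lemma shift_Tay {N M : ℕ} (hNM : N ≤ M) (h : ℕ) (t : ℝ) :
    ‖ES N M t - ∑ n ∈ Ioc N M, ((n + h : ℕ) : ℂ) ^ ((t : ℂ) * Complex.I)‖ ≤ 2 * h := by
  have e1 : ∑ n ∈ Ioc N M, ((n + h : ℕ) : ℂ) ^ ((t : ℂ) * Complex.I) = ES (N + h) (M + h) t := by
    rw [ES, ← map_add_right_Ioc, sum_map]
    rfl
  have e2 : ES N M t + ES M (M + h) t = ES N (M + h) t :=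
    sum_Ioc_consecutive _ hNM (Nat.le_add_right _ _)
  have e3 : ES N (N + h) t + ES (N + h) (M + h) t = ES N (M + h) t :=
    sum_Ioc_consecutive _ (Nat.le_add_right _ _) (by omega)
  have a1 := norm_ES_le N (N + h) t
  have a2 := norm_ES_le M (M + h) t
  rw [Nat.add_sub_cancel_left] at a1 a2
  rw [e1, show ES N M t - ES (N + h) (M + h) t = ES N (N + h) t - ES M (M + h) t by
    linear_combination e2 - e3]
  linarith [norm_sub_le (ES N (N + h) t) (ES M (M + h) t)]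

lemma lip_Tay (u v : ℝ) : ‖ex u - ex v‖ ≤ |2 * Real.pi * (u - v)| := by
  rw [show ex u - ex v = ex v * (ex (u - v) - 1) by rw [mul_sub, ← ex_add, add_sub_cancel, mul_one],
    norm_mul, norm_ex, one_mul]
  exact Real.norm_exp_I_mul_ofReal_sub_one_le

lemma pt_Tay {n h : ℕ} (K : ℕ) (t : ℝ) {δ : ℝ} (hn : 0 < n) (h1 : (h : ℝ) / n ≤ δ)
    (h2 : δ ≤ 1 / 2) :
    ‖((n + h : ℕ) : ℂ) ^ ((t : ℂ) * Complex.I) - (n : ℂ) ^ ((t : ℂ) * Complex.I) *
      ex (∑ j : Fin K, al K t n j * (h : ℝ) ^ (j.val + 1))‖ ≤ 2 * |t| * δ ^ (K + 1) := by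
  have n0 : (0 : ℝ) < n := by exact_mod_cast hn
  have z0 : (0 : ℝ) ≤ (h : ℝ) / n := by positivity
  have pi0 := Real.pi_pos
  have c1 := cpow_eq_ex (x := ((n + h : ℕ) : ℝ)) (by positivity) t
  have c2 := cpow_eq_ex n0 t
  rw [Complex.ofReal_natCast] at c1 c2
  rw [c1, c2, ← ex_add]
  refine (lip_Tay _ _).trans ?_
  have k := Real.abs_log_sub_add_sum_range_le (x := -((h : ℝ) / n))
    (by rw [abs_neg, abs_of_nonneg z0]; linarith) K
  rw [abs_neg, abs_of_nonneg z0, sub_neg_eq_add] at k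
  have e : Real.log ((n + h : ℕ) : ℝ) = Real.log n + Real.log (1 + h / n) := by
    rw [← Real.log_mul n0.ne' (by positivity)]
    congr 1
    push_cast
    field_simp
  have e2 : 2 * Real.pi * ∑ j : Fin K, al K t n j * (h : ℝ) ^ (j.val + 1) =
      -(t * ∑ i ∈ range K, (-((h : ℝ) / n)) ^ (i + 1) / (i + 1)) := by
    rw [sum_range, mul_sum, mul_sum, ← sum_neg_distrib]
    refine sum_congr rfl fun j _ => ?_
    rw [al, neg_pow ((h : ℝ) / n), div_pow, pow_succ (-1 : ℝ)]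
    field_simp
  have e3 : 2 * Real.pi * (t * Real.log ((n + h : ℕ) : ℝ) / (2 * Real.pi) -
      (t * Real.log n / (2 * Real.pi) + ∑ j : Fin K, al K t n j * (h : ℝ) ^ (j.val + 1))) =
      t * (∑ i ∈ range K, (-((h : ℝ) / n)) ^ (i + 1) / (i + 1) + Real.log (1 + h / n)) := by
    rw [mul_sub, mul_add, e2, e]
    field_simp
    ring
  rw [e3, abs_mul, mul_comm 2, mul_assoc]
  refine mul_le_mul_of_nonneg_left (k.trans ?_) (abs_nonneg _)
  have p1 : ((h : ℝ) / n) ^ (K + 1) ≤ δ ^ (K + 1) := pow_le_pow_left₀ z0 h1 _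
  have p2 : 0 ≤ δ ^ (K + 1) := pow_nonneg (z0.trans h1) _
  rw [div_le_iff₀ (by linarith)]
  nlinarith

theorem tay : TayStmt := by
  intro N M Y K t hNM hM hY hYN
  have Y0 : (0 : ℝ) < Y := by exact_mod_cast hY
  have N0 : 0 < N := by nlinarith
  have N0' : (0 : ℝ) < N := by exact_mod_cast N0
  have hδ : (Y : ℝ) ^ 2 / N ≤ 1 / 2 := by
    have : (2 * (Y : ℝ) ^ 2) ≤ N := by exact_mod_cast hYN
    rw [div_le_iff₀ N0']
    linarith
  set B : ℝ := 2 * (Y : ℝ) ^ 2 + N * (2 * |t| * ((Y : ℝ) ^ 2 / N) ^ (K + 1)) with hB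
  have key : ∀ a ∈ Icc (1 : ℤ) Y, ∀ b ∈ Icc (1 : ℤ) Y,
      ‖ES N M t - ∑ n ∈ Ioc N M, (n : ℂ) ^ ((t : ℂ) * Complex.I) * ex (∑ j : Fin K,
        al K t n j * ((a : ℝ) ^ (j.val + 1) * (b : ℝ) ^ (j.val + 1)))‖ ≤ B := fun a ha b hb => by
    rw [mem_Icc] at ha hb
    obtain ⟨h, hh⟩ := Int.eq_ofNat_of_zero_le (a := a * b) (mul_nonneg (by omega) (by omega))
    have e : (a : ℝ) * b = h := by exact_mod_cast hh
    have hh2 : (h : ℝ) ≤ (Y : ℝ) ^ 2 := by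
      have : (h : ℤ) ≤ (Y : ℤ) ^ 2 := by rw [← hh]; nlinarith
      exact_mod_cast this
    simp only [← mul_pow, e]
    refine (norm_sub_le_norm_sub_add_norm_sub _
      (∑ n ∈ Ioc N M, ((n + h : ℕ) : ℂ) ^ ((t : ℂ) * Complex.I)) _).trans
      (add_le_add ((shift_Tay hNM h t).trans (by linarith)) ?_)
    rw [← sum_sub_distrib]
    refine (norm_sum_le _ _).trans ((sum_le_card_nsmul _ _
      (2 * |t| * ((Y : ℝ) ^ 2 / N) ^ (K + 1)) fun n hn => ?_).trans ?_)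
    · have h1 := (mem_Ioc.1 hn).1
      have h2 : (N : ℝ) ≤ n := by exact_mod_cast h1.le
      exact pt_Tay K t (by omega) (by gcongr) hδ
    · rw [Nat.card_Ioc, nsmul_eq_mul]
      have : ((M - N : ℕ) : ℝ) ≤ N := by exact_mod_cast (by omega : M - N ≤ N)
      gcongr
  have hc : (Icc (1 : ℤ) Y).card = Y := by simp
  have e : ((Y : ℂ) * Y) * ES N M t -
      ∑ n ∈ Ioc N M, (n : ℂ) ^ ((t : ℂ) * Complex.I) * UU K Y (al K t n) =
      ∑ a ∈ Icc (1 : ℤ) Y, ∑ b ∈ Icc (1 : ℤ) Y, (ES N M t -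
        ∑ n ∈ Ioc N M, (n : ℂ) ^ ((t : ℂ) * Complex.I) * ex (∑ j : Fin K,
          al K t n j * ((a : ℝ) ^ (j.val + 1) * (b : ℝ) ^ (j.val + 1)))) := by
    simp only [sum_sub_distrib, sum_const, hc, nsmul_eq_mul, UU, mul_sum, mul_assoc]
    congr 1
    rw [sum_comm]
    exact sum_congr rfl fun a _ => sum_comm
  have k1 : ‖((Y : ℂ) * Y) * ES N M t -
      ∑ n ∈ Ioc N M, (n : ℂ) ^ ((t : ℂ) * Complex.I) * UU K Y (al K t n)‖ ≤ Y * (Y * B) := by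
    rw [e]
    refine (norm_sum_le _ _).trans ((sum_le_card_nsmul _ _ (Y * B) fun a ha => ?_).trans_eq ?_)
    · refine (norm_sum_le _ _).trans ((sum_le_card_nsmul _ _ B (key a ha)).trans_eq ?_)
      rw [hc, nsmul_eq_mul]
    · rw [hc, nsmul_eq_mul]
  have k2 : ‖∑ n ∈ Ioc N M, (n : ℂ) ^ ((t : ℂ) * Complex.I) * UU K Y (al K t n)‖ ≤
      ∑ n ∈ Ioc N M, ‖UU K Y (al K t n)‖ :=
    (norm_sum_le _ _).trans_eq (sum_congr rfl fun n hn => by
      rw [norm_mul, norm_cpow_I (by have := (mem_Ioc.1 hn).1; omega), one_mul])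
  have k3 := norm_le_norm_sub_add (((Y : ℂ) * Y) * ES N M t)
    (∑ n ∈ Ioc N M, (n : ℂ) ^ ((t : ℂ) * Complex.I) * UU K Y (al K t n))
  rw [norm_mul, norm_mul, Complex.norm_natCast] at k3
  rw [add_assoc, ← hB, ← sub_le_iff_le_add, le_div_iff₀ (by positivity)]
  nlinarith

end Pool.Agent.MP_c853c5_nt.Z
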