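import Pool.Agent.MP_c853c5_nt.Z.Basic

set_option autoImplicit false

open Finset

namespace Pool.Agent.MP_c853c5_nt.Z

theorem idx_U {v T : ℝ} {k : ℕ} (hv : 1 ≤ v) (hk : 1 ≤ k) (h1 : v ^ 54 ≤ T)
    (h2 : T ≤ v ^ (60 * k)) :
    ∃ j : ℕ, 2 ≤ j ∧ j ≤ 2 * k ∧ T ≤ v ^ (40 * j) ∧ v ^ (20 * j + 14) ≤ T := by
  classical
  have h3 : 2 ≤ 2 * k ∧ T ≤ v ^ (40 * (2 * k)) :=
    ⟨by omega, h2.trans (pow_le_pow_right₀ hv (by omega))⟩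
  have hex : ∃ j : ℕ, 2 ≤ j ∧ T ≤ v ^ (40 * j) := ⟨_, h3⟩
  obtain ⟨h4, h5⟩ := Nat.find_spec hex
  refine ⟨Nat.find hex, h4, Nat.find_min' hex h3, h5, ?_⟩
  rcases h4.eq_or_lt with e | hlt
  · rw [← e]
    exact h1
  · have h6 := Nat.find_min hex (m := Nat.find hex - 1) (by omega)
    have h7 : v ^ (40 * (Nat.find hex - 1)) < T := by
      by_contra hc
      exact h6 ⟨by omega, not_lt.1 hc⟩
    exact (pow_le_pow_right₀ hv (by omega)).trans h7.le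

theorem gain_U {v T n Y s x : ℝ} {j K : ℕ} (hv : 1 ≤ v) (hj : 1 ≤ j) (hjK : j ≤ K)
    (h1 : T ≤ v ^ (40 * j)) (h2 : v ^ (20 * j + 14) ≤ T) (hn : v ^ 60 ≤ n) (hn' : n ≤ 2 * v ^ 60)
    (hY : v ^ 20 ≤ 2 * Y) (hs : 1 ≤ s) (hs' : 2 * Real.pi * j ≤ s ^ 2)
    (hx : x = T / (2 * Real.pi * j * n ^ j)) :
    0 < x ∧ 4 * x + 10 / (s * Y ^ j) + 6 / (x * (s * Y ^ j) ^ 2) ≤ (5 * 8 ^ K / v ^ 7) ^ 2 := by
  have hv0 : 0 < v := by linarith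
  have hT : 0 < T := lt_of_lt_of_le (by positivity) h2
  have hn0 : 0 < n := lt_of_lt_of_le (by positivity) hn
  have hY0 : 0 < Y := by
    have : 0 < v ^ 20 := by positivity
    linarith
  have hj1 : (1 : ℝ) ≤ j := by exact_mod_cast hj
  have hp : 1 ≤ 2 * Real.pi * j := by nlinarith [Real.pi_gt_three]
  have hx0 : 0 < x := by rw [hx]; positivity
  have h14 : 0 < v ^ 14 := by positivity
  have hw : v ^ 14 ≤ v ^ (20 * j) := pow_le_pow_right₀ hv (by omega)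
  have hnj : v ^ (60 * j) ≤ n ^ j := by
    rw [pow_mul]; exact pow_le_pow_left₀ (by positivity) hn j
  have hnj' : n ^ j ≤ 2 ^ j * v ^ (60 * j) := by
    rw [pow_mul, ← mul_pow]; exact pow_le_pow_left₀ hn0.le hn' j
  have hYj : v ^ (20 * j) ≤ 2 ^ j * Y ^ j := by
    rw [pow_mul, ← mul_pow]; exact pow_le_pow_left₀ (by positivity) hY j
  have a1 : x ≤ 1 / v ^ 14 := by
    rw [hx, div_le_div_iff₀ (by positivity) h14]
    calc T * v ^ 14 ≤ v ^ (40 * j) * v ^ (20 * j) := by gcongr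
      _ = 1 * (1 * v ^ (60 * j)) := by ring
      _ ≤ _ := by gcongr
  have a2 : 1 / (s * Y ^ j) ≤ 2 ^ j / v ^ 14 := by
    rw [div_le_div_iff₀ (by positivity) h14]
    calc 1 * v ^ 14 ≤ 2 ^ j * (1 * Y ^ j) := by rw [one_mul, one_mul]; exact hw.trans hYj
      _ ≤ _ := by gcongr
  have a3 : 1 / (x * (s * Y ^ j) ^ 2) ≤ 8 ^ j / v ^ 14 := by
    have e : x * (s * Y ^ j) ^ 2 = T * s ^ 2 * (Y ^ j) ^ 2 / (2 * Real.pi * j * n ^ j) := by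
      rw [hx]; ring
    rw [e, one_div_div, div_le_div_iff₀ (by positivity) h14]
    have e8 : (8 : ℝ) ^ j = 2 ^ j * (2 ^ j) ^ 2 := by
      rw [← pow_mul, ← pow_add, show (8 : ℝ) = 2 ^ 3 by norm_num, ← pow_mul]
      congr 1
      ring
    calc 2 * Real.pi * j * n ^ j * v ^ 14 ≤ s ^ 2 * (2 ^ j * v ^ (60 * j)) * v ^ 14 := by gcongr
      _ = 2 ^ j * s ^ 2 * v ^ (20 * j + 14) * (v ^ (20 * j)) ^ 2 := by ring
      _ ≤ 2 ^ j * s ^ 2 * T * (2 ^ j * Y ^ j) ^ 2 := by gcongr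
      _ = _ := by rw [e8]; ring
  have b1 : (2 : ℝ) ^ j ≤ 8 ^ j := pow_le_pow_left₀ (by norm_num) (by norm_num) j
  have b2 : (8 : ℝ) ^ j ≤ 8 ^ K := pow_le_pow_right₀ (by norm_num) hjK
  have b3 : (1 : ℝ) ≤ 8 ^ K := one_le_pow₀ (by norm_num)
  refine ⟨hx0, ?_⟩
  calc 4 * x + 10 / (s * Y ^ j) + 6 / (x * (s * Y ^ j) ^ 2)
      = 4 * x + 10 * (1 / (s * Y ^ j)) + 6 * (1 / (x * (s * Y ^ j) ^ 2)) := by ring
    _ ≤ 4 * (1 / v ^ 14) + 10 * (2 ^ j / v ^ 14) + 6 * (8 ^ j / v ^ 14) := by gcongr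
    _ = (4 + 10 * 2 ^ j + 6 * 8 ^ j) / v ^ 14 := by ring
    _ ≤ (25 * (8 ^ K) ^ 2) / v ^ 14 := by
        gcongr
        nlinarith
    _ = _ := by ring

theorem prodH_U (s Y : ℝ) (K : ℕ) :
    ∏ j : Fin K, 2 * (s * Y ^ (j.val + 1)) ^ 2 = (2 * s ^ 2) ^ K * Y ^ (K * (K + 1)) := by
  induction K with
  | zero => simp
  | succ K ih =>
    rw [Fin.prod_univ_castSucc]
    simp only [Fin.val_castSucc, Fin.val_last]
    rw [ih]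
    ring

theorem prodD_U (hD : DStmt) {K s Y : ℕ} (hs : 1 ≤ s) (hY : 1 ≤ Y) (α : Fin K → ℝ) (j0 : Fin K)
    {g : ℝ} (hg : DD (s * Y ^ (j0.val + 1)) (α j0) ≤
      g * (2 * ((s : ℝ) * (Y : ℝ) ^ (j0.val + 1)) ^ 2)) :
    ∏ j : Fin K, DD (s * Y ^ (j.val + 1)) (α j) ≤
      g * ((2 * (s : ℝ) ^ 2) ^ K * (Y : ℝ) ^ (K * (K + 1))) := by
  have e : g = ∏ j : Fin K, if j = j0 then g else 1 := by simp
  rw [← prodH_U, e, ← prod_mul_distrib]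
  refine prod_le_prod (fun j _ => sum_nonneg fun _ _ => norm_nonneg _) fun j _ => ?_
  split_ifs with h
  · rw [h]; exact hg
  · have := (hD (s * Y ^ (j.val + 1)) (α j) (Nat.mul_pos hs (Nat.pow_pos hY))).1
    push_cast at this
    rwa [one_mul]

theorem const_U {K : ℕ} (hK : 1 ≤ K) :
    (5 : ℝ) * 8 ^ K * (2 * ((11 * K ^ 3 : ℕ) : ℝ) ^ 2) ^ K ≤ Real.exp (43 * (K : ℝ) ^ 8) := by
  have h : ∀ x : ℝ, x ≤ Real.exp x := fun x => by linarith [Real.add_one_le_exp x]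
  have hK1 : (1 : ℝ) ≤ K := by exact_mod_cast hK
  have p1 : (K : ℝ) ≤ (K : ℝ) ^ 8 := le_self_pow₀ hK1 (by norm_num)
  have p4 : (K : ℝ) ^ 4 ≤ (K : ℝ) ^ 8 := pow_le_pow_right₀ hK1 (by norm_num)
  calc (5 : ℝ) * 8 ^ K * (2 * ((11 * K ^ 3 : ℕ) : ℝ) ^ 2) ^ K
      ≤ Real.exp 5 * Real.exp 8 ^ K *
        (Real.exp 2 * Real.exp ((11 * K ^ 3 : ℕ) : ℝ) ^ 2) ^ K := by gcongr <;> exact h _
    _ = Real.exp (5 + 10 * K + 22 * (K : ℝ) ^ 4) := by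
        simp only [← Real.exp_nat_mul, ← Real.exp_add]
        congr 1
        push_cast
        ring
    _ ≤ _ := Real.exp_le_exp.2 (by linarith)

theorem pow_U (hB : BilStmt) (hD : DStmt) {A0 v : ℝ} {k Y n : ℕ} {t : ℝ} (hk : 1 ≤ k)
    (hY : 1 ≤ Y) (hv : 1 ≤ v) (h1 : v ^ 54 ≤ |t|) (h2 : |t| ≤ v ^ (60 * k)) (hn : v ^ 60 ≤ n)
    (hn' : (n : ℝ) ≤ 2 * v ^ 60) (hY1 : v ^ 20 ≤ 2 * Y) (hY2 : (Y : ℝ) ≤ v ^ 20)
    (hJ : (JJ (3 * k) (11 * (3 * k) ^ 3) Y : ℝ) ≤ Real.exp (A0 * ((3 * k : ℕ) : ℝ) ^ 8) *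
      (Y : ℝ) ^ (22 * ((3 * k : ℕ) : ℝ) ^ 3 - ((3 * k : ℕ) : ℝ) * ((3 * k : ℕ) + 1) / 2 + 1 / 100)) :
    ‖UU (3 * k) Y (al (3 * k) t n)‖ ^ (2 * (11 * (3 * k) ^ 3) ^ 2) ≤
      Real.exp ((2 * A0 + 43) * ((3 * k : ℕ) : ℝ) ^ 8) *
        ((Y : ℝ) ^ 2) ^ (2 * (11 * (3 * k) ^ 3) ^ 2) * (1 / v ^ 6) := by
  obtain ⟨j, hj2, hjk, hj3, hj4⟩ := idx_U hv hk h1 h2
  have hjK : j ≤ 3 * k := by omega
  have hK : 1 ≤ 3 * k := by omega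
  generalize 3 * k = K at hJ hjK hK ⊢
  have hc := const_U hK
  have hKs : 7 * K ≤ (11 * K ^ 3) ^ 2 := by
    have a : K ≤ K ^ 3 := Nat.le_self_pow (by norm_num) K
    have b : 11 * K ^ 3 ≤ (11 * K ^ 3) ^ 2 := Nat.le_self_pow (by norm_num) _
    omega
  have hs : 1 ≤ 11 * K ^ 3 := by
    have a : K ≤ K ^ 3 := Nat.le_self_pow (by norm_num) K
    omega
  have es : 22 * (K : ℝ) ^ 3 = 2 * ((11 * K ^ 3 : ℕ) : ℝ) := by push_cast; ring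
  rw [es] at hJ
  generalize 11 * K ^ 3 = s at hJ hc hKs hs ⊢
  have hv0 : 0 < v := by linarith
  have hY0 : (0 : ℝ) < Y := by exact_mod_cast hY
  obtain ⟨i, rfl⟩ : ∃ i, j = i + 1 := ⟨j - 1, by omega⟩
  have hpi : 2 * Real.pi * ((i + 1 : ℕ) : ℝ) ≤ (s : ℝ) ^ 2 := by
    have a : ((7 * (i + 1) : ℕ) : ℝ) ≤ ((s ^ 2 : ℕ) : ℝ) := Nat.cast_le.2 (by omega)
    have b : (0 : ℝ) ≤ ((i + 1 : ℕ) : ℝ) := Nat.cast_nonneg _
    rw [Nat.cast_mul, Nat.cast_pow, Nat.cast_ofNat] at a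
    nlinarith [mul_le_mul_of_nonneg_right Real.pi_lt_d2.le b]
  have hx : |al K t n ⟨i, hjK⟩| = |t| / (2 * Real.pi * ((i + 1 : ℕ) : ℝ) * (n : ℝ) ^ (i + 1)) := by
    rw [al, abs_div, abs_mul, abs_pow, abs_neg, abs_one, one_pow, one_mul, Nat.cast_succ]
    congr 1
    exact abs_of_nonneg (by positivity)
  obtain ⟨hx0, hg⟩ := gain_U hv (by omega) hjK hj3 hj4 hn hn' hY1 (by exact_mod_cast hs) hpi hx
  have hd := (hD (s * Y ^ (i + 1)) _ (Nat.mul_pos hs (Nat.pow_pos hY))).2 (abs_pos.1 hx0)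
  push_cast at hd
  have hd' : DD (s * Y ^ (i + 1)) (al K t n ⟨i, hjK⟩) ≤
      5 * 8 ^ K / v ^ 7 * (2 * ((s : ℝ) * (Y : ℝ) ^ (i + 1)) ^ 2) := by
    refine le_of_sq_le_sq ?_ (by positivity)
    refine hd.trans ((mul_le_mul_of_nonneg_left hg (by positivity)).trans (le_of_eq ?_))
    ring
  have hp := prodD_U hD hs hY (al K t n) ⟨i, hjK⟩ hd'
  have hJ2 : (JJ K s Y : ℝ) ^ 2 * (Y : ℝ) ^ (K * (K + 1)) ≤
      Real.exp (2 * A0 * (K : ℝ) ^ 8) * (Y : ℝ) ^ (4 * s) * v := by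
    have a : (Y : ℝ) ^ (1 / 50 : ℝ) ≤ v := by
      calc (Y : ℝ) ^ (1 / 50 : ℝ) ≤ (v ^ 50) ^ (1 / 50 : ℝ) :=
            Real.rpow_le_rpow hY0.le (hY2.trans (pow_le_pow_right₀ hv (by norm_num))) (by norm_num)
        _ = v := by
            rw [← Real.rpow_natCast, ← Real.rpow_mul hv0.le]; norm_num
    calc (JJ K s Y : ℝ) ^ 2 * (Y : ℝ) ^ (K * (K + 1))
        ≤ (Real.exp (A0 * (K : ℝ) ^ 8) *
          (Y : ℝ) ^ (2 * (s : ℝ) - (K : ℝ) * (K + 1) / 2 + 1 / 100)) ^ 2 *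
            (Y : ℝ) ^ (K * (K + 1)) := by gcongr
      _ = Real.exp (2 * A0 * (K : ℝ) ^ 8) * (Y : ℝ) ^ (4 * s) * (Y : ℝ) ^ (1 / 50 : ℝ) := by
          rw [mul_pow, ← Real.exp_nat_mul, mul_assoc, mul_assoc (Real.exp _)]
          simp only [← Real.rpow_natCast (Y : ℝ), ← Real.rpow_natCast ((Y : ℝ) ^ (_ : ℝ)),
            ← Real.rpow_mul hY0.le, ← Real.rpow_add hY0]
          congr 2
          · push_cast; ring
          · push_cast; ring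
      _ ≤ _ := by gcongr
  have ee : 4 * s * (s - 1) + 4 * s = 2 * (2 * s ^ 2) := by
    obtain ⟨r, rfl⟩ : ∃ r, s = r + 1 := ⟨s - 1, by omega⟩
    rw [Nat.add_sub_cancel]
    ring
  refine (hB K s Y _ hs hY).trans ?_
  calc (Y : ℝ) ^ (4 * s * (s - 1)) * (JJ K s Y : ℝ) ^ 2 *
        ∏ j : Fin K, DD (s * Y ^ (j.val + 1)) (al K t n j)
      ≤ (Y : ℝ) ^ (4 * s * (s - 1)) * (JJ K s Y : ℝ) ^ 2 *
        (5 * 8 ^ K / v ^ 7 * ((2 * (s : ℝ) ^ 2) ^ K * (Y : ℝ) ^ (K * (K + 1)))) := by gcongr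
    _ = (Y : ℝ) ^ (4 * s * (s - 1)) * ((JJ K s Y : ℝ) ^ 2 * (Y : ℝ) ^ (K * (K + 1))) *
        (5 * 8 ^ K * (2 * (s : ℝ) ^ 2) ^ K) / v ^ 7 := by ring
    _ ≤ (Y : ℝ) ^ (4 * s * (s - 1)) * (Real.exp (2 * A0 * (K : ℝ) ^ 8) * (Y : ℝ) ^ (4 * s) * v) *
        Real.exp (43 * (K : ℝ) ^ 8) / v ^ 7 := by gcongr
    _ = _ := by
        rw [← pow_mul, ← ee, add_mul, Real.exp_add, pow_add]
        field_simp

theorem uu (hV : VmStmt) (hB : BilStmt) (hD : DStmt) : UStmt := by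
  obtain ⟨A0, hA0, hV⟩ := hV
  refine ⟨(2 * A0 + 43) * 3 ^ 8 + 1764180, by nlinarith,
    fun k N Y n t hk hY hYN hNY hn hn' h1 h2 => ?_⟩
  have hN : 1 ≤ N := (Nat.pow_pos hY).trans_le hYN
  have hN1 : (1 : ℝ) ≤ N := by exact_mod_cast hN
  have hN0 : (0 : ℝ) < N := by linarith
  have hk1 : (1 : ℝ) ≤ k := by exact_mod_cast hk
  have hp : ∀ m : ℕ, ((N : ℝ) ^ (1 / 60 : ℝ)) ^ m = (N : ℝ) ^ ((m : ℝ) / 60) := fun m => by
    rw [← Real.rpow_natCast, ← Real.rpow_mul hN0.le]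
    congr 1
    ring
  have hv : 1 ≤ (N : ℝ) ^ (1 / 60 : ℝ) := Real.one_le_rpow hN1 (by norm_num)
  have h60 : ((N : ℝ) ^ (1 / 60 : ℝ)) ^ 60 = N := by rw [hp]; norm_num
  have h54 : ((N : ℝ) ^ (1 / 60 : ℝ)) ^ 54 = (N : ℝ) ^ (9 / 10 : ℝ) := by rw [hp]; norm_num
  have h6 : 1 / ((N : ℝ) ^ (1 / 60 : ℝ)) ^ 6 = (N : ℝ) ^ (-(1 / 10) : ℝ) := by
    rw [hp, Real.rpow_neg hN0.le, one_div]; norm_num
  generalize (N : ℝ) ^ (1 / 60 : ℝ) = v at hv h60 h54 h6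
  have hv0 : 0 < v := by linarith
  have key := pow_U hB hD (A0 := A0) (v := v) (n := n) (t := t) hk hY hv (h54 ▸ h1)
    (by rw [pow_mul, h60]; exact h2) (by rw [h60]; exact_mod_cast hn.le)
    (by rw [h60]; exact_mod_cast hn')
    (le_of_pow_le_pow_left₀ (n := 3) (by norm_num) (by positivity) (by
      rw [← pow_mul, h60, mul_pow]; norm_num; exact_mod_cast hNY))
    (le_of_pow_le_pow_left₀ (n := 3) (by norm_num) (by positivity) (by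
      rw [← pow_mul, h60]; exact_mod_cast hYN))
    (hV (3 * k) Y (by omega) hY)
  have hm : ((2 * (11 * (3 * k) ^ 3) ^ 2 : ℕ) : ℝ) = 176418 * (k : ℝ) ^ 6 := by push_cast; ring
  have hk6 : (1 : ℝ) ≤ (k : ℝ) ^ 6 := one_le_pow₀ hk1
  have hk8 : (k : ℝ) ^ 6 ≤ (k : ℝ) ^ 8 := pow_le_pow_right₀ hk1 (by norm_num)
  have hm0 : 2 * (11 * (3 * k) ^ 3) ^ 2 ≠ 0 := by positivity
  generalize 2 * (11 * (3 * k) ^ 3) ^ 2 = m at key hm hm0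
  refine le_of_pow_le_pow_left₀ hm0 (by positivity) (key.trans ?_)
  rw [mul_pow, mul_pow, h6]
  have hA : (0 : ℝ) < (2 * A0 + 43) * 3 ^ 8 := by positivity
  have e3 : (2 * A0 + 43) * ((3 * k : ℕ) : ℝ) ^ 8 = (2 * A0 + 43) * 3 ^ 8 * (k : ℝ) ^ 8 := by
    push_cast; ring
  rw [e3]
  generalize (2 * A0 + 43) * 3 ^ 8 = A at hA ⊢
  have f1 : Real.exp (A * (k : ℝ) ^ 8) ≤ Real.exp ((A + 1764180) * (k : ℝ) ^ 8) ^ m :=
    (Real.exp_le_exp.2 (by nlinarith)).trans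
      (le_self_pow₀ (Real.one_le_exp (by positivity)) hm0)
  have f2 : (N : ℝ) ^ (-(1 / 10) : ℝ) ≤
      ((N : ℝ) ^ (-(1 / ((A + 1764180) * (k : ℝ) ^ 8)))) ^ m := by
    rw [← Real.rpow_natCast, ← Real.rpow_mul hN0.le]
    refine Real.rpow_le_rpow_of_exponent_le hN1 ?_
    rw [neg_mul, neg_le_neg_iff, hm, div_mul_eq_mul_div, div_le_div_iff₀ (by positivity)
      (by norm_num)]
    nlinarith
  gcongr

end Pool.Agent.MP_c853c5_nt.Z
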