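import Pool.Agent.MP_c853c5_nt.Z.Basic
import Pool.Agent.MP_c853c5_nt.Z.Local

set_option autoImplicit false

open Finset Filter

namespace Pool.Agent.MP_c853c5_nt.Z

noncomputable def kk_Ver (d γ t : ℝ) : ℝ := (√(1 + ((t - γ) / d) ^ 2))⁻¹ * (1 / d)

lemma cont_kk_Ver (d γ : ℝ) : Continuous (kk_Ver d γ) := by
  unfold kk_Ver
  refine Continuous.mul (Continuous.inv₀ (by fun_prop) fun t => ?_) continuous_const
  exact (Real.sqrt_pos.2 (by positivity)).ne'

lemma arsinh_le_Ver {x y : ℝ} (hy : 0 ≤ y) (h : x ≤ y) : Real.arsinh x ≤ Real.log (1 + 2 * y) := by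
  refine (Real.arsinh_le_arsinh.2 h).trans ?_
  unfold Real.arsinh
  have h1 : √(1 + y ^ 2) ≤ 1 + y := Real.sqrt_le_iff.2 ⟨by positivity, by nlinarith⟩
  have h2 : 0 < √(1 + y ^ 2) := Real.sqrt_pos.2 (by positivity)
  exact Real.log_le_log (by positivity) (by linarith)

lemma int_kk_Ver {d γ a : ℝ} (hd : 0 < d) (h : |γ - (a + 1 / 2)| ≤ 9 / 5) :
    ∫ t in a..(a + 1), kk_Ver d γ t ≤ 2 * Real.log (1 + 6 / d) := by
  have h1 : ∀ t ∈ Set.uIcc a (a + 1),
      HasDerivAt (fun t => Real.arsinh ((t - γ) / d)) (kk_Ver d γ t) t := fun t _ =>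
    (Real.hasDerivAt_arsinh _).comp t (((hasDerivAt_id t).sub_const γ).div_const d)
  rw [intervalIntegral.integral_eq_sub_of_hasDerivAt h1 ((cont_kk_Ver d γ).intervalIntegrable _ _)]
  obtain ⟨h2, h3⟩ := abs_le.1 h
  have h4 : Real.arsinh ((a + 1 - γ) / d) ≤ Real.log (1 + 2 * (3 / d)) :=
    arsinh_le_Ver (by positivity) (div_le_div_of_nonneg_right (by linarith) hd.le)
  have h5 : Real.arsinh ((γ - a) / d) ≤ Real.log (1 + 2 * (3 / d)) :=
    arsinh_le_Ver (by positivity) (div_le_div_of_nonneg_right (by linarith) hd.le)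
  have h6 : (a - γ) / d = -((γ - a) / d) := by ring
  rw [h6, Real.arsinh_neg, show 6 / d = 2 * (3 / d) by ring]
  linarith

lemma inv_le_kk_Ver {d σ t : ℝ} {ρ : ℂ} (hd : 0 < d) (h : d ≤ |σ - ρ.re|) :
    ‖(σ : ℂ) + t * Complex.I - ρ‖⁻¹ ≤ kk_Ver d ρ.im t := by
  have h0 : 0 < √(1 + ((t - ρ.im) / d) ^ 2) := Real.sqrt_pos.2 (by positivity)
  rw [kk_Ver, one_div, ← mul_inv]
  refine inv_anti₀ (mul_pos h0 hd) (abs_le_of_sq_le_sq' ?_ (norm_nonneg _)).2
  have h1 : d ^ 2 ≤ (σ - ρ.re) ^ 2 := by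
    rw [← sq_abs (σ - ρ.re)]
    exact pow_le_pow_left₀ hd.le h 2
  have h2 : (√(1 + ((t - ρ.im) / d) ^ 2) * d) ^ 2 = d ^ 2 + (t - ρ.im) ^ 2 := by
    rw [mul_pow, Real.sq_sqrt (by positivity)]
    field_simp
  rw [h2, Complex.sq_norm, Complex.normSq_apply]
  simp only [Complex.sub_re, Complex.add_re, Complex.ofReal_re, Complex.mul_re, Complex.I_re,
    Complex.ofReal_im, Complex.I_im, Complex.sub_im, Complex.add_im, Complex.mul_im]
  nlinarith

lemma mem_ball_Ver {σ a t : ℝ} (h1 : 1 / 2 ≤ σ) (h2 : σ ≤ 51 / 100) (ht : t ∈ Set.Icc a (a + 1)) :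
    (σ : ℂ) + t * Complex.I ∈
      Metric.closedBall ((2 : ℂ) + ((a + 1 / 2 : ℝ) : ℂ) * Complex.I) (8 / 5) := by
  rw [mem_closedBall_iff_norm]
  refine (abs_le_of_sq_le_sq' ?_ (by norm_num)).2
  rw [Complex.sq_norm, Complex.normSq_apply]
  simp only [Complex.sub_re, Complex.add_re, Complex.ofReal_re, Complex.mul_re, Complex.I_re,
    Complex.ofReal_im, Complex.I_im, Complex.sub_im, Complex.add_im, Complex.mul_im,
    Complex.re_ofNat, Complex.im_ofNat]
  nlinarith [ht.1, ht.2]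

lemma contOn_Ver (σ : ℝ) (s : Set ℝ) (h : ∀ t ∈ s, riemannZeta₁ (σ + t * Complex.I) ≠ 0) :
    ContinuousOn (fun t : ℝ => ‖logDeriv riemannZeta₁ (σ + t * Complex.I)‖) s := by
  have h1 : Continuous riemannZeta₁ := differentiable_riemannZeta₁.continuous
  have h2 : Continuous (deriv riemannZeta₁) := continuous_iff_continuousAt.2 fun z =>
    (differentiable_riemannZeta₁.analyticAt z).deriv.continuousAt
  have h3 : Continuous fun t : ℝ => (σ : ℂ) + t * Complex.I := by fun_prop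
  simp only [logDeriv_apply]
  exact ((h2.comp h3).continuousOn.div (h1.comp h3).continuousOn h).norm

lemma unit_Ver {σ a d L : ℝ} {Z : Finset ℂ} (hd : 0 < d)
    (hZ : ∀ ρ ∈ Z, d ≤ |σ - ρ.re| ∧ |ρ.im - (a + 1 / 2)| ≤ 9 / 5) (hs : ∑ ρ ∈ Z, ord ρ ≤ L)
    (h0 : ∀ t ∈ Set.Icc a (a + 1), riemannZeta₁ (σ + t * Complex.I) ≠ 0)
    (h1 : ∀ t ∈ Set.Icc a (a + 1), ‖logDeriv riemannZeta₁ (σ + t * Complex.I) -
      ∑ ρ ∈ Z, (ord ρ : ℂ) / (σ + t * Complex.I - ρ)‖ ≤ L) :
    ∫ t in a..(a + 1), ‖logDeriv riemannZeta₁ (σ + t * Complex.I)‖ ≤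
      L + L * (2 * Real.log (1 + 6 / d)) := by
  have a1 : a ≤ a + 1 := by linarith
  have i1 : IntervalIntegrable (fun t : ℝ => ‖logDeriv riemannZeta₁ (σ + t * Complex.I)‖)
      MeasureTheory.volume a (a + 1) :=
    (contOn_Ver σ _ h0).intervalIntegrable_of_Icc a1
  have c2 : ∀ ρ : ℂ, Continuous fun t => ord ρ * kk_Ver d ρ.im t := fun ρ =>
    continuous_const.mul (cont_kk_Ver _ _)
  have c3 : Continuous fun t => ∑ ρ ∈ Z, ord ρ * kk_Ver d ρ.im t :=
    continuous_finsetSum _ fun ρ _ => c2 ρ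
  have l0 : 0 ≤ 2 * Real.log (1 + 6 / d) :=
    mul_nonneg zero_le_two (Real.log_nonneg (le_add_of_nonneg_right (by positivity)))
  calc _ ≤ ∫ t in a..(a + 1), (L + ∑ ρ ∈ Z, ord ρ * kk_Ver d ρ.im t) := by
        refine intervalIntegral.integral_mono_on a1 i1
          ((continuous_const.add c3).intervalIntegrable _ _) fun t ht => ?_
        refine (norm_le_norm_sub_add _ _).trans (add_le_add (h1 t ht) ?_)
        refine norm_sum_le_of_le _ fun ρ hρ => ?_
        rw [norm_div, Complex.norm_real, Real.norm_of_nonneg (ord_nonneg ρ), div_eq_mul_inv]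
        exact mul_le_mul_of_nonneg_left (inv_le_kk_Ver hd (hZ ρ hρ).1) (ord_nonneg ρ)
    _ = L + ∑ ρ ∈ Z, ord ρ * ∫ t in a..(a + 1), kk_Ver d ρ.im t := by
        rw [intervalIntegral.integral_add (continuous_const.intervalIntegrable _ _)
          (c3.intervalIntegrable _ _), intervalIntegral.integral_finsetSum
            fun ρ _ => (c2 ρ).intervalIntegrable _ _]
        simp
    _ ≤ L + ∑ ρ ∈ Z, ord ρ * (2 * Real.log (1 + 6 / d)) := by
        gcongr with ρ hρ
        · exact ord_nonneg ρ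
        · exact int_kk_Ver hd (hZ ρ hρ).2
    _ ≤ _ := by
        rw [← sum_mul]
        gcongr

theorem ver (hL : LocZStmt) : VerStmt := by
  classical
  obtain ⟨C, C1, hL⟩ := hL
  have A0 : 0 ≤ Real.log (10801 * C) := Real.log_nonneg (by linarith)
  refine ⟨8 * C * (1 + 2 * (Real.log (10801 * C) + 2)), by nlinarith, fun T T3 => ?_⟩
  choose Z hZ using hL
  obtain ⟨m, hm1, hm2⟩ : ∃ m : ℕ, T ≤ m ∧ (m : ℝ) ≤ T + 1 :=
    ⟨⌈T⌉₊, Nat.le_ceil T, (Nat.ceil_lt_add_one (by linarith)).le⟩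
  have l1 : 1 ≤ Real.log T := by
    rw [Real.le_log_iff_exp_le (by linarith)]
    exact Real.exp_one_lt_three.le.trans T3
  have l2 : Real.log T ≤ T := (Real.log_le_sub_one_of_pos (by linarith)).trans (by linarith)
  let a : ℕ → ℝ := fun k => -(m : ℝ) + k
  have ha : ∀ k, a (k + 1) = a k + 1 := fun k => by
    simp only [a]
    push_cast
    ring
  have hlog : ∀ k < 2 * m, C * Real.log (|a k + 1 / 2| + 3) ≤ 2 * C * Real.log T := by
    intro k hk
    have h1 : (k : ℝ) + 1 ≤ 2 * m := by exact_mod_cast hk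
    have h2 : (0 : ℝ) ≤ k := Nat.cast_nonneg k
    have h3 : |a k + 1 / 2| ≤ m := abs_le.2 ⟨by simp only [a]; linarith, by simp only [a]; linarith⟩
    have h4 : Real.log (|a k + 1 / 2| + 3) ≤ Real.log (T ^ 2) :=
      Real.log_le_log (by positivity) (by nlinarith)
    rw [Real.log_pow] at h4
    push_cast at h4
    nlinarith
  let W : Finset ℂ := (range (2 * m)).biUnion fun k => Z (a k + 1 / 2)
  have hW : (W.card : ℝ) ≤ 8 * C * T ^ 2 := by
    have h1 : W.card ≤ ∑ k ∈ range (2 * m), (Z (a k + 1 / 2)).card := card_biUnion_le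
    have h2 : ((∑ k ∈ range (2 * m), (Z (a k + 1 / 2)).card : ℕ) : ℝ) ≤
        ∑ _k ∈ range (2 * m), 2 * C * Real.log T := by
      push_cast
      refine sum_le_sum fun k hk => le_trans ?_ ((hZ _).2.2.1.trans (hlog k (mem_range.1 hk)))
      rw [card_eq_sum_ones]
      push_cast
      exact sum_le_sum (hZ _).2.1
    rw [sum_const, card_range, nsmul_eq_mul] at h2
    have h3 : (W.card : ℝ) ≤ ((∑ k ∈ range (2 * m), (Z (a k + 1 / 2)).card : ℕ) : ℝ) := by
      exact_mod_cast h1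
    have h4 : ((2 * m : ℕ) : ℝ) * (2 * C * Real.log T) ≤ (4 * T) * (2 * C * T) := by
      push_cast
      exact mul_le_mul (by linarith) (by gcongr) (by positivity) (by positivity)
    nlinarith
  obtain ⟨s, hs, hfar⟩ := exists_far_point
    (W.image fun ρ => ((100 * (ρ.re - 1 / 2) : ℝ) : ℂ) * Complex.I) 0
  obtain ⟨d, hd⟩ : ∃ d : ℝ, d = 1 / (200 * ((W.card : ℝ) + 1)) := ⟨_, rfl⟩
  have d0 : 0 < d := by
    rw [hd]
    positivity
  obtain ⟨σ, hσ⟩ : ∃ σ : ℝ, σ = 1 / 2 + s / 100 := ⟨_, rfl⟩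
  have s1 : 1 / 2 ≤ σ := by linarith [hs.1]
  have s2 : σ ≤ 51 / 100 := by linarith [hs.2]
  have hdW : ∀ ρ ∈ W, d ≤ |σ - ρ.re| := by
    intro ρ hρ
    have h1 := hfar _ (mem_image_of_mem _ hρ)
    have h2 : ((W.image fun ρ => ((100 * (ρ.re - 1 / 2) : ℝ) : ℂ) * Complex.I).card : ℝ) ≤
        W.card := by exact_mod_cast card_image_le
    have h3 : 1 / (2 * ((W.card : ℝ) + 1)) ≤ _ :=
      (one_div_le_one_div_of_le (by positivity) (by linarith)).trans h1
    have h4 : s - (((100 * (ρ.re - 1 / 2) : ℝ) : ℂ) * Complex.I).im = 100 * (σ - ρ.re) := by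
      simp only [Complex.mul_im, Complex.ofReal_re, Complex.I_im, Complex.ofReal_im, Complex.I_re]
      rw [hσ]
      ring
    rw [h4, abs_mul, abs_of_pos (by norm_num : (0 : ℝ) < 100)] at h3
    have h5 : 1 / (2 * ((W.card : ℝ) + 1)) = 100 * d := by
      rw [hd]
      field_simp
      norm_num
    linarith
  have hsub : ∀ k < 2 * m, ∀ ρ ∈ Z (a k + 1 / 2), ρ ∈ W := fun k hk ρ hρ =>
    mem_biUnion.2 ⟨k, mem_range.2 hk, hρ⟩
  have hne : ∀ k < 2 * m, ∀ t ∈ Set.Icc (a k) (a k + 1),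
      riemannZeta₁ (σ + t * Complex.I) ≠ 0 := by
    intro k hk t ht h0
    have h1 := hdW _ (hsub k hk _ (((hZ _).1 _).2
      ⟨Metric.closedBall_subset_closedBall (by norm_num) (mem_ball_Ver s1 s2 ht), h0⟩))
    simp only [Complex.add_re, Complex.ofReal_re, Complex.mul_re, Complex.I_re, Complex.ofReal_im,
      Complex.I_im, mul_zero, mul_one, sub_zero, add_zero, sub_self, abs_zero] at h1
    linarith
  have hld : Real.log (1 + 6 / d) ≤ (Real.log (10801 * C) + 2) * Real.log T := by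
    have h1 : 6 / d = 1200 * ((W.card : ℝ) + 1) := by
      rw [hd]
      field_simp
      norm_num
    have h2 : 1 ≤ C * T ^ 2 := by nlinarith
    have h3 : Real.log (1 + 6 / d) ≤ Real.log (10801 * C * T ^ 2) :=
      Real.log_le_log (by positivity) (by rw [h1]; nlinarith)
    rw [Real.log_mul (by positivity) (by positivity), Real.log_pow] at h3
    push_cast at h3
    nlinarith
  have hunit : ∀ k < 2 * m, ∫ t in a k..a (k + 1), ‖logDeriv riemannZeta₁ (σ + t * Complex.I)‖ ≤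
      2 * C * (1 + 2 * (Real.log (10801 * C) + 2)) * Real.log T ^ 2 := by
    intro k hk
    rw [ha]
    refine (unit_Ver (Z := Z (a k + 1 / 2)) (L := 2 * C * Real.log T) d0
      (fun ρ hρ => ⟨hdW ρ (hsub k hk ρ hρ), ?_⟩) ((hZ _).2.2.1.trans (hlog k hk)) (hne k hk)
      fun t ht => ((hZ _).2.2.2 _ (mem_ball_Ver s1 s2 ht) (hne k hk t ht)).trans
        (hlog k hk)).trans ?_
    · have h1 := mem_closedBall_iff_norm.1 (((hZ _).1 ρ).1 hρ).1
      have h2 := (Complex.abs_im_le_norm _).trans h1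
      simpa only [Complex.sub_im, Complex.add_im, Complex.im_ofNat, Complex.mul_im,
        Complex.ofReal_re, Complex.I_im, Complex.ofReal_im, Complex.I_re, mul_one, mul_zero,
        add_zero, zero_add] using h2
    · have h1 : 2 * C * Real.log T * (2 * Real.log (1 + 6 / d)) ≤
          2 * C * Real.log T * (2 * ((Real.log (10801 * C) + 2) * Real.log T)) := by gcongr
      have h2 : 2 * C * Real.log T * 1 ≤ 2 * C * Real.log T * Real.log T := by gcongr
      nlinarith
  have hall : ∀ t ∈ Set.Icc (-(m : ℝ)) m, riemannZeta₁ (σ + t * Complex.I) ≠ 0 := by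
    intro t ht
    have m1 : 1 ≤ m := by exact_mod_cast (by linarith : (1 : ℝ) ≤ m)
    have t0 : 0 ≤ t + m := by linarith [ht.1]
    by_cases hk : ⌊t + m⌋₊ < 2 * m
    · refine hne _ hk t ⟨?_, ?_⟩
      · have := Nat.floor_le t0
        simp only [a]
        linarith
      · have := Nat.lt_floor_add_one (t + m)
        simp only [a]
        linarith
    · have h1 : ((2 * m : ℕ) : ℝ) ≤ t + m :=
        le_trans (by exact_mod_cast not_lt.1 hk) (Nat.floor_le t0)
      have h2 : ((2 * m - 1 : ℕ) : ℝ) = 2 * m - 1 := by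
        rw [Nat.cast_sub (by omega)]
        push_cast
        ring
      push_cast at h1
      refine hne (2 * m - 1) (by omega) t ⟨?_, ?_⟩
      · simp only [a]
        linarith
      · simp only [a]
        linarith [ht.2]
  refine ⟨σ, ⟨s1, s2⟩, fun t ht => hall t ⟨by linarith [ht.1], by linarith [ht.2]⟩, ?_⟩
  have i1 : IntervalIntegrable (fun t : ℝ => ‖logDeriv riemannZeta₁ (σ + t * Complex.I)‖)
      MeasureTheory.volume (-(m : ℝ)) m :=
    (contOn_Ver σ _ hall).intervalIntegrable_of_Icc (by linarith)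
  have e1 := intervalIntegral.sum_integral_adjacent_intervals (μ := MeasureTheory.volume)
    (f := fun t : ℝ => ‖logDeriv riemannZeta₁ (σ + t * Complex.I)‖) (a := a) (n := 2 * m)
    fun k hk => by
      rw [ha]
      exact (contOn_Ver σ _ (hne k hk)).intervalIntegrable_of_Icc (by linarith)
  have e2 : a 0 = -(m : ℝ) := by simp [a]
  have e3 : a (2 * m) = m := by
    simp only [a]
    push_cast
    ring
  rw [e2, e3] at e1
  calc _ ≤ ∫ t in (-(m : ℝ))..m, ‖logDeriv riemannZeta₁ (σ + t * Complex.I)‖ :=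
        intervalIntegral.integral_mono_interval (by linarith) (by linarith) hm1
          (Eventually.of_forall fun t => norm_nonneg _) i1
    _ ≤ ∑ _k ∈ range (2 * m),
          2 * C * (1 + 2 * (Real.log (10801 * C) + 2)) * Real.log T ^ 2 := by
        rw [← e1]
        exact sum_le_sum fun k hk => hunit k (mem_range.1 hk)
    _ = 2 * m * (2 * C * (1 + 2 * (Real.log (10801 * C) + 2)) * Real.log T ^ 2) := by
        rw [sum_const, card_range, nsmul_eq_mul]
        push_cast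
        ring
    _ ≤ 4 * T * (2 * C * (1 + 2 * (Real.log (10801 * C) + 2)) * Real.log T ^ 2) :=
        mul_le_mul_of_nonneg_right (by linarith) (by positivity)
    _ = _ := by ring

end Pool.Agent.MP_c853c5_nt.Z
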