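import Pool.Agent.MP_c853c5_nt.Z.Basic

set_option autoImplicit false

open Finset

namespace Pool.Agent.MP_c853c5_nt.Z

/-- the exponent after `m` steps -/
noncomputable def lam_Vm (K : ℝ) (m : ℕ) : ℝ :=
  2 * K * (K + m) - K * (K + 1) / 2 + K * (K + 1) / 2 * (1 - 1 / K) ^ m

lemma q_nonneg_Vm {K : ℝ} (hK : 1 ≤ K) : 0 ≤ 1 - 1 / K := by
  have : 1 / K ≤ 1 := (div_le_one (by linarith)).mpr hK
  linarith

lemma q_le_Vm {K : ℝ} (hK : 1 ≤ K) : 1 - 1 / K ≤ 1 := by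
  have : 0 ≤ 1 / K := by positivity
  linarith

lemma lam_ge_Vm {K : ℝ} (hK : 1 ≤ K) (m : ℕ) : 2 * K * m ≤ lam_Vm K m := by
  unfold lam_Vm
  have h1 : 0 ≤ K * (K + 1) / 2 * (1 - 1 / K) ^ m :=
    mul_nonneg (by positivity) (pow_nonneg (q_nonneg_Vm hK) m)
  nlinarith

lemma lam_le_Vm {K : ℝ} (hK : 1 ≤ K) (m : ℕ) : lam_Vm K m ≤ 2 * K * (K + m) := by
  unfold lam_Vm
  have h1 : (1 - 1 / K) ^ m ≤ 1 := pow_le_one₀ (q_nonneg_Vm hK) (q_le_Vm hK)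
  have h2 : 0 ≤ K * (K + 1) / 2 := by positivity
  nlinarith

lemma lam_succ_Vm {K : ℝ} (hK : 1 ≤ K) (m : ℕ) :
    K * lam_Vm K (m + 1) = 2 * (K * (K + m)) + K * (K - 1) / 2 + K * K + (K - 1) * lam_Vm K m := by
  unfold lam_Vm
  have : K ≠ 0 := by linarith
  rw [pow_succ]
  push_cast
  field_simp
  ring

lemma nat_le_exp_Vm (n : ℕ) : (n : ℝ) ≤ Real.exp n := by
  have := Real.add_one_le_exp (n : ℝ)
  linarith

lemma two_le_exp_Vm : (2 : ℝ) ≤ Real.exp 1 := by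
  have := Real.add_one_le_exp (1 : ℝ)
  linarith

lemma pow_le_exp_Vm {a b : ℝ} (ha : 0 ≤ a) (h : a ≤ Real.exp b) (n : ℕ) :
    a ^ n ≤ Real.exp (n * b) := by
  rw [Real.exp_nat_mul]
  exact pow_le_pow_left₀ ha h n

lemma fact_le_exp_Vm (n : ℕ) : (n.factorial : ℝ) ≤ Real.exp (n * n) := by
  have h1 : (n.factorial : ℝ) ≤ (n : ℝ) ^ n := by exact_mod_cast Nat.factorial_le_pow n
  exact h1.trans (pow_le_exp_Vm (Nat.cast_nonneg n) (nat_le_exp_Vm n) n)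

lemma cast_half_Vm (k : ℕ) (hk : 1 ≤ k) :
    ((k * (k - 1) / 2 : ℕ) : ℝ) = (k : ℝ) * (k - 1) / 2 := by
  have h : 2 ∣ k * (k - 1) := (Nat.even_mul_pred_self k).two_dvd
  rw [Nat.cast_div h (by norm_num), Nat.cast_mul, Nat.cast_sub hk]
  norm_num

/-- the constant in front of the second term -/
lemma pre_Vm (k s : ℕ) (hk : 1 ≤ k) (hs : ((k + s : ℕ) : ℝ) ≤ 11 * (k : ℝ) ^ 3) (l : ℝ)
    (hl : l ≤ 2 * s) :
    2 * ((k + s).factorial : ℝ) ^ 2 * ((k : ℝ) ^ 3) ^ 2 * (k.factorial : ℝ) *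
      ((2 : ℝ) ^ (k ^ 3) * (2 * k)) ^ (2 * s + k * (k - 1) / 2) * (2 : ℝ) ^ l ≤
        Real.exp (341 * (k : ℝ) ^ 6) := by
  have hK : (1 : ℝ) ≤ k := by exact_mod_cast hk
  have hs0 : (0 : ℝ) ≤ s := Nat.cast_nonneg s
  have hs' : (s : ℝ) ≤ 11 * (k : ℝ) ^ 3 := by push_cast at hs; linarith
  have p1 : (k : ℝ) ≤ (k : ℝ) ^ 3 := le_self_pow₀ hK (by norm_num)
  have p2 : (k : ℝ) ^ 2 ≤ (k : ℝ) ^ 3 := pow_le_pow_right₀ hK (by norm_num)
  have p3 : (k : ℝ) ^ 3 ≤ (k : ℝ) ^ 6 := pow_le_pow_right₀ hK (by norm_num)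
  have p6 : (k : ℝ) ^ 3 * (k : ℝ) ^ 3 = (k : ℝ) ^ 6 := by ring
  have a1 : (2 : ℝ) ≤ Real.exp ((k : ℝ) ^ 6) :=
    two_le_exp_Vm.trans (Real.exp_le_exp.mpr (by linarith))
  have a2 : ((k + s).factorial : ℝ) ^ 2 ≤ Real.exp (242 * (k : ℝ) ^ 6) := by
    refine (pow_le_exp_Vm (Nat.cast_nonneg _) (fact_le_exp_Vm (k + s)) 2).trans
      (Real.exp_le_exp.mpr ?_)
    have h0 : (0 : ℝ) ≤ ((k + s : ℕ) : ℝ) := Nat.cast_nonneg _
    have := mul_le_mul hs hs h0 (by positivity)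
    push_cast at this ⊢
    nlinarith
  have a3 : ((k : ℝ) ^ 3) ^ 2 ≤ Real.exp (6 * (k : ℝ) ^ 6) := by
    rw [← pow_mul]
    refine (pow_le_exp_Vm (Nat.cast_nonneg _) (nat_le_exp_Vm k) _).trans (Real.exp_le_exp.mpr ?_)
    push_cast
    linarith
  have a4 : (k.factorial : ℝ) ≤ Real.exp ((k : ℝ) ^ 6) :=
    (fact_le_exp_Vm k).trans (Real.exp_le_exp.mpr (by nlinarith))
  have a5 : ((2 : ℝ) ^ (k ^ 3) * (2 * k)) ^ (2 * s + k * (k - 1) / 2) ≤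
      Real.exp (69 * (k : ℝ) ^ 6) := by
    have b1 : (2 : ℝ) ^ (k ^ 3) ≤ Real.exp ((k : ℝ) ^ 3) := by
      have := pow_le_exp_Vm (by norm_num) two_le_exp_Vm (k ^ 3)
      simpa using this
    have b2 : (2 : ℝ) * k ≤ Real.exp (2 * (k : ℝ) ^ 3) := by
      have := Real.add_one_le_exp (2 * (k : ℝ) ^ 3)
      linarith
    have b3 : (2 : ℝ) ^ (k ^ 3) * (2 * k) ≤ Real.exp (3 * (k : ℝ) ^ 3) := by
      calc _ ≤ Real.exp ((k : ℝ) ^ 3) * Real.exp (2 * (k : ℝ) ^ 3) :=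
            mul_le_mul b1 b2 (by positivity) (by positivity)
        _ = _ := by rw [← Real.exp_add]; congr 1; ring
    refine (pow_le_exp_Vm (by positivity) b3 _).trans (Real.exp_le_exp.mpr ?_)
    rw [Nat.cast_add, cast_half_Vm k hk]
    push_cast
    have b4 : 2 * (s : ℝ) + (k : ℝ) * (k - 1) / 2 ≤ 23 * (k : ℝ) ^ 3 := by nlinarith
    have := mul_le_mul_of_nonneg_right b4 (show (0 : ℝ) ≤ 3 * (k : ℝ) ^ 3 by positivity)
    nlinarith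
  have a6 : (2 : ℝ) ^ l ≤ Real.exp (22 * (k : ℝ) ^ 6) := by
    calc (2 : ℝ) ^ l ≤ (2 : ℝ) ^ ((2 * s : ℕ) : ℝ) :=
          Real.rpow_le_rpow_of_exponent_le (by norm_num) (by push_cast; exact hl)
      _ = (2 : ℝ) ^ (2 * s) := Real.rpow_natCast _ _
      _ ≤ _ := (pow_le_exp_Vm (by norm_num) two_le_exp_Vm _).trans
          (Real.exp_le_exp.mpr (by push_cast; linarith))
  calc _ ≤ Real.exp ((k : ℝ) ^ 6) * Real.exp (242 * (k : ℝ) ^ 6) * Real.exp (6 * (k : ℝ) ^ 6) *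
        Real.exp ((k : ℝ) ^ 6) * Real.exp (69 * (k : ℝ) ^ 6) * Real.exp (22 * (k : ℝ) ^ 6) := by
        gcongr
    _ = _ := by simp only [← Real.exp_add]; congr 1; ring

lemma step_Vm (hR : RecStmt) (k m : ℕ) (hk : 1 ≤ k)
    (hm : ((k * (k + (m + 1)) : ℕ) : ℝ) ≤ 11 * (k : ℝ) ^ 3) (C : ℝ) (hC : 1 ≤ C)
    (ih : ∀ X : ℕ, 1 ≤ X → (JJ k (k * (k + m)) X : ℝ) ≤ C * (X : ℝ) ^ lam_Vm k m)
    (X : ℕ) (hX : 1 ≤ X) :
    (JJ k (k * (k + (m + 1))) X : ℝ) ≤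
      Real.exp (342 * (k : ℝ) ^ 6) * C * (X : ℝ) ^ lam_Vm k (m + 1) := by
  have hK : (1 : ℝ) ≤ k := by exact_mod_cast hk
  have hX1 : (1 : ℝ) ≤ X := by exact_mod_cast hX
  obtain ⟨s, hs⟩ : ∃ s, s = k * (k + m) := ⟨_, rfl⟩
  have hks : k * (k + (m + 1)) = k + s := by rw [hs]; ring
  have hsR : (s : ℝ) = k * (k + m) := by rw [hs]; push_cast; ring
  rw [hks] at hm ⊢
  rw [← hs] at ih
  obtain ⟨r, hr⟩ : ∃ r : ℝ, r = (X : ℝ) ^ (1 / (k : ℝ)) := ⟨_, rfl⟩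
  have hr1 : 1 ≤ r := by rw [hr]; exact Real.one_le_rpow hX1 (by positivity)
  have hr0 : 0 < r := by linarith
  have hrk : r ^ k = X := by
    rw [hr, one_div]
    exact Real.rpow_inv_natCast_pow (by linarith) (by omega)
  have hP1 : r ≤ ((max k ⌈r⌉₊ : ℕ) : ℝ) :=
    (Nat.le_ceil r).trans (by exact_mod_cast le_max_right _ _)
  have hP2 : ((max k ⌈r⌉₊ : ℕ) : ℝ) ≤ 2 * k * r := by
    rw [Nat.cast_max]
    refine max_le (by nlinarith) ?_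
    have := (Nat.ceil_lt_add_one hr0.le).le
    nlinarith
  have hP3 : X ≤ (max k ⌈r⌉₊) ^ k := by
    have : (X : ℝ) ≤ ((max k ⌈r⌉₊ : ℕ) : ℝ) ^ k := by
      rw [← hrk]
      exact pow_le_pow_left₀ hr0.le hP1 k
    exact_mod_cast this
  obtain ⟨p, hp1, hp2, hp3⟩ := hR k s X (max k ⌈r⌉₊) hk (le_max_left _ _) hP3
  have hp1' : r ≤ p := hP1.trans (by exact_mod_cast hp1.le)
  have hp2' : (p : ℝ) ≤ (2 : ℝ) ^ (k ^ 3) * (2 * k) * r := by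
    have h : (p : ℝ) ≤ (2 : ℝ) ^ (k ^ 3) * ((max k ⌈r⌉₊ : ℕ) : ℝ) := by exact_mod_cast hp2
    refine h.trans ?_
    rw [mul_assoc]
    gcongr
  have hrk1 : r ^ ((k : ℝ) - 1) = X / r := by
    rw [Real.rpow_sub_one hr0.ne', Real.rpow_natCast, hrk]
  have hq1 : 1 ≤ r ^ ((k : ℝ) - 1) := Real.one_le_rpow hr1 (by linarith)
  have hX' : ((X / p + 1 : ℕ) : ℝ) ≤ 2 * r ^ ((k : ℝ) - 1) := by
    have h1 : ((X / p : ℕ) : ℝ) ≤ (X : ℝ) / p := Nat.cast_div_le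
    have h2 : (X : ℝ) / p ≤ X / r := by gcongr
    push_cast
    linarith
  have hl0 : 0 ≤ lam_Vm k m := le_trans (by positivity) (lam_ge_Vm hK m)
  have hJ : (JJ k s (X / p + 1) : ℝ) ≤ C * (2 ^ lam_Vm k m * r ^ (((k : ℝ) - 1) * lam_Vm k m)) := by
    refine (ih _ (Nat.le_add_left 1 _)).trans ?_
    rw [Real.rpow_mul hr0.le, ← Real.mul_rpow (by norm_num) (by positivity)]
    gcongr
  have hY : (X : ℝ) ^ lam_Vm k (m + 1) =
      r ^ (2 * s + k * (k - 1) / 2) * (X : ℝ) ^ k * r ^ (((k : ℝ) - 1) * lam_Vm k m) := by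
    rw [← hrk, ← Real.rpow_natCast r k, ← Real.rpow_mul hr0.le, lam_succ_Vm hK,
      ← Real.rpow_natCast (r ^ (k : ℝ)) k, ← Real.rpow_mul hr0.le, ← Real.rpow_natCast r,
      ← Real.rpow_add hr0, ← Real.rpow_add hr0, Nat.cast_add, cast_half_Vm k hk]
    congr 1
    push_cast
    rw [hsR]
  have hY0 : 0 ≤ (X : ℝ) ^ lam_Vm k (m + 1) := by positivity
  have t1 : 2 * ((k : ℝ) ^ (k + s) * (X : ℝ) ^ k) ^ 2 ≤
      Real.exp (341 * (k : ℝ) ^ 6) * C * (X : ℝ) ^ lam_Vm k (m + 1) := by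
    have b1 : ((X : ℝ) ^ k) ^ 2 ≤ (X : ℝ) ^ lam_Vm k (m + 1) := by
      rw [← pow_mul, ← Real.rpow_natCast]
      refine Real.rpow_le_rpow_of_exponent_le hX1 (le_trans ?_ (lam_ge_Vm hK (m + 1)))
      push_cast
      have : (0 : ℝ) ≤ (k : ℝ) * m := by positivity
      nlinarith
    have p4 : (k : ℝ) ^ 4 ≤ (k : ℝ) ^ 6 := pow_le_pow_right₀ hK (by norm_num)
    have p0 : 1 ≤ (k : ℝ) ^ 6 := one_le_pow₀ hK
    have b2 : ((k : ℝ) ^ (k + s)) ^ 2 ≤ Real.exp (22 * (k : ℝ) ^ 6) := by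
      refine (pow_le_exp_Vm (by positivity)
        (pow_le_exp_Vm (Nat.cast_nonneg _) (nat_le_exp_Vm k) (k + s)) 2).trans
        (Real.exp_le_exp.mpr ?_)
      have := mul_le_mul_of_nonneg_right hm (show (0 : ℝ) ≤ k by positivity)
      push_cast at this ⊢
      nlinarith
    have b3 : 2 * ((k : ℝ) ^ (k + s)) ^ 2 ≤ Real.exp (341 * (k : ℝ) ^ 6) := by
      calc _ ≤ Real.exp 1 * Real.exp (22 * (k : ℝ) ^ 6) :=
            mul_le_mul two_le_exp_Vm b2 (by positivity) (by positivity)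
        _ ≤ _ := by rw [← Real.exp_add]; exact Real.exp_le_exp.mpr (by linarith)
    rw [mul_pow, ← mul_assoc]
    refine mul_le_mul (b3.trans ?_) b1 (by positivity) (by positivity)
    exact le_mul_of_one_le_right (by positivity) hC
  have t2 : 2 * ((k + s).factorial : ℝ) ^ 2 * ((k : ℝ) ^ 3) ^ 2 *
      ((p : ℝ) ^ (2 * s) * ((X : ℝ) ^ k * ((k.factorial : ℝ) * (p : ℝ) ^ (k * (k - 1) / 2)) *
        (JJ k s (X / p + 1) : ℝ))) ≤
      Real.exp (341 * (k : ℝ) ^ 6) * C * (X : ℝ) ^ lam_Vm k (m + 1) := by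
    have b1 := pre_Vm k s hk hm (lam_Vm k m) (by rw [hsR]; linarith [lam_le_Vm hK m])
    have b2 : (p : ℝ) ^ (2 * s + k * (k - 1) / 2) ≤
        ((2 : ℝ) ^ (k ^ 3) * (2 * k)) ^ (2 * s + k * (k - 1) / 2) *
          r ^ (2 * s + k * (k - 1) / 2) := by
      rw [← mul_pow]
      exact pow_le_pow_left₀ (Nat.cast_nonneg _) hp2' _
    calc _ = 2 * ((k + s).factorial : ℝ) ^ 2 * ((k : ℝ) ^ 3) ^ 2 * (k.factorial : ℝ) *
          (p : ℝ) ^ (2 * s + k * (k - 1) / 2) * (X : ℝ) ^ k * (JJ k s (X / p + 1) : ℝ) := by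
          rw [pow_add (p : ℝ)]; ring
      _ ≤ 2 * ((k + s).factorial : ℝ) ^ 2 * ((k : ℝ) ^ 3) ^ 2 * (k.factorial : ℝ) *
          (((2 : ℝ) ^ (k ^ 3) * (2 * k)) ^ (2 * s + k * (k - 1) / 2) *
            r ^ (2 * s + k * (k - 1) / 2)) * (X : ℝ) ^ k *
          (C * (2 ^ lam_Vm k m * r ^ (((k : ℝ) - 1) * lam_Vm k m))) := by gcongr
      _ = 2 * ((k + s).factorial : ℝ) ^ 2 * ((k : ℝ) ^ 3) ^ 2 * (k.factorial : ℝ) *
          ((2 : ℝ) ^ (k ^ 3) * (2 * k)) ^ (2 * s + k * (k - 1) / 2) * (2 : ℝ) ^ lam_Vm k m * C *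
          (X : ℝ) ^ lam_Vm k (m + 1) := by rw [hY]; ring
      _ ≤ _ := by gcongr
  have h3 : (JJ k (k + s) X : ℝ) ≤ 2 * ((k : ℝ) ^ (k + s) * (X : ℝ) ^ k) ^ 2 +
      2 * ((k + s).factorial : ℝ) ^ 2 * ((k : ℝ) ^ 3) ^ 2 *
      ((p : ℝ) ^ (2 * s) * ((X : ℝ) ^ k * ((k.factorial : ℝ) * (p : ℝ) ^ (k * (k - 1) / 2)) *
        (JJ k s (X / p + 1) : ℝ))) := by exact_mod_cast hp3
  have h4 : 2 * Real.exp (341 * (k : ℝ) ^ 6) ≤ Real.exp (342 * (k : ℝ) ^ 6) := by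
    have p0 : 1 ≤ (k : ℝ) ^ 6 := one_le_pow₀ hK
    calc _ ≤ Real.exp 1 * Real.exp (341 * (k : ℝ) ^ 6) := by gcongr; exact two_le_exp_Vm
      _ ≤ _ := by rw [← Real.exp_add]; exact Real.exp_le_exp.mpr (by linarith)
  calc _ ≤ 2 * Real.exp (341 * (k : ℝ) ^ 6) * C * (X : ℝ) ^ lam_Vm k (m + 1) := by linarith
    _ ≤ _ := by gcongr

lemma ind_Vm (hR : RecStmt) (k : ℕ) (hk : 1 ≤ k) (m : ℕ) (hm : k + m ≤ 11 * k ^ 2) :
    ∀ X : ℕ, 1 ≤ X → (JJ k (k * (k + m)) X : ℝ) ≤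
      Real.exp (342 * (k : ℝ) ^ 6 * m) * (X : ℝ) ^ lam_Vm k m := by
  induction m with
  | zero =>
    intro X _
    have h1 : (JJ k (k * (k + 0)) X : ℝ) ≤ (X : ℝ) ^ (2 * (k * (k + 0))) := by
      exact_mod_cast JJ_le k _ X
    refine h1.trans (le_of_eq ?_)
    rw [← Real.rpow_natCast]
    simp only [Nat.cast_zero, mul_zero, Real.exp_zero, one_mul]
    congr 1
    unfold lam_Vm
    push_cast
    ring
  | succ m ih =>
    intro X hX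
    have h1 : ((k * (k + (m + 1)) : ℕ) : ℝ) ≤ 11 * (k : ℝ) ^ 3 := by
      have : k * (k + (m + 1)) ≤ 11 * k ^ 3 :=
        (Nat.mul_le_mul_left k hm).trans (le_of_eq (by ring))
      exact_mod_cast this
    have := step_Vm hR k m hk h1 _ (Real.one_le_exp (by positivity)) (ih (by omega)) X hX
    rw [← Real.exp_add] at this
    refine this.trans (le_of_eq ?_)
    congr 2
    push_cast
    ring

theorem vm (hR : RecStmt) : VmStmt := by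
  refine ⟨11 * 342, by norm_num, fun k X hk hX => ?_⟩
  have hK : (1 : ℝ) ≤ k := by exact_mod_cast hk
  have hX1 : (1 : ℝ) ≤ X := by exact_mod_cast hX
  have hle : k ≤ 11 * k ^ 2 := by nlinarith
  obtain ⟨m, hm⟩ : ∃ m, k + m = 11 * k ^ 2 := ⟨11 * k ^ 2 - k, by omega⟩
  have hmR : (k : ℝ) + m = 11 * (k : ℝ) ^ 2 := by exact_mod_cast hm
  have h := ind_Vm hR k hk m hm.le X hX
  rw [hm, show k * (11 * k ^ 2) = 11 * k ^ 3 by ring] at h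
  refine h.trans (mul_le_mul (Real.exp_le_exp.mpr ?_)
    (Real.rpow_le_rpow_of_exponent_le hX1 ?_) (by positivity) (by positivity))
  · have h1 : (m : ℝ) ≤ 11 * (k : ℝ) ^ 2 := by linarith
    calc 342 * (k : ℝ) ^ 6 * m ≤ 342 * (k : ℝ) ^ 6 * (11 * (k : ℝ) ^ 2) := by gcongr
      _ = _ := by ring
  · unfold lam_Vm
    have h1 : 1 - 1 / (k : ℝ) ≤ Real.exp (-(1 / k)) := by
      have := Real.add_one_le_exp (-(1 / (k : ℝ)))
      linarith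
    have h2 := pow_le_exp_Vm (q_nonneg_Vm hK) h1 m
    have h3 : (m : ℝ) * -(1 / k) = 1 - 11 * k := by
      have : (m : ℝ) = 11 * (k : ℝ) ^ 2 - k := by linarith
      rw [this]
      field_simp
      ring
    rw [h3] at h2
    have h4 : (k : ℝ) * (k + 1) / 2 ≤ Real.exp (2 * k) := by
      have := pow_le_exp_Vm (Nat.cast_nonneg k) (nat_le_exp_Vm k) 2
      push_cast at this
      nlinarith
    have h5 : (k : ℝ) * (k + 1) / 2 * (1 - 1 / k) ^ m ≤ Real.exp (-8) := by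
      calc _ ≤ Real.exp (2 * k) * Real.exp (1 - 11 * k) :=
            mul_le_mul h4 h2 (pow_nonneg (q_nonneg_Vm hK) m) (by positivity)
        _ ≤ _ := by rw [← Real.exp_add]; exact Real.exp_le_exp.mpr (by linarith)
    have h6 : Real.exp (-8) ≤ 1 / 100 := by
      have := pow_le_pow_left₀ (by norm_num) two_le_exp_Vm 8
      rw [← Real.exp_nat_mul] at this
      rw [Real.exp_neg, one_div]
      refine inv_anti₀ (by norm_num) (le_trans ?_ (this.trans (le_of_eq (by norm_num))))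
      norm_num
    rw [hmR]
    nlinarith

end Pool.Agent.MP_c853c5_nt.Z
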