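import Pool.Agent.MP_c853c5_nt.Z.Basic

set_option autoImplicit false

open Finset Filter

namespace Pool.Agent.MP_c853c5_nt.Z

/-- zeros of bounded height stay away from the line of real part one -/
lemma low_ZF (t₀ : ℝ) : ∃ b : ℝ, b < 1 ∧ ∀ ρ : ℂ, riemannZeta₁ ρ = 0 → |ρ.im| ≤ t₀ → ρ.re ≤ b := by
  set K : Set ℂ := Metric.closedBall 0 (1 + |t₀|) ∩ riemannZeta₁ ⁻¹' {0} with hK
  have hc : IsCompact K :=
    (isCompact_closedBall _ _).inter_right
      (isClosed_singleton.preimage differentiable_riemannZeta₁.continuous)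
  have hmem : ∀ ρ : ℂ, riemannZeta₁ ρ = 0 → |ρ.im| ≤ t₀ → 0 ≤ ρ.re → ρ ∈ K := by
    intro ρ h0 h1 h2
    refine ⟨?_, h0⟩
    rw [mem_closedBall_zero_iff]
    have h3 := Complex.norm_le_abs_re_add_abs_im ρ
    have h4 := re_lt_one h0
    rw [abs_of_nonneg h2] at h3
    linarith [le_abs_self t₀]
  rcases K.eq_empty_or_nonempty with he | hne
  · refine ⟨0, one_pos, fun ρ h0 h1 => ?_⟩
    by_contra h2
    have := hmem ρ h0 h1 (not_le.mp h2).le
    rw [he] at this
    exact this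
  · obtain ⟨z, hz, hmax⟩ := hc.exists_isMaxOn hne Complex.continuous_re.continuousOn
    refine ⟨max z.re 0, max_lt (re_lt_one hz.2) one_pos, fun ρ h0 h1 => ?_⟩
    rcases le_total 0 ρ.re with h2 | h2
    · exact le_max_of_le_left (hmax (hmem ρ h0 h1 h2))
    · exact le_max_of_le_right h2

theorem zf (h0 : ZF0Stmt) : ZFStmt := by
  obtain ⟨t₀, ht₀, h⟩ := h0
  obtain ⟨b, hb, hlow⟩ := low_ZF t₀
  have ht : Tendsto (fun T : ℝ => Real.log T ^ (-(39 / 40) : ℝ)) atTop (nhds 0) :=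
    (tendsto_rpow_neg_atTop (by norm_num : (0 : ℝ) < 39 / 40)).comp Real.tendsto_log_atTop
  obtain ⟨T₁, hT₁⟩ := eventually_atTop.1 (ht.eventually (ge_mem_nhds (sub_pos.2 hb)))
  refine ⟨max T₁ 3, le_max_right _ _, fun T hT ρ hρ him => ?_⟩
  rcases le_total |ρ.im| t₀ with h1 | h1
  · have := hT₁ T ((le_max_left _ _).trans hT)
    linarith [hlow ρ hρ h1]
  · have h2 := h ρ (zeta_of_zeta1 hρ) h1
    have h3 : 0 < Real.log |ρ.im| := Real.log_pos (by linarith)
    have h4 : Real.log |ρ.im| ≤ Real.log T := Real.log_le_log (by linarith) him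
    have h5 := Real.rpow_le_rpow_of_nonpos h3 h4 (by norm_num : (-(39 / 40) : ℝ) ≤ 0)
    linarith

end Pool.Agent.MP_c853c5_nt.Z
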