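import Pool.Agent.MP_c853c5_nt.Z.Basic

set_option autoImplicit false

open Finset

namespace Pool.Agent.MP_c853c5_nt.Z

lemma loc_ZF0 (hL : LocStmt) {c : ℂ} {r M : ℝ} (hc : 1 < c.re) (hr : 0 < r) (hM : 1 ≤ M)
    (h1 : ∀ z ∈ Metric.closedBall c (19 / 10 * r), z ≠ 1 ∧
      ‖riemannZeta z‖ ≤ Real.exp M * ‖riemannZeta c‖) (h2 : 1 ≤ Real.exp M * ‖riemannZeta c‖) :
    (-logDeriv riemannZeta c).re ≤ 30000 * M / r ∧ ∀ ρ : ℂ, riemannZeta ρ = 0 → ρ.im = c.im →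
      c.re - ρ.re ≤ 9 / 5 * r → (-logDeriv riemannZeta c).re ≤ 30000 * M / r - 1 / (c.re - ρ.re) := by
  obtain ⟨Z, hZ, hm, hb⟩ := hL riemannZeta c r M hr hM
    (fun z hz => DifferentiableOn.analyticAt (s := {1}ᶜ)
      (fun w hw => (differentiableAt_riemannZeta hw).differentiableWithinAt)
      (isOpen_compl_singleton.mem_nhds (h1 z hz).1))
    (riemannZeta_ne_zero_of_one_le_re hc.le)
    (fun z hz => (h1 z (Metric.sphere_subset_closedBall hz)).2) h2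
  have hlt : ∀ ρ : ℂ, riemannZeta ρ = 0 → 0 < c.re - ρ.re := fun ρ hρ => by
    have : ρ.re < 1 := not_le.1 fun h => riemannZeta_ne_zero_of_one_le_re h hρ
    linarith
  have h0 : ∀ ρ ∈ Z, 0 ≤ (((analyticOrderAt riemannZeta ρ).toNat : ℂ) / (c - ρ)).re := fun ρ hρ => by
    rw [div_eq_mul_inv, ← Complex.ofReal_natCast, Complex.re_ofReal_mul, Complex.inv_re,
      Complex.sub_re]
    exact mul_nonneg (Nat.cast_nonneg _)
      (div_nonneg (hlt ρ ((hZ ρ).1 hρ).2).le (Complex.normSq_nonneg _))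
  have h3 := (abs_le.1 ((Complex.abs_re_le_norm _).trans hb)).1
  rw [Complex.sub_re, Complex.re_sum] at h3
  rw [Complex.neg_re]
  refine ⟨by linarith [sum_nonneg h0], fun ρ hρ hi hd => ?_⟩
  have e : c - ρ = ((c.re - ρ.re : ℝ) : ℂ) := Complex.ext (by simp) (by simp [hi])
  have hρZ : ρ ∈ Z := (hZ ρ).2 ⟨by
    rw [Metric.mem_closedBall, dist_comm, dist_eq_norm, e, Complex.norm_real,
      Real.norm_of_nonneg (hlt ρ hρ).le]
    exact hd, hρ⟩
  have h4 := single_le_sum h0 hρZ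
  have h5 : 1 / (c.re - ρ.re) ≤ (((analyticOrderAt riemannZeta ρ).toNat : ℂ) / (c - ρ)).re := by
    rw [e, Complex.div_ofReal_re, Complex.natCast_re]
    exact div_le_div_of_nonneg_right (by exact_mod_cast hm ρ hρZ) (hlt ρ hρ).le
  linarith

lemma pow_ZF0 {L : ℝ} (hL : 0 ≤ L) (n : ℕ) : L ^ ((n : ℝ) / 40) = (L ^ (1 / 40 : ℝ)) ^ n := by
  rw [← Real.rpow_natCast, ← Real.rpow_mul hL]
  congr 1
  ring

lemma near_ZF0 {C t₀ G y : ℝ} (hC : 1 ≤ C) (ht : 3 ≤ t₀) (hN : ∀ s : ℂ, t₀ ≤ |s.im| →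
      1 - Real.log |s.im| ^ (-(19 / 20) : ℝ) ≤ s.re → s.re ≤ 2 →
      ‖riemannZeta s‖ ≤ C * Real.log |s.im|) (hG : t₀ + 1 ≤ G) (hy : 1 ≤ y)
    (e : Real.log G ^ (-(19 / 20) : ℝ) = y⁻¹) {c : ℂ} (h1 : 1 ≤ c.re) (h2 : c.re ≤ 3 / 2)
    (h3 : G ≤ |c.im|) (h4 : |c.im| ≤ 2 * G) {z : ℂ}
    (hz : z ∈ Metric.closedBall c (19 / 10 * (y⁻¹ / 4))) :
    z ≠ 1 ∧ ‖riemannZeta z‖ ≤ 2 * C * Real.log G := by
  rw [Metric.mem_closedBall, dist_eq_norm] at hz
  have y1 : y⁻¹ ≤ 1 := inv_le_one_of_one_le₀ hy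
  have y0 : 0 < y⁻¹ := by positivity
  have a1 := abs_le.1 ((Complex.abs_re_le_norm _).trans hz)
  have a2 := abs_le.1 ((abs_abs_sub_abs_le_abs_sub z.im c.im).trans
    ((Complex.abs_im_le_norm (z - c)).trans hz))
  rw [Complex.sub_re] at a1
  have a3 : t₀ ≤ |z.im| := by linarith [a2.1]
  have a4 : Real.log |z.im| ≤ 2 * Real.log G := by
    have := Real.log_le_log (by linarith) (show |z.im| ≤ G ^ 2 by nlinarith [a2.2])
    rwa [Real.log_pow, Nat.cast_ofNat] at this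
  have a5 : 0 < Real.log |z.im| := Real.log_pos (by linarith)
  have a6 : y⁻¹ / 2 ≤ Real.log |z.im| ^ (-(19 / 20) : ℝ) := by
    refine le_trans ?_ (Real.rpow_le_rpow_of_nonpos a5 a4 (by norm_num))
    rw [Real.mul_rpow (by norm_num) (by linarith), e]
    have : (2 : ℝ) ^ (-1 : ℝ) ≤ 2 ^ (-(19 / 20) : ℝ) :=
      Real.rpow_le_rpow_of_exponent_le (by norm_num) (by norm_num)
    rw [Real.rpow_neg_one] at this
    nlinarith
  refine ⟨fun h => ?_, (hN z a3 (by linarith [a1.1]) (by linarith [a1.2])).trans (by nlinarith)⟩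
  rw [h, Complex.one_im, abs_zero] at a3
  linarith

theorem zf0 (hN : NearStmt) (hL : LocStmt) (hT : T341Stmt) : ZF0Stmt := by
  obtain ⟨C, t₀, hC, ht, hN⟩ := hN
  obtain ⟨hT1, ⟨C', hC', hT2⟩, hT3⟩ := hT
  have ev : ∀ᶠ x : ℝ in Filter.atTop, 10 ^ 7 ≤ x ∧ 300 * C' < x ∧
      2 * C ≤ Real.exp (1 / 10 ^ 7 * x) / x ^ ((80 : ℕ) : ℝ) :=
    (Filter.eventually_ge_atTop _).and ((Filter.eventually_gt_atTop _).and
      ((tendsto_exp_mul_div_rpow_atTop _ _ (by norm_num)).eventually_ge_atTop _))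
  obtain ⟨G₀, hG₀⟩ := Filter.eventually_atTop.1 (((tendsto_rpow_atTop
    (show (0 : ℝ) < 1 / 40 by norm_num)).comp Real.tendsto_log_atTop).eventually ev)
  refine ⟨max (t₀ + 1) G₀, le_max_of_le_left (by linarith), fun ρ hρ hG => not_lt.1 fun hβ => ?_⟩
  obtain ⟨hG1, hG2⟩ := max_le_iff.1 hG
  obtain ⟨x1, x2, x3⟩ := hG₀ _ hG2
  have hL0 : 0 ≤ Real.log |ρ.im| := Real.log_nonneg (by linarith)
  have e38 := pow_ZF0 hL0 38
  have e39 := pow_ZF0 hL0 39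
  have e40 := pow_ZF0 hL0 40
  simp only [Function.comp_apply] at x1 x2 x3
  generalize Real.log |ρ.im| ^ (1 / 40 : ℝ) = x at *
  have x0 : 0 < x := by linarith
  rw [Real.rpow_natCast, le_div_iff₀ (by positivity)] at x3
  have hy : 1 ≤ x ^ 38 := one_le_pow₀ (by linarith)
  have hw : x ≤ x ^ 39 := le_self_pow₀ (by linarith) (by norm_num)
  have w0 : 0 < x ^ 39 := by positivity
  have f38 : Real.log |ρ.im| ^ (-(19 / 20) : ℝ) = (x ^ 38)⁻¹ := by
    rw [Real.rpow_neg hL0, ← e38]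
    norm_num
  have f39 : Real.log |ρ.im| ^ (-(39 / 40) : ℝ) = (x ^ 39)⁻¹ := by
    rw [Real.rpow_neg hL0, ← e39]
    norm_num
  have f40 : Real.log |ρ.im| = x ^ 40 := by
    rw [← e40]
    norm_num
  rw [f39] at hβ
  have l0 : 0 < (x ^ 39)⁻¹ := by positivity
  have l1 : (x ^ 39)⁻¹ ≤ 1 / 12 := by
    rw [one_div]
    exact inv_anti₀ (by norm_num) (by linarith)
  have key : ∀ c : ℂ, c.re = 1 + 6 * (x ^ 39)⁻¹ → |ρ.im| ≤ |c.im| → |c.im| ≤ 2 * |ρ.im| → _ :=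
    fun c c1 c2 c3 => by
      have b1 : 2 * C * Real.log |ρ.im| ≤ Real.exp (1 / 10 ^ 7 * x) * ‖riemannZeta c‖ := by
        have b2 := hT3 c (by linarith) (by linarith)
        have b3 : (x ^ 40)⁻¹ ≤ (x ^ 39)⁻¹ :=
          inv_anti₀ w0 (pow_le_pow_right₀ (by linarith) (by norm_num))
        refine le_trans (le_of_eq ?_) (mul_le_mul x3 (show (x ^ 40)⁻¹ ≤ _ by linarith)
          (by positivity) (by positivity))
        rw [f40]
        field_simp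
      exact loc_ZF0 hL (c := c) (r := (x ^ 38)⁻¹ / 4) (M := 1 / 10 ^ 7 * x) (by linarith)
        (by positivity) (by linarith) (fun z hz =>
          (near_ZF0 hC ht hN hG1 hy f38 (by linarith) (by linarith) c2 c3 hz).imp_right
            fun h => h.trans b1) (le_trans (by
          rw [f40]
          have := one_le_mul_of_one_le_of_one_le hC (one_le_pow₀ (n := 40) (show 1 ≤ x by linarith))
          linarith) b1)
  have hρ1 : ρ.re < 1 := not_le.1 fun h => riemannZeta_ne_zero_of_one_le_re h hρ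
  have k1 := (key ((1 + 6 * (x ^ 39)⁻¹ : ℝ) + ρ.im * Complex.I) (by simp [-Complex.ofReal_add])
    (by simp [-Complex.ofReal_add]) (by simp [-Complex.ofReal_add]; linarith [abs_nonneg ρ.im])).2 ρ hρ
    (by simp [-Complex.ofReal_add])
  have k2 := (key ((1 + 6 * (x ^ 39)⁻¹ : ℝ) + (2 * ρ.im : ℝ) * Complex.I)
    (by simp [-Complex.ofReal_add])
    (by simp [-Complex.ofReal_add, abs_mul]; linarith [abs_nonneg ρ.im])
    (by simp [-Complex.ofReal_add, abs_mul])).1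
  have k3 := hT1 (1 + 6 * (x ^ 39)⁻¹) ρ.im (by linarith)
  have k4 := hT2 (1 + 6 * (x ^ 39)⁻¹) (by linarith) (by linarith)
  have e1 : (((1 + 6 * (x ^ 39)⁻¹ : ℝ) : ℂ) + ρ.im * Complex.I).re = 1 + 6 * (x ^ 39)⁻¹ := by
    simp [-Complex.ofReal_add]
  have e2 : 30000 * (1 / 10 ^ 7 * x) / ((x ^ 38)⁻¹ / 4) = 12 / 1000 * x ^ 39 := by
    field_simp
    norm_num
  have e3 : 1 / (1 + 6 * (x ^ 39)⁻¹ - 1) = x ^ 39 / 6 := by
    field_simp
    ring
  have e4 : x ^ 39 / 7 ≤ 1 / (1 + 6 * (x ^ 39)⁻¹ - ρ.re) := by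
    refine le_trans (le_of_eq ?_) (one_div_le_one_div_of_le (by linarith)
      (show _ ≤ 7 * (x ^ 39)⁻¹ by linarith))
    field_simp
  have e5 : 7 * (x ^ 39)⁻¹ ≤ 9 / 5 * ((x ^ 38)⁻¹ / 4) := by
    have : (x ^ 39)⁻¹ = x⁻¹ * (x ^ 38)⁻¹ := by
      field_simp
    have b : x⁻¹ ≤ 1 / 20 := by
      rw [one_div]
      exact inv_anti₀ (by norm_num) (by linarith)
    have b' : 0 < (x ^ 38)⁻¹ := by positivity
    rw [this]
    nlinarith
  rw [e1, e2] at k1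
  rw [e2] at k2
  rw [e3] at k4
  have k5 := k1 (by linarith)
  simp only [Complex.sub_re, Complex.neg_re, neg_mul, Complex.mul_re, Complex.re_ofNat,
    Complex.im_ofNat, zero_mul, sub_zero] at k2 k3 k4 k5
  linarith

end Pool.Agent.MP_c853c5_nt.Z
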