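import Pool.Agent.MP_c853c5_nt.Z.Basic

open Finset Filter

namespace Pool.Agent.MP_c853c5_nt.Z

theorem level_ZFar {A b η h s : ℝ} (hb : 0 < b) (hAb : A * b < 1) (hη : 0 < η) (hZ : ZD A)
    (hh : h = (1 - A * b) * η / 4) (hs : 1 / 2 ≤ s) : ∃ K : ℝ, ∀ x : ℝ, 1 ≤ x → ∀ Z : Finset ℂ,
      (∀ ρ ∈ Z, riemannZeta₁ ρ = 0 ∧ s ≤ ρ.re ∧ ρ.re ≤ s + h ∧ ρ.re ≤ 1 - η ∧ |ρ.im| ≤ x ^ b) →
        ∑ ρ ∈ Z, ord ρ * x ^ (ρ.re - 1) ≤ K * x ^ (-(2 * h)) := by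
  by_cases hc : s ≤ 1 - η
  swap
  · refine ⟨0, fun x _ Z hZ => ?_⟩
    rw [zero_mul, sum_eq_zero fun ρ hρ => (hc ((hZ ρ hρ).2.1.trans (hZ ρ hρ).2.2.2.1)).elim]
  have h0 : 0 < h := by rw [hh]; have := sub_pos.2 hAb; positivity
  obtain ⟨K, hK⟩ := hZ s (h / b) hs (by linarith) (by positivity)
  refine ⟨|K|, fun x hx Z hZ => ?_⟩
  have hx0 : 0 < x := by linarith
  have h1 := hK (x ^ b) Z (Real.one_le_rpow hx hb.le) fun ρ hρ =>
    ⟨(hZ ρ hρ).1, (hZ ρ hρ).2.1, (hZ ρ hρ).2.2.2.2⟩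
  calc ∑ ρ ∈ Z, ord ρ * x ^ (ρ.re - 1) ≤ ∑ ρ ∈ Z, ord ρ * x ^ (s + h - 1) :=
        sum_le_sum fun ρ hρ => mul_le_mul_of_nonneg_left
          (Real.rpow_le_rpow_of_exponent_le hx (by linarith [(hZ ρ hρ).2.2.1])) (ord_nonneg ρ)
    _ ≤ |K| * (x ^ b) ^ (A * (1 - s) + h / b) * x ^ (s + h - 1) := by
        rw [← sum_mul]
        refine mul_le_mul_of_nonneg_right (h1.trans ?_) (by positivity)
        exact mul_le_mul_of_nonneg_right (le_abs_self K) (by positivity)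
    _ ≤ |K| * x ^ (-(2 * h)) := by
        rw [mul_assoc, ← Real.rpow_mul hx0.le, ← Real.rpow_add hx0]
        refine mul_le_mul_of_nonneg_left (Real.rpow_le_rpow_of_exponent_le hx ?_) (abs_nonneg K)
        have e : b * (A * (1 - s) + h / b) = A * b * (1 - s) + h := by field_simp
        have : (1 - A * b) * η ≤ (1 - A * b) * (1 - s) :=
          mul_le_mul_of_nonneg_left (by linarith) (by linarith)
        rw [e]
        linarith

theorem zFar : ZFarStmt := by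
  intro A b η _ hb hAb hη _ hZ ε hε
  obtain ⟨h, hh⟩ : ∃ h, h = (1 - A * b) * η / 4 := ⟨_, rfl⟩
  have h0 : 0 < h := by rw [hh]; have := sub_pos.2 hAb; positivity
  choose K hK using fun i : ℕ => level_ZFar (s := 1 / 2 + i * h) hb hAb hη hZ hh
    (le_add_of_nonneg_right (by positivity))
  have ht : Tendsto (fun x : ℝ => (∑ i ∈ range (⌊1 / 2 / h⌋₊ + 1), K i) * x ^ (-(2 * h)))
      atTop (nhds 0) := by
    simpa using (tendsto_rpow_neg_atTop (by positivity : 0 < 2 * h)).const_mul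
      (∑ i ∈ range (⌊1 / 2 / h⌋₊ + 1), K i)
  filter_upwards [ht.eventually (ge_mem_nhds hε), eventually_ge_atTop 1] with x hx hx1 Z hZ
  refine le_trans ?_ hx
  rw [← sum_fiberwise_of_maps_to (t := range (⌊1 / 2 / h⌋₊ + 1))
    (g := fun ρ : ℂ => ⌊(ρ.re - 1 / 2) / h⌋₊) fun ρ hρ => mem_range.2 (Nat.lt_succ_of_le
      (Nat.floor_mono (by gcongr; linarith [(hZ ρ hρ).2.2.1]))), sum_mul]
  refine sum_le_sum fun i _ => hK i x hx1 _ fun ρ hρ => ?_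
  obtain ⟨h1, rfl⟩ := mem_filter.1 hρ
  obtain ⟨z1, z2, z3, z4⟩ := hZ ρ h1
  have a1 := Nat.floor_le (div_nonneg (sub_nonneg.2 z2) h0.le)
  have a2 := Nat.lt_floor_add_one ((ρ.re - 1 / 2) / h)
  rw [le_div_iff₀ h0] at a1
  rw [div_lt_iff₀ h0] at a2
  exact ⟨z1, by linarith, by linarith, z3, z4⟩

end Pool.Agent.MP_c853c5_nt.Z
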