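import Pool.Agent.MP_c853c5_nt.Z.Basic

set_option autoImplicit false

open Finset Filter

namespace Pool.Agent.MP_c853c5_nt.Z

lemma lim_ZNear {δ : ℝ} (hδ : 0 < δ) : ∀ᶠ x : ℝ in atTop,
    (Real.log x ^ (1 / 40 : ℝ)) ^ (440 : ℝ) *
      Real.exp (-(1 / 2) * Real.log x ^ (1 / 40 : ℝ)) ≤ δ :=
  ((tendsto_rpow_mul_exp_neg_mul_atTop_nhds_zero 440 (1 / 2) (by norm_num)).comp
    ((tendsto_rpow_atTop (by norm_num)).comp Real.tendsto_log_atTop)).eventually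
    (eventually_le_nhds hδ)

theorem zNear (hN : NDStmt) (hZ : ZFStmt) : ZNearStmt := by
  obtain ⟨η, C, hη, hη', hC, hN⟩ := hN
  obtain ⟨T₀, hT₀, hZ⟩ := hZ
  refine ⟨η, hη, hη', fun ε hε => ?_⟩
  filter_upwards [eventually_ge_atTop (T₀ ^ 2),
    lim_ZNear (δ := ε / (2 * C * Real.exp 1)) (by positivity)] with x hx hl Z hZ'
  have hx9 : 9 ≤ x := by nlinarith
  have hx0 : 0 < x := by linarith
  have hT : T₀ ≤ √x := Real.le_sqrt_of_sq_le hx
  have hL : 1 ≤ Real.log x := by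
    rw [Real.le_log_iff_exp_le hx0]
    linarith [Real.exp_one_lt_d9]
  have hlT : Real.log √x = Real.log x / 2 := Real.log_sqrt hx0.le
  have hpw : ∀ y : ℝ, x ^ y = Real.exp (Real.log x * y) := fun y => Real.rpow_def_of_pos hx0 y
  have hpT : ∀ y : ℝ, √x ^ y = Real.exp (Real.log x / 2 * y) := fun y => by
    rw [Real.rpow_def_of_pos (by linarith), hlT]
  have hN' := hN √x
  have hZ'' := hZ √x hT
  simp only [hpT] at hN'
  simp only [hpw]
  rw [hlT] at hN' hZ''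
  generalize Real.log x = L at hL hl hN' hZ'' ⊢
  have L0 : 0 < L := by linarith
  rw [← Real.rpow_mul L0.le, show (1 / 40 * 440 : ℝ) = (11 : ℕ) by norm_num, Real.rpow_natCast,
    le_div_iff₀ (by positivity)] at hl
  have hu : ∀ ρ ∈ Z, L ^ (1 / 40 : ℝ) ≤ (1 - ρ.re) * L := fun ρ hρ => by
    have h1 := hZ'' ρ (hZ' ρ hρ).1 (hZ' ρ hρ).2.2
    have h2 : L ^ (-(39 / 40) : ℝ) ≤ (L / 2) ^ (-(39 / 40) : ℝ) :=
      Real.rpow_le_rpow_of_nonpos (by positivity) (by linarith) (by norm_num)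
    rw [show (1 / 40 : ℝ) = -(39 / 40) + 1 by norm_num, Real.rpow_add_one L0.ne']
    exact mul_le_mul_of_nonneg_right (by linarith) L0.le
  have u0 : 0 ≤ L ^ (1 / 40 : ℝ) := by positivity
  generalize L ^ (1 / 40 : ℝ) = u at hl hu u0
  rw [← sum_fiberwise_of_maps_to (t := range (⌊L⌋₊ + 1)) (g := fun ρ : ℂ => ⌊(1 - ρ.re) * L⌋₊)
    fun ρ hρ => mem_range.2 (Nat.lt_succ_of_le (Nat.floor_le_floor
      (by nlinarith [(hZ' ρ hρ).2.1])))]
  refine (sum_le_card_nsmul _ _ (C * L ^ 10 * (Real.exp 1 * Real.exp (-(1 / 2) * u)))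
    fun i _ => ?_).trans ?_
  · rcases (Z.filter fun ρ : ℂ => ⌊(1 - ρ.re) * L⌋₊ = i).eq_empty_or_nonempty with h | ⟨ρ₀, h₀⟩
    · rw [h, sum_empty]
      positivity
    have hi : ∀ ρ ∈ Z.filter fun ρ : ℂ => ⌊(1 - ρ.re) * L⌋₊ = i,
        (i : ℝ) ≤ (1 - ρ.re) * L ∧ (1 - ρ.re) * L < i + 1 := fun ρ hρ => by
      rw [mem_filter] at hρ
      rw [← hρ.2]
      exact ⟨Nat.floor_le (u0.trans (hu ρ hρ.1)), Nat.lt_floor_add_one _⟩
    have h1 : u ≤ i + 1 := (hu ρ₀ (mem_filter.1 h₀).1).trans (hi ρ₀ h₀).2.le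
    have h2 : 0 ≤ ((i : ℝ) + 1) / L := by positivity
    have h3 := hN' (max (1 - η) (1 - ((i : ℝ) + 1) / L)) _ (by linarith) (le_max_left _ _)
      (max_le (by linarith) (by linarith)) fun ρ hρ =>
        ⟨(hZ' ρ (mem_filter.1 hρ).1).1, max_le (hZ' ρ (mem_filter.1 hρ).1).2.1 (by
          have := (le_div_iff₀ L0).2 (hi ρ hρ).2.le
          linarith), (hZ' ρ (mem_filter.1 hρ).1).2.2⟩
    have h4 : L / 2 * (1 - max (1 - η) (1 - ((i : ℝ) + 1) / L)) ≤ ((i : ℝ) + 1) / 2 := by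
      have h5 : 1 - max (1 - η) (1 - ((i : ℝ) + 1) / L) ≤ ((i : ℝ) + 1) / L := by
        linarith [le_max_right (1 - η) (1 - ((i : ℝ) + 1) / L)]
      have h6 := (le_div_iff₀ L0).1 h5
      linarith
    have h7 : (L / 2) ^ 10 ≤ L ^ 10 := pow_le_pow_left₀ (by positivity) (by linarith) 10
    calc _ ≤ ∑ ρ ∈ Z.filter fun ρ : ℂ => ⌊(1 - ρ.re) * L⌋₊ = i, ord ρ * Real.exp (-(i : ℝ)) :=
          sum_le_sum fun ρ hρ => mul_le_mul_of_nonneg_left
            (Real.exp_le_exp.2 (by linarith [(hi ρ hρ).1])) (ord_nonneg ρ)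
      _ ≤ C * Real.exp (((i : ℝ) + 1) / 2) * L ^ 10 * Real.exp (-(i : ℝ)) := by
          rw [← sum_mul]
          refine mul_le_mul_of_nonneg_right (h3.trans ?_) (Real.exp_pos _).le
          gcongr
      _ = C * L ^ 10 * Real.exp (((i : ℝ) + 1) / 2 + -(i : ℝ)) := by
          rw [Real.exp_add]
          ring
      _ ≤ _ := by
          rw [← Real.exp_add]
          exact mul_le_mul_of_nonneg_left (Real.exp_le_exp.2 (by linarith)) (by positivity)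
  · rw [card_range, nsmul_eq_mul]
    have h1 : ((⌊L⌋₊ + 1 : ℕ) : ℝ) ≤ 2 * L := by
      push_cast
      linarith [Nat.floor_le L0.le]
    exact (mul_le_mul_of_nonneg_right h1 (by positivity)).trans (le_of_eq_of_le (by ring) hl)

end Pool.Agent.MP_c853c5_nt.Z
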