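import Pool.Agent.MP_c853c5_nt.Z.Hold
import Pool.Agent.MP_c853c5_nt.Z.Lin
import Pool.Agent.MP_c853c5_nt.Z.Step
import Pool.Agent.MP_c853c5_nt.Z.Rec
import Pool.Agent.MP_c853c5_nt.Z.Vm
import Pool.Agent.MP_c853c5_nt.Z.Bil
import Pool.Agent.MP_c853c5_nt.Z.D
import Pool.Agent.MP_c853c5_nt.Z.Tay
import Pool.Agent.MP_c853c5_nt.Z.U
import Pool.Agent.MP_c853c5_nt.Z.Exp
import Pool.Agent.MP_c853c5_nt.Z.Ker
import Pool.Agent.MP_c853c5_nt.Z.PSum
import Pool.Agent.MP_c853c5_nt.Z.EM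
import Pool.Agent.MP_c853c5_nt.Z.Tail
import Pool.Agent.MP_c853c5_nt.Z.Near
import Pool.Agent.MP_c853c5_nt.Z.Loc
import Pool.Agent.MP_c853c5_nt.Z.T341
import Pool.Agent.MP_c853c5_nt.Z.ZF0
import Pool.Agent.MP_c853c5_nt.Z.ZF
import Pool.Agent.MP_c853c5_nt.Z.LocZ
import Pool.Agent.MP_c853c5_nt.Z.Cnt
import Pool.Agent.MP_c853c5_nt.Z.Mol
import Pool.Agent.MP_c853c5_nt.Z.Hal
import Pool.Agent.MP_c853c5_nt.Z.Tau
import Pool.Agent.MP_c853c5_nt.Z.Sep
import Pool.Agent.MP_c853c5_nt.Z.Space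
import Pool.Agent.MP_c853c5_nt.Z.Blk
import Pool.Agent.MP_c853c5_nt.Z.ND1
import Pool.Agent.MP_c853c5_nt.Z.ND
import Pool.Agent.MP_c853c5_nt.Z.Gauss
import Pool.Agent.MP_c853c5_nt.Z.Hor
import Pool.Agent.MP_c853c5_nt.Z.Ver
import Pool.Agent.MP_c853c5_nt.Z.Res
import Pool.Agent.MP_c853c5_nt.Z.EF
import Pool.Agent.MP_c853c5_nt.Z.ZFar
import Pool.Agent.MP_c853c5_nt.Z.ZNear
import Pool.Agent.MP_c853c5_nt.Z.Sand
import Pool.Agent.MP_c853c5_nt.Z.Sm
import Pool.Agent.MP_c853c5_nt.Z.Psi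
import Pool.Agent.MP_c853c5_nt.Z.Pi

/-!
From the zero density estimate to the prime number theorem in short intervals.
-/

set_option autoImplicit false

namespace Pool.Agent.MP_c853c5_nt.Z

theorem vm_all : VmStmt := vm (recS (step hold lin))

theorem exp_all : ExpStmt := expS (uu vm_all bil dd) tay

theorem tail_all : TailStmt := tail exp_all psum em

theorem zf_all : ZFStmt := zf (zf0 (near tail_all) loc t341)

theorem locZ_all : LocZStmt := locZ em t341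

theorem cnt_all : CntStmt := cntS locZ_all

theorem nd_all : NDStmt :=
  nd (nd1 (mol tail_all) (blk (hal psum) (ker exp_all) tau sep)) space cnt_all

theorem ef_all : EFStmt := ef gauss (hor locZ_all) (ver locZ_all) res

theorem psi_all : PsiStmt := psiS (sm ef_all zFar (zNear nd_all zf_all)) sand

theorem pi_of_zd {A θ : ℝ} (hA : 9 / 4 ≤ A) (hZ : ZD A) (hθ : 1 - 1 / A < θ) : PiShort θ := by
  refine piS θ ?_ (psi_all A θ hA hZ hθ)
  have : 1 / A ≤ 4 / 9 := by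
    rw [div_le_iff₀ (by linarith)]
    linarith
  linarith

end Pool.Agent.MP_c853c5_nt.Z
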