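import Pool.Agent.MP_c853c5_nt.Z.YDefs

/-!
Pointwise bounds for sums over primes, and large values near the trivial bound.
-/

set_option autoImplicit false

open Finset

namespace Pool.Agent.MP_c853c5_nt.Z

open Pool.Agent.MP_2a1f0e_nt

/-- the twisted Chebyshev sum -/
noncomputable def LT (N M : ℕ) (t : ℝ) : ℂ :=
  ∑ n ∈ Ioc N M, (ArithmeticFunction.vonMangoldt n : ℂ) * GM.pw (n : ℝ) t

/-- the smoothed twisted density of prime powers -/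
noncomputable def PT (Δ v t : ℝ) : ℂ :=
  ∑' n : ℕ, (ArithmeticFunction.vonMangoldt n : ℂ) * GM.pw (n : ℝ) t * (gg Δ (v - Real.log n) : ℂ)

/-- the integral of `u ^ (i t)` over `[N, M]` -/
noncomputable def MT (N M : ℕ) (t : ℝ) : ℂ :=
  ((M : ℂ) * GM.pw (M : ℝ) t - (N : ℂ) * GM.pw (N : ℝ) t) / (1 + t * Complex.I)

/-- the saving -/
noncomputable def sav (N : ℕ) : ℝ := Real.exp (-(Real.log N ^ (1 / 50 : ℝ)))

def LdStmt : Prop := ∃ C T₀ : ℝ, 1 ≤ C ∧ 3 ≤ T₀ ∧ ∀ T : ℝ, T₀ ≤ T → ∀ z : ℂ,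
  1 - Real.log T ^ (-(39 / 40) : ℝ) / 2 ≤ z.re → z.re ≤ 2 → |z.im| ≤ T - 2 →
    riemannZeta₁ z ≠ 0 ∧ ‖logDeriv riemannZeta₁ z‖ ≤ C * Real.log T ^ 2

def GtStmt : Prop := ∀ Δ v t : ℝ, 0 < Δ →
  MeasureTheory.Integrable (fun u : ℝ =>
    LSeries (fun n => (ArithmeticFunction.vonMangoldt n : ℂ)) (2 + u * Complex.I) *
      GG Δ v (2 + u * Complex.I + t * Complex.I)) ∧
  PT Δ v t = 1 / (2 * Real.pi) * ∫ u : ℝ,
    LSeries (fun n => (ArithmeticFunction.vonMangoldt n : ℂ)) (2 + u * Complex.I) *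
      GG Δ v (2 + u * Complex.I + t * Complex.I)

def EtStmt : Prop := ∃ C T₀ : ℝ, 0 < C ∧ 3 ≤ T₀ ∧ ∀ Δ v t T : ℝ, 0 < Δ → Δ ≤ 1 → 0 ≤ v →
  T₀ ≤ T → 2 * |t| + 6 ≤ T →
    ‖PT Δ v t - GG Δ v (1 + t * Complex.I)‖ ≤ C * Real.log T ^ 2 / Δ *
      (Real.exp ((1 - Real.log T ^ (-(39 / 40) : ℝ) / 2) * v) +
        Real.exp (2 * v) * Real.exp (-(Δ ^ 2 * T ^ 2 / (32 * Real.pi))))

def CutStmt : Prop := ∃ C : ℝ, 0 < C ∧ ∀ (N M : ℕ) (Δ d t E : ℝ), 3 ≤ N → N ≤ M → M ≤ 2 * N →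
  0 < Δ → Δ ≤ 1 → 0 < d → d ≤ 1 / 2 → 0 ≤ E →
  (∀ v ∈ Set.Icc (Real.log N) (Real.log M), ‖PT Δ v t - GG Δ v (1 + t * Complex.I)‖ ≤ E) →
    ‖LT N M t - MT N M t‖ ≤ E + C * ((N * d + 1) * Real.log N + N * Δ +
      Real.exp (-(Real.pi * d ^ 2 / (2 * Δ ^ 2))) * (N : ℝ) ^ 3 / Δ)

/-- the twisted prime number theorem -/
def TwStmt : Prop := ∀ k : ℕ, ∃ N₀ : ℕ, ∀ (N M : ℕ) (t : ℝ), N₀ ≤ N → N ≤ M → M ≤ 2 * N →
  |t| ≤ (N : ℝ) ^ k → ‖LT N M t - MT N M t‖ ≤ N * sav N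

/-- Dirichlet polynomials over primes, with a decreasing weight -/
def PrStmt : Prop := ∀ k : ℕ, ∃ N₀ : ℕ, ∀ (N M : ℕ) (t : ℝ) (w : ℕ → ℝ), N₀ ≤ N → N ≤ M →
  M ≤ 2 * N → |t| ≤ (N : ℝ) ^ k → (∀ L, N ≤ L → 0 ≤ w L ∧ w (L + 1) ≤ w L) →
    ‖∑ p ∈ (Ioc N M).filter Nat.Prime, (w p : ℂ) * GM.pw (p : ℝ) t‖ ≤
      w N * (5 * N / (1 + |t|) + 2 * N * sav N)

/-- the prime number theorem with error term, with a decreasing weight -/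
def PnStmt : Prop := ∃ N₀ : ℕ, ∀ (N M : ℕ) (w : ℕ → ℝ), N₀ ≤ N → N ≤ M → M ≤ 2 * N →
  (∀ L, N ≤ L → 0 ≤ w L ∧ w (L + 1) ≤ w L) →
    |∑ p ∈ (Ioc N M).filter Nat.Prime, w p - ∑ n ∈ Ioc N M, w n / Real.log n| ≤
      2 * w N * (N * sav N)

/-- large values close to the trivial bound, with a logarithmic loss only -/
def TopStmt : Prop := ∀ k : ℕ, ∃ C δ : ℝ, 0 < C ∧ 0 < δ ∧ ∀ (N T : ℕ) (V : ℝ) (b : ℕ → ℂ),
  1 ≤ N → (T : ℝ) ≤ (N : ℝ) ^ k → C * (N : ℝ) ^ (1 - δ) ≤ V → (∀ n, ‖b n‖ ≤ 1) →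
    (DH.cnt N b T V : ℝ) ≤ C * ((N : ℝ) ^ 2 / V ^ 2) * Real.log (T + 2)

lemma sav_pos (N : ℕ) : 0 < sav N := Real.exp_pos _

lemma pw_eq_cpow {n : ℕ} (hn : 0 < n) (t : ℝ) :
    GM.pw (n : ℝ) t = (n : ℂ) ^ ((t : ℂ) * Complex.I) := by
  rw [Complex.cpow_def_of_ne_zero (by exact_mod_cast hn.ne'), ← Complex.natCast_log, GM.pw]
  congr 1
  ring

lemma norm_MT_le {N M : ℕ} (hM : M ≤ 2 * N) (t : ℝ) : ‖MT N M t‖ ≤ 5 * N / (1 + |t|) := by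
  have h1 : ‖(M : ℂ) * GM.pw (M : ℝ) t - (N : ℂ) * GM.pw (N : ℝ) t‖ ≤ 3 * N := by
    refine (norm_sub_le _ _).trans ?_
    rw [norm_mul, norm_mul, GM.norm_pw, GM.norm_pw, Complex.norm_natCast, Complex.norm_natCast]
    have : (M : ℝ) ≤ 2 * N := by exact_mod_cast hM
    linarith
  have h2 : ‖(1 : ℂ) + t * Complex.I‖ ^ 2 = 1 + t ^ 2 := by
    rw [Complex.sq_norm, Complex.normSq_apply]
    simp
    ring
  have h3 : 3 * (1 + |t|) ≤ 5 * ‖(1 : ℂ) + t * Complex.I‖ := by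
    refine le_of_pow_le_pow_left₀ (n := 2) (by norm_num) (by positivity) ?_
    rw [mul_pow, mul_pow, h2]
    nlinarith [sq_abs t, sq_nonneg (|t| - 1), abs_nonneg t]
  have h4 : 0 < ‖(1 : ℂ) + t * Complex.I‖ := by nlinarith [abs_nonneg t]
  rw [MT, norm_div, div_le_div_iff₀ h4 (by positivity)]
  have h5 : (0 : ℝ) ≤ N := Nat.cast_nonneg N
  nlinarith [mul_le_mul_of_nonneg_right h1 (show 0 ≤ 1 + |t| by positivity),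
    mul_le_mul_of_nonneg_left h3 h5]

lemma MT_zero (N M : ℕ) : MT N M 0 = (M : ℂ) - N := by
  simp [MT, GM.pw]

end Pool.Agent.MP_c853c5_nt.Z
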