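import Pool.Agent.MP_c853c5_nt.Z.Basic

set_option autoImplicit false

open Finset Filter

namespace Pool.Agent.MP_c853c5_nt.Z

lemma ev_Psi {C k e : ℝ} (hk : 0 < k) (he : 0 < e) :
    ∀ᶠ L : ℝ in atTop, C * Real.exp (L * (5 - k * L)) ≤ e := by
  have h1 : Tendsto (fun L : ℝ => 5 - k * L) atTop atBot := by
    simp only [sub_eq_add_neg]
    exact tendsto_atBot_add_const_left _ _
      (tendsto_neg_atTop_atBot.comp (tendsto_id.const_mul_atTop hk))
  have h2 : Tendsto (fun L : ℝ => L * (5 - k * L)) atTop atBot :=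
    Tendsto.atTop_mul_atBot₀ tendsto_id h1
  have h3 := (Real.tendsto_exp_atBot.comp h2).const_mul C
  rw [mul_zero] at h3
  exact h3.eventually (ge_mem_nhds he)

lemma fin_Psi {P y q e ε r : ℝ} (hP : 0 ≤ P) (hy : 1 ≤ y) (hq : q ≤ e) (he : 0 < e)
    (he1 : e ≤ 1 / 100) (hε : 100 * e ≤ ε) (hr : r ≤ e)
    (h1 : (1 - 2 * q) * P ≤ (1 + e) * (y + 6 * e * y))
    (h2 : (1 - e) * (y - 6 * e * y) - r ≤ P) : |P - y| ≤ ε * y := by
  have a0 : 100 * e * y ≤ ε * y := by gcongr
  have a1 : e ≤ e * y := by nlinarith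
  have a2 : 0 ≤ e * (e * y) := by positivity
  have a3 : e * (e * y) ≤ 1 / 100 * (e * y) := by gcongr
  rw [abs_le]
  constructor
  · nlinarith
  · have b1 : (1 - 2 * e) * P ≤ (1 - 2 * q) * P := by gcongr
    have b2 : (1 - 2 * e) * P ≤ (1 - 2 * e) * (y + 100 * e * y) := by nlinarith
    have b3 := le_of_mul_le_mul_left b2 (by linarith)
    linarith

theorem psiS (hM : SmStmt) (hS : SandStmt) : PsiStmt := by
  intro A θ hA hZ hθ ε hε
  obtain ⟨C, hC, hS⟩ := hS
  have hθ0 : 0 ≤ θ := by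
    have : 1 / A ≤ 1 := by
      rw [div_le_one (by linarith)]
      linarith
    linarith
  rcases lt_or_ge 1 θ with h1 | h1
  · filter_upwards [eventually_gt_atTop (1 : ℝ)] with x hx y hy hyx
    have := Real.rpow_lt_rpow_of_exponent_lt hx h1
    rw [Real.rpow_one] at this
    linarith
  set e : ℝ := min ε 1 / 100 with he
  have he0 : 0 < e := by have := lt_min hε one_pos; positivity
  have he1 : e ≤ 1 / 100 := by have := min_le_right ε 1; linarith
  have he2 : 100 * e ≤ ε := by have := min_le_left ε 1; linarith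
  have hk : 0 < Real.pi * e ^ 2 / 2 := by have := Real.pi_pos; positivity
  filter_upwards [hM A θ hA hZ hθ h1 e he0, eventually_ge_atTop (1 : ℝ),
    Real.tendsto_log_atTop.eventually (eventually_ge_atTop (1 : ℝ)),
    Real.tendsto_log_atTop.eventually (ev_Psi (C := C + 1) hk he0)] with x hm hx hL hq y hy hyx
  set L := Real.log x with hLd
  have hx0 : 0 < x := by linarith
  have hL0 : 0 < L := by linarith
  have hy1 : 1 ≤ y := (Real.one_le_rpow hx hθ0).trans hy
  have hyx1 : y / x ≤ 1 := (div_le_one hx0).2 hyx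
  have hyx0 : 0 < y / x := by positivity
  have hΔ1 : y / x / L ≤ 1 / L := by gcongr
  have hΔ2 : x ^ (θ - 1) / L ≤ y / x / L := by
    rw [Real.rpow_sub_one hx0.ne']
    gcongr
  have hΔ3 : y / x / L ≤ 1 := hΔ1.trans ((div_le_one hL0).2 hL)
  obtain ⟨s1, s2⟩ := hS x y (y / x / L) (e * (y / x)) e hx (by linarith) hyx (by positivity) hΔ3
    (by positivity) (by nlinarith) he0.le (by linarith) (hm _ hΔ2 hΔ1)
  have e1 : Real.pi * (e * (y / x)) ^ 2 / (2 * (y / x / L) ^ 2) = Real.pi * e ^ 2 / 2 * L ^ 2 := by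
    field_simp
  have e2 : 6 * x * (e * (y / x)) = 6 * e * y := by field_simp
  rw [e1, e2] at s1 s2
  set q := Real.exp (-(Real.pi * e ^ 2 / 2 * L ^ 2)) with hqd
  have hq0 : 0 < q := Real.exp_pos _
  have e3 : Real.exp (L * (5 - Real.pi * e ^ 2 / 2 * L)) = q * x ^ 5 := by
    rw [show L * (5 - Real.pi * e ^ 2 / 2 * L) = -(Real.pi * e ^ 2 / 2 * L ^ 2) + (5 : ℕ) * L by
      push_cast; ring, Real.exp_add, Real.exp_nat_mul, Real.exp_log hx0]
  rw [e3] at hq
  have hx5 : 1 ≤ x ^ 5 := one_le_pow₀ hx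
  have hqx : q ≤ q * x ^ 5 := le_mul_of_one_le_right hq0.le hx5
  have hCq : 0 ≤ C * (q * x ^ 5) := by positivity
  have hLx : L ≤ x := (Real.log_le_sub_one_of_pos hx0).trans (by linarith)
  refine fin_Psi (q := q) (r := C * q * x ^ 3 / (y / x / L))
    (sub_nonneg.2 (Chebyshev.psi_mono (by linarith))) hy1 (by nlinarith) he0 he1 he2 ?_ s1 s2
  have e4 : C * q * x ^ 3 / (y / x / L) = C * q * x ^ 4 * L / y := by field_simp
  rw [e4]
  calc C * q * x ^ 4 * L / y ≤ C * q * x ^ 4 * x / 1 := by gcongr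
    _ = C * (q * x ^ 5) := by ring
    _ ≤ e := by nlinarith

end Pool.Agent.MP_c853c5_nt.Z
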