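import Pool.Agent.MP_c853c5_nt.Z.Basic

/-! From well spaced sets to arbitrary finite sets. -/

set_option autoImplicit false

open Finset

namespace Pool.Agent.MP_c853c5_nt.Z

theorem half_Space (Z : Finset ℂ) (R : ℝ) (h : ∀ W : Finset ℂ, W ⊆ Z → Sep W → (W.card : ℝ) ≤ R)
    (J : Finset ℤ) (hJ : ∀ j ∈ J, ∃ ρ ∈ Z, ⌊ρ.im⌋ = j)
    (h2 : ∀ j ∈ J, ∀ j' ∈ J, j % 2 = j' % 2) : (J.card : ℝ) ≤ R := by
  classical
  choose! r h3 h4 using hJ
  rw [← card_image_of_injOn (f := r) fun j hj j' hj' e => by rw [← h4 j hj, ← h4 j' hj', e]]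
  refine h _ (image_subset_iff.2 h3) fun ρ hρ ρ' hρ' hne => ?_
  obtain ⟨j, hj, rfl⟩ := mem_image.1 hρ
  obtain ⟨j', hj', rfl⟩ := mem_image.1 hρ'
  have a1 := Int.floor_le (r j).im
  have a2 := Int.lt_floor_add_one (r j).im
  have a3 := Int.floor_le (r j').im
  have a4 := Int.lt_floor_add_one (r j').im
  rw [h4 j hj] at a1 a2
  rw [h4 j' hj'] at a3 a4
  have a5 := h2 j hj j' hj'
  have a6 : j ≠ j' := fun e => hne (by rw [e])
  have a7 : j + 2 ≤ j' ∨ j' + 2 ≤ j := by omega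
  rw [le_abs]
  rcases a7 with e | e
  · have : (j : ℝ) + 2 ≤ j' := by exact_mod_cast e
    exact Or.inr (by linarith)
  · have : (j' : ℝ) + 2 ≤ j := by exact_mod_cast e
    exact Or.inl (by linarith)

theorem space : SpaceStmt := by
  intro Z m R μ hμ h hm
  have h0 : ∀ j ∈ Z.image fun ρ => ⌊ρ.im⌋, ∃ ρ ∈ Z, ⌊ρ.im⌋ = j := fun j hj => mem_image.1 hj
  have h1 := half_Space Z R h ((Z.image fun ρ => ⌊ρ.im⌋).filter fun j => j % 2 = 0)
    (fun j hj => h0 j (mem_filter.1 hj).1) fun j hj j' hj' => by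
      rw [(mem_filter.1 hj).2, (mem_filter.1 hj').2]
  have h2 := half_Space Z R h ((Z.image fun ρ => ⌊ρ.im⌋).filter fun j => ¬j % 2 = 0)
    (fun j hj => h0 j (mem_filter.1 hj).1) fun j hj j' hj' => by
      have := (mem_filter.1 hj).2
      have := (mem_filter.1 hj').2
      omega
  have h3 : (((Z.image fun ρ => ⌊ρ.im⌋).card : ℕ) : ℝ) ≤ 2 * R := by
    rw [← card_filter_add_card_filter_not fun j => j % 2 = 0, Nat.cast_add]
    linarith
  rw [← sum_fiberwise_of_maps_to (g := fun ρ : ℂ => ⌊ρ.im⌋) fun ρ hρ =>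
    mem_image_of_mem (fun ρ : ℂ => ⌊ρ.im⌋) hρ]
  refine (sum_le_card_nsmul _ _ μ fun j _ => hm j).trans ?_
  rw [nsmul_eq_mul]
  exact mul_le_mul_of_nonneg_right h3 hμ

end Pool.Agent.MP_c853c5_nt.Z
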