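import Pool.Agent.MP_c853c5_nt.Z.YDefs

set_option autoImplicit false

open Finset

namespace Pool.Agent.MP_c853c5_nt.Z

open Pool.Agent.MP_2a1f0e_nt

/-- choice of the power -/
theorem pick_YLv {A η T N : ℝ} {k₀ : ℕ} (hA : 9 / 4 ≤ A) (hη : 0 < η) (hη' : η ≤ 1 / 20)
    (hk2 : 2 ≤ k₀) (hk : 2 * A ≤ η * (3 * k₀)) (hT : 2 ≤ T) (hN : T ^ η ≤ N)
    (hN' : N ≤ 6 * T ^ (1 / 2 + η)) :
    ∃ k : ℕ, 2 ≤ k ∧ k ≤ k₀ ∧ (2 * T) ^ A ≤ N ^ (3 * k) ∧ N ^ (2 * k) ≤ 6 ^ 4 * (2 * T) ^ A := by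
  classical
  have hT0 : 0 < T := by linarith
  have hT1 : 1 ≤ T := by linarith
  have hN1 : 1 ≤ N := (Real.one_le_rpow hT1 hη.le).trans hN
  have hpos : 0 < (2 * T) ^ A := Real.rpow_pos_of_pos (by linarith) _
  have ex : (2 * T) ^ A ≤ N ^ (3 * k₀) := by
    calc (2 * T) ^ A ≤ (T ^ (2 : ℝ)) ^ A := by
          apply Real.rpow_le_rpow (by linarith) _ (by linarith)
          rw [Real.rpow_two]
          nlinarith
      _ = T ^ (2 * A) := by rw [← Real.rpow_mul hT0.le]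
      _ ≤ T ^ (η * ((3 * k₀ : ℕ) : ℝ)) := by
          apply Real.rpow_le_rpow_of_exponent_le hT1
          push_cast
          exact hk
      _ = (T ^ η) ^ (3 * k₀) := by rw [Real.rpow_mul hT0.le, Real.rpow_natCast]
      _ ≤ N ^ (3 * k₀) := pow_le_pow_left₀ (Real.rpow_nonneg hT0.le _) hN _
  have hex : ∃ k : ℕ, (2 * T) ^ A ≤ N ^ (3 * k) := ⟨k₀, ex⟩
  have s1 := Nat.find_spec hex
  have s2 : Nat.find hex ≤ k₀ := Nat.find_min' hex ex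
  by_cases h : Nat.find hex ≤ 2
  · refine ⟨2, le_rfl, hk2, s1.trans (pow_le_pow_right₀ hN1 (by omega)), ?_⟩
    calc N ^ (2 * 2) ≤ (6 * T ^ (1 / 2 + η)) ^ (2 * 2) := pow_le_pow_left₀ (by linarith) hN' _
      _ = 6 ^ 4 * T ^ ((1 / 2 + η) * ((4 : ℕ) : ℝ)) := by
          rw [Real.rpow_mul hT0.le, Real.rpow_natCast, mul_pow]
      _ ≤ 6 ^ 4 * T ^ A := by
          apply mul_le_mul_of_nonneg_left _ (by norm_num)
          apply Real.rpow_le_rpow_of_exponent_le hT1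
          push_cast
          linarith
      _ ≤ 6 ^ 4 * (2 * T) ^ A := by
          apply mul_le_mul_of_nonneg_left _ (by norm_num)
          exact Real.rpow_le_rpow hT0.le (by linarith) (by linarith)
  · refine ⟨Nat.find hex, by omega, s2, s1, ?_⟩
    have s3 := Nat.find_min hex (m := Nat.find hex - 1) (by omega)
    have s4 : N ^ (2 * Nat.find hex) ≤ N ^ (3 * (Nat.find hex - 1)) :=
      pow_le_pow_right₀ hN1 (by omega)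
    rw [not_le] at s3
    nlinarith

/-- the two terms of the bound -/
theorem terms_YLv {A σ T M B : ℝ} (hA : 0 ≤ A) (hσ : 1 / 2 ≤ σ) (hσ' : σ ≤ 1) (hT : 0 < T)
    (hM : 0 ≤ M) (hB : 1 ≤ B) (h : M ^ 2 ≤ B * (2 * T) ^ A) :
    (2 * T) ^ (A * (1 - σ)) + M ^ (2 * (1 - σ)) ≤ (1 + B) * (2 : ℝ) ^ A * T ^ (A * (1 - σ)) := by
  have h1 : M ^ (2 * (1 - σ)) ≤ B * (2 * T) ^ (A * (1 - σ)) := by
    calc M ^ (2 * (1 - σ)) = (M ^ 2) ^ (1 - σ) := by rw [Real.rpow_mul hM, Real.rpow_two]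
      _ ≤ (B * (2 * T) ^ A) ^ (1 - σ) := Real.rpow_le_rpow (by positivity) h (by linarith)
      _ = B ^ (1 - σ) * (2 * T) ^ (A * (1 - σ)) := by
          rw [Real.mul_rpow (by linarith) (by positivity), ← Real.rpow_mul (by positivity)]
      _ ≤ B * (2 * T) ^ (A * (1 - σ)) := by
          apply mul_le_mul_of_nonneg_right _ (by positivity)
          calc B ^ (1 - σ) ≤ B ^ (1 : ℝ) := Real.rpow_le_rpow_of_exponent_le hB (by linarith)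
            _ = B := Real.rpow_one B
  have h2 : (2 * T) ^ (A * (1 - σ)) ≤ (2 : ℝ) ^ A * T ^ (A * (1 - σ)) := by
    rw [Real.mul_rpow (by norm_num) hT.le]
    apply mul_le_mul_of_nonneg_right _ (by positivity)
    apply Real.rpow_le_rpow_of_exponent_le (by norm_num)
    nlinarith
  calc (2 * T) ^ (A * (1 - σ)) + M ^ (2 * (1 - σ)) ≤ (1 + B) * (2 * T) ^ (A * (1 - σ)) := by
        linarith
    _ ≤ (1 + B) * ((2 : ℝ) ^ A * T ^ (A * (1 - σ))) :=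
        mul_le_mul_of_nonneg_left h2 (by linarith)
    _ = _ := by ring

/-- the size condition for the power -/
theorem size_YLv {N σ lam V Δ : ℝ} {i k : ℕ} (hN : 0 ≤ N) (hσ' : σ ≤ 1)
    (hΔ : 0 < Δ) (hk : 1 ≤ k) (hi : i ≤ k) (h : N ^ σ ≤ lam * V) :
    (2 ^ i * N ^ k) ^ σ ≤ (k * 2 ^ k * lam ^ k * Δ ^ k) * (V ^ k / (k * Δ ^ k)) := by
  have hk' : (0 : ℝ) < k := by exact_mod_cast hk
  have e : (k * 2 ^ k * lam ^ k * Δ ^ k) * (V ^ k / (k * Δ ^ k)) = 2 ^ k * (lam * V) ^ k := by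
    rw [mul_pow]
    field_simp
  rw [e, Real.mul_rpow (by positivity) (by positivity)]
  have h1 : ((2 : ℝ) ^ i) ^ σ ≤ 2 ^ k := by
    calc ((2 : ℝ) ^ i) ^ σ ≤ ((2 : ℝ) ^ i) ^ (1 : ℝ) :=
          Real.rpow_le_rpow_of_exponent_le (one_le_pow₀ (by norm_num)) hσ'
      _ = 2 ^ i := Real.rpow_one _
      _ ≤ 2 ^ k := pow_le_pow_right₀ (by norm_num) hi
  have h2 : (N ^ k) ^ σ ≤ (lam * V) ^ k := by
    rw [← Real.rpow_natCast_mul hN, mul_comm, Real.rpow_mul_natCast hN]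
    exact pow_le_pow_left₀ (Real.rpow_nonneg hN _) h _
  exact mul_le_mul h1 h2 (by positivity) (by positivity)

theorem yLv (hS : SplStmt) : LvStmt := by
  intro A hA hR η hη hη'
  obtain ⟨k₀, hk2, hk⟩ : ∃ k₀ : ℕ, 2 ≤ k₀ ∧ 2 * A ≤ η * (3 * k₀) := by
    refine ⟨max 2 ⌈2 * A / (3 * η)⌉₊, le_max_left _ _, ?_⟩
    have h1 : 2 * A / (3 * η) ≤ ((max 2 ⌈2 * A / (3 * η)⌉₊ : ℕ) : ℝ) :=
      (Nat.le_ceil _).trans (by exact_mod_cast le_max_right _ _)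
    rw [div_le_iff₀ (by positivity)] at h1
    linarith
  refine ⟨4 * k₀, fun ε hε => ?_⟩
  have hk0 : (0 : ℝ) < k₀ := by exact_mod_cast (by omega : 0 < k₀)
  obtain ⟨e, he, hee⟩ : ∃ e : ℝ, 0 < e ∧ (k₀ : ℝ) * (e * ((1 + 4 * k₀ : ℕ) : ℝ)) = ε := by
    refine ⟨ε / (k₀ * ((1 + 4 * k₀ : ℕ) : ℝ)), by positivity, ?_⟩
    have : (0 : ℝ) < ((1 + 4 * k₀ : ℕ) : ℝ) := by positivity
    field_simp
  obtain ⟨K₁, hK₁, hR⟩ := hR e he
  obtain ⟨C, hC, hD⟩ := DH.exists_DivB he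
  refine ⟨k₀ * (K₁ * (k₀ * 2 ^ k₀ * C ^ k₀) ^ 4 * ((1 + 4 ^ k₀ * 6 ^ 4) * (2 : ℝ) ^ A) *
    (12 : ℝ) ^ ε), by positivity, ?_⟩
  intro N T σ lam V b hT hN hN' hσ hσ' hlam hV hNV hb
  have hT2 : (2 : ℝ) ≤ T := by exact_mod_cast hT
  have hT0 : (0 : ℝ) < T := by linarith
  have hT1 : (1 : ℝ) ≤ T := by linarith
  have hN1 : (1 : ℝ) ≤ N := (Real.one_le_rpow hT1 hη.le).trans hN
  have hN1' : 1 ≤ N := by exact_mod_cast hN1
  obtain ⟨k, k2, kk, p1, p2⟩ := pick_YLv hA hη hη' hk2 hk hT2 hN hN'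
  have k1 : 1 ≤ k := by omega
  have k1' : (1 : ℝ) ≤ k := by exact_mod_cast k1
  have kk' : (k : ℝ) ≤ k₀ := by exact_mod_cast kk
  have hX : 1 ≤ (2 * N) ^ k := Nat.one_le_pow _ _ (by omega)
  have hdiv := hD _ hX
  obtain ⟨Δ, hΔ⟩ : ∃ Δ : ℝ, Δ = C * (((2 * N) ^ k : ℕ) : ℝ) ^ e := ⟨_, rfl⟩
  rw [← hΔ] at hdiv
  have hΔ1 : 1 ≤ Δ := hdiv.1
  obtain ⟨c, hc, hcnt⟩ := hS N k (2 * T) Δ V b hN1' k1 hdiv hV hb
  have hNT : (N : ℝ) ≤ 6 * T := by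
    refine hN'.trans (mul_le_mul_of_nonneg_left ?_ (by norm_num))
    calc (T : ℝ) ^ (1 / 2 + η) ≤ (T : ℝ) ^ (1 : ℝ) :=
          Real.rpow_le_rpow_of_exponent_le hT1 (by linarith)
      _ = T := Real.rpow_one _
  have hY : (2 * (N : ℝ)) ^ k ≤ (12 * (T : ℝ)) ^ k₀ :=
    (pow_le_pow_left₀ (by positivity) (by linarith) k).trans
      (pow_le_pow_right₀ (by linarith) kk)
  obtain ⟨y, hy⟩ : ∃ y : ℝ, y = ((12 * (T : ℝ)) ^ k₀) ^ e := ⟨_, rfl⟩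
  have hy1 : 1 ≤ y := by
    rw [hy]
    exact Real.one_le_rpow (one_le_pow₀ (by linarith)) he.le
  have hyy : y ^ (1 + 4 * k₀) = (12 : ℝ) ^ ε * (T : ℝ) ^ ε := by
    rw [hy, ← Real.rpow_natCast_mul (by positivity), ← Real.rpow_mul_natCast (by positivity),
      mul_assoc, hee, Real.mul_rpow (by norm_num) hT0.le]
  have hΔy : Δ ≤ C * y := by
    rw [hΔ, hy]
    apply mul_le_mul_of_nonneg_left _ (by linarith)
    apply Real.rpow_le_rpow (by positivity) _ he.le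
    push_cast
    exact hY
  obtain ⟨L, hL⟩ : ∃ L : ℝ, L = k * 2 ^ k * lam ^ k * Δ ^ k := ⟨_, rfl⟩
  have hL1 : 1 ≤ L := by
    rw [hL]
    exact one_le_mul_of_one_le_of_one_le (one_le_mul_of_one_le_of_one_le
      (one_le_mul_of_one_le_of_one_le k1' (one_le_pow₀ (by norm_num))) (one_le_pow₀ hlam))
      (one_le_pow₀ hΔ1)
  have hL2 : L ≤ (k₀ * 2 ^ k₀ * C ^ k₀) * (lam ^ k₀ * y ^ k₀) := by
    have a1 : (2 : ℝ) ^ k ≤ 2 ^ k₀ := pow_le_pow_right₀ (by norm_num) kk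
    have a2 : lam ^ k ≤ lam ^ k₀ := pow_le_pow_right₀ hlam kk
    have a3 : Δ ^ k ≤ (C * y) ^ k₀ :=
      (pow_le_pow_right₀ hΔ1 kk).trans (pow_le_pow_left₀ (by linarith) hΔy _)
    calc L = k * 2 ^ k * lam ^ k * Δ ^ k := hL
      _ ≤ k₀ * 2 ^ k₀ * lam ^ k₀ * (C * y) ^ k₀ := by gcongr
      _ = _ := by rw [mul_pow]; ring
  have each : ∀ i ∈ range k,
      (DH.cnt (2 ^ i * N ^ k) (c i) (2 * T) (V ^ k / (k * Δ ^ k)) : ℝ) ≤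
        K₁ * (k₀ * 2 ^ k₀ * C ^ k₀) ^ 4 * ((1 + 4 ^ k₀ * 6 ^ 4) * (2 : ℝ) ^ A) * (12 : ℝ) ^ ε *
          lam ^ (4 * k₀) * (T : ℝ) ^ (A * (1 - σ) + ε) := by
    intro i hi
    have hik : i ≤ k := (mem_range.1 hi).le
    have hM1 : 1 ≤ 2 ^ i * N ^ k :=
      Nat.mul_pos (Nat.pos_of_ne_zero (by positivity)) (Nat.pos_of_ne_zero (by positivity))
    have eM : ((2 ^ i * N ^ k : ℕ) : ℝ) = 2 ^ i * (N : ℝ) ^ k := by push_cast; ring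
    have eT : ((2 * T : ℕ) : ℝ) = 2 * (T : ℝ) := by push_cast; ring
    have b1 : (1 : ℝ) ≤ 2 ^ i := one_le_pow₀ (by norm_num)
    have b2 : (2 : ℝ) ^ i ≤ 2 ^ k := pow_le_pow_right₀ (by norm_num) hik
    have b3 : (2 : ℝ) ^ i ≤ 2 ^ k₀ := pow_le_pow_right₀ (by norm_num) (hik.trans kk)
    have q1 : ((2 * T : ℕ) : ℝ) ^ A ≤ ((2 ^ i * N ^ k : ℕ) : ℝ) ^ 3 := by
      rw [eM, eT]
      refine p1.trans ?_
      rw [mul_comm 3 k, pow_mul]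
      exact pow_le_pow_left₀ (by positivity) (le_mul_of_one_le_left (by positivity) b1) 3
    have q2 : ((2 ^ i * N ^ k : ℕ) : ℝ) ^ σ ≤ L * (V ^ k / (k * Δ ^ k)) := by
      rw [eM, hL]
      exact size_YLv (by positivity) hσ' (by linarith) k1 hik hNV
    have r := hR (2 ^ i * N ^ k) (2 * T) σ L (V ^ k / (k * Δ ^ k)) (c i) hM1 (by omega) q1 hσ hσ'
      hL1 (by positivity) q2 (hc i)
    rw [eM, eT] at r
    have q3 : (2 ^ i * (N : ℝ) ^ k) ^ 2 ≤ 4 ^ k₀ * 6 ^ 4 * (2 * (T : ℝ)) ^ A := by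
      have a1 : ((2 : ℝ) ^ i) ^ 2 ≤ 4 ^ k₀ := by
        calc ((2 : ℝ) ^ i) ^ 2 ≤ ((2 : ℝ) ^ k₀) ^ 2 := pow_le_pow_left₀ (by positivity) b3 2
          _ = 4 ^ k₀ := by rw [← pow_mul, mul_comm, pow_mul]; norm_num
      rw [mul_pow, ← pow_mul (N : ℝ), mul_comm k 2, mul_assoc]
      exact mul_le_mul a1 p2 (by positivity) (by positivity)
    have q4 := terms_YLv (by linarith) hσ hσ' hT0 (by positivity)
      (one_le_mul_of_one_le_of_one_le (one_le_pow₀ (by norm_num)) (by norm_num)) q3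
    have q5 : (2 ^ i * (N : ℝ) ^ k) ^ e ≤ y := by
      rw [hy]
      apply Real.rpow_le_rpow (by positivity) _ he.le
      refine le_trans ?_ hY
      rw [mul_pow]
      exact mul_le_mul_of_nonneg_right b2 (by positivity)
    have q6 : L ^ 4 ≤ ((k₀ * 2 ^ k₀ * C ^ k₀) * (lam ^ k₀ * y ^ k₀)) ^ 4 :=
      pow_le_pow_left₀ (by linarith) hL2 4
    refine r.trans ?_
    calc K₁ * (2 ^ i * (N : ℝ) ^ k) ^ e * L ^ 4 *
          ((2 * (T : ℝ)) ^ (A * (1 - σ)) + (2 ^ i * (N : ℝ) ^ k) ^ (2 * (1 - σ)))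
        ≤ K₁ * y * ((k₀ * 2 ^ k₀ * C ^ k₀) * (lam ^ k₀ * y ^ k₀)) ^ 4 *
          ((1 + 4 ^ k₀ * 6 ^ 4) * (2 : ℝ) ^ A * (T : ℝ) ^ (A * (1 - σ))) := by gcongr
      _ = K₁ * (k₀ * 2 ^ k₀ * C ^ k₀) ^ 4 * ((1 + 4 ^ k₀ * 6 ^ 4) * (2 : ℝ) ^ A) *
          y ^ (1 + 4 * k₀) * lam ^ (4 * k₀) * (T : ℝ) ^ (A * (1 - σ)) := by ring
      _ = _ := by rw [hyy, Real.rpow_add hT0]; ring
  have hcnt' : (DH.cnt N b (2 * T) V : ℝ) ≤ ∑ i ∈ range k,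
      (DH.cnt (2 ^ i * N ^ k) (c i) (2 * T) (V ^ k / (k * Δ ^ k)) : ℝ) := by
    exact_mod_cast hcnt
  refine hcnt'.trans ((sum_le_card_nsmul _ _ _ each).trans ?_)
  rw [card_range, nsmul_eq_mul]
  calc _ ≤ (k₀ : ℝ) * (K₁ * (k₀ * 2 ^ k₀ * C ^ k₀) ^ 4 * ((1 + 4 ^ k₀ * 6 ^ 4) * (2 : ℝ) ^ A) *
        (12 : ℝ) ^ ε * lam ^ (4 * k₀) * (T : ℝ) ^ (A * (1 - σ) + ε)) :=
        mul_le_mul_of_nonneg_right kk' (by positivity)
    _ = _ := by ring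

end Pool.Agent.MP_c853c5_nt.Z
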