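import Pool.Agent.MP_c853c5_nt.Z.YDefs

/-!
The mean value theorem for Dirichlet polynomials at integer points.
-/

set_option autoImplicit false

open Finset

namespace Pool.Agent.MP_c853c5_nt.Z

open Pool.Agent.MP_2a1f0e_nt

lemma sum_Icc_YMv (T : ℕ) (F : ℝ → ℝ) :
    ∑ t ∈ Icc 0 (T : ℤ), F t = F 0 + ∑ t ∈ Icc 1 T, F t := by
  induction T with
  | zero => simp
  | succ T ih =>
    rw [sum_Icc_succ_top (by omega), ← add_assoc, ← ih, Nat.cast_succ,
      ← insert_Icc_right_eq_Icc_add_one (by omega), sum_insert (by simp), add_comm]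
    push_cast
    rfl

lemma mean_YMv {N T : ℕ} (hN : 1 ≤ N) (hT : N ≤ T) {b : ℕ → ℂ} (hb : ∀ n, ‖b n‖ ≤ 1) :
    ∑ t ∈ Icc 1 T, ‖GM.DP N b t‖ ^ 2 ≤ 288 * ((T : ℝ) * N) := by
  have h0 : (N : ℝ) ≤ T := by exact_mod_cast hT
  have h1 := mv_kernel (Icc N (2 * N)) b (fun _ => 1) (fun n _ => hb n) 1 T le_rfl (hN.trans hT)
    (2 * N) 4 (by norm_num) (by linarith) (fun n hn => hN.trans (mem_Icc.1 hn).1)
    (fun n hn => by exact_mod_cast (mem_Icc.1 hn).2)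
    (fun n hn m hm => by have := mem_Icc.1 hn; have := mem_Icc.1 hm; omega)
  have h2 := kernel_schur (Icc N (2 * N)) (fun _ => 1) (H := 4) (by norm_num)
  have h3 : ∑ _n ∈ Icc N (2 * N), (1 : ℝ) ^ 2 ≤ 2 * N := by
    rw [one_pow, sum_const, nsmul_one, Nat.card_Icc]
    exact_mod_cast (by omega : 2 * N + 1 - N ≤ 2 * N)
  refine le_trans (le_of_eq rfl) (h1.trans ((mul_le_mul_of_nonneg_left
    (h2.trans (mul_le_mul_of_nonneg_left h3 (by norm_num))) (by positivity)).trans (le_of_eq ?_)))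
  push_cast
  ring

theorem yMv : MvStmt := by
  refine ⟨300, by norm_num, fun N T V b hN hV hb => ?_⟩
  have n1 : (1 : ℝ) ≤ N := by exact_mod_cast hN
  have t0 : (0 : ℝ) ≤ T := by positivity
  have h1 : (DH.cnt N b T V : ℝ) * V ^ 2 ≤
      ∑ t ∈ Icc 0 ((N + T : ℕ) : ℤ), ‖GM.DP N b t‖ ^ 2 := by
    rw [DH.cnt, ← nsmul_eq_mul]
    refine (card_nsmul_le_sum _ (fun t : ℤ => ‖GM.DP N b t‖ ^ 2) _ fun t ht =>
      pow_le_pow_left₀ hV.le (mem_filter.1 ht).2 2).trans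
      (sum_le_sum_of_subset_of_nonneg ((filter_subset _ _).trans
        (Icc_subset_Icc_right (by omega))) fun _ _ _ => sq_nonneg _)
  rw [sum_Icc_YMv (N + T) fun t => ‖GM.DP N b t‖ ^ 2] at h1
  have h2 := mean_YMv hN (Nat.le_add_right N T) hb
  have h3 := pow_le_pow_left₀ (norm_nonneg _) (GM.norm_DP_le N b hb 0) 2
  push_cast at h2
  nlinarith [mul_nonneg t0 (zero_le_one.trans n1)]

end Pool.Agent.MP_c853c5_nt.Z
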