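import Pool.Agent.MP_c853c5_nt.Z.YDefs

set_option autoImplicit false

open Finset

namespace Pool.Agent.MP_c853c5_nt.Z

open Pool.Agent.MP_2a1f0e_nt

lemma real_YRng {A e x y σ : ℝ} (hA : A * (5 - e) = 6) (h9 : 9 / 4 ≤ A) (hx : 0 ≤ x)
    (hy : 0 ≤ y) (h3 : A * y ≤ 3 * x) (h1 : 1 / 2 ≤ σ) :
    y + (1 - 2 * σ) * x ≤ A * (1 - σ) * y ∨
      (y / 2 + (3 - 4 * σ) * x ≤ A * (1 - σ) * y ∧ y + (e - 4 * σ) * x ≤ A * (1 - σ) * y) := by
  refine (le_or_gt _ _).imp_right fun h => ?_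
  have A0 : 0 < A := by linarith
  obtain ⟨u, hu⟩ : ∃ u, u = A * (1 - σ) := ⟨_, rfl⟩
  rw [← hu] at h ⊢
  have k0 : 0 ≤ (2 * σ - 1) * x := mul_nonneg (by linarith) hx
  have k1 : 0 < (1 - u) * y := by linarith
  have k2 : 0 < 1 - u := lt_of_not_ge fun k => (mul_nonpos_of_nonpos_of_nonneg k hy).not_gt k1
  have k3 := mul_le_mul_of_nonneg_left h3 k2.le
  have k4 : (A - 2 * u) * x < (1 - u) * (A * y) := by
    have := mul_lt_mul_of_pos_left h A0
    have e : (A - 2 * u) * x = A * ((2 * σ - 1) * x) := by rw [hu]; ring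
    linarith
  have k5 : (A + u) * x ≤ 3 * x := by linarith
  constructor
  · refine le_of_mul_le_mul_left ?_ A0
    have e : A * ((3 - 4 * σ) * x) = (4 * u - A) * x := by rw [hu]; ring
    rw [mul_add, e]
    rcases le_total u (1 / 2) with h2 | h2
    · have a1 := mul_le_mul_of_nonneg_left h3 (sub_nonneg.2 h2)
      have a2 := mul_nonneg (show 0 ≤ A - 3 / 2 - u by linarith) hx
      linarith
    · refine le_of_mul_le_mul_left ?_ k2
      have a1 := mul_le_mul_of_nonneg_left k4.le (sub_nonneg.2 h2)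
      have a2 := mul_nonneg (show 0 ≤ 2 * (u - 3 / 4) ^ 2 + (A / 2 - 9 / 8) from
        add_nonneg (by positivity) (by linarith)) hx
      linarith
  · refine le_of_mul_le_mul_left ?_ A0
    have e : A * ((e - 4 * σ) * x) = (A + 4 * u - 6) * x := by
      rw [hu]
      linear_combination -x * hA
    rw [mul_add, e]
    linarith

lemma div_YRng {n σ L V : ℝ} (hn : 0 < n) (hL : 1 ≤ L) (hV : 0 < V) (h : n ^ σ ≤ L * V) (a : ℝ)
    {k : ℕ} (hk : k ≤ 4) : n ^ a / V ^ k ≤ L ^ 4 * n ^ (a - k * σ) := by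
  have h1 : (n ^ σ) ^ k ≤ L ^ 4 * V ^ k := by
    refine (pow_le_pow_left₀ (by positivity) h k).trans ?_
    rw [mul_pow]
    gcongr
  rw [Real.rpow_sub hn, mul_comm (k : ℝ), Real.rpow_mul_natCast hn.le, ← mul_div_assoc,
    div_le_div_iff₀ (by positivity) (by positivity)]
  have := mul_le_mul_of_nonneg_left h1 (show 0 ≤ n ^ a by positivity)
  linarith

lemma pow_YRng {n t a b u : ℝ} (hn : 0 < n) (ht : 0 < t)
    (h : a * Real.log t + b * Real.log n ≤ u * Real.log t) : t ^ a * n ^ b ≤ t ^ u := by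
  rw [Real.rpow_def_of_pos hn, Real.rpow_def_of_pos ht, Real.rpow_def_of_pos ht, ← Real.exp_add,
    Real.exp_le_exp]
  linarith

lemma lv_YRng {N T : ℕ} {V Z : ℝ} {b : ℕ → ℂ}
    (h : ∀ W : Finset ℝ, (∀ t ∈ W, 0 ≤ t ∧ t ≤ T) → (∀ s ∈ W, ∀ t ∈ W, s ≠ t → 1 ≤ |s - t|) →
      (∀ t ∈ W, V ≤ ‖GM.DP N b t‖) → (W.card : ℝ) ≤ Z) : (DH.cnt N b T V : ℝ) ≤ Z := by
  classical
  rw [DH.cnt, ← card_image_of_injective _ (Int.cast_injective (α := ℝ))]
  refine h _ ?_ ?_ ?_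
  · simp only [forall_mem_image, mem_filter, mem_Icc]
    exact fun t ht => ⟨by exact_mod_cast ht.1.1, by exact_mod_cast ht.1.2⟩
  · simp only [forall_mem_image]
    intro s _ t _ hst
    have : s - t ≠ 0 := sub_ne_zero.2 fun h => hst (by rw [h])
    exact_mod_cast Int.one_le_abs this
  · simp only [forall_mem_image, mem_filter]
    exact fun t ht => ht.2

theorem yRng (hM : MvStmt) : RngStmt := by
  obtain ⟨C, hC, hM⟩ := hM
  intro e A hA h9 hL ε hε
  obtain ⟨K, hK⟩ := hL ε hε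
  refine ⟨2 * C + 2 * |K|, by positivity, fun N T σ L V b hN hT h3 h1 h2 hL hV hσ hb => ?_⟩
  have n1 : (1 : ℝ) ≤ N := by exact_mod_cast hN
  have t1 : (1 : ℝ) ≤ T := by exact_mod_cast hT
  have n0 : (0 : ℝ) < N := by linarith
  have t0 : (0 : ℝ) < T := by linarith
  have ε1 : 1 ≤ (N : ℝ) ^ ε := Real.one_le_rpow n1 hε.le
  have m1 : (DH.cnt N b T V : ℝ) ≤ C * ((N : ℝ) ^ 2 / V ^ 2 + T * (N / V ^ 2)) := by
    refine ((le_div_iff₀ (by positivity)).2 (hM N T V b hN hV hb)).trans_eq ?_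
    ring
  have d1 := div_YRng n0 hL hV hσ 2 (k := 2) (by norm_num)
  have d2 := div_YRng n0 hL hV hσ 1 (k := 2) (by norm_num)
  have d3 := div_YRng n0 hL hV hσ 3 (k := 4) le_rfl
  have d4 := div_YRng n0 hL hV hσ e (k := 4) le_rfl
  rw [Real.rpow_two, Nat.cast_ofNat, show 2 - 2 * σ = 2 * (1 - σ) by ring] at d1
  rw [Real.rpow_one, Nat.cast_ofNat] at d2
  rw [Real.rpow_ofNat, Nat.cast_ofNat] at d3
  rw [Nat.cast_ofNat] at d4
  have L0 : 0 ≤ L ^ 4 := by positivity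
  have P0 : 0 ≤ L ^ 4 * (T : ℝ) ^ (A * (1 - σ)) := by positivity
  have Q0 : 0 ≤ L ^ 4 * (N : ℝ) ^ (2 * (1 - σ)) := by positivity
  have fin : ∀ c : ℝ, 0 ≤ c → c ≤ (C + |K|) * (N : ℝ) ^ ε → (DH.cnt N b T V : ℝ) ≤
      c * (2 * (L ^ 4 * (T : ℝ) ^ (A * (1 - σ)) + L ^ 4 * (N : ℝ) ^ (2 * (1 - σ)))) →
      (DH.cnt N b T V : ℝ) ≤ (2 * C + 2 * |K|) * (N : ℝ) ^ ε * L ^ 4 *
        ((T : ℝ) ^ (A * (1 - σ)) + (N : ℝ) ^ (2 * (1 - σ))) := fun c _ hc h =>
    h.trans ((mul_le_mul_of_nonneg_right hc (by positivity)).trans_eq (by ring))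
  have hC' : C ≤ (C + |K|) * (N : ℝ) ^ ε :=
    (le_add_of_nonneg_right (abs_nonneg K)).trans (le_mul_of_one_le_right (by positivity) ε1)
  rcases le_total T N with hTN | hNT
  · refine fin C hC.le hC' (m1.trans (mul_le_mul_of_nonneg_left ?_ hC.le))
    have : (T : ℝ) * (N / V ^ 2) ≤ (N : ℝ) ^ 2 / V ^ 2 := by
      rw [← mul_div_assoc, sq (N : ℝ)]
      gcongr
    linarith
  have hlog : A * Real.log T ≤ 3 * Real.log N := by
    have := Real.log_le_log (by positivity) h3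
    rwa [Real.log_rpow t0, Real.log_pow, Nat.cast_ofNat] at this
  rcases real_YRng hA h9 (Real.log_nonneg n1) (Real.log_nonneg t1) hlog h1 with h | ⟨h, h'⟩
  · refine fin C hC.le hC' (m1.trans (mul_le_mul_of_nonneg_left ?_ hC.le))
    have a1 := pow_YRng (a := 1) (b := 1 - 2 * σ) (u := A * (1 - σ)) n0 t0 (by linarith)
    rw [Real.rpow_one] at a1
    have a2 := mul_le_mul_of_nonneg_left d2 t0.le
    have a3 := mul_le_mul_of_nonneg_left a1 L0
    linarith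
  · refine fin (|K| * (N : ℝ) ^ ε) (by positivity)
      (mul_le_mul_of_nonneg_right (le_add_of_nonneg_left hC.le) (by positivity))
      ((lv_YRng (hK N T V hN (by exact_mod_cast hNT) hV b hb)).trans ?_)
    refine mul_le_mul (mul_le_mul_of_nonneg_right (le_abs_self K) (by positivity)) ?_
      (by positivity) (by positivity)
    have a1 := pow_YRng (a := 1 / 2) (b := 3 - 4 * σ) (u := A * (1 - σ)) n0 t0 (by linarith)
    have a2 := pow_YRng (a := 1) (b := e - 4 * σ) (u := A * (1 - σ)) n0 t0 (by linarith)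
    rw [← Real.sqrt_eq_rpow] at a1
    rw [Real.rpow_one] at a2
    have a3 := mul_le_mul_of_nonneg_left d3 (Real.sqrt_nonneg T)
    have a4 := mul_le_mul_of_nonneg_left d4 t0.le
    have a5 := mul_le_mul_of_nonneg_left a1 L0
    have a6 := mul_le_mul_of_nonneg_left a2 L0
    rw [mul_div_assoc, mul_div_assoc]
    linarith

end Pool.Agent.MP_c853c5_nt.Z
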