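import Pool.Agent.MP_c853c5_nt.Z.YDefs

/-!
From the dyadic zero density bound to the bound with multiplicity.
-/

set_option autoImplicit false

open Finset

namespace Pool.Agent.MP_c853c5_nt.Z

open Pool.Agent.MP_2a1f0e_nt

lemma log_YZd {δ : ℝ} (hδ : 0 < δ) :
    ∃ D : ℝ, 0 ≤ D ∧ ∀ T : ℝ, 1 ≤ T → Real.log (T + 5) ≤ D * T ^ δ := by
  refine ⟨6 ^ δ / δ, by positivity, fun T hT => ?_⟩
  have h1 := Real.log_le_rpow_div (x := T + 5) (by linarith) hδ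
  have h2 : (T + 5) ^ δ ≤ (6 * T) ^ δ := Real.rpow_le_rpow (by linarith) (by linarith) hδ.le
  rw [Real.mul_rpow (by norm_num) (by linarith)] at h2
  calc _ ≤ _ := h1
    _ ≤ 6 ^ δ * T ^ δ / δ := div_le_div_of_nonneg_right h2 hδ.le
    _ = _ := by ring

lemma fib_YZd {C T : ℝ} (hC : 1 ≤ C)
    (hc : ∀ (j : ℤ) (Z : Finset ℂ), (∀ ρ ∈ Z, 1 / 2 ≤ ρ.re ∧ ⌊ρ.im⌋ = j) →
      ∑ ρ ∈ Z, ord ρ ≤ C * Real.log (|(j : ℝ)| + 4))
    (hT : 1 ≤ T) (Z : Finset ℂ) (t : Finset ℤ)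
    (hZ : ∀ ρ ∈ Z, 1 / 2 ≤ ρ.re ∧ |ρ.im| ≤ T ∧ ⌊ρ.im⌋ ∈ t) :
    ∑ ρ ∈ Z, ord ρ ≤ t.card * (C * Real.log (T + 5)) := by
  classical
  have hL : 0 ≤ C * Real.log (T + 5) := mul_nonneg (by linarith) (Real.log_nonneg (by linarith))
  rw [← sum_fiberwise_of_maps_to (g := fun ρ : ℂ => ⌊ρ.im⌋) (t := t) fun ρ hρ => (hZ ρ hρ).2.2]
  refine (sum_le_card_nsmul _ _ (C * Real.log (T + 5)) fun j _ => ?_).trans (by rw [nsmul_eq_mul])
  rcases (Z.filter fun ρ : ℂ => ⌊ρ.im⌋ = j).eq_empty_or_nonempty with he | ⟨ρ, hρ⟩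
  · rw [he, sum_empty]
    exact hL
  refine (hc j _ fun z hz => ⟨(hZ z (mem_filter.1 hz).1).1, (mem_filter.1 hz).2⟩).trans ?_
  obtain ⟨a, b⟩ := mem_filter.1 hρ
  obtain ⟨c, d⟩ := abs_le.1 (hZ ρ a).2.1
  have i1 := Int.floor_le ρ.im
  have i2 := Int.lt_floor_add_one ρ.im
  rw [b] at i1 i2
  have i3 : |(j : ℝ)| ≤ T + 1 := abs_le.2 ⟨by linarith, by linarith⟩
  exact mul_le_mul_of_nonneg_left (Real.log_le_log (by positivity) (by linarith)) (by linarith)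

lemma floor_YZd (x : ℝ) : ⌊x⌋ ∈ ({⌊|x|⌋, -⌊|x|⌋, -⌊|x|⌋ - 1} : Finset ℤ) := by
  simp only [mem_insert, mem_singleton]
  rcases le_total 0 x with h | h
  · left
    rw [abs_of_nonneg h]
  · rw [abs_of_nonpos h]
    have i1 := Int.floor_le x
    have i2 := Int.lt_floor_add_one x
    have i3 := Int.floor_le (-x)
    have i4 := Int.lt_floor_add_one (-x)
    have j1 : ⌊x⌋ ≤ -⌊-x⌋ := by
      have : (⌊x⌋ : ℝ) ≤ -(⌊-x⌋ : ℝ) := by linarith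
      exact_mod_cast this
    have j2 : -⌊-x⌋ - 1 < ⌊x⌋ + 1 := by
      have : -(⌊-x⌋ : ℝ) - 1 < (⌊x⌋ : ℝ) + 1 := by linarith
      exact_mod_cast this
    omega

lemma sum_YZd {C T : ℝ} (hC : 1 ≤ C)
    (hc : ∀ (j : ℤ) (Z : Finset ℂ), (∀ ρ ∈ Z, 1 / 2 ≤ ρ.re ∧ ⌊ρ.im⌋ = j) →
      ∑ ρ ∈ Z, ord ρ ≤ C * Real.log (|(j : ℝ)| + 4))
    (hT : 1 ≤ T) (Z : Finset ℂ) (hZ : ∀ ρ ∈ Z, 1 / 2 ≤ ρ.re ∧ |ρ.im| ≤ T) :
    ∑ ρ ∈ Z, ord ρ ≤
      ((Z.image fun ρ : ℂ => ⌊|ρ.im|⌋).card : ℝ) * (3 * (C * Real.log (T + 5))) := by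
  classical
  have hL : 0 ≤ C * Real.log (T + 5) := mul_nonneg (by linarith) (Real.log_nonneg (by linarith))
  refine (fib_YZd hC hc hT Z ((Z.image fun ρ : ℂ => ⌊|ρ.im|⌋).biUnion
    fun m => ({m, -m, -m - 1} : Finset ℤ)) fun ρ hρ => ⟨(hZ ρ hρ).1, (hZ ρ hρ).2,
      mem_biUnion.2 ⟨_, mem_image_of_mem _ hρ, floor_YZd _⟩⟩).trans ?_
  rw [← mul_assoc _ (3 : ℝ)]
  refine mul_le_mul_of_nonneg_right ?_ hL
  have := card_biUnion_le_card_mul (Z.image fun ρ : ℂ => ⌊|ρ.im|⌋)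
    (fun m => ({m, -m, -m - 1} : Finset ℤ)) 3 fun m _ => card_le_three
  exact_mod_cast this

lemma card_YZd {σ K e T : ℝ} {T₁ : ℕ} (h1 : 1 ≤ T₁) (hK : 0 ≤ K) (he : 0 ≤ e) (hT : 1 ≤ T)
    (hd : ∀ U : ℕ, T₁ ≤ U → ∀ (S : Finset ℤ) (ρ : ℤ → ℂ), S ⊆ Icc (U : ℤ) (2 * U) →
      DH.Box σ S ρ → (∀ m ∈ S, riemannZeta (ρ m) = 0) → (S.card : ℝ) ≤ K * (U : ℝ) ^ e)
    (S : Finset ℤ) (r : ℤ → ℂ) (hS : ∀ m ∈ S, 0 ≤ m ∧ (m : ℝ) ≤ T) (hb : DH.Box σ S r)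
    (hz : ∀ m ∈ S, riemannZeta (r m) = 0) :
    (S.card : ℝ) ≤ T₁ + ((Nat.log 2 ⌊T⌋₊ : ℝ) + 1) * (K * T ^ e) := by
  classical
  have hB : 0 ≤ K * T ^ e := mul_nonneg hK (Real.rpow_nonneg (by linarith) _)
  rw [← card_filter_add_card_filter_not (s := S) (fun m : ℤ => m < (T₁ : ℤ)), Nat.cast_add]
  refine add_le_add ?_ ?_
  · have : (S.filter fun m : ℤ => m < (T₁ : ℤ)).card ≤ (Ico (0 : ℤ) T₁).card :=
      card_le_card fun m hm => mem_Ico.2 ⟨(hS m (mem_filter.1 hm).1).1, (mem_filter.1 hm).2⟩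
    rw [Int.card_Ico] at this
    simp only [sub_zero, Int.toNat_natCast] at this
    exact_mod_cast this
  · set Sh := S.filter (fun m : ℤ => ¬ m < (T₁ : ℤ)) with hSh
    have hm : ∀ m ∈ Sh, T₁ ≤ m.toNat ∧ m.toNat ≤ ⌊T⌋₊ ∧ (m.toNat : ℤ) = m := by
      intro m hm
      obtain ⟨a, b⟩ := mem_filter.1 hm
      obtain ⟨c, d⟩ := hS m a
      have e1 : (m.toNat : ℤ) = m := Int.toNat_of_nonneg c
      refine ⟨by omega, Nat.le_floor ?_, e1⟩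
      have : ((m.toNat : ℤ) : ℝ) = m := by rw [e1]
      rw [Int.cast_natCast] at this
      rw [this]
      exact d
    rw [card_eq_sum_card_fiberwise (f := fun m : ℤ => Nat.log 2 (m.toNat / T₁))
      (t := range (Nat.log 2 ⌊T⌋₊ + 1)) (fun m hm' => mem_coe.2 (mem_range.2 (Nat.lt_succ_of_le
        (Nat.log_mono_right ((Nat.div_le_self _ _).trans (hm m (mem_coe.1 hm')).2.1))))),
      Nat.cast_sum]
    refine (sum_le_card_nsmul _ _ (K * T ^ e) fun k _ => ?_).trans ?_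
    · rcases (Sh.filter fun m => Nat.log 2 (m.toNat / T₁) = k).eq_empty_or_nonempty with h0 | hne
      · rw [h0, card_empty, Nat.cast_zero]
        exact hB
      have hk : ∀ m ∈ Sh.filter fun m => Nat.log 2 (m.toNat / T₁) = k,
          2 ^ k * T₁ ≤ m.toNat ∧ m.toNat ≤ 2 * (2 ^ k * T₁) := by
        intro m hm'
        obtain ⟨a, b⟩ := mem_filter.1 hm'
        have q0 : m.toNat / T₁ ≠ 0 := (Nat.div_pos (hm m a).1 h1).ne'
        have q1 := Nat.pow_log_le_self 2 q0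
        have q2 := Nat.lt_pow_succ_log_self (b := 2) (by norm_num) (m.toNat / T₁)
        rw [b] at q1 q2
        refine ⟨(Nat.le_div_iff_mul_le h1).1 q1, ?_⟩
        have q3 := ((Nat.div_lt_iff_lt_mul h1).1 q2).le
        rw [pow_succ] at q3
        linarith
      have hkT : ((2 ^ k * T₁ : ℕ) : ℝ) ≤ T := by
        obtain ⟨m, hm'⟩ := hne
        have := (hk m hm').1.trans (hm m (mem_filter.1 hm').1).2.1
        exact le_trans (by exact_mod_cast this) (Nat.floor_le (by linarith))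
      have hle : T₁ ≤ 2 ^ k * T₁ := Nat.le_mul_of_pos_left _ (by positivity)
      have hsub : ∀ m ∈ Sh.filter fun m => Nat.log 2 (m.toNat / T₁) = k, m ∈ S :=
        fun m hm' => (mem_filter.1 (mem_filter.1 hm').1).1
      refine (hd _ hle _ r (fun m hm' => ?_) (fun m hm' => hb m (hsub m hm'))
        fun m hm' => hz m (hsub m hm')).trans ?_
      · obtain ⟨d1, d2⟩ := hk m hm'
        rw [← (hm m (mem_filter.1 hm').1).2.2]
        exact mem_Icc.2 ⟨by exact_mod_cast d1, by exact_mod_cast d2⟩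
      · exact mul_le_mul_of_nonneg_left (Real.rpow_le_rpow (Nat.cast_nonneg _) hkT he) hK
    · rw [card_range, nsmul_eq_mul]
      push_cast
      exact le_rfl

/-- representatives in the upper half plane -/
lemma rep_YZd (σ : ℝ) (Z : Finset ℂ) (hZ : ∀ ρ ∈ Z, riemannZeta₁ ρ = 0 ∧ σ ≤ ρ.re) :
    ∃ r : ℤ → ℂ, DH.Box σ (Z.image fun ρ : ℂ => ⌊|ρ.im|⌋) r ∧
      ∀ m ∈ Z.image fun ρ : ℂ => ⌊|ρ.im|⌋, riemannZeta (r m) = 0 := by
  classical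
  have hex : ∀ m : ℤ, ∃ z : ℂ, m ∈ (Z.image fun ρ : ℂ => ⌊|ρ.im|⌋) →
      (σ ≤ z.re ∧ z.re ≤ 1 ∧ (m : ℝ) ≤ z.im ∧ z.im ≤ (m : ℝ) + 1) ∧ riemannZeta z = 0 := by
    intro m
    by_cases hm : m ∈ Z.image fun ρ : ℂ => ⌊|ρ.im|⌋
    · obtain ⟨ρ, h, h'⟩ := mem_image.1 hm
      obtain ⟨a, b⟩ := hZ ρ h
      have i1 := Int.floor_le |ρ.im|
      have i2 := (Int.lt_floor_add_one |ρ.im|).le
      rw [h'] at i1 i2
      rcases le_total 0 ρ.im with c | c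
      · rw [abs_of_nonneg c] at i1 i2
        exact ⟨ρ, fun _ => ⟨⟨b, (re_lt_one a).le, i1, i2⟩, zeta_of_zeta1 a⟩⟩
      · rw [abs_of_nonpos c] at i1 i2
        refine ⟨(starRingEnd ℂ) ρ, fun _ => ⟨?_, ?_⟩⟩
        · rw [Complex.conj_re, Complex.conj_im]
          exact ⟨b, (re_lt_one a).le, i1, i2⟩
        · rw [riemannZeta_conj, zeta_of_zeta1 a, map_zero]
    · exact ⟨0, fun h => absurd h hm⟩
  choose r hr using hex
  exact ⟨r, fun m hm => (hr m hm).1, fun m hm => (hr m hm).2⟩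

lemma rng_YZd {T : ℝ} (Z : Finset ℂ) (hZ : ∀ ρ ∈ Z, |ρ.im| ≤ T) :
    ∀ m ∈ Z.image fun ρ : ℂ => ⌊|ρ.im|⌋, 0 ≤ m ∧ (m : ℝ) ≤ T := by
  intro m hm
  obtain ⟨ρ, h, rfl⟩ := mem_image.1 hm
  exact ⟨Int.floor_nonneg.2 (abs_nonneg _), (Int.floor_le _).trans (hZ ρ h)⟩

lemma triv_YZd {T : ℝ} (hT : 1 ≤ T) (S : Finset ℤ) (hS : ∀ m ∈ S, 0 ≤ m ∧ (m : ℝ) ≤ T) :
    (S.card : ℝ) ≤ 2 * T := by
  have h1 : S.card ≤ (Icc (0 : ℤ) (⌊T⌋₊ : ℤ)).card := by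
    refine card_le_card fun m hm => mem_Icc.2 ⟨(hS m hm).1, ?_⟩
    rw [Int.natCast_floor_eq_floor (by linarith)]
    exact Int.le_floor.2 (hS m hm).2
  rw [Int.card_Icc] at h1
  have h2 : ((⌊T⌋₊ : ℤ) + 1 - 0).toNat = ⌊T⌋₊ + 1 := by omega
  rw [h2] at h1
  have h3 : (S.card : ℝ) ≤ (⌊T⌋₊ : ℝ) + 1 := by exact_mod_cast h1
  have h4 : (⌊T⌋₊ : ℝ) ≤ T := Nat.floor_le (by linarith)
  linarith

theorem yZd (hC : CntStmt) : ZdStmt := by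
  classical
  intro A hA hD σ ε h0 h1 hε
  obtain ⟨C, hC1, hc⟩ := hC
  obtain ⟨D, hD0, hlog⟩ := log_YZd (δ := ε / 3) (by positivity)
  have hAσ : 0 ≤ A * (1 - σ) := mul_nonneg (by linarith) (by linarith)
  have key : ∃ K : ℝ, 0 ≤ K ∧ ∀ (T : ℝ) (Z : Finset ℂ), 1 ≤ T →
      (∀ ρ ∈ Z, riemannZeta₁ ρ = 0 ∧ σ ≤ ρ.re ∧ |ρ.im| ≤ T) →
      ((Z.image fun ρ : ℂ => ⌊|ρ.im|⌋).card : ℝ) ≤ K * T ^ (A * (1 - σ) + 2 * ε / 3) := by
    rcases le_total σ (11 / 20) with hσ | hσ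
    · refine ⟨2, by norm_num, fun T Z hT hZ => ?_⟩
      refine (triv_YZd hT _ (rng_YZd Z fun ρ hρ => (hZ ρ hρ).2.2)).trans ?_
      have e1 : 1 ≤ A * (1 - σ) + 2 * ε / 3 := by nlinarith
      have e2 := Real.rpow_le_rpow_of_exponent_le hT e1
      rw [Real.rpow_one] at e2
      linarith
    · obtain ⟨K, hK, T₀, hd⟩ := hD (ε / 3) (by positivity)
      obtain ⟨C₁, hC₁, hl⟩ := DH.exists_log_le (ε := ε / 3) (by positivity)
      refine ⟨(T₀ + 1 : ℕ) + C₁ * K, by positivity, fun T Z hT hZ => ?_⟩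
      have hT' : 0 < T := by linarith
      obtain ⟨r, hb, hz⟩ := rep_YZd σ Z fun ρ hρ => ⟨(hZ ρ hρ).1, (hZ ρ hρ).2.1⟩
      refine (card_YZd (T₁ := T₀ + 1) (e := A * (1 - σ) + ε / 3) (by omega) hK.le (by positivity)
        hT (fun U hU S ρ a b c => hd U (by omega) σ hσ h1.le S ρ a b c) _ r
        (rng_YZd Z fun ρ hρ => (hZ ρ hρ).2.2) hb hz).trans ?_
      rw [add_mul _ (C₁ * K)]
      have e0 : 0 ≤ A * (1 - σ) + 2 * ε / 3 := by positivity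
      refine add_le_add (le_mul_of_one_le_right (Nat.cast_nonneg _) (Real.one_le_rpow hT e0)) ?_
      have hX1 : 1 ≤ ⌊T⌋₊ := Nat.le_floor (by exact_mod_cast hT)
      have e1 : (Nat.log 2 ⌊T⌋₊ : ℝ) + 1 ≤ C₁ * T ^ (ε / 3) :=
        (hl _ hX1).trans (mul_le_mul_of_nonneg_left
          (Real.rpow_le_rpow (Nat.cast_nonneg _) (Nat.floor_le hT'.le) (by positivity))
          (by linarith))
      have e3 : T ^ (A * (1 - σ) + 2 * ε / 3) = T ^ (ε / 3) * T ^ (A * (1 - σ) + ε / 3) := by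
        rw [← Real.rpow_add hT']
        congr 1
        ring
      calc _ ≤ C₁ * T ^ (ε / 3) * (K * T ^ (A * (1 - σ) + ε / 3)) :=
            mul_le_mul_of_nonneg_right e1 (by positivity)
        _ = _ := by rw [e3]; ring
  obtain ⟨K, hK, hk⟩ := key
  refine ⟨K * (3 * (C * D)), fun T Z hT hZ => ?_⟩
  have hT' : 0 < T := by linarith
  refine (sum_YZd hC1 hc hT Z fun ρ hρ => ⟨h0.trans (hZ ρ hρ).2.1, (hZ ρ hρ).2.2⟩).trans ?_
  have hL : 0 ≤ C * Real.log (T + 5) := mul_nonneg (by linarith) (Real.log_nonneg (by linarith))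
  have e1 : C * Real.log (T + 5) ≤ C * (D * T ^ (ε / 3)) :=
    mul_le_mul_of_nonneg_left (hlog T hT) (by linarith)
  have e3 : T ^ (A * (1 - σ) + ε) = T ^ (A * (1 - σ) + 2 * ε / 3) * T ^ (ε / 3) := by
    rw [← Real.rpow_add hT']
    congr 1
    ring
  calc _ ≤ K * T ^ (A * (1 - σ) + 2 * ε / 3) * (3 * (C * (D * T ^ (ε / 3)))) :=
        mul_le_mul (hk T Z hT hZ) (by linarith) (by linarith) (by positivity)
    _ = _ := by rw [e3]; ring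

end Pool.Agent.MP_c853c5_nt.Z
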