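import Pool.Agent.MP_c853c5_nt.Z.Main
import Pool.Agent.MP_c853c5_nt.Z.YMv
import Pool.Agent.MP_c853c5_nt.Z.YRng
import Pool.Agent.MP_c853c5_nt.Z.YSpl
import Pool.Agent.MP_c853c5_nt.Z.YLv
import Pool.Agent.MP_c853c5_nt.Z.YDy
import Pool.Agent.MP_c853c5_nt.Z.YZd
import Pool.Agent.MP_2a1f0e_nt.GM.Main
import Pool.Agent.MP_2a1f0e_nt.DH.Det
import Pool.Agent.MP_2a1f0e_nt.DH.Core
import Pool.Agent.MP_2a1f0e_nt.DH.Za
import Pool.Agent.MP_2a1f0e_nt.DH.Zb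
import Pool.Agent.MP_2a1f0e_nt.DH.Mol
import Pool.Agent.MP_2a1f0e_nt.DH.Ca
import Pool.Agent.MP_2a1f0e_nt.DH.Cb
import Pool.Agent.MP_2a1f0e_nt.DH.Ty
import Pool.Agent.MP_2a1f0e_nt.DH.Sm
import Pool.Agent.MP_2a1f0e_nt.DH.Ks
import Pool.Agent.MP_2a1f0e_nt.DH.Mel
import Pool.Agent.MP_2a1f0e_nt.DH.Pk
import Pool.Agent.MP_2a1f0e_nt.DH.Refl
import Pool.Agent.MP_2a1f0e_nt.DH.Fub
import Pool.Agent.MP_2a1f0e_nt.DH.Gam
import Pool.Agent.MP_2a1f0e_nt.DH.Mom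
import Pool.Agent.MP_2a1f0e_nt.DH.Jut
import Pool.Agent.MP_2a1f0e_nt.DH.PowZ
import Pool.Agent.MP_2a1f0e_nt.DH.Pos
import Pool.Agent.MP_2a1f0e_nt.DH.Len
import Pool.Agent.MP_2a1f0e_nt.DH.Sq
import Pool.Agent.MP_2a1f0e_nt.DH.KbJ

/-!
From the large values estimate to the prime number theorem in short intervals.
-/

set_option autoImplicit false

namespace Pool.Agent.MP_c853c5_nt.Z

open Pool.Agent.MP_2a1f0e_nt

theorem avg_allY : DH.AvgStmt := DH.avg_stmt (DH.refl_stmt (DH.fub_stmt DH.mel_stmt) DH.gam_stmt)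

theorem jut_allY : DH.JutStmt :=
  DH.jut_stmt GM.k1_all (DH.len_stmt DH.id_stmt DH.pos_stmt) DH.sq_stmt
    (DH.kbJ_stmt avg_allY DH.powZ_stmt DH.pos_stmt) DH.pos_stmt

theorem det_allY : DH.DetStmt :=
  DH.det_stmt (DH.core_stmt (DH.zb_stmt DH.za_stmt) DH.tel_stmt DH.mol_stmt
    (DH.ca_stmt (DH.sm_stmt DH.mel_stmt)
      (DH.ks_stmt (DH.pk_stmt GM.decay_stmt GM.zero_stmt (GM.pois_stmt GM.decay_stmt)) avg_allY
        (DH.mom_stmt jut_allY DH.powZ_stmt DH.pos_stmt)))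
    (DH.cb_stmt DH.ty_stmt))

/-- zero density from large values -/
theorem zd_of_lv {e A : ℝ} (h : A * (5 - e) = 6) (hA : 9 / 4 ≤ A) (hL : LVe e) : ZD A :=
  yZd cnt_all A hA (yDy det_allY A hA (yLv ySpl A hA (yRng yMv e A h hA hL)))

/-- primes in short intervals from large values -/
theorem pi_of_lv {e A θ : ℝ} (h : A * (5 - e) = 6) (hA : 9 / 4 ≤ A) (hL : LVe e)
    (hθ : 1 - 1 / A < θ) : PiShort θ :=
  pi_of_zd hA (zd_of_lv h hA hL) hθ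

end Pool.Agent.MP_c853c5_nt.Z
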